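import Pool.Agent.Lib.MP_775e5c_al.Trig

/-!
An area inequality for trigonometric polynomial maps.
-/

namespace Pool.Agent.Lib.MP_775e5c_al

open MeasureTheory Filter Measure Matrix
open scoped ENNReal NNReal

noncomputable section

theorem area_le {d : ℕ} (Φ : (Fin d → ℝ) → (Fin d → ℝ))
    (Φ' : (Fin d → ℝ) → (Fin d → ℝ) →L[ℝ] (Fin d → ℝ)) {S T : Set (Fin d → ℝ)}
    (hS : MeasurableSet S) (hT : MeasurableSet T) (hΦ : ∀ u ∈ S, HasFDerivAt Φ (Φ' u) u)
    {l : ℝ≥0∞} (hlt : l ≠ ⊤) (hl : ∀ u ∈ S, 1 ≤ l * ENNReal.ofReal |(Φ' u).det|) (hST : Set.MapsTo Φ S T)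
    {B : ℕ} (hB : ∀ᵐ y : Fin d → ℝ, {u | u ∈ S ∧ Φ u = y}.encard ≤ B) :
    volume S ≤ l * (B * volume T) := by
  classical
  rcases S.eq_empty_or_nonempty with rfl | hne
  · simp
  have hΦ' : ∀ u ∈ S, HasFDerivWithinAt Φ (Φ' u) S u := fun u hu => (hΦ u hu).hasFDerivWithinAt
  let r : ((Fin d → ℝ) →L[ℝ] (Fin d → ℝ)) → ℝ≥0 := fun A =>
    if h : A.det ≠ 0 then
      (‖((A.toContinuousLinearEquivOfDetNeZero h).symm : (Fin d → ℝ) →L[ℝ] (Fin d → ℝ))‖₊ + 1)⁻¹
    else 1
  have hr : ∀ A, r A ≠ 0 := by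
    intro A
    simp only [r]
    split_ifs
    · positivity
    · exact one_ne_zero
  obtain ⟨t, A, hdisj, htm, hcov, happ, hA⟩ :=
    exists_partition_approximatesLinearOn_of_hasFDerivWithinAt Φ S Φ' hΦ' r hr
  have hinj : ∀ n, Set.InjOn Φ (S ∩ t n) := by
    intro n
    obtain ⟨y, hy, hAy⟩ := hA hne n
    have hdet : (A n).det ≠ 0 := by
      intro h
      have := hl y hy
      rw [← hAy, h] at this
      simp at this
    have h1 := happ n
    have h2 : r (A n) = (‖(((A n).toContinuousLinearEquivOfDetNeZero hdet).symm :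
        (Fin d → ℝ) →L[ℝ] (Fin d → ℝ))‖₊ + 1)⁻¹ := dif_pos hdet
    rw [← ContinuousLinearMap.coe_toContinuousLinearEquivOfDetNeZero (A n) hdet] at h1
    refine h1.injOn ?_
    rcases subsingleton_or_nontrivial (Fin d → ℝ) with h | h
    · exact Or.inl h
    · right
      rw [ContinuousLinearMap.coe_toContinuousLinearEquivOfDetNeZero, h2]
      exact inv_strictAnti₀ (ContinuousLinearEquiv.nnnorm_symm_pos _) (lt_add_one _)
  have hder : ∀ n, ∀ u ∈ S ∩ t n, HasFDerivWithinAt Φ (Φ' u) (S ∩ t n) u :=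
    fun n u hu => (hΦ u hu.1).hasFDerivWithinAt
  have hm : ∀ n, MeasurableSet (Φ '' (S ∩ t n)) :=
    fun n => measurable_image_of_fderivWithin (hS.inter (htm n)) (hder n) (hinj n)
  have h1 : ∀ n, volume (S ∩ t n) ≤ l * volume (Φ '' (S ∩ t n)) := by
    intro n
    rw [← lintegral_abs_det_fderiv_eq_addHaar_image volume (hS.inter (htm n)) (hder n) (hinj n),
      ← setLIntegral_one, ← lintegral_const_mul' _ _ hlt]
    exact setLIntegral_mono' (hS.inter (htm n)) fun u hu => hl u hu.1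
  have h2 : ∑' n, volume (Φ '' (S ∩ t n)) ≤ B * volume T := by
    simp_rw [← lintegral_indicator_one (hm _)]
    rw [← lintegral_tsum fun n => (measurable_one.indicator (hm n)).aemeasurable,
      ← setLIntegral_const, ← lintegral_indicator hT]
    refine lintegral_mono_ae ?_
    filter_upwards [hB] with y hy
    by_cases hyT : y ∈ T
    · rw [Set.indicator_of_mem hyT]
      have h3 : ∑' n, (Φ '' (S ∩ t n)).indicator (1 : (Fin d → ℝ) → ℝ≥0∞) y =
          ∑' _ : {n | y ∈ Φ '' (S ∩ t n)}, 1 := by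
        rw [tsum_subtype {n | y ∈ Φ '' (S ∩ t n)} fun _ => (1 : ℝ≥0∞)]
        rfl
      rw [h3, ENNReal.tsum_set_one]
      have h4 : {n | y ∈ Φ '' (S ∩ t n)}.encard ≤ {u | u ∈ S ∧ Φ u = y}.encard := by
        have hch : ∀ n, ∃ u, y ∈ Φ '' (S ∩ t n) → u ∈ S ∩ t n ∧ Φ u = y := by
          intro n
          by_cases h : y ∈ Φ '' (S ∩ t n)
          · obtain ⟨u, hu⟩ := h; exact ⟨u, fun _ => hu⟩
          · exact ⟨0, fun h' => absurd h' h⟩
        choose f hf using hch
        refine Set.encard_le_encard_of_injOn (f := f) (fun n hn => ⟨(hf n hn).1.1, (hf n hn).2⟩)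
          fun m hm n hn hmn => ?_
        by_contra hne
        exact Set.disjoint_left.1 (hdisj hne) (hf m hm).1.2 (hmn ▸ (hf n hn).1.2)
      exact_mod_cast h4.trans hy
    · have : ∀ n, (Φ '' (S ∩ t n)).indicator (1 : (Fin d → ℝ) → ℝ≥0∞) y = 0 := by
        intro n
        refine Set.indicator_of_notMem ?_ _
        rintro ⟨u, hu, rfl⟩
        exact hyT (hST hu.1)
      simp [this]
  calc volume S ≤ volume (⋃ n, S ∩ t n) := by
        refine measure_mono ?_
        rw [← Set.inter_iUnion]; exact Set.subset_inter le_rfl hcov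
    _ ≤ ∑' n, volume (S ∩ t n) := measure_iUnion_le _
    _ ≤ ∑' n, l * volume (Φ '' (S ∩ t n)) := ENNReal.tsum_le_tsum h1
    _ ≤ l * (B * volume T) := by rw [ENNReal.tsum_mul_left]; gcongr

variable {σ : Type*} [Fintype σ]

/-- Volume of the polar body of a family of vectors. -/
def polarVol {d : ℕ} (A : σ → Fin d → ℝ) : ℝ≥0∞ := volume {ξ : Fin d → ℝ | ∀ s, |A s ⬝ᵥ ξ| ≤ 1}

theorem polarVol_eq_top {d : ℕ} (A : σ → Fin d → ℝ) {ξ₀ : Fin d → ℝ} (h0 : ξ₀ ≠ 0)
    (h : ∀ s, A s ⬝ᵥ ξ₀ = 0) : polarVol A = ⊤ := by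
  have hnh : {ξ : Fin d → ℝ | ∀ s, |A s ⬝ᵥ ξ| ≤ 1} ∈ nhds (0 : Fin d → ℝ) := by
    refine eventually_all.2 fun s => ?_
    have : ContinuousAt (fun ξ : Fin d → ℝ => |A s ⬝ᵥ ξ|) 0 := by fun_prop
    exact (this.eventually (gt_mem_nhds (by simp : |A s ⬝ᵥ (0 : Fin d → ℝ)| < 1))).mono
      fun _ h => h.le
  obtain ⟨r, hr, hball⟩ := Metric.mem_nhds_iff.1 hnh
  have hn : 0 < ‖ξ₀‖ := norm_pos_iff.2 h0
  set c : ℕ → Fin d → ℝ := fun n => (n * (2 * r / ‖ξ₀‖)) • ξ₀ with hc
  have hsub : ⋃ n, Metric.ball (c n) r ⊆ {ξ : Fin d → ℝ | ∀ s, |A s ⬝ᵥ ξ| ≤ 1} := by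
    refine Set.iUnion_subset fun n ξ hξ s => ?_
    have h1 := hball (show ξ - c n ∈ Metric.ball 0 r by simpa [dist_eq_norm] using hξ) s
    simpa [hc, dotProduct_sub, h s] using h1
  refine top_le_iff.1 (le_trans (le_of_eq ?_) (measure_mono hsub))
  rw [measure_iUnion _ fun _ => measurableSet_ball]
  · simp_rw [addHaar_ball_center]
    exact (ENNReal.tsum_const_eq_top_of_ne_zero (Metric.measure_ball_pos volume _ hr).ne').symm
  · intro m n hmn
    refine Metric.ball_disjoint_ball ?_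
    rw [dist_eq_norm, hc]
    simp only [← sub_smul, ← sub_mul, norm_smul, Real.norm_eq_abs, abs_mul]
    rw [abs_of_pos (by positivity : 0 < 2 * r / ‖ξ₀‖), mul_assoc, div_mul_cancel₀ _ hn.ne']
    have : (1 : ℝ) ≤ |(m : ℝ) - n| := by
      have h2 : (1 : ℤ) ≤ |(m : ℤ) - n| := Int.one_le_abs (by omega)
      exact_mod_cast h2
    nlinarith

theorem exists_det_of_polarVol {d : ℕ} (A : σ → Fin d → ℝ) (hA : polarVol A ≠ ⊤) :
    ∃ J : Fin d → σ, volume (Metric.closedBall (0 : Fin d → ℝ) (1 / (d + 1))) ≤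
      polarVol A * ENNReal.ofReal |(Matrix.of (A ∘ J)).det| := by
  classical
  have hspan : Submodule.span ℝ (Set.range A) = ⊤ := by
    by_contra hne
    obtain ⟨f, hf0, hf⟩ := Submodule.exists_le_ker_of_lt_top _ (lt_top_iff_ne_top.2 hne)
    have hfe : ∀ v : Fin d → ℝ, f v = v ⬝ᵥ fun k => f (Pi.single k 1) := by
      intro v
      rw [LinearMap.pi_apply_eq_sum_univ f v, dotProduct]
      refine Finset.sum_congr rfl fun k _ => ?_
      rw [smul_eq_mul]
      congr 2
      funext j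
      simp [Pi.single_apply, eq_comm]
    refine hA (polarVol_eq_top A (ξ₀ := fun k => f (Pi.single k 1)) ?_ fun s => ?_)
    · intro h
      apply hf0
      refine LinearMap.ext fun v => ?_
      rw [hfe, h]; simp
    · rw [← hfe]; exact hf (Submodule.subset_span ⟨s, rfl⟩)
  obtain ⟨J₀, hJ₀⟩ : ∃ J : Fin d → σ, (Matrix.of (A ∘ J)).det ≠ 0 := by
    obtain ⟨κ, a, ha, hsp, hli⟩ := exists_linearIndependent' ℝ A
    have : Finite κ := Finite.of_injective a ha
    have := Fintype.ofFinite κ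
    have hcard : Fintype.card κ = d := by
      have := finrank_span_eq_card hli
      rw [hsp, hspan] at this
      simpa using this.symm
    let e : Fin d ≃ κ := (Fintype.equivFinOfCardEq hcard).symm
    refine ⟨a ∘ e, ?_⟩
    have h2 : LinearIndependent ℝ (Matrix.of (A ∘ a ∘ e)).row := hli.comp e e.injective
    exact ((Matrix.isUnit_iff_isUnit_det _).1
      (Matrix.linearIndependent_rows_iff_isUnit.1 h2)).ne_zero
  have : Nonempty (Fin d → σ) := ⟨J₀⟩
  obtain ⟨J, hJ⟩ := Finite.exists_max fun J : Fin d → σ => |(Matrix.of (A ∘ J)).det|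
  refine ⟨J, ?_⟩
  set M := Matrix.of (A ∘ J) with hM
  have hdet : 0 < |M.det| := (abs_pos.2 hJ₀).trans_le (hJ J₀)
  have hdet' : LinearMap.det (Matrix.toLin' M) ≠ 0 := by
    rw [LinearMap.det_toLin']; exact abs_pos.1 hdet
  have hsub : Matrix.toLin' M ⁻¹' Metric.closedBall (0 : Fin d → ℝ) (1 / (d + 1)) ⊆
      {ξ : Fin d → ℝ | ∀ s, |A s ⬝ᵥ ξ| ≤ 1} := by
    intro ξ hξ s
    have h1 : ∀ k, |(M *ᵥ ξ) k| ≤ 1 / (d + 1) := fun k =>
      (norm_le_pi_norm (M *ᵥ ξ) k).trans (mem_closedBall_zero_iff.1 hξ)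
    have h2 : ∀ k, |cramer Mᵀ (A s) k| ≤ |M.det| := by
      intro k
      rw [cramer_transpose_apply]
      have : M.updateRow k (A s) = Matrix.of (A ∘ Function.update J k s) := by
        ext i j
        by_cases h : i = k
        · subst h; simp
        · simp [h, hM]
      rw [this]
      exact hJ _
    have h3 : M.det * (A s ⬝ᵥ ξ) = cramer Mᵀ (A s) ⬝ᵥ (M *ᵥ ξ) := by
      rw [dotProduct_mulVec, ← mulVec_transpose, mulVec_cramer, det_transpose, smul_dotProduct,
        smul_eq_mul]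
    have h4 : |M.det| * |A s ⬝ᵥ ξ| ≤ |M.det| * 1 := by
      rw [← abs_mul, h3, dotProduct]
      refine (Finset.abs_sum_le_sum_abs _ _).trans ?_
      calc ∑ k, |cramer Mᵀ (A s) k * (M *ᵥ ξ) k| ≤ ∑ _k : Fin d, |M.det| * (1 / (d + 1)) := by
            refine Finset.sum_le_sum fun k _ => ?_
            rw [abs_mul]
            exact mul_le_mul (h2 k) (h1 k) (abs_nonneg _) (abs_nonneg _)
        _ = |M.det| * (d / (d + 1)) := by simp; ring
        _ ≤ _ := by gcongr; exact div_le_one_of_le₀ (by linarith) (by positivity)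
    exact le_of_mul_le_mul_left h4 hdet
  have h5 := measure_mono (μ := volume) hsub
  rw [addHaar_preimage_linearMap volume hdet', LinearMap.det_toLin'] at h5
  refine le_trans (le_of_eq ?_) (mul_le_mul_left h5 _)
  rw [mul_right_comm, ← ENNReal.ofReal_mul (abs_nonneg _), abs_inv, inv_mul_cancel₀ hdet.ne']
  simp

theorem differentiable_of_mem_Trig {D : ℕ} {f : (σ → ℝ) → ℂ} (hf : f ∈ Trig σ D) :
    Differentiable ℝ f := by
  induction hf using Submodule.span_induction with
  | mem x hx =>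
    obtain ⟨k, hk, rfl⟩ := hx
    unfold chr
    refine Differentiable.cexp (Differentiable.mul_const ?_ _)
    have : Differentiable ℝ fun θ : σ → ℝ => ∑ s, (k s : ℝ) * θ s := by fun_prop
    exact Complex.ofRealCLM.differentiable.comp this
  | zero => exact differentiable_const _
  | add x y _ _ hx hy => exact hx.add hy
  | smul a x _ hx => exact hx.const_smul a

/-- The area inequality. -/
theorem area_trig (σ : Type*) [Fintype σ] [DecidableEq σ] (d D : ℕ) : ∃ C : ℝ≥0∞, C ≠ ⊤ ∧
    ∀ (Φ : (σ → ℝ) → (Fin d → ℝ)) (A : (σ → ℝ) → σ → Fin d → ℝ),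
      (∀ i, (fun θ => (Φ θ i : ℂ)) ∈ Trig σ D) →
      (∀ θ s, HasDerivAt (fun x : ℝ => Φ (θ + x • Pi.single s 1)) (A θ s) 0) →
      ∀ (S : Set (σ → ℝ)) (T : Set (Fin d → ℝ)), MeasurableSet S → MeasurableSet T →
      S ⊆ Metric.closedBall 0 1 → Set.MapsTo Φ S T → ∀ l : ℝ≥0∞, l ≠ ⊤ →
      (∀ θ ∈ S, polarVol (A θ) ≤ l) → volume S ≤ C * l * volume T := by
  obtain ⟨B, hB⟩ := exists_multiplicity d D
  set c := volume (Metric.closedBall (0 : Fin d → ℝ) (1 / (d + 1))) with hc
  have hc0 : c ≠ 0 := (Metric.measure_closedBall_pos volume _ (by positivity)).ne'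
  have hctop : c ≠ ⊤ := measure_closedBall_lt_top.ne
  set q := volume (Metric.closedBall (0 : Fin d → ℝ) 1) with hq
  have hq0 : q ≠ 0 := (Metric.measure_closedBall_pos volume _ one_pos).ne'
  have hqtop : q ≠ ⊤ := measure_closedBall_lt_top.ne
  set R := volume (Metric.closedBall (0 : σ → ℝ) (d + 1)) with hR
  have hRtop : R ≠ ⊤ := measure_closedBall_lt_top.ne
  refine ⟨Fintype.card (Fin d → σ) * (c⁻¹ * B * R * q⁻¹), by finiteness, ?_⟩
  intro Φ A hΦ hA S T hS hT hS1 hST l hl hK
  have hdiff : Differentiable ℝ Φ := differentiable_pi.2 fun i =>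
    Complex.reCLM.differentiable.comp (differentiable_of_mem_Trig (hΦ i))
  have hAf : ∀ θ s, A θ s = fderiv ℝ Φ θ (Pi.single s 1) := by
    intro θ s
    refine (hA θ s).unique ?_
    exact (hdiff θ).hasFDerivAt.hasLineDerivAt _
  set SJ : (Fin d → σ) → Set (σ → ℝ) := fun J =>
    S ∩ {θ | c ≤ l * ENNReal.ofReal |(Matrix.of (A θ ∘ J)).det|} with hSJ
  have hSJm : ∀ J, MeasurableSet (SJ J) := by
    intro J
    refine hS.inter (measurableSet_le measurable_const (Measurable.const_mul ?_ _))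
    refine ENNReal.measurable_ofReal.comp (Measurable.abs ?_)
    simp_rw [Matrix.det_apply', Matrix.of_apply, Function.comp, hAf]
    refine Finset.measurable_sum _ fun p _ => Measurable.const_mul ?_ _
    refine Finset.measurable_prod _ fun i _ => ?_
    exact (measurable_pi_apply i).comp (measurable_fderiv_apply_const ℝ Φ _)
  have hcov : S ⊆ ⋃ J, SJ J := by
    intro θ hθ
    obtain ⟨J, hJ⟩ := exists_det_of_polarVol (A θ) (ne_top_of_le_ne_top hl (hK θ hθ))
    exact Set.mem_iUnion.2 ⟨J, hθ, hJ.trans (mul_le_mul_left (hK θ hθ) _)⟩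
  have key : ∀ J, volume (SJ J) ≤ c⁻¹ * B * R * q⁻¹ * l * volume T := by
    intro J
    let L : (Fin d → ℝ) →L[ℝ] (σ → ℝ) :=
      ∑ k, (ContinuousLinearMap.proj k).smulRight (Pi.single (J k) 1)
    have hL : ∀ u, L u = ∑ k, u k • Pi.single (J k) 1 := fun u => by simp [L]
    set W : Set ((σ → ℝ) × (Fin d → ℝ)) :=
      {p | p.2 ∈ Metric.closedBall 0 1 ∧ p.1 + L p.2 ∈ SJ J} with hW
    have hWm : MeasurableSet W :=
      (measurable_snd measurableSet_closedBall).inter
        ((by fun_prop : Measurable fun p : (σ → ℝ) × (Fin d → ℝ) => p.1 + L p.2) (hSJm J))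
    have h1 : volume (SJ J) * q ≤ (volume.prod volume) W := by
      rw [Measure.prod_apply_symm hWm, hq, ← setLIntegral_const,
        ← lintegral_indicator measurableSet_closedBall]
      refine lintegral_mono fun u => ?_
      by_cases hu : u ∈ Metric.closedBall (0 : Fin d → ℝ) 1
      · rw [Set.indicator_of_mem hu, ← measure_preimage_add_right volume (L u)]
        exact measure_mono fun θ hθ => ⟨hu, hθ⟩
      · rw [Set.indicator_of_notMem hu]; exact zero_le
    have h2 : (volume.prod volume) W ≤ c⁻¹ * l * (B * volume T) * R := by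
      rw [Measure.prod_apply hWm, hR, ← setLIntegral_const,
        ← lintegral_indicator measurableSet_closedBall]
      refine lintegral_mono fun θ => ?_
      by_cases hθ : θ ∈ Metric.closedBall (0 : σ → ℝ) (d + 1)
      · rw [Set.indicator_of_mem hθ]
        refine area_le (fun u => Φ (θ + L u)) (fun u => (fderiv ℝ Φ (θ + L u)).comp L)
          (measurable_prodMk_left hWm) hT (fun u _ => ?_) (by finiteness) (fun u hu => ?_)
          (fun u hu => hST hu.2.1) ?_
        · exact (hdiff _).hasFDerivAt.comp u (L.hasFDerivAt.const_add θ)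
        · have h3 : ((fderiv ℝ Φ (θ + L u)).comp L).det = (Matrix.of (A (θ + L u) ∘ J)).det := by
            rw [ContinuousLinearMap.det, ← LinearMap.det_toMatrix', ← det_transpose]
            congr 1
            ext k i
            simp [hL, hAf, Pi.single_apply]
          have h4 : c ≤ l * ENNReal.ofReal |(Matrix.of (A (θ + L u) ∘ J)).det| := hu.2.2
          rw [h3, mul_assoc]
          calc 1 = c⁻¹ * c := (ENNReal.inv_mul_cancel hc0 hctop).symm
            _ ≤ _ := by gcongr
        · have := hB (fun u => Φ (θ + L u)) fun i => by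
            simpa only [hL] using comp_mem_Trig (hΦ i) θ J
          filter_upwards [this] with y hy
          refine le_trans (Set.encard_le_encard fun u hu => ?_) hy
          refine ⟨fun i => ?_, hu.2⟩
          have := (norm_le_pi_norm u i).trans (mem_closedBall_zero_iff.1 hu.1.1)
          rw [Real.norm_eq_abs] at this
          linarith
      · have : Prod.mk θ ⁻¹' W = ∅ := by
          refine Set.eq_empty_of_forall_notMem fun u hu => hθ ?_
          have h3 := mem_closedBall_zero_iff.1 (hS1 hu.2.1)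
          have h4 : ‖L u‖ ≤ d := by
            rw [hL]
            refine (norm_sum_le _ _).trans ?_
            calc ∑ k, ‖u k • (Pi.single (J k) 1 : σ → ℝ)‖ ≤ ∑ _k : Fin d, (1 : ℝ) := by
                  refine Finset.sum_le_sum fun k _ => ?_
                  rw [norm_smul, Pi.norm_single, norm_one, mul_one]
                  exact (norm_le_pi_norm u k).trans (mem_closedBall_zero_iff.1 hu.1)
              _ = d := by simp
          rw [mem_closedBall_zero_iff]
          have h5 := norm_sub_le (θ + L u) (L u)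
          rw [add_sub_cancel_right] at h5
          change ‖θ + L u‖ ≤ 1 at h3
          linarith
        rw [this, measure_empty]; exact zero_le
    have h3 := h1.trans h2
    rw [← ENNReal.le_div_iff_mul_le (Or.inl hq0) (Or.inl hqtop)] at h3
    refine h3.trans (le_of_eq ?_)
    rw [div_eq_mul_inv]; ring
  calc volume S ≤ ∑ J, volume (SJ J) := (measure_mono hcov).trans (measure_iUnion_fintype_le _ _)
    _ ≤ ∑ _J : Fin d → σ, c⁻¹ * B * R * q⁻¹ * l * volume T := Finset.sum_le_sum fun J _ => key J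
    _ = _ := by rw [Finset.sum_const, Finset.card_univ, nsmul_eq_mul]; ring

end

end Pool.Agent.Lib.MP_775e5c_al
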