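import Pool.Agent.Lib.MP_775e5c_al.VonNeumann

/-!
Haar measure of small balls in a compact matrix group, and the small-ball criterion for a
bounded density.
-/

namespace Pool.Agent.Lib.MP_775e5c_al

open Matrix NormedSpace Filter Topology MeasureTheory Measure
open scoped ENNReal NNReal

noncomputable section

variable {ι : Type} [Fintype ι] [DecidableEq ι]
variable {G : Type*} [Group G] [TopologicalSpace G] [IsTopologicalGroup G] [CompactSpace G]
  [MeasurableSpace G] [BorelSpace G]

theorem measurePreserving_conj (μ : Measure G) [μ.IsHaarMeasure] (g : G) :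
    MeasurePreserving (fun x => g * x * g⁻¹) μ μ :=
  MonoidHom.measurePreserving (f := (MulAut.conj g).toMonoidHom)
    (by change Continuous fun x => g * x * g⁻¹; fun_prop) (MulAut.conj g).surjective rfl

theorem isMulRightInvariant (μ : Measure G) [μ.IsHaarMeasure] : μ.IsMulRightInvariant := by
  refine ⟨fun g => ?_⟩
  have := (measurePreserving_mul_left μ g).comp (measurePreserving_conj μ g⁻¹)
  have h2 : ((fun x => g * x) ∘ fun x => g⁻¹ * x * g⁻¹⁻¹) = fun x => x * g := by
    funext x; simp [mul_assoc]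
  rw [h2] at this
  exact this.map_eq

namespace URep

variable (ρ : URep G ι)

/-- Closed ball for the bi-invariant distance pulled back along `ρ`. -/
def ball (x : G) (ε : ℝ) : Set G := {y | ‖ρ y - ρ x‖ ≤ ε}

omit [IsTopologicalGroup G] [CompactSpace G] [MeasurableSpace G] [BorelSpace G] in
theorem isClosed_ball (x : G) (ε : ℝ) : IsClosed (ρ.ball x ε) :=
  isClosed_le (ρ.cont.sub continuous_const).norm continuous_const

omit [IsTopologicalGroup G] [CompactSpace G] [MeasurableSpace G] [BorelSpace G] in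
theorem mem_ball_comm {x y : G} {ε : ℝ} : y ∈ ρ.ball x ε ↔ x ∈ ρ.ball y ε := by
  simp only [ball, Set.mem_ofPred_eq, norm_sub_rev]

omit [IsTopologicalGroup G] [CompactSpace G] [MeasurableSpace G] [BorelSpace G] in
theorem mul_mem_ball_right {x y z : G} {ε : ℝ} : y * z ∈ ρ.ball x ε ↔ y ∈ ρ.ball (x * z⁻¹) ε := by
  simp only [ball, Set.mem_ofPred_eq]
  rw [← ρ.norm_mul_right z⁻¹, Matrix.sub_mul, ← ρ.map_mul, ← ρ.map_mul, mul_inv_cancel_right]

omit [IsTopologicalGroup G] [CompactSpace G] [MeasurableSpace G] [BorelSpace G] in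
theorem mul_mem_ball_left {x y z : G} {ε : ℝ} : z * y ∈ ρ.ball x ε ↔ y ∈ ρ.ball (z⁻¹ * x) ε := by
  simp only [ball, Set.mem_ofPred_eq]
  rw [← ρ.norm_mul_left z⁻¹, Matrix.mul_sub, ← ρ.map_mul, ← ρ.map_mul, inv_mul_cancel_left]

omit [CompactSpace G] in
theorem measure_ball (μ : Measure G) [μ.IsHaarMeasure] (x : G) (ε : ℝ) :
    μ (ρ.ball x ε) = μ (ρ.ball 1 ε) := by
  rw [← measure_preimage_mul μ x]
  congr 1
  ext y
  rw [Set.mem_preimage, mul_mem_ball_left, inv_mul_cancel]

variable [SecondCountableTopology G]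

theorem exists_le_measure_ball (μ : Measure G) [μ.IsHaarMeasure] :
    ∃ c : ℝ≥0∞, c ≠ 0 ∧ ∀ ε : ℝ, 0 < ε → ε ≤ 1 →
      c * ENNReal.ofReal (ε ^ Module.finrank ℝ ρ.lie) ≤ μ (ρ.ball 1 ε) := by
  have hexp : HasStrictFDerivAt (exp : Matrix ι ι ℂ → Matrix ι ι ℂ)
      (1 : Matrix ι ι ℂ →L[ℝ] Matrix ι ι ℂ) 0 := hasStrictFDerivAt_exp_zero
  obtain ⟨K, s, hs, hK⟩ := hexp.exists_lipschitzOnWith
  obtain ⟨δ, hδ, hδs⟩ := Metric.nhds_basis_closedBall.mem_iff.1 hs
  set d := Module.finrank ℝ ρ.lie
  set U := interior {g : G | ∃ X ∈ ρ.lie, ‖X‖ < δ / 2 ∧ ρ g = exp X} with hU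
  have hU1 : (1 : G) ∈ U := mem_interior_iff_mem_nhds.2 (ρ.exp_mem_nhds (by positivity))
  have hUpos : μ U ≠ 0 := (isOpen_interior.measure_pos μ ⟨1, hU1⟩).ne'
  set r : ℝ := min (δ / 2) (1 / (K + 1)) with hr
  have hr0 : 0 < r := by positivity
  set v : ℝ≥0∞ := volume (Metric.closedBall (0 : ρ.lie) 1) with hv
  have hv0 : v ≠ 0 := (Metric.measure_closedBall_pos volume _ one_pos).ne'
  set V : ℝ≥0∞ := volume (Metric.closedBall (0 : ρ.lie) δ) with hV
  have hVtop : V ≠ ⊤ := measure_closedBall_lt_top.ne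
  refine ⟨μ U * ENNReal.ofReal (r ^ d) * v / V, ?_, fun ε hε hε1 => ?_⟩
  · refine ENNReal.div_ne_zero.2 ⟨mul_ne_zero (mul_ne_zero hUpos ?_) hv0, hVtop⟩
    simpa using pow_pos hr0 d
  set S : Set (G × ρ.lie) := {p | ‖p.2‖ ≤ δ ∧ ‖ρ p.1 - exp (p.2 : Matrix ι ι ℂ)‖ ≤ ε} with hS
  have hSm : MeasurableSet S := by
    refine IsClosed.measurableSet (IsClosed.and (isClosed_le (by fun_prop) continuous_const)
      (isClosed_le ?_ continuous_const))
    exact ((ρ.cont.comp continuous_fst).sub (by fun_prop)).norm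
  have h1 : (μ.prod volume) S ≤ μ (ρ.ball 1 ε) * V := by
    rw [Measure.prod_apply_symm hSm, hV, ← setLIntegral_const,
      ← lintegral_indicator measurableSet_closedBall]
    refine lintegral_mono fun X => ?_
    by_cases hX : X ∈ Metric.closedBall (0 : ρ.lie) δ
    · rw [Set.indicator_of_mem hX]
      obtain ⟨k, hk⟩ := X.2 1
      rw [one_smul] at hk
      rw [← ρ.measure_ball μ k]
      refine measure_mono fun g hg => ?_
      have := hg.2
      simpa [ball, hk] using this
    · have : (fun x => (x, X)) ⁻¹' S = ∅ := by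
        ext g; simp only [hS, Set.mem_preimage, Set.mem_ofPred_eq, Set.mem_empty_iff_false,
          iff_false, not_and]
        intro h; exact absurd (mem_closedBall_zero_iff.2 h) hX
      rw [this, measure_empty]; exact zero_le
  have h2 : μ U * (ENNReal.ofReal ((ε * r) ^ d) * v) ≤ (μ.prod volume) S := by
    rw [Measure.prod_apply hSm, mul_comm, ← setLIntegral_const,
      ← lintegral_indicator isOpen_interior.measurableSet]
    refine lintegral_mono fun g => ?_
    by_cases hg : g ∈ U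
    · rw [Set.indicator_of_mem hg]
      obtain ⟨X, hX, hXδ, hgX⟩ := interior_subset hg
      rw [hv, ← addHaar_closedBall' volume (⟨X, hX⟩ : ρ.lie) (by positivity)]
      refine measure_mono fun Y hY => ?_
      have hY' : ‖(Y : Matrix ι ι ℂ) - X‖ ≤ ε * r := by
        have := mem_closedBall_iff_norm.1 hY
        simpa using this
      have hεr : ε * r ≤ r := mul_le_of_le_one_left hr0.le hε1
      have hYδ : ‖(Y : Matrix ι ι ℂ)‖ ≤ δ := by
        have := norm_add_le ((Y : Matrix ι ι ℂ) - X) X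
        rw [sub_add_cancel] at this
        linarith [min_le_left (δ / 2) (1 / ((K : ℝ) + 1))]
      refine ⟨hYδ, ?_⟩
      have := hK.norm_sub_le (hδs (mem_closedBall_zero_iff.2 (by linarith : ‖X‖ ≤ δ)))
        (hδs (mem_closedBall_zero_iff.2 hYδ))
      rw [hgX]
      refine this.trans ?_
      rw [norm_sub_rev]
      calc (K : ℝ) * ‖(Y : Matrix ι ι ℂ) - X‖ ≤ K * (ε * (1 / (K + 1))) := by
            gcongr; exact hY'.trans (by gcongr; exact min_le_right _ _)
        _ = ε * (K / (K + 1)) := by ring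
        _ ≤ ε := mul_le_of_le_one_right hε.le (div_le_one_of_le₀ (by linarith) (by positivity))
    · rw [Set.indicator_of_notMem hg]; exact zero_le
  have h3 := h2.trans h1
  have hV0 : V ≠ 0 := (Metric.measure_closedBall_pos volume _ hδ).ne'
  rw [← ENNReal.div_le_iff hV0 hVtop] at h3
  refine le_trans (le_of_eq ?_) h3
  rw [mul_pow, ENNReal.ofReal_mul (by positivity), div_eq_mul_inv, div_eq_mul_inv]
  ring

/-- Small-ball criterion. -/
theorem le_smul_of_ball [T2Space G] (hinj : Function.Injective ρ) (μ : Measure G) [μ.IsHaarMeasure]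
    (ν : Measure G) [IsFiniteMeasure ν] {C : ℝ≥0∞} (hC : C ≠ ⊤) {ε₀ : ℝ} (hε₀ : 0 < ε₀)
    (h : ∀ x ε, 0 < ε → ε ≤ ε₀ →
      ν (ρ.ball x ε) ≤ C * ENNReal.ofReal (ε ^ Module.finrank ℝ ρ.lie)) :
    ∃ M : ℝ≥0∞, M ≠ ⊤ ∧ ν ≤ M • μ := by
  obtain ⟨c, hc, hμ⟩ := ρ.exists_le_measure_ball μ
  refine ⟨C / c, ENNReal.div_ne_top hC hc, ?_⟩
  set d := Module.finrank ℝ ρ.lie
  have hopen : ∀ A : Set G, IsOpen A → ν A ≤ C / c * μ A := by
    intro A hA
    set e : ℕ → ℝ := fun n => min ε₀ 1 / (n + 1) with he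
    have he0 : ∀ n, 0 < e n := fun n => by positivity
    have he1 : ∀ n, e n ≤ min ε₀ 1 := fun n => div_le_self (by positivity) (by simp)
    set B : ℕ → Set G := fun n => {y | ρ.ball y (e n) ⊆ A} with hB
    have hmono : Monotone B := by
      intro m n hmn y hy z hz
      refine hy (le_trans (show ‖ρ z - ρ y‖ ≤ _ from hz) ?_)
      simp only [he]; gcongr
    have hun : A ⊆ ⋃ n, B n := by
      intro y hy
      obtain ⟨t, ht, hAt⟩ := (ρ.isClosedEmbedding hinj).isInducing.isOpen_iff.1 hA
      have hy' : ρ y ∈ t := by rw [← hAt] at hy; exact hy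
      obtain ⟨δ, hδ, hδt⟩ := Metric.nhds_basis_closedBall.mem_iff.1 (ht.mem_nhds hy')
      obtain ⟨n, hn⟩ := exists_nat_one_div_lt hδ
      refine Set.mem_iUnion.2 ⟨n, fun z hz => ?_⟩
      rw [← hAt]
      refine hδt (mem_closedBall_iff_norm.2 (le_trans hz (le_trans ?_ hn.le)))
      simp only [he]; gcongr; exact min_le_right _ _
    refine (measure_mono hun).trans ?_
    rw [hmono.measure_iUnion]
    refine iSup_le fun n => ?_
    set S : Set (G × G) := {p | p.2 ∈ A ∧ p.2 ∈ ρ.ball p.1 (e n)} with hS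
    have hSm : MeasurableSet S := by
      refine (hA.measurableSet.preimage measurable_snd).inter (IsClosed.measurableSet ?_)
      exact isClosed_le ((ρ.cont.comp continuous_snd).sub (ρ.cont.comp continuous_fst)).norm
        continuous_const
    have h1 : (ν.prod μ) S ≤ C * ENNReal.ofReal (e n ^ d) * μ A := by
      rw [Measure.prod_apply_symm hSm, ← setLIntegral_const,
        ← lintegral_indicator hA.measurableSet]
      refine lintegral_mono fun x => ?_
      by_cases hx : x ∈ A
      · rw [Set.indicator_of_mem hx]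
        refine le_trans (measure_mono fun y hy => ?_)
          (h x (e n) (he0 n) ((he1 n).trans (min_le_left _ _)))
        exact ρ.mem_ball_comm.1 hy.2
      · have : (fun y => (y, x)) ⁻¹' S = ∅ := by
          ext g; simp [hS, hx]
        simp [this]
    have h2 : c * ENNReal.ofReal (e n ^ d) * ν (B n) ≤ (ν.prod μ) S := by
      rw [Measure.prod_apply hSm]
      refine le_trans ?_ (mul_meas_ge_le_lintegral (measurable_measure_prodMk_left hSm)
        (c * ENNReal.ofReal (e n ^ d)))
      refine mul_le_mul_right (measure_mono fun y hy => ?_) _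
      refine (hμ (e n) (he0 n) ((he1 n).trans (min_le_right _ _))).trans ?_
      rw [← ρ.measure_ball μ y]
      exact measure_mono fun z hz => ⟨hy hz, hz⟩
    have h3 := h2.trans h1
    have hp : ENNReal.ofReal (e n ^ d) ≠ 0 := by simpa using pow_pos (he0 n) d
    rw [mul_right_comm, mul_right_comm C,
      ENNReal.mul_le_mul_iff_left hp ENNReal.ofReal_ne_top] at h3
    rw [div_eq_mul_inv, mul_right_comm, ← div_eq_mul_inv, ENNReal.le_div_iff_mul_le (Or.inl hc)
      (Or.inr (ENNReal.mul_ne_top hC (measure_ne_top _ _))), mul_comm]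
    exact h3
  refine Measure.le_iff.2 fun A hA => ?_
  have : ((C / c) • μ).OuterRegular := OuterRegular.smul μ (ENNReal.div_ne_top hC hc)
  rw [A.measure_eq_iInf_isOpen ((C / c) • μ)]
  exact le_iInf fun U => le_iInf fun hU => le_iInf fun hU' =>
    (measure_mono hU).trans (hopen U hU')

end URep

end

end Pool.Agent.Lib.MP_775e5c_al
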