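import Pool.Agent.Lib.MP_775e5c_al.Defs
import Pool.Agent.Lib.MP_775e5c_al.Haar

/-!
Convolution powers and word measures: elementary properties.
-/

namespace Pool.Agent.Lib.MP_775e5c_al

open MeasureTheory Measure
open scoped ENNReal

noncomputable section

/-- Evaluation of a word given as a list of letters. -/
def ev {α G : Type*} [Group G] (g : α → G) (L : List (α × Bool)) : G :=
  (L.map fun x => cond x.2 (g x.1) (g x.1)⁻¹).prod

section
variable {α G H : Type*} [Group G] [Group H]

theorem ev_nil (g : α → G) : ev g [] = 1 := rfl

theorem ev_cons (g : α → G) (x : α × Bool) (L : List (α × Bool)) :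
    ev g (x :: L) = cond x.2 (g x.1) (g x.1)⁻¹ * ev g L := by simp [ev]

theorem lift_eq_ev [DecidableEq α] (g : α → G) (w : FreeGroup α) :
    FreeGroup.lift g w = ev g w.toWord := by
  conv_lhs => rw [← FreeGroup.mk_toWord (x := w)]
  rw [FreeGroup.lift_mk, ev]

theorem map_ev (f : G →* H) (g : α → G) (L : List (α × Bool)) :
    f (ev g L) = ev (fun a => f (g a)) L := by
  induction L with
  | nil => simp [ev_nil]
  | cons x L ih => rw [ev_cons, ev_cons, map_mul, ih]; cases x.2 <;> simp

theorem ev_conj (k : G) (g : α → G) (L : List (α × Bool)) :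
    ev (fun a => k * g a * k⁻¹) L = k * ev g L * k⁻¹ :=
  (map_ev (MulAut.conj k).toMonoidHom g L).symm

theorem continuous_ev [TopologicalSpace G] [IsTopologicalGroup G] (L : List (α × Bool)) :
    Continuous fun g : α → G => ev g L := by
  induction L with
  | nil => exact continuous_const
  | cons x L ih =>
    simp only [ev_cons]
    refine Continuous.mul ?_ ih
    cases x.2
    · exact (continuous_apply x.1).inv
    · exact continuous_apply x.1

end

variable {G : Type*} [Group G] [TopologicalSpace G] [IsTopologicalGroup G]
  [MeasurableSpace G] [BorelSpace G] [SecondCountableTopology G]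

instance convPow_prob (ν : Measure G) [IsProbabilityMeasure ν] (t : ℕ) :
    IsProbabilityMeasure (convPow ν t) := by
  induction t with
  | zero => unfold convPow; infer_instance
  | succ t ih => unfold convPow; infer_instance

theorem convPow_add (ν : Measure G) [IsProbabilityMeasure ν] (s t : ℕ) :
    convPow ν (s + t) = mconv (convPow ν s) (convPow ν t) := by
  induction s with
  | zero => simp [convPow]
  | succ s ih => rw [Nat.succ_add, convPow, convPow, ih, mconv_assoc]

omit [MeasurableSpace G] [BorelSpace G] [SecondCountableTopology G] in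
theorem continuous_prod_ofFn {t : ℕ} : Continuous fun y : Fin t → G => (List.ofFn y).prod := by
  induction t with
  | zero => simpa using continuous_const
  | succ t ih =>
    simp only [List.ofFn_succ, List.prod_cons]
    exact (continuous_apply 0).mul (ih.comp (continuous_pi fun i => continuous_apply _))

theorem convPow_eq_map (ν : Measure G) [IsProbabilityMeasure ν] (t : ℕ) :
    convPow ν t = (Measure.pi fun _ : Fin t => ν).map fun y => (List.ofFn y).prod := by
  induction t with
  | zero => simp [convPow]
  | succ t ih =>
    have h := (measurePreserving_piFinSuccAbove (fun _ : Fin (t + 1) => ν) 0)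
    have h2 := (MeasurePreserving.id ν).prod
      (⟨continuous_prod_ofFn.measurable, ih.symm⟩ :
        MeasurePreserving (fun y : Fin t → G => (List.ofFn y).prod) _ _)
    rw [convPow, mconv, ← (h2.comp h).map_eq, map_map (by fun_prop) (h2.comp h).measurable]
    congr 1
    funext y
    simp [List.ofFn_succ]; rfl

theorem mconv_le_smul (μ : Measure G) [μ.IsHaarMeasure] (τ ν : Measure G) [IsProbabilityMeasure τ]
    [IsFiniteMeasure ν] {M : ℝ≥0∞} (h : ν ≤ M • μ) : mconv τ ν ≤ M • μ := by
  refine Measure.le_iff.2 fun A hA => ?_
  rw [mconv, map_apply (by fun_prop) hA, Measure.prod_apply (by measurability)]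
  calc ∫⁻ x, ν (Prod.mk x ⁻¹' ((fun p : G × G => p.1 * p.2) ⁻¹' A)) ∂τ
      ≤ ∫⁻ _, (M • μ) A ∂τ := by
        refine lintegral_mono fun x => (h _).trans (le_of_eq ?_)
        simp only [Measure.smul_apply]
        congr 1
        exact measure_preimage_mul μ x A
    _ = _ := by simp

theorem convPow_le_smul_of_le (μ : Measure G) [μ.IsHaarMeasure] (τ : Measure G)
    [IsProbabilityMeasure τ] {M : ℝ≥0∞} {s t : ℕ} (hst : s ≤ t) (h : convPow τ s ≤ M • μ) :
    convPow τ t ≤ M • μ := by
  induction hst with
  | refl => exact h
  | step _ ih => exact mconv_le_smul μ τ _ ih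

omit [Group G] [TopologicalSpace G] [IsTopologicalGroup G] [BorelSpace G]
  [SecondCountableTopology G] in
theorem hasBoundedDensity_of_le (μ ν : Measure G) [IsFiniteMeasure μ] [IsFiniteMeasure ν]
    {M : ℝ≥0∞} (hM : M ≠ ⊤) (h : ν ≤ M • μ) :
    ∃ f : G → ℝ, MemLp f ⊤ μ ∧ ν = μ.withDensity fun x => ENNReal.ofReal (f x) := by
  have hac : ν ≪ μ := (absolutelyContinuous_of_le h).trans smul_absolutelyContinuous
  have hle : ∀ᵐ x ∂μ, ν.rnDeriv μ x ≤ M := by
    refine ae_le_of_forall_setLIntegral_le_of_sigmaFinite (measurable_rnDeriv _ _)
      fun s hs _ => ?_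
    rw [setLIntegral_rnDeriv hac, setLIntegral_const]
    exact h s
  refine ⟨fun x => (ν.rnDeriv μ x).toReal, ?_, ?_⟩
  · refine memLp_top_of_bound (measurable_rnDeriv _ _).ennreal_toReal.aestronglyMeasurable
      M.toReal ?_
    filter_upwards [hle] with x hx
    rw [Real.norm_eq_abs, abs_of_nonneg ENNReal.toReal_nonneg]
    exact ENNReal.toReal_mono hM hx
  · conv_lhs => rw [← withDensity_rnDeriv_eq ν μ hac]
    refine withDensity_congr_ae ?_
    filter_upwards [rnDeriv_lt_top ν μ] with x hx
    rw [ENNReal.ofReal_toReal hx.ne]

/-- The law of a word in independent `μ`-distributed letters. -/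
def listMeasure {α : Type*} [Fintype α] (L : List (α × Bool)) (μ : Measure G) : Measure G :=
  (Measure.pi fun _ : α => μ).map fun g => ev g L

instance listMeasure_prob {α : Type*} [Fintype α] (L : List (α × Bool)) (μ : Measure G)
    [IsProbabilityMeasure μ] : IsProbabilityMeasure (listMeasure L μ) :=
  isProbabilityMeasure_map (continuous_ev L).measurable.aemeasurable

theorem measurePreserving_conj_listMeasure [CompactSpace G] {α : Type*} [Fintype α]
    (L : List (α × Bool)) (μ : Measure G) [μ.IsHaarMeasure] (k : G) :
    MeasurePreserving (fun x => k * x * k⁻¹) (listMeasure L μ) (listMeasure L μ) := by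
  refine ⟨by fun_prop, ?_⟩
  have h := measurePreserving_pi (fun _ : α => μ) (fun _ : α => μ)
    fun _ => measurePreserving_conj μ k
  rw [listMeasure, map_map (by fun_prop) (continuous_ev L).measurable]
  conv_rhs => rw [← h.map_eq, map_map (continuous_ev L).measurable h.measurable]
  congr 1
  funext g
  exact (ev_conj k g L).symm

section hom

variable {H : Type*} [Group H] [TopologicalSpace H] [IsTopologicalGroup H]
  [MeasurableSpace H] [BorelSpace H] [SecondCountableTopology H]

theorem map_listMeasure {α : Type*} [Fintype α] (L : List (α × Bool)) {μ : Measure G}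
    {ν : Measure H} [SigmaFinite μ] [SigmaFinite ν] (f : G →* H) (hf : MeasurePreserving f μ ν) :
    (listMeasure L μ).map f = listMeasure L ν := by
  have h := measurePreserving_pi (fun _ : α => μ) (fun _ : α => ν) fun _ => hf
  rw [listMeasure, map_map hf.measurable (continuous_ev L).measurable, listMeasure, ← h.map_eq,
    map_map (continuous_ev L).measurable h.measurable]
  congr 1
  funext g
  exact map_ev f g L

theorem map_convPow (τ : Measure G) [IsProbabilityMeasure τ] (f : G →* H) (hf : Measurable f)
    (t : ℕ) : (convPow τ t).map f = convPow (τ.map f) t := by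
  induction t with
  | zero => simp [convPow, map_dirac' hf]
  | succ t ih => rw [convPow, convPow, map_mconv_monoidHom f hf, ih]

theorem listMeasure_prod {α : Type*} [Fintype α] (L : List (α × Bool)) (μ : Measure G)
    (ν : Measure H) [IsProbabilityMeasure μ] [IsProbabilityMeasure ν] :
    listMeasure L (μ.prod ν) = (listMeasure L μ).prod (listMeasure L ν) := by
  have h := (measurePreserving_arrowProdEquivProdArrow G H α (fun _ => μ) fun _ => ν)
  rw [listMeasure, listMeasure, listMeasure, map_prod_map _ _ (continuous_ev L).measurable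
    (continuous_ev L).measurable, ← h.map_eq,
    map_map ((continuous_ev L).measurable.prodMap (continuous_ev L).measurable) h.measurable]
  congr 1
  funext g
  exact Prod.ext (map_ev (MonoidHom.fst G H) g L) (map_ev (MonoidHom.snd G H) g L)

theorem convPow_prod (τ : Measure G) (σ : Measure H) [IsProbabilityMeasure τ]
    [IsProbabilityMeasure σ] (t : ℕ) :
    convPow (τ.prod σ) t = (convPow τ t).prod (convPow σ t) := by
  have h := (measurePreserving_arrowProdEquivProdArrow G H (Fin t) (fun _ => τ) fun _ => σ)
  rw [convPow_eq_map, convPow_eq_map, convPow_eq_map, map_prod_map _ _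
    continuous_prod_ofFn.measurable continuous_prod_ofFn.measurable, ← h.map_eq,
    map_map (continuous_prod_ofFn.measurable.prodMap continuous_prod_ofFn.measurable) h.measurable]
  congr 1
  funext g
  refine Prod.ext ((map_list_prod (MonoidHom.fst G H) _).trans ?_)
    ((map_list_prod (MonoidHom.snd G H) _).trans ?_) <;> rw [List.map_ofFn] <;> rfl

end hom

end

end Pool.Agent.Lib.MP_775e5c_al
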