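import Pool.Agent.Lib.MP_775e5c_al.Periodic
import Pool.Agent.Lib.MP_775e5c_al.AreaAbs
import Pool.Agent.Lib.MP_775e5c_al.Conv

/-!
The area bound for products of conjugates.
-/

namespace Pool.Agent.Lib.MP_775e5c_al

open Matrix NormedSpace Module Filter Topology MeasureTheory Measure
open scoped ENNReal

noncomputable section

theorem prod_ofFn_update {G : Type*} [Group G] {n : ℕ} (f : Fin n → G) (i : Fin n) (z : G) :
    (List.ofFn (Function.update f i (z * f i))).prod =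
      Fin.partialProd f i.castSucc * z * (Fin.partialProd f i.castSucc)⁻¹ * (List.ofFn f).prod := by
  induction n with
  | zero => exact i.elim0
  | succ n ih =>
    refine Fin.cases ?_ (fun i => ?_) i
    · simp [List.ofFn_succ, mul_assoc]
    · have h1 := ih (Fin.tail f) i
      have h2 : (fun j : Fin n => Function.update f i.succ (z * f i.succ) j.succ) =
          Function.update (Fin.tail f) i (z * Fin.tail f i) :=
        Fin.tail_update_succ f i (z * f i.succ)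
      rw [List.ofFn_succ, List.ofFn_succ, List.prod_cons, List.prod_cons, h2, h1,
        Function.update_of_ne (Fin.succ_ne_zero i).symm, ← Fin.succ_castSucc, Fin.partialProd_succ']
      simp only [_root_.mul_inv_rev, mul_assoc, inv_mul_cancel_left]
      rfl

theorem continuous_partialProd {G : Type*} [Group G] [TopologicalSpace G] [IsTopologicalGroup G]
    {n : ℕ} (i : Fin (n + 1)) : Continuous fun f : Fin n → G => Fin.partialProd f i := by
  induction i using Fin.induction with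
  | zero => simpa using continuous_const
  | succ i ih => simp only [Fin.partialProd_succ]; exact ih.mul (continuous_apply i)

variable {ι : Type} [Fintype ι] [DecidableEq ι]

namespace URep

variable {G : Type*} [Group G] [TopologicalSpace G] (ρ : URep G ι)

theorem MT_prod {σ : Type*} [Fintype σ] {D n : ℕ} (f : Fin n → (σ → ℝ) → G)
    (hf : ∀ i, MT σ D fun θ => ρ (f i θ)) :
    MT σ (n * D) fun θ => ρ (List.ofFn fun i => f i θ).prod := by
  induction n with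
  | zero => simpa [ρ.map_one] using MT.const _ _
  | succ n ih =>
    simp only [List.ofFn_succ, List.prod_cons, ρ.map_mul]
    exact ((hf 0).mul (ih (fun i => f i.succ) fun i => hf _)).mono (by rw [Nat.succ_mul]; omega)

/-- Elements moving `ξ` by at most `R`. -/
def fix (R : ℝ) (ξ : Matrix ι ι ℂ) : Set G := {g | ‖ρ.Ad g ξ - ξ‖ ≤ R}

/-- Product of one-parameter groups. -/
def cw {m : ℕ} (X : Fin m → Matrix ι ι ℂ) (v : Fin m → ℝ) : G :=
  (List.ofFn fun i => ρ.ex (v i • X i)).prod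

theorem norm_Ad_sub_le {t : ℕ} (y : Fin t → G) (ζ : Matrix ι ι ℂ) {C : ℝ} (hC : 0 ≤ C)
    (h : ∀ j, ‖ρ.Ad (Fin.partialProd y j.castSucc)⁻¹ ζ -
      ρ.Ad (y j)⁻¹ (ρ.Ad (Fin.partialProd y j.castSucc)⁻¹ ζ)‖ ≤ C) (j : Fin t) :
    y j ∈ ρ.fix ((2 * t + 1) * C) ζ := by
  have h1 : ∀ j : Fin (t + 1), ‖ρ.Ad (Fin.partialProd y j)⁻¹ ζ - ζ‖ ≤ j * C := by
    intro j
    induction j using Fin.induction with
    | zero => simp [Ad_one]
    | succ j ih =>
      rw [Fin.partialProd_succ, _root_.mul_inv_rev, Ad_mul]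
      have h2 := h j
      rw [norm_sub_rev] at h2
      have h3 := norm_sub_le_norm_sub_add_norm_sub
        (ρ.Ad (y j)⁻¹ (ρ.Ad (Fin.partialProd y j.castSucc)⁻¹ ζ))
        (ρ.Ad (Fin.partialProd y j.castSucc)⁻¹ ζ) ζ
      simp only [Fin.val_castSucc, Fin.val_succ, Nat.cast_add, Nat.cast_one] at ih ⊢
      linarith
  set η := ρ.Ad (Fin.partialProd y j.castSucc)⁻¹ ζ
  have h2 : ‖η - ζ‖ ≤ t * C := (h1 _).trans (by
    gcongr; exact_mod_cast j.2.le)
  have h3 : ‖ρ.Ad (y j) η - η‖ ≤ C := by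
    have := h j
    rwa [← ρ.norm_Ad (y j), Ad_sub, Ad_Ad_inv] at this
  have h4 : ‖ρ.Ad (y j) ζ - ρ.Ad (y j) η‖ ≤ t * C := by
    rwa [← Ad_sub, norm_Ad, norm_sub_rev]
  have h5 := norm_sub_le_norm_sub_add_norm_sub (ρ.Ad (y j) ζ) (ρ.Ad (y j) η) ζ
  have h6 := norm_sub_le_norm_sub_add_norm_sub (ρ.Ad (y j) η) η ζ
  change ‖_‖ ≤ _
  linarith

variable [CompactSpace G]

theorem ex_add (hinj : Function.Injective ρ) {X : Matrix ι ι ℂ} (hX : X ∈ ρ.lie) (s t : ℝ) :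
    ρ.ex ((s + t) • X) = ρ.ex (s • X) * ρ.ex (t • X) :=
  hinj (by rw [ρ.map_mul, ρ.map_ex hX, ρ.map_ex hX, ρ.map_ex hX, exp_add_smul])

theorem ex_zero (hinj : Function.Injective ρ) : ρ.ex 0 = 1 :=
  hinj (by rw [ρ.map_ex' ⟨1, by simp [ρ.map_one]⟩, ρ.map_one, exp_zero])

theorem cw_add_single (hinj : Function.Injective ρ) {m : ℕ} {X : Fin m → Matrix ι ι ℂ}
    (hX : ∀ i, X i ∈ ρ.lie) (v : Fin m → ℝ) (i : Fin m) (x : ℝ) :
    ρ.cw X (v + x • Pi.single i 1) =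
      Fin.partialProd (fun i => ρ.ex (v i • X i)) i.castSucc * ρ.ex (x • X i) *
        (Fin.partialProd (fun i => ρ.ex (v i • X i)) i.castSucc)⁻¹ * ρ.cw X v := by
  rw [cw, cw, ← prod_ofFn_update]
  congr 2
  funext j
  by_cases h : j = i
  · subst h
    simp [← ρ.ex_add hinj (hX j), add_comm]
  · simp [h]

variable [IsTopologicalGroup G]

theorem continuous_exs (hinj : Function.Injective ρ) {m : ℕ} {X : Fin m → Matrix ι ι ℂ}
    (hX : ∀ i, X i ∈ ρ.lie) : Continuous fun v : Fin m → ℝ => fun i => ρ.ex (v i • X i) :=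
  continuous_pi fun i => (ρ.continuous_ex hinj (hX i)).comp (continuous_apply i)

theorem exists_good_frame (hinj : Function.Injective ρ) {m : ℕ} {X : Fin m → Matrix ι ι ℂ}
    (hX : ρ.IsFrame X) : ∃ δ C : ℝ, 0 < δ ∧ δ ≤ 1 ∧ 0 < C ∧ ∀ v : Fin m → ℝ, ‖v‖ ≤ δ →
      ∀ ζ ∈ ρ.lie, (∀ i, |inner ℝ ζ
        (ρ.Ad (Fin.partialProd (fun i => ρ.ex (v i • X i)) i.castSucc) (X i))| ≤ 1) → ‖ζ‖ ≤ C := by
  let L : ρ.lie →ₗ[ℝ] (Fin m → ℝ) :=
    LinearMap.pi fun i => (innerₛₗ ℝ (X i)).comp ρ.lie.subtype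
  have hL : LinearMap.ker L = ⊥ := by
    refine (Submodule.eq_bot_iff _).2 fun ζ hζ => ?_
    have h1 : Submodule.span ℝ (Set.range X) ≤ (Submodule.span ℝ {(ζ : Matrix ι ι ℂ)})ᗮ := by
      refine Submodule.span_le.2 ?_
      rintro _ ⟨i, rfl⟩
      exact Submodule.mem_orthogonal_singleton_iff_inner_left.2
        (congrFun (LinearMap.mem_ker.1 hζ) i)
    rw [hX.span] at h1
    exact Subtype.ext (inner_self_eq_zero.1
      (Submodule.mem_orthogonal_singleton_iff_inner_left.1 (h1 ζ.2)))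
  obtain ⟨K, hK0, hK⟩ := L.exists_antilipschitzWith hL
  have hev : ∀ᶠ v in 𝓝 (0 : Fin m → ℝ), ∀ i,
      ‖ρ.Ad (Fin.partialProd (fun i => ρ.ex (v i • X i)) i.castSucc) (X i) - X i‖ < 1 / (2 * K) := by
    refine eventually_all.2 fun i => ?_
    have hc : Continuous fun v : Fin m → ℝ =>
        ‖ρ.Ad (Fin.partialProd (fun i => ρ.ex (v i • X i)) i.castSucc) (X i) - X i‖ :=
      ((ρ.continuous_Ad.comp ((((continuous_partialProd _).comp
        (ρ.continuous_exs hinj hX.mem))).prodMk continuous_const)).sub continuous_const).norm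
    refine hc.continuousAt.eventually (gt_mem_nhds ?_)
    have : Fin.partialProd (fun i => ρ.ex ((0 : Fin m → ℝ) i • X i)) i.castSucc = 1 := by
      simp [Fin.partialProd, ρ.ex_zero hinj]
    simp only [this, Ad_one, sub_self, norm_zero]
    positivity
  obtain ⟨δ, hδ, hδ'⟩ := Metric.nhds_basis_closedBall.eventually_iff.1 hev
  refine ⟨min δ 1, 2 * K, by positivity, min_le_right _ _, by positivity, fun v hv ζ hζ h => ?_⟩
  have h1 := hδ' (mem_closedBall_zero_iff.2 (hv.trans (min_le_left _ _)))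
  have h2 : ‖L ⟨ζ, hζ⟩‖ ≤ 1 + ‖ζ‖ * (1 / (2 * K)) := by
    refine (pi_norm_le_iff_of_nonneg (by positivity)).2 fun i => ?_
    change |inner ℝ (X i) ζ| ≤ _
    set Z := ρ.Ad (Fin.partialProd (fun i => ρ.ex (v i • X i)) i.castSucc) (X i)
    have h3 : inner ℝ (X i) ζ = inner ℝ ζ Z - inner ℝ ζ (Z - X i) := by
      rw [inner_sub_right, real_inner_comm]; ring
    rw [h3]
    refine (abs_sub _ _).trans (add_le_add (h i) ((abs_real_inner_le_norm _ _).trans ?_))
    gcongr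
    exact (h1 i).le
  have h3 : ‖ζ‖ ≤ K * ‖L ⟨ζ, hζ⟩‖ := hK.le_mul_norm (map_zero L) ⟨ζ, hζ⟩
  have h4 : (K : ℝ) * (1 + ‖ζ‖ * (1 / (2 * K))) = K + ‖ζ‖ / 2 := by
    have : (K : ℝ) ≠ 0 := by positivity
    field_simp
  have h5 : (K : ℝ) * ‖L ⟨ζ, hζ⟩‖ ≤ K * (1 + ‖ζ‖ * (1 / (2 * K))) := by gcongr
  linarith

/-- Volume of the set of vectors almost fixed by all the given elements. -/
def KK {t : ℕ} (R : ℝ) (y : Fin t → G) : ℝ≥0∞ :=
  volume {ζ : ρ.lie | ∀ j, y j ∈ ρ.fix R ζ}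

/-- Conjugation of a tuple by a parametrised tuple. -/
def tw {t m : ℕ} (X : Fin m → Matrix ι ι ℂ) (y : Fin t → G) (θ : Fin t × Fin m → ℝ) (j : Fin t) :
    G := ρ.cw X (fun i => θ (j, i)) * y j * (ρ.cw X (fun i => θ (j, i)))⁻¹

/-- The column of the differential. -/
def col {t m : ℕ} (X : Fin m → Matrix ι ι ℂ) (y : Fin t → G) (θ : Fin t × Fin m → ℝ)
    (s : Fin t × Fin m) : Matrix ι ι ℂ :=
  ρ.Ad (Fin.partialProd (ρ.tw X y θ) s.1.castSucc)
    (ρ.Ad (Fin.partialProd (fun i => ρ.ex (θ (s.1, i) • X i)) s.2.castSucc) (X s.2) -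
      ρ.Ad (ρ.tw X y θ s.1)
        (ρ.Ad (Fin.partialProd (fun i => ρ.ex (θ (s.1, i) • X i)) s.2.castSucc) (X s.2)))

omit [IsTopologicalGroup G] in
theorem col_mem {t m : ℕ} {X : Fin m → Matrix ι ι ℂ} (hX : ∀ i, X i ∈ ρ.lie) (y : Fin t → G)
    (θ : Fin t × Fin m → ℝ) (s : Fin t × Fin m) : ρ.col X y θ s ∈ ρ.lie :=
  ρ.Ad_mem_lie _ (ρ.lie.sub_mem (ρ.Ad_mem_lie _ (hX _)) (ρ.Ad_mem_lie _ (ρ.Ad_mem_lie _ (hX _))))

omit [IsTopologicalGroup G] in
theorem hasDerivAt_prod_tw (hinj : Function.Injective ρ) {t m : ℕ} {X : Fin m → Matrix ι ι ℂ}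
    (hX : ∀ i, X i ∈ ρ.lie) (y : Fin t → G) (θ : Fin t × Fin m → ℝ) (s : Fin t × Fin m) :
    HasDerivAt (fun x : ℝ => ρ (List.ofFn (ρ.tw X y (θ + x • Pi.single s 1))).prod)
      (ρ.col X y θ s * ρ (List.ofFn (ρ.tw X y θ)).prod) 0 := by
  obtain ⟨j, i⟩ := s
  set a := Fin.partialProd (fun i => ρ.ex (θ (j, i) • X i)) i.castSucc with ha
  set Z := ρ.Ad a (X i) with hZ
  set P := Fin.partialProd (ρ.tw X y θ) j.castSucc with hP
  set y' := ρ.tw X y θ j with hy'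
  have h1 : ∀ x : ℝ, ρ.tw X y (θ + x • Pi.single (j, i) 1) = Function.update (ρ.tw X y θ) j
      ((a * ρ.ex (x • X i) * a⁻¹) * y' * (a * ρ.ex (x • X i) * a⁻¹)⁻¹ * y'⁻¹ * y') := by
    intro x
    funext j'
    by_cases h : j' = j
    · subst h
      have : (fun i' => (θ + x • (Pi.single (j', i) 1 : Fin t × Fin m → ℝ)) (j', i')) =
          (fun i' => θ (j', i')) + x • Pi.single i 1 := by
        funext i'; simp [Pi.single_apply]
      rw [Function.update_self, tw, this, ρ.cw_add_single hinj hX, hy', tw, ← ha]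
      group
    · have : (fun i' => (θ + x • (Pi.single (j, i) 1 : Fin t × Fin m → ℝ)) (j', i')) =
          (fun i' => θ (j', i')) := by
        funext i'; simp [h]
      rw [Function.update_of_ne h, tw, this, tw]
  have h2 : (fun x : ℝ => ρ (List.ofFn (ρ.tw X y (θ + x • Pi.single (j, i) 1))).prod) =
      fun x : ℝ => ρ P * (exp (x • Z) * (ρ y' * exp (x • (-Z)) * ρ y'⁻¹)) * ρ P⁻¹ *
        ρ (List.ofFn (ρ.tw X y θ)).prod := by
    funext x
    have h3 : ρ (a * ρ.ex (x • X i) * a⁻¹) = exp (x • Z) := by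
      rw [map_conj, ρ.map_ex (hX i), Ad_exp, Ad_smul]
    rw [h1, prod_ofFn_update, ρ.map_mul, ρ.map_mul, ρ.map_mul, ρ.map_mul, ρ.map_mul, ρ.map_mul,
      ρ.map_inv_of_eq_exp h3, h3, smul_neg]
    simp only [Matrix.mul_assoc, hP]
  rw [h2]
  have h4 := ((((hasDerivAt_exp_smul Z 0).fun_mul
    (((hasDerivAt_exp_smul (-Z) 0).const_mul (ρ y')).mul_const (ρ y'⁻¹))).const_mul
      (ρ P)).mul_const (ρ P⁻¹)).mul_const (ρ (List.ofFn (ρ.tw X y θ)).prod)
  refine h4.congr_deriv ?_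
  change _ = ρ.Ad P (Z - ρ.Ad y' Z) * _
  simp [Ad, ρ.mul_inv, sub_eq_add_neg]

omit [IsTopologicalGroup G] in
theorem MT_prod_tw {t m : ℕ} {X : Fin m → Matrix ι ι ℂ} (hX : ρ.IsFrame X) (y : Fin t → G) :
    MT (Fin t × Fin m) (t * (2 * (m * finrank ℂ (Matrix ι ι ℂ))))
      fun θ => ρ (List.ofFn (ρ.tw X y θ)).prod := by
  refine ρ.MT_prod (fun j θ => ρ.tw X y θ j) fun j => ?_
  have h1 : MT (Fin t × Fin m) (m * finrank ℂ (Matrix ι ι ℂ))
      fun θ => ρ (ρ.cw X fun i => θ (j, i)) := by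
    refine ρ.MT_prod (fun i θ => ρ.ex (θ (j, i) • X i)) fun i => ?_
    simp only [ρ.map_ex (hX.mem i)]
    obtain ⟨e, he, h⟩ := hX.root i
    rw [h]
    exact he.MT_exp _
  simp only [tw, ρ.map_mul, ← ρ.star_eq]
  exact ((h1.mul (MT.const 0 _)).mul h1.conjTranspose).mono (by omega)

theorem continuous_tw (hinj : Function.Injective ρ) {t m : ℕ} {X : Fin m → Matrix ι ι ℂ}
    (hX : ∀ i, X i ∈ ρ.lie) :
    Continuous fun p : (Fin t × Fin m → ℝ) × (Fin t → G) => ρ.tw X p.2 p.1 := by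
  refine continuous_pi fun j => ?_
  have h1 : Continuous fun p : (Fin t × Fin m → ℝ) × (Fin t → G) => ρ.cw X fun i => p.1 (j, i) :=
    continuous_prod_ofFn.comp ((ρ.continuous_exs hinj hX).comp (by fun_prop))
  exact (h1.mul (by fun_prop)).mul h1.inv

end URep

end

end Pool.Agent.Lib.MP_775e5c_al
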