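import Pool.Agent.Lib.MP_775e5c_al.Area

/-!
Bounded density of a convolution power from integrability of the small-ball function.
-/

namespace Pool.Agent.Lib.MP_775e5c_al

open Matrix NormedSpace Module Filter Topology MeasureTheory Measure
open scoped ENNReal

noncomputable section

variable {ι : Type} [Fintype ι] [DecidableEq ι]

theorem exists_polarVol_le (g : Submodule ℝ (Matrix ι ι ℂ)) (σ : Type*) [Fintype σ] :
    ∃ ε₀ : ℝ, 0 < ε₀ ∧ ∀ u : Matrix ι ι ℂ, ‖u - 1‖ ≤ ε₀ → ∀ c : σ → Matrix ι ι ℂ, (∀ s, c s ∈ g) →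
      polarVol (fun s k => inner ℝ (stdOrthonormalBasis ℝ g k : Matrix ι ι ℂ) (c s * u)) ≤
        2 * volume {ζ : g | ∀ s, |inner ℝ (ζ : Matrix ι ι ℂ) (c s)| ≤ 1} := by
  set b := stdOrthonormalBasis ℝ g with hb
  let M : Matrix ι ι ℂ → Matrix (Fin (finrank ℝ g)) (Fin (finrank ℝ g)) ℝ := fun u =>
    Matrix.of fun k l => inner ℝ (b k : Matrix ι ι ℂ) (b l * uᴴ)
  have hM1 : M 1 = 1 := by
    ext k l
    have := orthonormal_iff_ite.1 b.orthonormal k l
    simpa [M, Matrix.one_apply] using this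
  have hcont : Continuous fun u => (M u).det := by
    refine Continuous.matrix_det (continuous_matrix fun k l => ?_)
    exact continuous_const.inner (continuous_const.mul continuous_star)
  have hev : ∀ᶠ u in 𝓝 (1 : Matrix ι ι ℂ), 1 / 2 < (M u).det :=
    hcont.continuousAt.eventually (lt_mem_nhds (by simp only [hM1, det_one]; norm_num))
  obtain ⟨ε₀, hε₀, hε⟩ := Metric.nhds_basis_closedBall.eventually_iff.1 hev
  refine ⟨ε₀, hε₀, fun u hu c hc => ?_⟩
  have hdet := hε (mem_closedBall_iff_norm.2 hu)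
  have hE := b.measurePreserving_repr_symm.comp (PiLp.volume_preserving_toLp _)
  set S : Set g := {ζ : g | ∀ s, |inner ℝ (ζ : Matrix ι ι ℂ) (c s)| ≤ 1} with hS
  have hSm : MeasurableSet S := by
    refine IsClosed.measurableSet ?_
    rw [hS, Set.ofPred_forall]
    exact isClosed_iInter fun s => isClosed_le (by fun_prop) continuous_const
  have hdet' : LinearMap.det (Matrix.toLin' (M u)) ≠ 0 := by
    rw [LinearMap.det_toLin']; linarith
  have hset : {ξ : Fin (finrank ℝ g) → ℝ | ∀ s,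
      |(fun k => inner ℝ (b k : Matrix ι ι ℂ) (c s * u)) ⬝ᵥ ξ| ≤ 1} =
      Matrix.toLin' (M u) ⁻¹' ((b.repr.symm ∘ WithLp.toLp 2) ⁻¹' S) := by
    ext ξ
    simp only [hS, Set.mem_ofPred_eq, Set.mem_preimage, Function.comp, toLin'_apply]
    refine forall_congr' fun s => ?_
    have h1 : ∀ w : Matrix ι ι ℂ, ∑ k, inner ℝ (b k : Matrix ι ι ℂ) w *
        inner ℝ (b k : Matrix ι ι ℂ) (c s) = inner ℝ w (c s) := by
      intro w
      have h2 := congrArg Subtype.val (b.sum_repr' ⟨c s, hc s⟩)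
      simp only [Submodule.coe_sum, Submodule.coe_smul, Submodule.coe_inner] at h2
      conv_rhs => rw [← h2, inner_sum]
      refine Finset.sum_congr rfl fun k _ => ?_
      rw [real_inner_smul_right, real_inner_comm w, mul_comm]
    have h3 : inner ℝ ((b.repr.symm (WithLp.toLp 2 (M u *ᵥ ξ)) : g) : Matrix ι ι ℂ) (c s) =
        (fun k => inner ℝ (b k : Matrix ι ι ℂ) (c s * u)) ⬝ᵥ ξ := by
      rw [← b.sum_repr_symm]
      simp only [Submodule.coe_sum, Submodule.coe_smul, sum_inner, real_inner_smul_left, mulVec,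
        dotProduct, M, Matrix.of_apply, Finset.sum_mul]
      rw [Finset.sum_comm]
      refine Finset.sum_congr rfl fun l _ => ?_
      have h4 : inner ℝ (b l : Matrix ι ι ℂ) (c s * u) = inner ℝ (b l * uᴴ) (c s) := by
        rw [inner_mul_right, conjTranspose_conjTranspose]
      rw [h4, ← h1, Finset.sum_mul]
      exact Finset.sum_congr rfl fun k _ => by ring
    rw [h3]
  rw [polarVol, hset, addHaar_preimage_linearMap volume hdet', LinearMap.det_toLin',
    hE.measure_preimage hSm.nullMeasurableSet]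
  gcongr
  rw [← ENNReal.ofReal_ofNat]
  refine ENNReal.ofReal_le_ofReal ?_
  rw [abs_of_pos (by positivity)]
  exact inv_le_of_inv_le₀ (by norm_num) (by linarith)

namespace URep

variable {G : Type*} [Group G] [TopologicalSpace G] [IsTopologicalGroup G] [CompactSpace G]
  (ρ : URep G ι)

theorem isClosed_fix (R : ℝ) :
    IsClosed {p : G × ρ.lie | p.1 ∈ ρ.fix R (p.2 : Matrix ι ι ℂ)} :=
  isClosed_le ((ρ.continuous_Ad.comp (continuous_fst.prodMk
    (continuous_subtype_val.comp continuous_snd))).sub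
    (continuous_subtype_val.comp continuous_snd)).norm continuous_const

theorem isClosed_KK (t : ℕ) (R : ℝ) :
    IsClosed {p : (Fin t → G) × ρ.lie | ∀ j, p.1 j ∈ ρ.fix R (p.2 : Matrix ι ι ℂ)} := by
  rw [Set.ofPred_forall]
  exact isClosed_iInter fun j => (ρ.isClosed_fix R).preimage
    (f := fun p : (Fin t → G) × ρ.lie => (p.1 j, p.2)) (by fun_prop)

variable [MeasurableSpace G] [BorelSpace G] [SecondCountableTopology G]

theorem measurable_KK (t : ℕ) (R : ℝ) : Measurable (ρ.KK (t := t) R) :=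
  measurable_measure_prodMk_left (ρ.isClosed_KK t R).measurableSet

theorem exists_area_bound (hinj : Function.Injective ρ) (hs : IsSimpleLie ρ.lie) (t : ℕ) :
    ∃ (R ε₀ : ℝ) (C : ℝ≥0∞), 0 < ε₀ ∧ C ≠ ⊤ ∧ ∀ (τ : Measure G) [IsProbabilityMeasure τ],
      (∀ k, MeasurePreserving (fun x => k * x * k⁻¹) τ τ) → ∀ (x : G) (ε : ℝ), 0 < ε → ε ≤ ε₀ →
      ∀ l : ℝ≥0∞, l ≠ ⊤ → (Measure.pi fun _ : Fin t => τ)
        {y | (List.ofFn y).prod ∈ ρ.ball x ε ∧ ρ.KK R y ≤ l} ≤
          C * l * ENNReal.ofReal (ε ^ finrank ℝ ρ.lie) := by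
  obtain ⟨m, X, hX⟩ := ρ.exists_isFrame hs
  obtain ⟨δ, C₀, hδ, hδ1, hC₀, hgood⟩ := ρ.exists_good_frame hinj hX
  obtain ⟨ε₀, hε₀, hpol⟩ := exists_polarVol_le ρ.lie (Fin t × Fin m)
  obtain ⟨C₁, hC₁, harea⟩ := area_trig (Fin t × Fin m) (finrank ℝ ρ.lie)
    (t * (2 * (m * finrank ℂ (Matrix ι ι ℂ))))
  set b := stdOrthonormalBasis ℝ ρ.lie with hb
  set q := volume (Metric.closedBall (0 : Fin t × Fin m → ℝ) δ) with hq
  have hq0 : q ≠ 0 := (Metric.measure_closedBall_pos volume _ hδ).ne'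
  have hqtop : q ≠ ⊤ := measure_closedBall_lt_top.ne
  set q₁ := volume (Metric.closedBall (0 : Fin (finrank ℝ ρ.lie) → ℝ) 1) with hq₁
  have hq₁top : q₁ ≠ ⊤ := measure_closedBall_lt_top.ne
  refine ⟨(2 * t + 1) * C₀, ε₀, C₁ * 2 * q₁ * q⁻¹, hε₀, by finiteness, ?_⟩
  intro τ _ hτ x ε hε hεε l hl
  set E : Set (Fin t → G) :=
    {y | (List.ofFn y).prod ∈ ρ.ball x ε ∧ ρ.KK ((2 * t + 1) * C₀) y ≤ l} with hE
  have hEm : MeasurableSet E :=
    (continuous_prod_ofFn.measurable (ρ.isClosed_ball x ε).measurableSet).inter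
      (measurableSet_le (ρ.measurable_KK t _) measurable_const)
  set W : Set ((Fin t × Fin m → ℝ) × (Fin t → G)) :=
    {p | p.1 ∈ Metric.closedBall 0 δ ∧ ρ.tw X p.2 p.1 ∈ E} with hW
  have hWm : MeasurableSet W := (measurable_fst measurableSet_closedBall).inter
    ((ρ.continuous_tw hinj hX.mem).measurable hEm)
  set P := (Measure.pi fun _ : Fin t => τ) with hP
  have h1 : P E * q ≤ (volume.prod P) W := by
    rw [Measure.prod_apply hWm, hq, ← setLIntegral_const,
      ← lintegral_indicator measurableSet_closedBall]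
    refine lintegral_mono fun θ => ?_
    by_cases hθ : θ ∈ Metric.closedBall (0 : Fin t × Fin m → ℝ) δ
    · rw [Set.indicator_of_mem hθ]
      have h := measurePreserving_pi (fun _ : Fin t => τ) (fun _ : Fin t => τ)
        fun j => hτ (ρ.cw X fun i => θ (j, i))
      rw [← h.measure_preimage hEm.nullMeasurableSet]
      exact measure_mono fun y hy => ⟨hθ, hy⟩
    · rw [Set.indicator_of_notMem hθ]; exact zero_le
  have h2 : (volume.prod P) W ≤
      C₁ * (2 * l) * (ENNReal.ofReal (ε ^ finrank ℝ ρ.lie) * q₁) := by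
    rw [Measure.prod_apply_symm hWm]
    refine (lintegral_mono (g := fun _ =>
      C₁ * (2 * l) * (ENNReal.ofReal (ε ^ finrank ℝ ρ.lie) * q₁)) fun y => ?_).trans (by simp)
    have hT : ENNReal.ofReal (ε ^ finrank ℝ ρ.lie) * q₁ =
        volume (Metric.closedBall (0 : Fin (finrank ℝ ρ.lie) → ℝ) ε) := by
      rw [addHaar_closedBall' volume _ hε.le]; simp [hq₁]
    have hu : ∀ θ ∈ (fun θ => (θ, y)) ⁻¹' W,
        ‖ρ (List.ofFn (ρ.tw X y θ)).prod * ρ x⁻¹ - 1‖ ≤ ε := by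
      intro θ hθ
      have h3 : ‖ρ (List.ofFn (ρ.tw X y θ)).prod - ρ x‖ ≤ ε := hθ.2.1
      rwa [← ρ.norm_mul_right x⁻¹, Matrix.sub_mul, ρ.mul_inv] at h3
    rw [hT]
    refine harea
      (fun θ k => inner ℝ (b k : Matrix ι ι ℂ) (ρ (List.ofFn (ρ.tw X y θ)).prod * ρ x⁻¹ - 1))
      (fun θ s k => inner ℝ (b k : Matrix ι ι ℂ)
        (ρ.col X y θ s * (ρ (List.ofFn (ρ.tw X y θ)).prod * ρ x⁻¹))) (fun k => ?_) (fun θ s => ?_)
      _ _ (measurable_prodMk_right hWm) measurableSet_closedBall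
      (fun θ hθ => Metric.closedBall_subset_closedBall hδ1 hθ.1) (fun θ hθ => ?_) _
      (by finiteness) fun θ hθ => ?_
    · exact (((ρ.MT_prod_tw hX y).mul (MT.const 0 _)).sub (MT.const _ _)).inner _
    · refine hasDerivAt_pi.2 fun k => ?_
      have h3 := ((ρ.hasDerivAt_prod_tw hinj hX.mem y θ s).mul_const (ρ x⁻¹)).sub_const 1
      have h4 := (innerSL ℝ (b k : Matrix ι ι ℂ)).hasFDerivAt.comp_hasDerivAt (0 : ℝ) h3
      rw [Matrix.mul_assoc] at h4
      exact h4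
    · rw [mem_closedBall_zero_iff, pi_norm_le_iff_of_nonneg hε.le]
      intro k
      refine (norm_inner_le_norm (𝕜 := ℝ) _ _).trans ?_
      have : ‖(b k : Matrix ι ι ℂ)‖ = 1 := b.orthonormal.1 k
      rw [this, one_mul]
      exact hu θ hθ
    · refine (hpol _ ((hu θ hθ).trans hεε) _ (ρ.col_mem hX.mem y θ)).trans ?_
      refine mul_le_mul_right (le_trans (measure_mono fun ζ hζ j => ?_) hθ.2.2) _
      refine ρ.norm_Ad_sub_le _ _ hC₀.le (fun j => ?_) j
      refine hgood (fun i => θ (j, i)) ?_ _ (ρ.lie.sub_mem (ρ.Ad_mem_lie _ ζ.2)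
        (ρ.Ad_mem_lie _ (ρ.Ad_mem_lie _ ζ.2))) fun i => ?_
      · refine (pi_norm_le_iff_of_nonneg hδ.le).2 fun i => ?_
        exact (norm_le_pi_norm θ _).trans (mem_closedBall_zero_iff.1 hθ.1)
      · have h3 := hζ (j, i)
        rw [col, real_inner_comm, inner_Ad, inner_sub_left, inner_Ad _ (ρ.tw X y θ j),
          ← inner_sub_right, real_inner_comm] at h3
        exact h3
  have h3 := h1.trans h2
  rw [← ENNReal.le_div_iff_mul_le (Or.inl hq0) (Or.inl hqtop)] at h3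
  refine h3.trans (le_of_eq ?_)
  rw [div_eq_mul_inv]; ring

/-- The analytic core: integrability of the small-ball function gives a bounded density. -/
theorem convPow_le_of_integrable [T2Space G] (hinj : Function.Injective ρ)
    (hs : IsSimpleLie ρ.lie) (μ : Measure G) [μ.IsHaarMeasure] (τ : Measure G)
    [IsProbabilityMeasure τ] (hτ : ∀ k, MeasurePreserving (fun x => k * x * k⁻¹) τ τ) (t : ℕ)
    (hint : ∀ R : ℝ, ∫⁻ ξ : ρ.lie, τ (ρ.fix R ξ) ^ t ≠ ⊤) :
    ∃ M : ℝ≥0∞, M ≠ ⊤ ∧ convPow τ (t + t) ≤ M • μ := by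
  obtain ⟨R, ε₀, C, hε₀, hC, h⟩ := ρ.exists_area_bound hinj hs t
  set P := (Measure.pi fun _ : Fin t => τ) with hP
  have hK : ∫⁻ y, ρ.KK R y ∂P = ∫⁻ ξ : ρ.lie, τ (ρ.fix R ξ) ^ t := by
    have hm := (ρ.isClosed_KK t R).measurableSet
    refine (Measure.prod_apply hm).symm.trans ((Measure.prod_apply_symm hm).trans ?_)
    refine lintegral_congr fun ξ => ?_
    have : (fun y : Fin t → G => (y, ξ)) ⁻¹'
        {p : (Fin t → G) × ρ.lie | ∀ j, p.1 j ∈ ρ.fix R (p.2 : Matrix ι ι ℂ)} =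
        Set.univ.pi fun _ => ρ.fix R ξ := by ext y; simp
    rw [this, hP, Measure.pi_pi]; simp
  have hKtop : ∫⁻ y, ρ.KK R y ∂P ≠ ⊤ := hK ▸ hint R
  have hae := ae_lt_top (ρ.measurable_KK t R) hKtop
  refine ρ.le_smul_of_ball hinj μ _ (C := 2 * C * ∫⁻ y, ρ.KK R y ∂P) (by finiteness) hε₀
    fun x ε hε hεε => ?_
  have hF : Measurable fun y : Fin t → G => (List.ofFn y).prod := continuous_prod_ofFn.measurable
  have hB := (ρ.isClosed_ball x ε).measurableSet
  rw [convPow_add, convPow_eq_map, mconv, map_prod_map _ _ hF hF, map_map (by fun_prop)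
    (hF.prodMap hF), map_apply (measurable_mul.comp (hF.prodMap hF)) hB]
  set A := ((fun p : G × G => p.1 * p.2) ∘ Prod.map (fun y : Fin t → G => (List.ofFn y).prod)
    fun y : Fin t → G => (List.ofFn y).prod) ⁻¹' ρ.ball x ε with hA
  have hAm : MeasurableSet A := (measurable_mul.comp (hF.prodMap hF)) hB
  have hKm := ρ.measurable_KK t R
  set A₁ := A ∩ {p | ρ.KK R p.1 ≤ ρ.KK R p.2}
  set A₂ := A ∩ {p | ρ.KK R p.2 ≤ ρ.KK R p.1}
  have hA₁ : MeasurableSet A₁ := hAm.inter (measurableSet_le (by fun_prop) (by fun_prop))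
  have hA₂ : MeasurableSet A₂ := hAm.inter (measurableSet_le (by fun_prop) (by fun_prop))
  have hsub : A ⊆ A₁ ∪ A₂ := fun p hp =>
    (le_total (ρ.KK R p.1) (ρ.KK R p.2)).imp (fun h => ⟨hp, h⟩) fun h => ⟨hp, h⟩
  have hint' : ∫⁻ y, C * ρ.KK R y * ENNReal.ofReal (ε ^ finrank ℝ ρ.lie) ∂P =
      C * (∫⁻ y, ρ.KK R y ∂P) * ENNReal.ofReal (ε ^ finrank ℝ ρ.lie) := by
    rw [lintegral_mul_const _ (by fun_prop), lintegral_const_mul _ hKm]
  have h1 : (P.prod P) A₁ ≤ C * (∫⁻ y, ρ.KK R y ∂P) * ENNReal.ofReal (ε ^ finrank ℝ ρ.lie) := by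
    rw [Measure.prod_apply_symm hA₁, ← hint']
    refine lintegral_mono_ae ?_
    filter_upwards [hae] with y hy
    refine le_trans (measure_mono fun z hz => ?_) (h τ hτ (x * (List.ofFn y).prod⁻¹) ε hε hεε _ hy.ne)
    exact ⟨ρ.mul_mem_ball_right.1 hz.1, hz.2⟩
  have h2 : (P.prod P) A₂ ≤ C * (∫⁻ y, ρ.KK R y ∂P) * ENNReal.ofReal (ε ^ finrank ℝ ρ.lie) := by
    rw [Measure.prod_apply hA₂, ← hint']
    refine lintegral_mono_ae ?_
    filter_upwards [hae] with y hy
    refine le_trans (measure_mono fun z hz => ?_) (h τ hτ ((List.ofFn y).prod⁻¹ * x) ε hε hεε _ hy.ne)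
    exact ⟨ρ.mul_mem_ball_left.1 hz.1, hz.2⟩
  refine (measure_mono hsub).trans ((measure_union_le _ _).trans ((add_le_add h1 h2).trans
    (le_of_eq ?_)))
  ring

end URep

end

end Pool.Agent.Lib.MP_775e5c_al
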