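import Mathlib

/-!
Compact matrix Lie algebras in elementary terms, and the compact classical Lie algebras.
-/

namespace Pool.Agent.Lib.MP_775e5c_al

open Matrix

variable {ι κ : Type} [Fintype ι] [DecidableEq ι] [Fintype κ] [DecidableEq κ]

/-- A real subspace of skew-Hermitian matrices closed under commutators. -/
structure IsCompactLie (g : Submodule ℝ (Matrix ι ι ℂ)) : Prop where
  skew : ∀ X ∈ g, Xᴴ = -X
  lie_mem : ∀ X ∈ g, ∀ Y ∈ g, X * Y - Y * X ∈ g

/-- `a` is an ideal of `g`. -/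
def IsIdealIn (a g : Submodule ℝ (Matrix ι ι ℂ)) : Prop :=
  a ≤ g ∧ ∀ X ∈ g, ∀ Y ∈ a, X * Y - Y * X ∈ a

/-- `g` is simple: not abelian, and its only ideals are `0` and `g`. -/
structure IsSimpleLie (g : Submodule ℝ (Matrix ι ι ℂ)) : Prop where
  nonabelian : ∃ X ∈ g, ∃ Y ∈ g, X * Y ≠ Y * X
  ideal : ∀ a, IsIdealIn a g → a = ⊥ ∨ a = g

/-- `su(n)`. -/
def suSet (κ : Type) [Fintype κ] : Set (Matrix κ κ ℂ) := {X | Xᴴ = -X ∧ X.trace = 0}

/-- The skew-Hermitian matrices preserving the bilinear form with matrix `J`: for `J` unitary this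
is `so(n)` when `J` is symmetric and the compact symplectic algebra when `J` is skew. -/
def formSet (J : Matrix κ κ ℂ) : Set (Matrix κ κ ℂ) := {X | Xᴴ = -X ∧ Xᵀ * J + J * X = 0}

/-- `s` is one of the compact classical Lie algebras in its natural representation. -/
def IsClassical (s : Set (Matrix κ κ ℂ)) : Prop :=
  s = suSet κ ∨ ∃ J : Matrix κ κ ℂ, Jᴴ * J = 1 ∧ (Jᵀ = J ∨ Jᵀ = -J) ∧ s = formSet J

/-- `ψ` restricts to an isomorphism of Lie algebras from `g` onto a compact classical Lie algebra. -/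
structure IsClassicalIso (g : Submodule ℝ (Matrix ι ι ℂ))
    (ψ : Matrix ι ι ℂ →ₗ[ℝ] Matrix κ κ ℂ) : Prop where
  inj : ∀ X ∈ g, ψ X = 0 → X = 0
  map_lie : ∀ X ∈ g, ∀ Y ∈ g, ψ (X * Y - Y * X) = ψ X * ψ Y - ψ Y * ψ X
  classical : IsClassical (ψ '' (g : Set (Matrix ι ι ℂ)))

/-- The large-rank part of the Killing-Cartan classification of compact simple Lie algebras. -/
def LargeClassification : Prop :=
  ∃ d₀ : ℕ, ∀ (N : ℕ) (g : Submodule ℝ (Matrix (Fin N) (Fin N) ℂ)), IsCompactLie g →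
    IsSimpleLie g → Module.finrank ℝ g ≤ d₀ ∨
      ∃ (κ : Type) (_ : Fintype κ) (_ : DecidableEq κ)
        (ψ : Matrix (Fin N) (Fin N) ℂ →ₗ[ℝ] Matrix κ κ ℂ), IsClassicalIso g ψ

end Pool.Agent.Lib.MP_775e5c_al
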