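import Mathlib
import Pool.Agent.Lib.MP_775e5c_al.Classical

/-!
Hilbert-Schmidt geometry of complex matrices and unitary representations of topological groups.
-/

namespace Pool.Agent.Lib.MP_775e5c_al

open Matrix NormedSpace

noncomputable section

variable {ι : Type} [Fintype ι] [DecidableEq ι]

/-- The Hilbert-Schmidt norm. -/
@[irreducible] def hsNorm : Matrix ι ι ℂ → ℝ := Matrix.frobeniusNormedRing.toNorm.norm

/-- The Hilbert-Schmidt distance. -/
@[irreducible] def hsDist : Matrix ι ι ℂ → Matrix ι ι ℂ → ℝ :=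
  Matrix.frobeniusNormedRing.toMetricSpace.toDist.dist

/-- The Hilbert-Schmidt extended distance. -/
@[irreducible] def hsEDist : Matrix ι ι ℂ → Matrix ι ι ℂ → ENNReal :=
  Matrix.frobeniusNormedRing.toMetricSpace.toPseudoMetricSpace.edist

theorem hsNorm_eq : hsNorm (ι := ι) = Matrix.frobeniusNormedRing.toNorm.norm := by
  unfold hsNorm; rfl

theorem hsDist_eq : hsDist (ι := ι) = Matrix.frobeniusNormedRing.toMetricSpace.toDist.dist := by
  unfold hsDist; rfl

theorem hsEDist_eq :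
    hsEDist (ι := ι) = Matrix.frobeniusNormedRing.toMetricSpace.toPseudoMetricSpace.edist := by
  unfold hsEDist; rfl

scoped instance instNormedRing : NormedRing (Matrix ι ι ℂ) where
  toRing := Matrix.instRing
  norm := hsNorm
  dist := hsDist
  edist := hsEDist
  toUniformSpace := Matrix.instUniformSpace ι ι ℂ
  toBornology := Matrix.frobeniusNormedRing.toMetricSpace.toBornology
  dist_self := by rw [hsDist_eq]; exact Matrix.frobeniusNormedRing.dist_self
  dist_comm := by rw [hsDist_eq]; exact Matrix.frobeniusNormedRing.dist_comm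
  dist_triangle := by rw [hsDist_eq]; exact Matrix.frobeniusNormedRing.dist_triangle
  edist_dist := by rw [hsDist_eq, hsEDist_eq]; exact Matrix.frobeniusNormedRing.edist_dist
  uniformity_dist := by rw [hsDist_eq]; exact Matrix.frobeniusNormedRing.uniformity_dist
  cobounded_sets := by rw [hsDist_eq]; exact Matrix.frobeniusNormedRing.cobounded_sets
  eq_of_dist_eq_zero := by
    rw [hsDist_eq]; exact Matrix.frobeniusNormedRing.eq_of_dist_eq_zero
  dist_eq := by rw [hsDist_eq, hsNorm_eq]; exact Matrix.frobeniusNormedRing.dist_eq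
  norm_mul_le := by rw [hsNorm_eq]; exact Matrix.frobeniusNormedRing.norm_mul_le

theorem norm_eq_frobenius (A : Matrix ι ι ℂ) :
    ‖A‖ = Matrix.frobeniusNormedRing.toNorm.norm A := congrFun hsNorm_eq A

scoped instance instNormedAlgebraReal : NormedAlgebra ℝ (Matrix ι ι ℂ) where
  toAlgebra := Matrix.instAlgebra
  norm_smul_le r A := by
    rw [norm_eq_frobenius, norm_eq_frobenius]
    exact (Matrix.frobeniusNormedAlgebra (R := ℝ)).norm_smul_le r A

scoped instance instNormedAlgebraRat : NormedAlgebra ℚ (Matrix ι ι ℂ) where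
  toAlgebra := Matrix.instAlgebra
  norm_smul_le r A := by
    rw [norm_eq_frobenius, norm_eq_frobenius]
    exact (Matrix.frobeniusNormedAlgebra (R := ℚ)).norm_smul_le r A

scoped instance instNormedAlgebraComplex : NormedAlgebra ℂ (Matrix ι ι ℂ) where
  toAlgebra := Matrix.instAlgebra
  norm_smul_le r A := by
    rw [norm_eq_frobenius, norm_eq_frobenius]
    exact (Matrix.frobeniusNormedAlgebra (R := ℂ)).norm_smul_le r A

scoped instance (priority := 10000) instNormedSpaceReal : NormedSpace ℝ (Matrix ι ι ℂ) :=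
  NormedAlgebra.toNormedSpace _

scoped instance (priority := 10000) instUnif : UniformSpace (Matrix ι ι ℂ) :=
  PseudoMetricSpace.toUniformSpace

scoped instance (priority := 10000) instTop : TopologicalSpace (Matrix ι ι ℂ) :=
  UniformSpace.toTopologicalSpace

scoped instance instComplete : CompleteSpace (Matrix ι ι ℂ) := FiniteDimensional.complete ℝ _

scoped instance instProper : ProperSpace (Matrix ι ι ℂ) := FiniteDimensional.proper ℝ _

scoped instance instContStar : ContinuousStar (Matrix ι ι ℂ) := ⟨continuous_star⟩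

theorem norm_sq_eq_sum (A : Matrix ι ι ℂ) : ‖A‖ ^ 2 = ∑ i, ∑ j, ‖A i j‖ ^ 2 := by
  have h : ‖A‖ = (∑ i, ∑ j, ‖A i j‖ ^ (2 : ℝ)) ^ (1 / 2 : ℝ) :=
    (norm_eq_frobenius A).trans (Matrix.frobenius_norm_def A)
  rw [h, ← Real.rpow_natCast, ← Real.rpow_mul (by positivity)]
  norm_num

theorem norm_sq_eq_re_trace (A : Matrix ι ι ℂ) : ‖A‖ ^ 2 = (Aᴴ * A).trace.re := by
  rw [norm_sq_eq_sum, Matrix.trace, Complex.re_sum, Finset.sum_comm]
  refine Finset.sum_congr rfl fun j _ => ?_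
  rw [Matrix.diag_apply, Matrix.mul_apply, Complex.re_sum]
  refine Finset.sum_congr rfl fun i _ => ?_
  rw [Matrix.conjTranspose_apply, Complex.star_def, Complex.conj_mul']
  norm_cast

scoped instance instInner : InnerProductSpace ℝ (Matrix ι ι ℂ) where
  toNormedSpace := instNormedSpaceReal
  inner A B := (Aᴴ * B).trace.re
  norm_sq_eq_re_inner A := norm_sq_eq_re_trace A
  conj_inner_symm A B := by
    have : (Bᴴ * A).trace = star (Aᴴ * B).trace := by
      rw [← Matrix.trace_conjTranspose, Matrix.conjTranspose_mul, Matrix.conjTranspose_conjTranspose]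
    simp [this]
  add_left A B C := by simp [Matrix.add_mul]
  smul_left A B r := by simp

scoped instance instMeas : MeasurableSpace (Matrix ι ι ℂ) := borel _

scoped instance instBorel : BorelSpace (Matrix ι ι ℂ) := ⟨rfl⟩

theorem inner_def (A B : Matrix ι ι ℂ) : inner ℝ A B = (Aᴴ * B).trace.re := rfl

theorem norm_unitary_mul {U : Matrix ι ι ℂ} (hU : Uᴴ * U = 1) (A : Matrix ι ι ℂ) :
    ‖U * A‖ = ‖A‖ := by
  have : ‖U * A‖ ^ 2 = ‖A‖ ^ 2 := by
    rw [norm_sq_eq_re_trace, norm_sq_eq_re_trace, Matrix.conjTranspose_mul, Matrix.mul_assoc,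
      ← Matrix.mul_assoc Uᴴ, hU, Matrix.one_mul]
  exact (pow_left_inj₀ (norm_nonneg _) (norm_nonneg _) two_ne_zero).1 this

theorem norm_conjTranspose (A : Matrix ι ι ℂ) : ‖Aᴴ‖ = ‖A‖ := by
  rw [norm_eq_frobenius, norm_eq_frobenius]
  exact Matrix.frobenius_norm_conjTranspose A

theorem norm_mul_unitary {U : Matrix ι ι ℂ} (hU : U * Uᴴ = 1) (A : Matrix ι ι ℂ) :
    ‖A * U‖ = ‖A‖ := by
  rw [← norm_conjTranspose, Matrix.conjTranspose_mul, norm_unitary_mul (by simpa),
    norm_conjTranspose]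

theorem norm_entry_le (A : Matrix ι ι ℂ) (i j : ι) : ‖A i j‖ ≤ ‖A‖ := by
  have h : ‖A i j‖ ^ 2 ≤ ‖A‖ ^ 2 := by
    rw [norm_sq_eq_sum]
    calc ‖A i j‖ ^ 2 ≤ ∑ j, ‖A i j‖ ^ 2 :=
          Finset.single_le_sum (f := fun j => ‖A i j‖ ^ 2) (fun _ _ => by positivity)
            (Finset.mem_univ j)
      _ ≤ _ := Finset.single_le_sum (f := fun i => ∑ j, ‖A i j‖ ^ 2) (fun _ _ => by positivity)
            (Finset.mem_univ i)
  exact (pow_le_pow_iff_left₀ (norm_nonneg _) (norm_nonneg _) two_ne_zero).1 h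

theorem exp_skew_conjTranspose {X : Matrix ι ι ℂ} (hX : Xᴴ = -X) : (exp X)ᴴ = exp (-X) := by
  rw [← hX]; exact (Matrix.exp_conjTranspose X).symm

theorem exp_mul_exp_neg (X : Matrix ι ι ℂ) : exp X * exp (-X) = 1 := by
  rw [← NormedSpace.exp_add_of_commute (Commute.refl X).neg_right, add_neg_cancel, exp_zero]

theorem exp_neg_mul_exp (X : Matrix ι ι ℂ) : exp (-X) * exp X = 1 := by
  rw [← NormedSpace.exp_add_of_commute (Commute.refl X).neg_left, neg_add_cancel, exp_zero]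

theorem exp_add_smul (X : Matrix ι ι ℂ) (s t : ℝ) :
    exp ((s + t) • X) = exp (s • X) * exp (t • X) := by
  rw [add_smul, NormedSpace.exp_add_of_commute]
  exact ((Commute.refl X).smul_left s).smul_right t

theorem hasDerivAt_exp_smul (X : Matrix ι ι ℂ) (t : ℝ) :
    HasDerivAt (fun s : ℝ => exp (s • X)) (exp (t • X) * X) t :=
  hasDerivAt_exp_smul_const X t

theorem hasDerivAt_exp_smul' (X : Matrix ι ι ℂ) (t : ℝ) :
    HasDerivAt (fun s : ℝ => exp (s • X)) (X * exp (t • X)) t :=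
  hasDerivAt_exp_smul_const' X t

/-- A continuous unitary matrix representation. -/
structure URep (G : Type*) [Group G] [TopologicalSpace G] (ι : Type) [Fintype ι]
    [DecidableEq ι] where
  hom : G →* Matrix ι ι ℂ
  cont : Continuous hom
  star_eq : ∀ g, (hom g)ᴴ = hom g⁻¹

namespace URep

variable {G : Type*} [Group G] [TopologicalSpace G] (ρ : URep G ι)

instance : CoeFun (URep G ι) (fun _ => G → Matrix ι ι ℂ) := ⟨fun ρ => ρ.hom⟩

theorem map_mul (g h : G) : ρ (g * h) = ρ g * ρ h := ρ.hom.map_mul g h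

theorem map_one : ρ 1 = 1 := ρ.hom.map_one

theorem inv_mul (g : G) : ρ g⁻¹ * ρ g = 1 := by rw [← ρ.map_mul, inv_mul_cancel, ρ.map_one]

theorem mul_inv (g : G) : ρ g * ρ g⁻¹ = 1 := by rw [← ρ.map_mul, mul_inv_cancel, ρ.map_one]

theorem norm_mul_left (g : G) (A : Matrix ι ι ℂ) : ‖ρ g * A‖ = ‖A‖ :=
  norm_unitary_mul (by rw [ρ.star_eq, ρ.inv_mul]) A

theorem norm_mul_right (g : G) (A : Matrix ι ι ℂ) : ‖A * ρ g‖ = ‖A‖ :=
  norm_mul_unitary (by rw [ρ.star_eq, ρ.mul_inv]) A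

/-- The adjoint action on all matrices. -/
def Ad (g : G) (X : Matrix ι ι ℂ) : Matrix ι ι ℂ := ρ g * X * ρ g⁻¹

theorem Ad_mul (g h : G) (X : Matrix ι ι ℂ) : ρ.Ad (g * h) X = ρ.Ad g (ρ.Ad h X) := by
  simp only [Ad, _root_.mul_inv_rev, ρ.map_mul, Matrix.mul_assoc]

theorem Ad_one (X : Matrix ι ι ℂ) : ρ.Ad 1 X = X := by
  simp [Ad, ρ.map_one]

theorem Ad_inv_Ad (g : G) (X : Matrix ι ι ℂ) : ρ.Ad g⁻¹ (ρ.Ad g X) = X := by
  rw [← Ad_mul, inv_mul_cancel, Ad_one]

theorem Ad_Ad_inv (g : G) (X : Matrix ι ι ℂ) : ρ.Ad g (ρ.Ad g⁻¹ X) = X := by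
  rw [← Ad_mul, mul_inv_cancel, Ad_one]

theorem norm_Ad (g : G) (X : Matrix ι ι ℂ) : ‖ρ.Ad g X‖ = ‖X‖ := by
  rw [Ad, norm_mul_right, norm_mul_left]

theorem Ad_add (g : G) (X Y : Matrix ι ι ℂ) : ρ.Ad g (X + Y) = ρ.Ad g X + ρ.Ad g Y := by
  simp only [Ad, Matrix.mul_add, Matrix.add_mul]

theorem Ad_sub (g : G) (X Y : Matrix ι ι ℂ) : ρ.Ad g (X - Y) = ρ.Ad g X - ρ.Ad g Y := by
  simp only [Ad, Matrix.mul_sub, Matrix.sub_mul]

theorem Ad_smul (g : G) (c : ℝ) (X : Matrix ι ι ℂ) : ρ.Ad g (c • X) = c • ρ.Ad g X := by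
  simp only [Ad, Matrix.mul_smul, Matrix.smul_mul]

theorem Ad_csmul (g : G) (c : ℂ) (X : Matrix ι ι ℂ) : ρ.Ad g (c • X) = c • ρ.Ad g X := by
  simp only [Ad, Matrix.mul_smul, Matrix.smul_mul]

theorem Ad_zero (g : G) : ρ.Ad g 0 = 0 := by simp [Ad]

theorem Ad_neg (g : G) (X : Matrix ι ι ℂ) : ρ.Ad g (-X) = -ρ.Ad g X := by simp [Ad]

theorem Ad_mul_Ad (g : G) (X Y : Matrix ι ι ℂ) : ρ.Ad g X * ρ.Ad g Y = ρ.Ad g (X * Y) := by
  simp only [Ad, Matrix.mul_assoc]
  rw [← Matrix.mul_assoc (ρ g⁻¹), ρ.inv_mul, Matrix.one_mul]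

theorem Ad_exp (g : G) (X : Matrix ι ι ℂ) : ρ.Ad g (exp X) = exp (ρ.Ad g X) := by
  have h : SemiconjBy (ρ g) X (ρ.Ad g X) := by
    simp only [SemiconjBy, Ad, Matrix.mul_assoc, ρ.inv_mul, Matrix.mul_one]
  have h2 := h.exp_right
  simp only [SemiconjBy] at h2
  rw [Ad, h2, Matrix.mul_assoc, ρ.mul_inv, Matrix.mul_one]

theorem map_conj (g h : G) : ρ (g * h * g⁻¹) = ρ.Ad g (ρ h) := by
  simp only [Ad, ρ.map_mul]

theorem inner_Ad (g : G) (X Y : Matrix ι ι ℂ) :
    inner ℝ (ρ.Ad g X) Y = inner ℝ X (ρ.Ad g⁻¹ Y) := by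
  simp only [inner_def, Ad, Matrix.conjTranspose_mul, ρ.star_eq, inv_inv, Matrix.mul_assoc]
  rw [Matrix.trace_mul_comm (ρ g)]
  simp only [Matrix.mul_assoc]

theorem Ad_eq_self_iff (g : G) (X : Matrix ι ι ℂ) : ρ.Ad g X = X ↔ ρ g * X = X * ρ g := by
  constructor
  · intro h
    conv_rhs => rw [← h]
    rw [Ad, Matrix.mul_assoc, ρ.inv_mul, Matrix.mul_one]
  · intro h
    rw [Ad, h, Matrix.mul_assoc, ρ.mul_inv, Matrix.mul_one]

theorem continuous_Ad [IsTopologicalGroup G] :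
    Continuous fun p : G × Matrix ι ι ℂ => ρ.Ad p.1 p.2 := by
  have h := ρ.cont
  unfold Ad
  exact ((h.comp continuous_fst).mul continuous_snd).mul (h.comp continuous_fst.inv)

/-- The adjoint action as a real-linear map. -/
def AdL (g : G) : Matrix ι ι ℂ →ₗ[ℝ] Matrix ι ι ℂ where
  toFun := ρ.Ad g
  map_add' := ρ.Ad_add g
  map_smul' := ρ.Ad_smul g

/-- Restriction along a continuous homomorphism. -/
def comp {H : Type*} [Group H] [TopologicalSpace H] (f : H →* G) (hf : Continuous f) :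
    URep H ι where
  hom := ρ.hom.comp f
  cont := ρ.cont.comp hf
  star_eq h := by simp [ρ.star_eq]

/-- The set of infinitesimal generators of one-parameter groups in the image. -/
def lieSet : Set (Matrix ι ι ℂ) := {X | ∀ t : ℝ, ∃ g, ρ g = exp (t • X)}

end URep

end

end Pool.Agent.Lib.MP_775e5c_al
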