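import Mathlib

/-!
Complex Lie algebras with a compact conjugation, Chevalley generators adapted to it, and the
isomorphism theorem for such generators.
-/

set_option autoImplicit false

namespace Pool.Agent.Lib.MP_775e5c_al

open LieAlgebra LieModule Set Function LieSubalgebra
open scoped ComplexOrder ComplexConjugate

/-- A conjugate-linear anti-involution together with an invariant form making it positive. -/
structure Cpt (L : Type) [LieRing L] [LieAlgebra ℂ L] where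
  σ : L →ₛₗ[starRingEnd ℂ] L
  B : LinearMap.BilinForm ℂ L
  σσ : ∀ x, σ (σ x) = x
  σ_lie : ∀ x y, σ ⁅x, y⁆ = ⁅σ y, σ x⁆
  symm : ∀ x y, B x y = B y x
  inv : ∀ x y z, B ⁅x, y⁆ z = B x ⁅y, z⁆
  pos : ∀ x, x ≠ 0 → 0 < B x (σ x)

namespace Cpt

variable {L : Type} [LieRing L] [LieAlgebra ℂ L] (c : Cpt L)

lemma σ_smul (a : ℂ) (x : L) : c.σ (a • x) = conj a • c.σ x := c.σ.map_smulₛₗ a x

lemma eq_zero {x : L} (h : c.B x (c.σ x) = 0) : x = 0 := by
  by_contra hx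
  exact (c.pos x hx).ne' h

lemma nonneg (x : L) : 0 ≤ c.B x (c.σ x) := by
  by_cases hx : x = 0
  · simp [hx]
  · exact (c.pos x hx).le

lemma σ_ne {x : L} (h : x ≠ 0) : c.σ x ≠ 0 := fun h' => h (by rw [← c.σσ x, h', map_zero])

lemma adj (x y z : L) : c.B ⁅x, y⁆ (c.σ z) = c.B y (c.σ ⁅c.σ x, z⁆) := by
  rw [c.σ_lie, c.σσ, ← lie_skew x y, map_neg, LinearMap.neg_apply, c.inv, ← lie_skew (c.σ z) x,
    map_neg]

lemma lie_σ_of_eig {h x : L} {a a' : ℂ} (hx : x ≠ 0) (h1 : ⁅h, x⁆ = a • x)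
    (h2 : ⁅c.σ h, x⁆ = a' • x) : a = conj a' ∧ ⁅h, c.σ x⁆ = -a • c.σ x := by
  have e1 : a = conj a' := by
    have := c.adj h x x
    rw [h1, h2, c.σ_smul, map_smul, map_smul, LinearMap.smul_apply, smul_eq_mul, smul_eq_mul]
      at this
    exact mul_right_cancel₀ (c.pos x hx).ne' this
  refine ⟨e1, ?_⟩
  have := congrArg c.σ h2
  rw [c.σ_lie, c.σσ, c.σ_smul, ← e1] at this
  rw [← lie_skew, this, neg_smul]

lemma σ_h (e : L) : c.σ ⁅e, c.σ e⁆ = ⁅e, c.σ e⁆ := by rw [c.σ_lie, c.σσ]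

lemma norm_sub (e z : L) (a : ℂ) (hz : ⁅⁅e, c.σ e⁆, z⁆ = a • z) :
    c.B ⁅c.σ e, z⁆ (c.σ ⁅c.σ e, z⁆) - c.B ⁅e, z⁆ (c.σ ⁅e, z⁆) = conj a * c.B z (c.σ z) := by
  rw [c.adj, c.adj, c.σσ, ← map_sub, ← map_sub, ← lie_lie, hz, c.σ_smul, map_smul, smul_eq_mul]

/-- Restriction to a stable subalgebra. -/
def sub (D : LieSubalgebra ℂ L) (hD : ∀ x ∈ D, c.σ x ∈ D) : Cpt D where
  σ := { toFun := fun x => ⟨c.σ x, hD _ x.2⟩
         map_add' := fun x y => Subtype.ext (by simp)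
         map_smul' := fun a x => Subtype.ext (by simp) }
  B := c.B.compl₁₂ D.incl.toLinearMap D.incl.toLinearMap
  σσ := fun x => Subtype.ext (c.σσ x)
  σ_lie := fun x y => Subtype.ext (c.σ_lie x y)
  symm := fun x y => c.symm x y
  inv := fun x y z => c.inv x y z
  pos := fun x hx => c.pos x (fun h => hx (Subtype.ext h))

@[simp] lemma sub_σ (D : LieSubalgebra ℂ L) (hD : ∀ x ∈ D, c.σ x ∈ D) (x : D) :
    (((c.sub D hD).σ x : D) : L) = c.σ x := rfl

variable {L' : Type} [LieRing L'] [LieAlgebra ℂ L'] (c' : Cpt L')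

/-- Product of two structures. -/
noncomputable def prod : Cpt (L × L') where
  σ := { toFun := fun x => (c.σ x.1, c'.σ x.2)
         map_add' := fun x y => by simp
         map_smul' := fun a x => by simp }
  B := c.B.compl₁₂ (LinearMap.fst ℂ L L') (LinearMap.fst ℂ L L') +
    c'.B.compl₁₂ (LinearMap.snd ℂ L L') (LinearMap.snd ℂ L L')
  σσ := fun x => Prod.ext (c.σσ _) (c'.σσ _)
  σ_lie := fun x y => Prod.ext (c.σ_lie _ _) (c'.σ_lie _ _)
  symm := fun x y => by simp [c.symm x.1, c'.symm x.2]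
  inv := fun x y z => by simp [LieAlgebra.Prod.bracket_apply, c.inv, c'.inv]
  pos := fun x hx => by
    change 0 < c.B x.1 (c.σ x.1) + c'.B x.2 (c'.σ x.2)
    by_cases h1 : x.1 = 0
    · have h2 : x.2 ≠ 0 := fun h => hx (Prod.ext h1 h)
      exact add_pos_of_nonneg_of_pos (c.nonneg _) (c'.pos _ h2)
    · exact add_pos_of_pos_of_nonneg (c.pos _ h1) (c'.nonneg _)

@[simp] lemma prod_σ (x : L × L') : (c.prod c').σ x = (c.σ x.1, c'.σ x.2) := rfl

/-- The subalgebra generated by the `e i` and their conjugates. -/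
def gen {ι : Type} (e : ι → L) : LieSubalgebra ℂ L :=
  lieSpan ℂ L (range e ∪ range (fun i => c.σ (e i)))

lemma e_mem_gen {ι : Type} (e : ι → L) (i : ι) : e i ∈ c.gen e :=
  subset_lieSpan (Or.inl ⟨i, rfl⟩)

lemma f_mem_gen {ι : Type} (e : ι → L) (i : ι) : c.σ (e i) ∈ c.gen e :=
  subset_lieSpan (Or.inr ⟨i, rfl⟩)

lemma σ_mem_gen {ι : Type} (e : ι → L) : ∀ x ∈ c.gen e, c.σ x ∈ c.gen e := by
  intro x hx
  induction hx using lieSpan_induction with
  | mem u hu =>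
    rcases hu with ⟨i, rfl⟩ | ⟨i, rfl⟩
    · exact c.f_mem_gen e i
    · simp only [c.σσ]; exact c.e_mem_gen e i
  | zero => simp
  | add u v _ _ hu hv => rw [map_add]; exact add_mem hu hv
  | smul t u _ hu => rw [c.σ_smul]; exact SMulMemClass.smul_mem _ hu
  | lie u v _ _ hu hv => rw [c.σ_lie]; exact lie_mem _ hv hu

lemma map_gen {ι : Type} (e : ι → L) (φ : L →ₗ⁅ℂ⁆ L') (hφ : ∀ x, φ (c.σ x) = c'.σ (φ x)) :
    (c.gen e).map φ = c'.gen (fun i => φ (e i)) := by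
  rw [gen, gen, map_lieSpan, image_union, ← range_comp, ← range_comp]
  congr 3
  ext i
  simp [hφ]

lemma gen_sub {ι : Type} (e : ι → L) :
    (c.sub (c.gen e) (c.σ_mem_gen e)).gen (fun i => ⟨e i, c.e_mem_gen e i⟩) = ⊤ := by
  rw [eq_top_iff]
  intro x _
  have h := (c.sub (c.gen e) (c.σ_mem_gen e)).map_gen c (fun i => ⟨e i, c.e_mem_gen e i⟩)
    (c.gen e).incl (fun _ => rfl)
  have hx : (x : L) ∈ ((c.sub (c.gen e) (c.σ_mem_gen e)).gen
      (fun i => ⟨e i, c.e_mem_gen e i⟩)).map (c.gen e).incl := by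
    rw [h]; exact x.2
  obtain ⟨y, hy, hyx⟩ := hx
  have : y = x := Subtype.ext hyx
  exact this ▸ hy

end Cpt

/-- Chevalley generators `e i`, `f i = σ (e i)` with Cartan matrix `A`. -/
structure SB {L : Type} [LieRing L] [LieAlgebra ℂ L] (c : Cpt L) {ι : Type} [Fintype ι]
    [DecidableEq ι] (A : Matrix ι ι ℤ) (e : ι → L) : Prop where
  ne : ∀ i, e i ≠ 0
  diag : ∀ i, A i i = 2
  det : A.det ≠ 0
  lie_h : ∀ i j, ⁅⁅e j, c.σ (e j)⁆, e i⁆ = (A i j : ℂ) • e i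
  lie_ef : ∀ i j, i ≠ j → ⁅e i, c.σ (e j)⁆ = 0

namespace SB

variable {L : Type} [LieRing L] [LieAlgebra ℂ L] {c : Cpt L} {ι : Type} [Fintype ι]
  [DecidableEq ι] {A : Matrix ι ι ℤ} {e : ι → L}

lemma lie_h_f (s : SB c A e) (i j : ι) :
    ⁅⁅e j, c.σ (e j)⁆, c.σ (e i)⁆ = -(A i j : ℂ) • c.σ (e i) :=
  (c.lie_σ_of_eig (s.ne i) (s.lie_h i j) (by rw [c.σ_h]; exact s.lie_h i j)).2

lemma linInd (s : SB c A e) : LinearIndependent ℂ (fun j => ⁅e j, c.σ (e j)⁆) := by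
  rw [Fintype.linearIndependent_iff]
  intro g hg
  have h1 : ∀ i, ∑ j, (A i j : ℂ) * g j = 0 := by
    intro i
    have := congrArg (fun x => ⁅x, e i⁆) hg
    simp only [sum_lie, smul_lie, s.lie_h, smul_smul, zero_lie, ← Finset.sum_smul] at this
    rw [smul_eq_zero] at this
    simpa [mul_comm] using this.resolve_right (s.ne i)
  have h2 : (A.map (Int.castRingHom ℂ)).det ≠ 0 := by
    rw [← RingHom.mapMatrix_apply, ← RingHom.map_det]
    simpa using s.det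
  have h3 : (A.map (Int.castRingHom ℂ)).mulVec g = 0 := by
    ext i
    simpa [Matrix.mulVec, dotProduct] using h1 i
  exact congrFun (Matrix.eq_zero_of_mulVec_eq_zero h2 h3)

/-- The associated Mathlib basis. -/
noncomputable def toBasis (s : SB c A e) (hg : c.gen e = ⊤) :
    LieAlgebra.Basis ι (lieSpan ℂ L (range (fun j => ⁅e j, c.σ (e j)⁆))) where
  A := A
  h := fun j => ⁅e j, c.σ (e j)⁆
  e := e
  f := fun i => c.σ (e i)
  cartan_eq_lieSpan := rfl
  span_ef := hg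
  linInd := s.linInd
  nondegen := Matrix.nondegenerate_iff_det_ne_zero.2 s.det
  sl2 i :=
    { h_ne_zero := s.linInd.ne_zero i
      lie_e_f := rfl
      lie_h_e_nsmul := by rw [s.lie_h, s.diag]; simp [two_smul]
      lie_h_f_nsmul := by rw [s.lie_h_f, s.diag]; simp [two_smul] }
  lie_h_h i j := by
    rw [leibniz_lie, s.lie_h, s.lie_h_f]
    simp
  lie_h_e i j := by rw [s.lie_h, Int.cast_smul_eq_zsmul]
  lie_h_f i j := by rw [s.lie_h_f, ← Int.cast_neg, Int.cast_smul_eq_zsmul]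
  lie_e_f_ne := s.lie_ef

lemma injective [FiniteDimensional ℂ L] (s : SB c A e) (hg : c.gen e = ⊤) {L' : Type}
    [LieRing L'] [LieAlgebra ℂ L'] (φ : L →ₗ⁅ℂ⁆ L')
    (hφ : LinearIndependent ℂ (fun j => φ ⁅e j, c.σ (e j)⁆)) : Injective φ := by
  set H := lieSpan ℂ L (range (fun j => ⁅e j, c.σ (e j)⁆)) with hH
  let b := s.toBasis hg
  have hC : H.IsCartanSubalgebra := b.isCartanSubalgebra
  have hab : IsLieAbelian H := b.isLieAbelian_cartan
  have hspan : ∀ x, x ∈ H ↔ x ∈ Submodule.span ℂ (range (fun j => ⁅e j, c.σ (e j)⁆)) := by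
    intro x
    rw [← mem_toSubmodule, b.coe_cartan_eq_span]
    rfl
  have hσH : ∀ x ∈ H, c.σ x ∈ H := by
    intro x hx
    rw [hspan] at hx ⊢
    induction hx using Submodule.span_induction with
    | mem u hu =>
      obtain ⟨j, rfl⟩ := hu
      simp only [c.σ_h]
      exact Submodule.subset_span ⟨j, rfl⟩
    | zero => simp
    | add u v _ _ hu hv => rw [map_add]; exact add_mem hu hv
    | smul t u _ hu => rw [c.σ_smul]; exact Submodule.smul_mem _ _ hu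
  have hcen : ∀ y, (∀ z ∈ H, ⁅z, y⁆ = 0) → φ y = 0 → y = 0 := by
    intro y hy hφy
    have hyH : y ∈ H := by
      rw [← hC.self_normalizing, mem_normalizer_iff']
      intro z hz
      rw [hy z hz]
      exact zero_mem _
    rw [hspan, Submodule.mem_span_range_iff_exists_fun] at hyH
    obtain ⟨g, rfl⟩ := hyH
    rw [map_sum] at hφy
    simp only [map_smul] at hφy
    have := Fintype.linearIndependent_iff.1 hφ g hφy
    simp [this]
  rw [← LieHom.ker_eq_bot]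
  by_contra hne
  let K : LieSubmodule ℂ H L := LieSubmodule.restr φ.ker H
  have hK : Nontrivial K := by
    rw [LieSubmodule.nontrivial_iff_ne_bot]
    intro h
    apply hne
    rw [LieSubmodule.eq_bot_iff] at h ⊢
    exact h
  obtain ⟨χ, hχ⟩ := exists_nontrivial_weightSpace_of_isNilpotent ℂ H K
  obtain ⟨⟨⟨x, hxK⟩, hx⟩, hx0⟩ := exists_ne (0 : weightSpace K χ)
  have hx0' : x ≠ 0 := fun h => hx0 (by simp [h])
  have hxφ : φ x = 0 := hxK
  have hx' : ∀ z (hz : z ∈ H), ⁅z, x⁆ = χ ⟨z, hz⟩ • x := by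
    intro z hz
    have := (mem_weightSpace _ _).1 hx ⟨z, hz⟩
    exact congrArg Subtype.val this
  have hy : ⁅x, c.σ x⁆ = 0 := by
    apply hcen
    · intro z hz
      rw [leibniz_lie, hx' z hz, (c.lie_σ_of_eig hx0' (hx' z hz) (hx' _ (hσH z hz))).2]
      simp
    · rw [LieHom.map_lie, hxφ, zero_lie]
  apply hx0'
  apply hcen _ _ hxφ
  intro z hz
  have h1 := c.inv z x (c.σ x)
  rw [hy, hx' z hz, map_zero, map_smul, LinearMap.smul_apply, smul_eq_mul, mul_eq_zero] at h1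
  rw [hx' z hz, h1.resolve_right (c.pos x hx0').ne', zero_smul]

lemma sub (s : SB c A e) (D : LieSubalgebra ℂ L) (hD : ∀ x ∈ D, c.σ x ∈ D) (he : ∀ i, e i ∈ D) :
    SB (c.sub D hD) A (fun i => ⟨e i, he i⟩) where
  ne i h := s.ne i (congrArg Subtype.val h)
  diag := s.diag
  det := s.det
  lie_h i j := Subtype.ext (s.lie_h i j)
  lie_ef i j h := Subtype.ext (s.lie_ef i j h)

lemma ofSub {D : LieSubalgebra ℂ L} {hD : ∀ x ∈ D, c.σ x ∈ D} {e : ι → D}
    (s : SB (c.sub D hD) A e) : SB c A (fun i => (e i : L)) where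
  ne i h := s.ne i (Subtype.ext h)
  diag := s.diag
  det := s.det
  lie_h i j := congrArg Subtype.val (s.lie_h i j)
  lie_ef i j h := congrArg Subtype.val (s.lie_ef i j h)

variable {L' : Type} [LieRing L'] [LieAlgebra ℂ L'] {c' : Cpt L'} {e' : ι → L'}

lemma prod (s : SB c A e) (s' : SB c' A e') : SB (c.prod c') A (fun i => (e i, e' i)) where
  ne i h := s.ne i (congrArg Prod.fst h)
  diag := s.diag
  det := s.det
  lie_h i j := Prod.ext (s.lie_h i j) (s'.lie_h i j)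
  lie_ef i j h := Prod.ext (s.lie_ef i j h) (s'.lie_ef i j h)

/-- The isomorphism theorem. -/
theorem exists_iso [FiniteDimensional ℂ L] [FiniteDimensional ℂ L'] (s : SB c A e)
    (s' : SB c' A e') : ∃ ψ : L →ₗ[ℂ] L',
      (∀ x ∈ c.gen e, ψ x = 0 → x = 0) ∧
      (∀ x ∈ c.gen e, ∀ y ∈ c.gen e, ψ ⁅x, y⁆ = ⁅ψ x, ψ y⁆) ∧
      (∀ x ∈ c.gen e, ψ (c.σ x) = c'.σ (ψ x)) ∧
      (∀ x ∈ c.gen e, ψ x ∈ c'.gen e') ∧ (∀ y ∈ c'.gen e', ∃ x ∈ c.gen e, ψ x = y) := by
  let E : ι → L × L' := fun i => (e i, e' i)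
  let D := (c.prod c').gen E
  let cD : Cpt D := (c.prod c').sub D ((c.prod c').σ_mem_gen E)
  let eD : ι → D := fun i => ⟨E i, (c.prod c').e_mem_gen E i⟩
  have sD : SB cD A eD := (s.prod s').sub D _ _
  have hg : cD.gen eD = ⊤ := (c.prod c').gen_sub E
  let p₁ : D →ₗ⁅ℂ⁆ L := (LieHom.fst ℂ L L').comp D.incl
  let p₂ : D →ₗ⁅ℂ⁆ L' := (LieHom.snd ℂ L L').comp D.incl
  have i₁ : Injective p₁ := sD.injective hg p₁ s.linInd
  have i₂ : Injective p₂ := sD.injective hg p₂ s'.linInd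
  have m₁ : (⊤ : LieSubalgebra ℂ D).map p₁ = c.gen e := by
    rw [← hg]; exact cD.map_gen c eD p₁ (fun _ => rfl)
  have m₂ : (⊤ : LieSubalgebra ℂ D).map p₂ = c'.gen e' := by
    rw [← hg]; exact cD.map_gen c' eD p₂ (fun _ => rfl)
  obtain ⟨r, hr⟩ := LinearMap.exists_leftInverse_of_injective p₁.toLinearMap
    (LinearMap.ker_eq_bot.2 i₁)
  have hr' : ∀ d, r (p₁ d) = d := fun d => LinearMap.congr_fun hr d
  have hx : ∀ x ∈ c.gen e, ∃ d, p₁ d = x := by
    intro x hx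
    rw [← m₁] at hx
    obtain ⟨d, -, hd⟩ := hx
    exact ⟨d, hd⟩
  refine ⟨p₂.toLinearMap ∘ₗ r, ?_, ?_, ?_, ?_, ?_⟩
  · intro x h h0
    obtain ⟨d, rfl⟩ := hx x h
    have : p₂ d = p₂ 0 := by simpa [hr'] using h0
    rw [i₂ this, map_zero]
  · intro x h y h'
    obtain ⟨d, rfl⟩ := hx x h
    obtain ⟨d', rfl⟩ := hx y h'
    rw [← LieHom.map_lie]
    simp only [LinearMap.comp_apply, hr']
    exact p₂.map_lie d d'
  · intro x h
    obtain ⟨d, rfl⟩ := hx x h
    have : c.σ (p₁ d) = p₁ (cD.σ d) := rfl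
    rw [this]
    simp only [LinearMap.comp_apply, hr']
    rfl
  · intro x h
    obtain ⟨d, rfl⟩ := hx x h
    simp only [LinearMap.comp_apply, hr']
    rw [← m₂]
    exact ⟨d, trivial, rfl⟩
  · intro y h
    rw [← m₂] at h
    obtain ⟨d, -, rfl⟩ := h
    refine ⟨p₁ d, ?_, by simp [hr']⟩
    rw [← m₁]
    exact ⟨d, trivial, rfl⟩

lemma exists_pos (s : SB c A e) (y : ι → ℝ) (hy : ∀ i, 0 ≤ y i) (hy0 : y ≠ 0) :
    ∃ i, 0 < ∑ j, (A i j : ℝ) * y j := by
  by_contra! hcon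
  let h : L := ∑ j, (y j : ℂ) • ⁅e j, c.σ (e j)⁆
  have hσ : c.σ h = h := by
    simp only [h, map_sum, c.σ_smul, c.σ_h, Complex.conj_ofReal]
  have h0 : h ≠ 0 := by
    intro h0
    apply hy0
    ext j
    have := Fintype.linearIndependent_iff.1 s.linInd (fun j => (y j : ℂ)) h0 j
    simpa using this
  have hp := c.pos h h0
  rw [hσ] at hp
  have hB : ∀ i j, c.B ⁅e i, c.σ (e i)⁆ ⁅e j, c.σ (e j)⁆ = (A i j : ℂ) * c.B (e i) (c.σ (e i)) := by
    intro i j
    rw [c.symm, ← c.inv, s.lie_h, map_smul, LinearMap.smul_apply, smul_eq_mul]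
  have hsum : c.B h h =
      ∑ i, (y i : ℂ) * (((∑ j, (A i j : ℝ) * y j : ℝ) : ℂ) * c.B (e i) (c.σ (e i))) := by
    simp only [h, map_sum, map_smul, LinearMap.sum_apply, LinearMap.smul_apply, smul_eq_mul, hB,
      Finset.mul_sum]
    rw [Finset.sum_comm]
    refine Finset.sum_congr rfl fun i _ => ?_
    push_cast
    rw [Finset.sum_mul, Finset.mul_sum]
    refine Finset.sum_congr rfl fun j _ => ?_
    ring
  rw [hsum] at hp
  refine absurd hp (not_lt_of_ge ?_)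
  refine Finset.sum_nonpos fun i _ => ?_
  refine mul_nonpos_of_nonneg_of_nonpos (by exact_mod_cast hy i) ?_
  exact mul_nonpos_of_nonpos_of_nonneg (by exact_mod_cast hcon i) (c.nonneg _)

end SB

end Pool.Agent.Lib.MP_775e5c_al
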