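import Pool.Agent.Lib.MP_775e5c_al.ClsCpt

/-!
Existence of adapted Chevalley generators in a simple complex Lie algebra with a compact
conjugation.
-/

set_option autoImplicit false

namespace Pool.Agent.Lib.MP_775e5c_al

open LieAlgebra LieModule Set Function LieSubalgebra LieAlgebra.IsKilling
open scoped ComplexOrder ComplexConjugate

namespace Cpt

variable {L : Type} [LieRing L] [LieAlgebra ℂ L] (c : Cpt L)

lemma isSimple (hna : ¬ IsLieAbelian L)
    (hI : ∀ I : LieIdeal ℂ L, (∀ x ∈ I, c.σ x ∈ I) → I = ⊥ ∨ I = ⊤) : IsSimple ℂ L := by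
  refine ⟨fun I => ?_, hna⟩
  have hl : ∀ x ∈ I, ∀ z, ⁅x, z⁆ ∈ I := fun x hx z => by
    rw [← lie_skew]; exact neg_mem (I.lie_mem hx)
  let J : LieIdeal ℂ L :=
    { carrier := {x | x ∈ I ∧ c.σ x ∈ I}
      add_mem' := fun {x y} hx hy => ⟨add_mem hx.1 hy.1, by rw [map_add]; exact add_mem hx.2 hy.2⟩
      zero_mem' := ⟨zero_mem _, by rw [map_zero]; exact zero_mem _⟩
      smul_mem' := fun a x hx => ⟨SMulMemClass.smul_mem _ hx.1, by
        rw [c.σ_smul]; exact SMulMemClass.smul_mem _ hx.2⟩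
      lie_mem := fun {z x} hx => ⟨I.lie_mem hx.1, by rw [c.σ_lie]; exact hl _ hx.2 _⟩ }
  rcases hI J (fun x hx => ⟨hx.2, by rw [c.σσ]; exact hx.1⟩) with hJ | hJ
  · left
    have h1 : ∀ y ∈ I, ∀ y' ∈ I, ⁅y, c.σ y'⁆ = 0 := by
      intro y hy y' hy'
      have : ⁅y, c.σ y'⁆ ∈ J := ⟨hl _ hy _, by rw [c.σ_lie, c.σσ]; exact hl _ hy' _⟩
      rw [hJ] at this
      exact this
    have h2 : ∀ y ∈ I, y ∈ center ℂ L := by
      intro y hy h
      apply c.eq_zero
      rw [c.inv, h1 y hy _ (I.lie_mem hy), map_zero]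
    have h3 : center ℂ L = ⊥ := by
      refine (hI _ ?_).resolve_right ?_
      · intro x hx z
        rw [← c.σσ z, ← c.σ_lie, ← lie_skew, hx (c.σ z), neg_zero, map_zero]
      · rwa [← isLieAbelian_iff_center_eq_top]
    rw [LieSubmodule.eq_bot_iff]
    intro y hy
    have := h2 y hy
    rwa [h3] at this
  · right
    rw [eq_top_iff]
    intro x _
    have : x ∈ J := by rw [hJ]; trivial
    exact this.1

lemma exists_cartan [FiniteDimensional ℂ L] :
    ∃ H : LieSubalgebra ℂ L, H.IsCartanSubalgebra ∧ ∀ x ∈ H, c.σ x ∈ H := by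
  obtain ⟨W, ⟨hW1, hW2⟩, hmax⟩ := set_has_maximal_iff_noetherian.2
    (inferInstance : IsNoetherian ℂ L)
    {W : Submodule ℂ L | (∀ x ∈ W, ∀ y ∈ W, ⁅x, y⁆ = 0) ∧ ∀ x ∈ W, c.σ x ∈ W}
    ⟨⊥, by simp, by simp⟩
  have key : ∀ u, c.σ u = u → (∀ h ∈ W, ⁅h, u⁆ = 0) → u ∈ W := by
    intro u hu hc
    by_contra hne
    refine hmax (W ⊔ Submodule.span ℂ {u}) ⟨?_, ?_⟩ ?_
    · intro x hx y hy
      obtain ⟨w, hw, v, hv, rfl⟩ := Submodule.mem_sup.1 hx
      obtain ⟨w', hw', v', hv', rfl⟩ := Submodule.mem_sup.1 hy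
      obtain ⟨a, rfl⟩ := Submodule.mem_span_singleton.1 hv
      obtain ⟨a', rfl⟩ := Submodule.mem_span_singleton.1 hv'
      have : ⁅u, w'⁆ = 0 := by rw [← lie_skew, hc w' hw', neg_zero]
      simp [hW1 w hw w' hw', hc w hw, this]
    · intro x hx
      obtain ⟨w, hw, v, hv, rfl⟩ := Submodule.mem_sup.1 hx
      obtain ⟨a, rfl⟩ := Submodule.mem_span_singleton.1 hv
      rw [map_add, c.σ_smul, hu]
      exact add_mem (Submodule.mem_sup_left (hW2 w hw))
        (Submodule.mem_sup_right (Submodule.smul_mem _ _ (Submodule.mem_span_singleton_self u)))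
    · refine lt_of_le_of_ne le_sup_left fun h => hne ?_
      rw [h]
      exact Submodule.mem_sup_right (Submodule.mem_span_singleton_self u)
  let H : LieSubalgebra ℂ L :=
    { W with lie_mem' := fun {x y} hx hy => by rw [hW1 x hx y hy]; exact W.zero_mem }
  have hab : IsLieAbelian H := ⟨fun x y => Subtype.ext (hW1 x x.2 y y.2)⟩
  refine ⟨H, ⟨inferInstance, le_antisymm ?_ H.le_normalizer⟩, hW2⟩
  intro x hx
  rw [mem_normalizer_iff'] at hx
  have h1 : ∀ h ∈ W, ⁅h, x⁆ = 0 := by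
    intro h hh
    apply c.eq_zero
    rw [← lie_skew h x, map_neg, LinearMap.neg_apply, c.inv, lie_skew,
      hW1 h hh _ (hW2 _ (hx h hh)), map_zero, neg_zero]
  have h2 : ∀ h ∈ W, ⁅h, c.σ x⁆ = 0 := by
    intro h hh
    rw [← c.σσ h, ← c.σ_lie, ← lie_skew, h1 _ (hW2 h hh), neg_zero, map_zero]
  have h3 : x + c.σ x ∈ W := key _ (by rw [map_add, c.σσ, add_comm])
    (fun h hh => by rw [lie_add, h1 h hh, h2 h hh, add_zero])
  have h4 : Complex.I • (x - c.σ x) ∈ W := key _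
    (by rw [c.σ_smul, map_sub, c.σσ, Complex.conj_I, neg_smul, ← smul_neg, neg_sub])
    (fun h hh => by rw [lie_smul, lie_sub, h1 h hh, h2 h hh, sub_zero, smul_zero])
  have h5 : x = (1 / 2 : ℂ) • ((x + c.σ x) - Complex.I • Complex.I • (x - c.σ x)) := by
    rw [smul_smul, Complex.I_mul_I]
    module
  change x ∈ W
  rw [h5]
  exact W.smul_mem _ (W.sub_mem h3 (W.smul_mem _ h4))

section Roots

variable [FiniteDimensional ℂ L] [IsKilling ℂ L] {H : LieSubalgebra ℂ L} [H.IsCartanSubalgebra]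

lemma mem_root_iff {χ : H → ℂ} {x : L} :
    x ∈ rootSpace H χ ↔ ∀ z : H, ⁅(z : L), x⁆ = χ z • x :=
  ⟨fun h z => lie_eq_smul_of_mem_rootSpace h z,
    fun h => (mem_genWeightSpace _ _ _).2 fun z => ⟨1, by simp [← h z]⟩⟩

lemma σ_root (hH : ∀ x ∈ H, c.σ x ∈ H) {χ : H → ℂ} {x : L} (hx : x ∈ rootSpace H χ) :
    c.σ x ∈ rootSpace H (-χ) := by
  by_cases h0 : x = 0
  · simp [h0]
  rw [mem_root_iff] at hx ⊢
  intro z
  exact (c.lie_σ_of_eig h0 (hx z) (hx ⟨_, hH z z.2⟩)).2

omit [FiniteDimensional ℂ L] [IsKilling ℂ L] in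
lemma lie_root {χ χ' : H → ℂ} {x y : L} (hx : x ∈ rootSpace H χ) (hy : y ∈ rootSpace H χ') :
    ⁅x, y⁆ ∈ rootSpace H (χ + χ') :=
  lie_mem_genWeightSpace_of_mem_genWeightSpace hx hy

lemma root_one {α : Weight ℂ H L} (hα : α.IsNonZero) {x y : L} (hx : x ∈ rootSpace H α)
    (h0 : x ≠ 0) (hy : y ∈ rootSpace H α) : ∃ t : ℂ, t • x = y := by
  obtain ⟨t, ht⟩ := (finrank_eq_one_iff_of_nonzero' (K := ℂ) (⟨x, hx⟩ : rootSpace H α)
    (fun h => h0 (congrArg Subtype.val h))).1 (finrank_rootSpace_eq_one α hα) ⟨y, hy⟩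
  exact ⟨t, congrArg Subtype.val ht⟩

lemma exists_root_vector (hH : ∀ x ∈ H, c.σ x ∈ H) (α : Weight ℂ H L) (hα : α.IsNonZero) :
    ∃ e, e ≠ 0 ∧ e ∈ rootSpace H α ∧ ⁅e, c.σ e⁆ = (coroot α : L) := by
  obtain ⟨x, hx0, hx⟩ := exists_forall_lie_eq_smul ℂ H L α
  have hxα : x ∈ rootSpace H α := mem_root_iff.2 hx
  have hy : ⁅x, c.σ x⁆ ∈ H := by
    have := lie_root hxα (c.σ_root hH hxα)
    rw [add_neg_cancel, rootSpace_zero_eq] at this
    exact this
  have hB : ∀ z : H, α z * c.B x (c.σ x) = c.B z ⁅x, c.σ x⁆ := by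
    intro z
    rw [← c.inv, mem_root_iff.1 hxα z, map_smul, LinearMap.smul_apply, smul_eq_mul]
  have hn := c.pos x hx0
  have hy0 : ⁅x, c.σ x⁆ ≠ 0 := by
    intro h
    apply hα
    ext z
    have := hB z
    rw [h, map_zero, mul_eq_zero] at this
    exact this.resolve_right hn.ne'
  have hp := c.pos _ hy0
  rw [c.σ_h, ← hB ⟨_, hy⟩] at hp
  have ha : 0 < α ⟨_, hy⟩ := by
    have := mul_pos hp (inv_pos.2 hn)
    rwa [mul_assoc, mul_inv_cancel₀ hn.ne', mul_one] at this
  obtain ⟨r, hr⟩ : ∃ r : ℝ, α ⟨_, hy⟩ = r := ⟨_, Complex.eq_re_of_ofReal_le (r := 0) ha.le⟩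
  have hr0 : 0 < r := by rw [hr] at ha; exact_mod_cast ha
  let t : ℝ := Real.sqrt (2 / r)
  have ht : (t : ℂ) * t = 2 / r := by
    have : t * t = 2 / r := Real.mul_self_sqrt (by positivity)
    exact_mod_cast this
  have hr1 : (r : ℂ) ≠ 0 := by exact_mod_cast hr0.ne'
  have ht0 : (t : ℂ) ≠ 0 := by
    intro h
    rw [h, mul_zero] at ht
    exact (div_ne_zero two_ne_zero hr1) ht.symm
  have he : (t : ℂ) • x ∈ rootSpace H α := SMulMemClass.smul_mem _ hxα
  have hh : ⁅(t : ℂ) • x, c.σ ((t : ℂ) • x)⁆ = (2 / r : ℂ) • ⁅x, c.σ x⁆ := by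
    rw [c.σ_smul, Complex.conj_ofReal, smul_lie, lie_smul, smul_smul, ht]
  refine ⟨(t : ℂ) • x, smul_ne_zero ht0 hx0, he, ?_⟩
  refine IsSl2Triple.h_eq_coroot hα (e := (t : ℂ) • x) (f := c.σ ((t : ℂ) • x))
    ⟨?_, rfl, ?_, ?_⟩ he (c.σ_root hH he)
  · rw [hh]; exact smul_ne_zero (div_ne_zero two_ne_zero hr1) hy0
  · rw [hh, smul_lie, mem_root_iff.1 he ⟨_, hy⟩, hr, smul_smul, div_mul_cancel₀ _ hr1]
    simp [two_smul]
  · rw [hh, smul_lie, mem_root_iff.1 (c.σ_root hH he) ⟨_, hy⟩, Pi.neg_apply, hr, smul_smul,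
      mul_neg, div_mul_cancel₀ _ hr1]
    simp [two_smul]

omit [IsKilling ℂ L] in
lemma eq_top_of_roots (W : Submodule ℂ L) (h0 : ∀ x ∈ H, x ∈ W)
    (h1 : ∀ α : H.root, ∀ x ∈ rootSpace H α.1, x ∈ W) : W = ⊤ := by
  rw [eq_top_iff]
  intro x _
  have hx : x ∈ ⨆ χ : Weight ℂ H L, genWeightSpace L χ := by
    rw [iSup_genWeightSpace_eq_top']; trivial
  refine LieSubmodule.iSup_induction _ (motive := fun x => x ∈ W) hx ?_ W.zero_mem
    (fun _ _ => W.add_mem)
  intro χ y hy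
  by_cases hχ : χ.IsZero
  · apply h0
    have : y ∈ rootSpace H 0 := by rw [← hχ.eq]; exact hy
    rw [rootSpace_zero_eq] at this
    exact this
  · exact h1 ⟨χ, by simpa using hχ⟩ y hy

lemma lie_root_ne (hH : ∀ x ∈ H, c.σ x ∈ H) {α β : Weight ℂ H L} (hα : α.IsNonZero)
    (hβ : β.IsNonZero) {e x y : L} (he : e ∈ rootSpace H α) (hc : ⁅e, c.σ e⁆ = (coroot α : L))
    (hx : x ∈ rootSpace H β) (hx0 : x ≠ 0) (hy : y ∈ rootSpace H (β + α : H → ℂ))
    (hy0 : y ≠ 0) : ⁅e, x⁆ ≠ 0 := by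
  intro hw
  have h1 : ⁅c.σ e, y⁆ ∈ rootSpace H β := by
    have := lie_root (c.σ_root hH he) hy
    rwa [add_comm, add_neg_cancel_right] at this
  obtain ⟨t, ht⟩ := root_one hβ hx hx0 h1
  have h2 := c.adj e x y
  rw [hw, ← ht, map_zero, LinearMap.zero_apply, c.σ_smul, map_smul, smul_eq_mul, eq_comm,
    mul_eq_zero] at h2
  have h3 : t = 0 := by simpa using h2.resolve_right (c.pos x hx0).ne'
  rw [h3, zero_smul] at ht
  have h4 := c.norm_sub e x (β (coroot α)) (by rw [hc]; exact mem_root_iff.1 hx _)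
  have h5 := c.norm_sub e y (β (coroot α) + 2) (by
    rw [hc, mem_root_iff.1 hy _, Pi.add_apply, root_apply_coroot hα])
  rw [hw, map_zero, LinearMap.zero_apply, sub_zero] at h4
  rw [← ht, map_zero, LinearMap.zero_apply, zero_sub] at h5
  have h6 : 0 ≤ conj (β (coroot α)) := by
    have := mul_nonneg (h4 ▸ c.nonneg ⁅c.σ e, x⁆) (inv_pos.2 (c.pos x hx0)).le
    rwa [mul_assoc, mul_inv_cancel₀ (c.pos x hx0).ne', mul_one] at this
  have h7 : 0 < conj (β (coroot α) + 2) * c.B y (c.σ y) := by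
    refine mul_pos ?_ (c.pos y hy0)
    rw [map_add, map_ofNat]
    exact add_pos_of_nonneg_of_pos h6 two_pos
  rw [← h5] at h7
  exact absurd (neg_pos.1 h7) (not_lt_of_ge (c.nonneg _))

end Roots

theorem exists_SB [FiniteDimensional ℂ L] [IsSimple ℂ L] :
    ∃ (ι : Type) (_ : Fintype ι) (_ : DecidableEq ι) (A : Matrix ι ι ℤ) (e : ι → L),
      SB c A e ∧ c.gen e = ⊤ ∧ (∀ i j, i ≠ j → A i j ≤ 0) ∧ (∀ i j, A i j = 0 → A j i = 0) ∧
      (∀ (p : ι → Prop) (i j : ι), p i → (∀ i j, p i → A j i ≠ 0 → p j) → p j) ∧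
      Module.finrank ℂ L ≤ Fintype.card ι + 9 ^ Fintype.card ι := by
  classical
  obtain ⟨H, hC, hH⟩ := c.exists_cartan
  let P := rootSystem H
  obtain ⟨b⟩ := P.nonempty_base
  choose E hE0 hE hEc using fun α : H.root =>
    c.exists_root_vector hH α.1 (H.isNonZero_coe_root α)
  let e : b.support → L := fun i => E i.1
  have hHs : ∀ W : Submodule ℂ L, (∀ i : b.support, (coroot i.1.1 : L) ∈ W) →
      ∀ x ∈ H, x ∈ W := by
    intro W hW x hx
    have h1 : (⟨x, hx⟩ : H) ∈ Submodule.span ℂ (P.coroot '' b.support) := by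
      rw [b.span_coroot_support]
      simp
    have : ∀ z ∈ Submodule.span ℂ (P.coroot '' b.support), (z : L) ∈ W := by
      intro z hz
      induction hz using Submodule.span_induction with
      | mem u hu =>
        obtain ⟨i, hi, rfl⟩ := hu
        exact hW ⟨i, hi⟩
      | zero => exact W.zero_mem
      | add u v _ _ hu hv => exact W.add_mem hu hv
      | smul t u _ hu => exact W.smul_mem t hu
    exact this _ h1
  refine ⟨b.support, inferInstance, inferInstance, b.cartanMatrix, e, ⟨fun i => hE0 _,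
    b.cartanMatrix_apply_same, b.cartanMatrix_nondegenerate.det_ne_zero, ?_, ?_⟩, ?_,
    b.cartanMatrix_le_zero_of_ne, fun i j => b.cartanMatrix_apply_eq_zero_iff_symm.1,
    fun p i j hi hp => b.induction_on_cartanMatrix p hi hp, ?_⟩
  · intro i j
    rw [hEc, mem_root_iff.1 (hE i.1)]
    congr 1
    exact (b.algebraMap_cartanMatrixIn_apply ℤ i j).symm
  · intro i j hij
    by_contra hne
    have h1 := lie_root (hE i.1) (c.σ_root hH (hE j.1))
    let χ : Weight ℂ H L := ⟨(i.1.1 : H → ℂ) + -(j.1.1 : H → ℂ), fun h => hne (by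
      have h2 : ⁅e i, c.σ (e j)⁆ ∈ genWeightSpace L ((i.1.1 : H → ℂ) + -(j.1.1 : H → ℂ)) := h1
      rw [h] at h2
      exact h2)⟩
    have hχ : χ.toLinear = P.root i - P.root j := by
      ext z
      simp [χ, P, sub_eq_add_neg]
    have hχ0 : χ.IsNonZero := by
      intro h
      apply hij
      have : P.root i - P.root j = 0 := by
        rw [← hχ]; ext z; simp [h.eq]
      exact Subtype.ext (P.root.injective (sub_eq_zero.1 this))
    exact b.sub_notMem_range_root i.2 j.2 ⟨⟨χ, by simpa using hχ0⟩, hχ⟩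
  · rw [← toSubmodule_inj]
    refine eq_top_of_roots (H := H) _ (hHs _ fun i => ?_) fun α => ?_
    · rw [← hEc]
      exact lie_mem _ (c.e_mem_gen e i) (c.f_mem_gen e i)
    · refine b.induction_add (p := fun α : H.root => ∀ x ∈ rootSpace H α.1, x ∈ c.gen e) α
        ?_ ?_ ?_
      · intro i hi x hx
        rw [← c.σσ x]
        apply c.σ_mem_gen
        apply hi
        have h1 := c.σ_root hH hx
        have h2 : (-((P.reflectionPerm i i).1 : H → ℂ)) = i.1 := by
          have := P.root_reflectionPerm i i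
          rw [P.reflection_apply_self] at this
          ext z
          have := LinearMap.congr_fun this z
          simp only [P, rootSystem_root_apply, Weight.toLinear_apply, LinearMap.neg_apply] at this
          rw [Pi.neg_apply, this, neg_neg]
        rwa [h2] at h1
      · intro i hi x hx
        obtain ⟨t, rfl⟩ := root_one (H.isNonZero_coe_root i) (hE i) (hE0 i) hx
        exact SMulMemClass.smul_mem _ (c.e_mem_gen e ⟨i, hi⟩)
      · intro i j k hk hi hj y hy
        by_cases hy0 : y = 0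
        · rw [hy0]; exact zero_mem _
        have hk' : (k.1 : H → ℂ) = (i.1 : H → ℂ) + j.1 := by
          ext z
          simpa [P] using LinearMap.congr_fun hk z
        have hne := c.lie_root_ne hH (H.isNonZero_coe_root j) (H.isNonZero_coe_root i) (hE j)
          (hEc j) (hE i) (hE0 i) (hk' ▸ hy) hy0
        have hw : ⁅E j, E i⁆ ∈ rootSpace H k.1 := by
          rw [hk', add_comm]; exact lie_root (hE j) (hE i)
        obtain ⟨t, rfl⟩ := root_one (H.isNonZero_coe_root k) hw hne hy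
        exact SMulMemClass.smul_mem _ (lie_mem _ (c.e_mem_gen e ⟨j, hj⟩) (hi _ (hE i)))
  · have h1 : Submodule.span ℂ (range (Sum.elim (fun i : b.support => (coroot i.1.1 : L)) E))
        = ⊤ := by
      refine eq_top_of_roots (H := H) _ (hHs _ fun i => ?_) fun α x hx => ?_
      · exact Submodule.subset_span ⟨Sum.inl i, rfl⟩
      · obtain ⟨t, rfl⟩ := root_one (H.isNonZero_coe_root α) (hE α) (hE0 α) hx
        exact Submodule.smul_mem _ _ (Submodule.subset_span ⟨Sum.inr α, rfl⟩)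
    refine (finrank_le_of_span_eq_top h1).trans ?_
    rw [Fintype.card_sum]
    refine Nat.add_le_add_left ?_ _
    have h2 : ∀ i j : H.root, P.pairingIn ℤ i j ∈ Finset.Icc (-4 : ℤ) 4 := by
      intro i j
      have := P.pairingIn_pairingIn_mem_set_of_isCrystallographic i j
      simp only [mem_insert_iff, mem_singleton_iff, Prod.mk.injEq] at this
      rw [Finset.mem_Icc]
      omega
    let f : H.root → (b.support → Finset.Icc (-4 : ℤ) 4) := fun i k => ⟨_, h2 i k⟩
    have hf : Injective f := by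
      intro i j hij
      apply b.injective_pairingIn
      ext k
      exact congrArg Subtype.val (congrFun hij k)
    refine (Fintype.card_le_of_injective f hf).trans (le_of_eq ?_)
    rw [Fintype.card_fun]
    simp

end Cpt

end Pool.Agent.Lib.MP_775e5c_al
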