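import Pool.Agent.Lib.MP_775e5c_al.ClsCpt
import Pool.Agent.Lib.MP_775e5c_al.Classical

/-!
The matrix algebras preserving a split bilinear form, and their standard spanning sets.
-/

set_option autoImplicit false

namespace Pool.Agent.Lib.MP_775e5c_al

open Matrix LieSubalgebra
open scoped ComplexOrder ComplexConjugate

attribute [local instance 100] LieRing.ofAssociativeRing

/-- The conjugate transpose and the trace form. -/
noncomputable def matCpt (κ : Type) [Fintype κ] [DecidableEq κ] : Cpt (Matrix κ κ ℂ) where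
  σ := { toFun := fun X => Xᴴ
         map_add' := conjTranspose_add
         map_smul' := fun a X => conjTranspose_smul a X }
  B := LinearMap.mk₂ ℂ (fun X Y => (X * Y).trace) (fun _ _ _ => by rw [add_mul, trace_add])
    (fun _ _ _ => by rw [smul_mul_assoc, trace_smul]) (fun _ _ _ => by rw [mul_add, trace_add])
    (fun _ _ _ => by rw [mul_smul_comm, trace_smul])
  σσ := conjTranspose_conjTranspose
  σ_lie := fun X Y => by
    change (X * Y - Y * X)ᴴ = Yᴴ * Xᴴ - Xᴴ * Yᴴ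
    rw [conjTranspose_sub, conjTranspose_mul, conjTranspose_mul]
  symm := fun X Y => trace_mul_comm X Y
  inv := fun X Y Z => by
    change ((X * Y - Y * X) * Z).trace = (X * (Y * Z - Z * Y)).trace
    rw [sub_mul, mul_sub, trace_sub, trace_sub, mul_assoc, mul_assoc, trace_mul_comm Y (X * Z),
      mul_assoc]
  pos := fun X hX => lt_of_le_of_ne (posSemidef_self_mul_conjTranspose X).trace_nonneg
    fun h => hX (trace_mul_conjTranspose_self_eq_zero_iff.1 h.symm)

variable {κ : Type} [Fintype κ] [DecidableEq κ]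

@[simp] lemma matCpt_σ (X : Matrix κ κ ℂ) : (matCpt κ).σ X = Xᴴ := rfl

lemma lie_single (a b c d : κ) : ⁅single a b (1 : ℂ), single c d (1 : ℂ)⁆ =
    (if b = c then single a d 1 else 0) - (if d = a then single c b 1 else 0) := by
  rw [Ring.lie_def]
  congr 1 <;> split_ifs with h
  · subst h; simp
  · exact single_mul_single_of_ne _ _ _ _ h _
  · subst h; simp
  · exact single_mul_single_of_ne _ _ _ _ h _

lemma lie_diagonal_single (d : κ → ℂ) (a b : κ) :
    ⁅diagonal d, single a b (1 : ℂ)⁆ = (d a - d b) • single a b (1 : ℂ) := by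
  ext x y
  rw [Ring.lie_def, Matrix.sub_apply, diagonal_mul, mul_diagonal, Matrix.smul_apply, single_apply]
  split_ifs with h
  · rw [h.1, h.2]; simp
  · simp

/-- An involution of the index set with signs. -/
structure FD (κ : Type) where
  s : κ → κ
  ε : κ → ℂ
  τ : ℂ
  ss : ∀ a, s (s a) = a
  ε_eq : ∀ a, ε a = 1 ∨ ε a = -1
  τ_eq : τ = 1 ∨ τ = -1
  ε_s : ∀ a, ε (s a) = τ * ε a

namespace FD

variable (φ : FD κ)

omit [Fintype κ] [DecidableEq κ] in
lemma εε (a : κ) : φ.ε a * φ.ε a = 1 := by rcases φ.ε_eq a with h | h <;> simp [h]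

omit [Fintype κ] [DecidableEq κ] in
lemma ττ : φ.τ * φ.τ = 1 := by rcases φ.τ_eq with h | h <;> simp [h]

omit [Fintype κ] [DecidableEq κ] in
lemma star_ε (a : κ) : star (φ.ε a) = φ.ε a := by rcases φ.ε_eq a with h | h <;> simp [h]

omit [Fintype κ] [DecidableEq κ] in
lemma s_eq_iff {a b : κ} : φ.s a = b ↔ a = φ.s b :=
  ⟨fun h => by rw [← h, φ.ss], fun h => by rw [h, φ.ss]⟩

omit [Fintype κ] [DecidableEq κ] in
lemma s_inj {a b : κ} : φ.s a = φ.s b ↔ a = b := by rw [φ.s_eq_iff, φ.ss]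

/-- The matrix of the form. -/
def J : Matrix κ κ ℂ := fun a b => if b = φ.s a then φ.ε a else 0

/-- The standard spanning set. -/
def F (a b : κ) : Matrix κ κ ℂ := single a b 1 - (φ.ε a * φ.ε b) • single (φ.s b) (φ.s a) 1

/-- The complex Lie algebra of the form. -/
def lie : LieSubalgebra ℂ (Matrix κ κ ℂ) where
  carrier := {X | Xᵀ * φ.J + φ.J * X = 0}
  add_mem' := fun {X Y} hX hY => by
    simp only [Set.mem_ofPred_eq] at *
    rw [transpose_add, add_mul, mul_add, add_add_add_comm, hX, hY, add_zero]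
  zero_mem' := by simp
  smul_mem' := fun a X hX => by
    simp only [Set.mem_ofPred_eq] at *
    rw [transpose_smul, smul_mul_assoc, mul_smul_comm, ← smul_add, hX, smul_zero]
  lie_mem' := fun {X Y} hX hY => by
    simp only [Set.mem_ofPred_eq] at *
    rw [add_eq_zero_iff_eq_neg] at hX hY
    rw [Ring.lie_def, transpose_sub, transpose_mul, transpose_mul, sub_mul, mul_assoc, mul_assoc,
      hX, hY, mul_neg, mul_neg, ← mul_assoc, ← mul_assoc, hX, hY]
    noncomm_ring

lemma mem_lie_iff (X : Matrix κ κ ℂ) :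
    X ∈ φ.lie ↔ ∀ a b, X a b = -(φ.ε a * φ.ε b) * X (φ.s b) (φ.s a) := by
  have key : ∀ a b, (Xᵀ * φ.J + φ.J * X) a b =
      X (φ.s b) a * φ.ε (φ.s b) + φ.ε a * X (φ.s a) b := by
    intro a b
    simp only [Matrix.add_apply, mul_apply, J, transpose_apply, mul_ite, mul_zero, ite_mul,
      zero_mul, Finset.sum_ite_eq', Finset.mem_univ, if_true]
    congr 1
    simp only [eq_comm (a := b), φ.s_eq_iff, Finset.sum_ite_eq', Finset.mem_univ, if_true]
  change Xᵀ * φ.J + φ.J * X = 0 ↔ _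
  constructor
  · intro h a b
    have h1 := key (φ.s a) b
    rw [h, φ.ss, φ.ε_s, φ.ε_s, Matrix.zero_apply] at h1
    have h2 := φ.εε a
    have h3 := φ.ττ
    linear_combination (-φ.τ * φ.ε a) * h1 - (X a b * φ.τ * φ.τ) * h2 -
      (X a b + φ.ε a * φ.ε b * X (φ.s b) (φ.s a)) * h3
  · intro h
    ext a b
    rw [key, h (φ.s a) b, φ.ss, φ.ε_s, φ.ε_s, Matrix.zero_apply]
    linear_combination (-φ.τ * φ.ε b * X (φ.s b) a) * φ.εε a

lemma J_unitary : φ.Jᴴ * φ.J = 1 := by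
  ext a b
  simp only [mul_apply, J, conjTranspose_apply, one_apply, eq_comm (a := b), φ.s_eq_iff, mul_ite,
    mul_zero, Finset.sum_ite_eq', Finset.mem_univ, if_true, φ.ss]
  split_ifs with h
  · rw [φ.star_ε, φ.εε]
  · simp

omit [Fintype κ] in
lemma J_transpose : φ.Jᵀ = φ.τ • φ.J := by
  ext a b
  simp only [J, transpose_apply, Matrix.smul_apply, smul_eq_mul]
  by_cases h : b = φ.s a
  · rw [if_pos h, if_pos (by rw [h, φ.ss]), h, φ.ε_s]
  · rw [if_neg h, if_neg (fun h' => h (by rw [h', φ.ss])), mul_zero]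

lemma isClassical : IsClassical {X | Xᴴ = -X ∧ X ∈ φ.lie} := by
  refine Or.inr ⟨φ.J, φ.J_unitary, ?_, rfl⟩
  rw [φ.J_transpose]
  rcases φ.τ_eq with h | h <;> simp [h]

omit [Fintype κ] in
lemma F_star (a b : κ) : (φ.F a b)ᴴ = φ.F b a := by
  simp [F, conjTranspose_single, φ.star_ε, mul_comm]

omit [Fintype κ] in
lemma F_flip (a b : κ) : φ.F (φ.s b) (φ.s a) = -(φ.ε a * φ.ε b) • φ.F a b := by
  rw [F, F, φ.ss, φ.ss, φ.ε_s, φ.ε_s, smul_sub, smul_smul]
  have h1 : φ.τ * φ.ε b * (φ.τ * φ.ε a) = φ.ε a * φ.ε b := by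
    linear_combination (φ.ε a * φ.ε b) * φ.ττ
  have h2 : -(φ.ε a * φ.ε b) * (φ.ε a * φ.ε b) = -1 := by
    linear_combination (-φ.ε b * φ.ε b) * φ.εε a - φ.εε b
  rw [h1, h2]
  module

lemma F_mem (a b : κ) : φ.F a b ∈ φ.lie := by
  rw [mem_lie_iff]
  intro x y
  have h1 : (φ.s b = φ.s y ∧ φ.s a = φ.s x) ↔ (a = x ∧ b = y) := by simp [φ.s_inj, and_comm]
  have h2 : (a = φ.s y ∧ b = φ.s x) ↔ (φ.s b = x ∧ φ.s a = y) := by simp [φ.s_eq_iff, and_comm]
  simp only [F, Matrix.sub_apply, Matrix.smul_apply, single_apply, smul_eq_mul, h1, h2]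
  have h3 : (if a = x ∧ b = y then (1 : ℂ) else 0) =
      φ.ε x * φ.ε y * (φ.ε a * φ.ε b * if a = x ∧ b = y then (1 : ℂ) else 0) := by
    split_ifs with h
    · rw [h.1, h.2]; linear_combination (-φ.ε y * φ.ε y) * φ.εε x - φ.εε y
    · simp
  have h4 : (φ.ε a * φ.ε b * if φ.s b = x ∧ φ.s a = y then (1 : ℂ) else 0) =
      φ.ε x * φ.ε y * if φ.s b = x ∧ φ.s a = y then (1 : ℂ) else 0 := by
    split_ifs with h
    · rw [← h.1, ← h.2, φ.ε_s, φ.ε_s]; linear_combination (-φ.ε a * φ.ε b) * φ.ττ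
    · simp
  linear_combination h3 - h4

lemma eq_sum_F {X : Matrix κ κ ℂ} (hX : X ∈ φ.lie) :
    X = (1 / 2 : ℂ) • ∑ a, ∑ b, X a b • φ.F a b := by
  rw [mem_lie_iff] at hX
  ext x y
  have h2 : ∀ a b, (φ.s b = x ∧ φ.s a = y) ↔ (a = φ.s y ∧ b = φ.s x) := by
    simp [φ.s_eq_iff, and_comm]
  simp only [F, Matrix.smul_apply, Matrix.sum_apply, Matrix.sub_apply, single_apply, smul_eq_mul,
    h2, mul_sub, Finset.sum_sub_distrib, mul_ite, mul_one, mul_zero, ite_and,
    Finset.sum_ite_irrel, Finset.sum_ite_eq', Finset.mem_univ, if_true, Finset.sum_const_zero]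
  rw [hX x y, φ.ε_s, φ.ε_s]
  linear_combination (1 / 2 * φ.ε x * φ.ε y * X (φ.s y) (φ.s x)) * φ.ττ

lemma lie_F (a b c d : κ) : ⁅φ.F a b, φ.F c d⁆ =
    (if b = c then φ.F a d else 0) - (if d = a then φ.F c b else 0) - (φ.ε c * φ.ε d) •
      ((if b = φ.s d then φ.F a (φ.s c) else 0) - (if φ.s c = a then φ.F (φ.s d) b else 0)) := by
  have e1 : (if b = c then φ.F a d else 0) = (if b = c then single a d 1 else 0) -
      (φ.ε a * φ.ε b * (φ.ε c * φ.ε d)) •
        (if φ.s c = φ.s b then single (φ.s d) (φ.s a) (1 : ℂ) else 0) := by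
    by_cases h : b = c
    · subst h
      rw [if_pos rfl, if_pos rfl, if_pos rfl, F]
      congr 2
      linear_combination (-φ.ε a * φ.ε d) * φ.εε b
    · rw [if_neg h, if_neg h, if_neg (fun h' => h (φ.s_inj.1 h').symm)]; simp
  have e2 : (if d = a then φ.F c b else 0) = (if d = a then single c b 1 else 0) -
      (φ.ε a * φ.ε b * (φ.ε c * φ.ε d)) •
        (if φ.s a = φ.s d then single (φ.s b) (φ.s c) (1 : ℂ) else 0) := by
    by_cases h : d = a
    · subst h
      rw [if_pos rfl, if_pos rfl, if_pos rfl, F]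
      congr 2
      linear_combination (-φ.ε c * φ.ε b) * φ.εε d
    · rw [if_neg h, if_neg h, if_neg (fun h' => h (φ.s_inj.1 h').symm)]; simp
  have e3 : (φ.ε c * φ.ε d) • (if b = φ.s d then φ.F a (φ.s c) else 0) =
      (φ.ε c * φ.ε d) • (if b = φ.s d then single a (φ.s c) 1 else 0) -
      (φ.ε a * φ.ε b) • (if d = φ.s b then single c (φ.s a) (1 : ℂ) else 0) := by
    by_cases h : b = φ.s d
    · subst h
      rw [if_pos rfl, if_pos rfl, if_pos (φ.ss d).symm, F, φ.ss, smul_sub, smul_smul, φ.ε_s, φ.ε_s]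
      congr 2
      linear_combination (φ.τ * φ.ε a * φ.ε d) * φ.εε c
    · rw [if_neg h, if_neg h, if_neg (fun h' => h (by rw [h', φ.ss]))]; simp
  have e4 : (φ.ε c * φ.ε d) • (if φ.s c = a then φ.F (φ.s d) b else 0) =
      (φ.ε c * φ.ε d) • (if φ.s c = a then single (φ.s d) b 1 else 0) -
      (φ.ε a * φ.ε b) • (if φ.s a = c then single (φ.s b) d (1 : ℂ) else 0) := by
    by_cases h : φ.s c = a
    · subst h
      rw [if_pos rfl, if_pos rfl, if_pos (φ.ss c), F, φ.ss, smul_sub, smul_smul, φ.ε_s, φ.ε_s]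
      congr 2
      linear_combination (φ.τ * φ.ε b * φ.ε c) * φ.εε d
    · rw [if_neg h, if_neg h, if_neg (fun h' => h (by rw [← h', φ.ss]))]; simp
  rw [smul_sub, e1, e2, e3, e4, F, F]
  simp only [sub_lie, lie_sub, smul_lie, lie_smul, lie_single]
  module

lemma lie_F_trans {a b c : κ} (h1 : c ≠ a) (h2 : b ≠ φ.s c) (h3 : φ.s b ≠ a) :
    ⁅φ.F a b, φ.F b c⁆ = φ.F a c := by
  simp [lie_F, h1, h2, h3]

lemma lie_F_self (a b : κ) : ⁅φ.F a b, φ.F b a⁆ =
    (if b = φ.s a then 1 - φ.ε a * φ.ε b else 1) • (φ.F a a - φ.F b b) := by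
  rw [lie_F]
  by_cases h : b = φ.s a
  · subst h
    simp only [if_true, φ.ss]
    module
  · have h' : φ.s b ≠ a := fun h' => h (by rw [← h', φ.ss])
    simp [h, h']

/-- Weights of the standard representation. -/
def w (x y : κ) : ℤ := (if x = y then 1 else 0) - (if φ.s x = y then 1 else 0)

omit [Fintype κ] in
lemma w_s (x y : κ) : φ.w x (φ.s y) = -φ.w x y := by
  simp only [w, φ.s_inj, ← φ.s_eq_iff]
  ring

omit [Fintype κ] in
lemma F_diag (x : κ) : φ.F x x = diagonal fun y => (φ.w x y : ℂ) := by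
  ext a b
  simp only [F, w, φ.εε, one_smul, Matrix.sub_apply, single_apply, diagonal_apply]
  by_cases h : a = b
  · subst h; simp
  · rw [if_neg h, if_neg (fun h' => h (h'.1.symm.trans h'.2)),
      if_neg (fun h' => h (h'.1.symm.trans h'.2)), sub_zero]

lemma lie_diag_F (x a b : κ) :
    ⁅φ.F x x, φ.F a b⁆ = ((φ.w x a - φ.w x b : ℤ) : ℂ) • φ.F a b := by
  rw [F_diag, F, lie_sub, lie_smul, lie_diagonal_single, lie_diagonal_single, w_s, w_s]
  push_cast
  module

omit [Fintype κ] in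
lemma F_ne {a b : κ} (h : b = φ.s a → φ.τ = -1) : φ.F a b ≠ 0 := by
  intro h0
  have := congrFun (congrFun h0 a) b
  simp only [F, Matrix.sub_apply, Matrix.smul_apply, single_apply, and_self, if_true, smul_eq_mul,
    Matrix.zero_apply] at this
  split_ifs at this with h1
  · rw [← h1.2, φ.ε_s, h h1.2.symm] at this
    have h2 := φ.εε a
    have : (2 : ℂ) = 0 := by linear_combination this - h2
    exact two_ne_zero this
  · simp at this

omit [Fintype κ] in
lemma F_orth (h : φ.τ = 1) (a : κ) : φ.F (φ.s a) a = 0 := by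
  rw [F, φ.ss, φ.ε_s, h, one_mul, φ.εε, one_smul, sub_self]

section Gen

variable {φ} {D : LieSubalgebra ℂ (Matrix κ κ ℂ)}

lemma mem_flip {a b : κ} (h : φ.F a b ∈ D) : φ.F (φ.s b) (φ.s a) ∈ D := by
  rw [F_flip]; exact SMulMemClass.smul_mem _ h

lemma mem_trans {a b c : κ} (h : φ.F a b ∈ D) (h' : φ.F b c ∈ D) (h1 : c ≠ a) (h2 : b ≠ φ.s c)
    (h3 : φ.s b ≠ a) : φ.F a c ∈ D := by
  rw [← φ.lie_F_trans h1 h2 h3]; exact lie_mem _ h h'

lemma mem_diag (h : ∀ a b, a ≠ b → φ.F a b ∈ D) {a b : κ} (h1 : b ≠ a) (h2 : b ≠ φ.s a) :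
    φ.F a a ∈ D := by
  have h3 := lie_mem _ (h a b h1.symm) (h b a h1)
  have h4 : a ≠ φ.s b := fun h' => h2 (by rw [h', φ.ss])
  have h5 := lie_mem _ (h a _ h4) (h _ a h4.symm)
  rw [lie_F_self, if_neg h2, one_smul] at h3
  rw [lie_F_self, if_neg (fun h' => h1 (φ.s_inj.1 h')), one_smul, F_flip, φ.εε] at h5
  have : φ.F a a = (1 / 2 : ℂ) • ((φ.F a a - φ.F b b) + (φ.F a a - (-1 : ℂ) • φ.F b b)) := by
    module
  rw [this]
  exact SMulMemClass.smul_mem _ (add_mem h3 h5)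

lemma lie_le (h : ∀ a b, φ.F a b ∈ D) : φ.lie ≤ D := by
  intro X hX
  rw [φ.eq_sum_F hX]
  exact SMulMemClass.smul_mem _ (sum_mem fun a _ => sum_mem fun b _ =>
    SMulMemClass.smul_mem _ (h a b))

end Gen

end FD

end Pool.Agent.Lib.MP_775e5c_al
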