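import Mathlib

/-!
Connected Cartan matrices of finite type and rank at least nine are of type A, B, C or D.
-/

set_option autoImplicit false

namespace Pool.Agent.Lib.MP_775e5c_al

open Set Finset

/-- The properties of a connected Cartan matrix of finite type that are used. -/
structure GC {ι : Type} [Fintype ι] (A : ι → ι → ℤ) : Prop where
  diag : ∀ i, A i i = 2
  neg : ∀ i j, i ≠ j → A i j ≤ 0
  sym : ∀ i j, A i j = 0 → A j i = 0
  pos : ∀ y : ι → ℝ, (∀ i, 0 ≤ y i) → y ≠ 0 → ∃ i, 0 < ∑ j, (A i j : ℝ) * y j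
  conn : ∀ (p : ι → Prop) (i j : ι), p i → (∀ i j, p i → A j i ≠ 0 → p j) → p j

/-- Cartan matrices of a path on `n` nodes whose last edge has labels `p`, `q`. -/
def pathM (n : ℕ) (p q : ℤ) (i j : ℕ) : ℤ :=
  if i = j then 2 else if j = i + 1 then (if j + 1 = n then -p else -1)
  else if i = j + 1 then (if i + 1 = n then -q else -1) else 0

/-- The Cartan matrix of type D. -/
def dM (n : ℕ) (i j : ℕ) : ℤ :=
  if i = j then 2 else if (j = i + 1 ∧ j + 1 < n) ∨ (i = j + 1 ∧ i + 1 < n) ∨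
    (i + 1 = n ∧ j + 3 = n) ∨ (j + 1 = n ∧ i + 3 = n) then -1 else 0

variable {ι : Type} [Fintype ι] {A : ι → ι → ℤ}

/-- A test vector hanging at `u`, supported on `S`, of strength `t`. -/
def Gad (A : ι → ι → ℤ) (u : ι) (S : Set ι) (t : ℝ) : Prop :=
  ∃ g : ι → ℝ, (∀ j, 0 ≤ g j) ∧ (∀ j ∉ S, g j = 0) ∧
    (∀ j ∈ S, (A j u : ℝ) + ∑ l, (A j l : ℝ) * g l ≤ 0) ∧ t + ∑ l, (A u l : ℝ) * g l ≤ 0

/-- A path in the diagram. -/
def IsPath (A : ι → ι → ℤ) (v : ℕ → ι) (m : ℕ) : Prop :=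
  (∀ i ≤ m, ∀ j ≤ m, v i = v j → i = j) ∧ ∀ i < m, A (v i) (v (i + 1)) ≠ 0

/-- Vertices of a path with index in `[a, b)`. -/
def seg (v : ℕ → ι) (a b : ℕ) : Set ι := {x | ∃ k, a ≤ k ∧ k < b ∧ v k = x}

/-- Vertices off the path. -/
def Out (v : ℕ → ι) (m : ℕ) (w : ι) : Prop := ∀ k ≤ m, v k ≠ w

namespace GC

variable (h : GC A)
include h

lemma negR {i j : ι} (hij : i ≠ j) : (A i j : ℝ) ≤ 0 := by exact_mod_cast h.neg i j hij

lemma nonpos {g : ι → ℝ} (hg : ∀ j, 0 ≤ g j) {j : ι} (hj : g j = 0) :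
    ∑ l, (A j l : ℝ) * g l ≤ 0 := by
  refine sum_nonpos fun l _ => ?_
  by_cases hl : j = l
  · rw [← hl, hj, mul_zero]
  · exact mul_nonpos_of_nonpos_of_nonneg (h.negR hl) (hg l)

lemma adj_symm {i j : ι} (hij : A i j ≠ 0) : A j i ≠ 0 := fun h' => hij (h.sym _ _ h')

lemma one_le {i j : ι} (hne : i ≠ j) (hij : A i j ≠ 0) : 1 ≤ A i j * A j i := by
  have h1 := h.neg i j hne
  have h2 := h.neg j i hne.symm
  have h3 := h.adj_symm hij
  nlinarith [show A i j ≤ -1 by omega, show A j i ≤ -1 by omega]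

lemma simple {i j : ι} (hne : i ≠ j) (hij : A i j ≠ 0) (h1 : A i j * A j i ≤ 1) :
    A i j = -1 ∧ A j i = -1 := by
  have h1 := h.neg i j hne
  have h2 := h.neg j i hne.symm
  have h3 := h.adj_symm hij
  have h4 : A i j ≤ -1 := by omega
  have h5 : A j i ≤ -1 := by omega
  constructor <;> nlinarith

lemma gad_lt {u : ι} {S : Set ι} {t : ℝ} (hu : u ∉ S) (hG : Gad A u S t) : t < 2 := by
  classical
  obtain ⟨g, h0, h1, h2, h3⟩ := hG
  obtain ⟨i, hi⟩ := h.pos (g + Pi.single u 1) (fun i => add_nonneg (h0 i) (by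
    rw [Pi.single_apply]; split_ifs <;> norm_num)) (fun h' => by
      have := congrFun h' u
      simp [h1 u hu] at this)
  have e : ∑ j, (A i j : ℝ) * (g + Pi.single u 1 : ι → ℝ) j = A i u + ∑ l, (A i l : ℝ) * g l := by
    simp [mul_add, sum_add_distrib, Pi.single_apply, add_comm]
  rw [e] at hi
  by_cases hiu : i = u
  · subst hiu
    rw [h.diag] at hi
    push_cast at hi
    linarith
  · by_cases hiS : i ∈ S
    · linarith [h2 i hiS]
    · linarith [h.negR hiu, h.nonpos h0 (h1 i hiS)]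

omit h in
lemma gad_zero (u : ι) : Gad A u ∅ 0 := ⟨0, by simp, by simp, by simp, by simp⟩

lemma gad_mono {u : ι} {S S' : Set ι} {t t' : ℝ} (hG : Gad A u S t) (hS : S ⊆ S') (hu : u ∉ S')
    (ht : t' ≤ t) : Gad A u S' t' := by
  obtain ⟨g, h0, h1, h2, h3⟩ := hG
  refine ⟨g, h0, fun j hj => h1 j fun h' => hj (hS h'), fun j hj => ?_, by linarith⟩
  by_cases hjS : j ∈ S
  · exact h2 j hjS
  · have : j ≠ u := fun h' => hu (h' ▸ hj)
    linarith [h.negR this, h.nonpos h0 (h1 j hjS)]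

lemma gad_add {u : ι} {S S' : Set ι} {t t' : ℝ} (hG : Gad A u S t) (hG' : Gad A u S' t')
    (hS : ∀ x ∈ S, x ∉ S') : Gad A u (S ∪ S') (t + t') := by
  obtain ⟨g, h0, h1, h2, h3⟩ := hG
  obtain ⟨g', h0', h1', h2', h3'⟩ := hG'
  have e : ∀ j, ∑ l, (A j l : ℝ) * (g + g') l =
      ∑ l, (A j l : ℝ) * g l + ∑ l, (A j l : ℝ) * g' l := by
    intro j; simp [mul_add, sum_add_distrib]
  refine ⟨g + g', fun j => add_nonneg (h0 j) (h0' j), fun j hj => ?_, fun j hj => ?_, ?_⟩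
  · rw [Set.mem_union, not_or] at hj
    simp [h1 j hj.1, h1' j hj.2]
  · rw [e]
    rcases hj with hj | hj
    · linarith [h2 j hj, h.nonpos h0' (h1' j (hS j hj))]
    · linarith [h2' j hj, h.nonpos h0 (h1 j fun h' => hS j h' hj)]
  · rw [e]; linarith

lemma gad_step {u u' : ι} {S : Set ι} {t : ℝ} (hG : Gad A u' S t) (hu' : u' ∉ S) (hu : u ∉ S)
    (hne : u ≠ u') {m : ℤ} (hm : m ≤ A u u' * A u' u) :
    Gad A u (insert u' S) (m / (2 - t)) := by
  classical
  have ht := h.gad_lt hu' hG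
  obtain ⟨g, h0, h1, h2, h3⟩ := hG
  have ht' : 0 < 2 - t := by linarith
  set c : ℝ := -(A u' u : ℝ) / (2 - t) with hc
  have hc0 : 0 ≤ c := div_nonneg (by linarith [h.negR hne.symm]) ht'.le
  have hc1 : c * (2 - t) = -(A u' u : ℝ) := div_mul_cancel₀ _ ht'.ne'
  have e : ∀ j, ∑ l, (A j l : ℝ) * (c • (g + Pi.single u' 1) : ι → ℝ) l =
      c * (A j u' + ∑ l, (A j l : ℝ) * g l) := by
    intro j
    simp only [Pi.smul_apply, Pi.add_apply, smul_eq_mul, Pi.single_apply, mul_add,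
      sum_add_distrib, mul_ite, mul_one, mul_zero, sum_ite_eq', Finset.mem_univ, if_true, mul_sum]
    rw [add_comm, mul_comm c]
    congr 1
    exact sum_congr rfl fun l _ => by ring
  refine ⟨c • (g + Pi.single u' 1), fun j => mul_nonneg hc0 (add_nonneg (h0 j) (by
    rw [Pi.single_apply]; split_ifs <;> norm_num)), fun j hj => ?_, fun j hj => ?_, ?_⟩
  · rw [Set.mem_insert_iff, not_or] at hj
    simp [h1 j hj.2, hj.1]
  · rw [e]
    rcases hj with rfl | hj
    · rw [h.diag]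
      push_cast
      nlinarith
    · have : j ≠ u := fun h' => hu (h' ▸ hj)
      nlinarith [h2 j hj, h.negR this]
  · rw [e]
    have h4 := h.nonpos h0 (h1 u hu)
    have h5 : (m : ℝ) ≤ A u u' * A u' u := by exact_mod_cast hm
    have h6 : (m : ℝ) / (2 - t) ≤ -(c * A u u') := by
      rw [div_le_iff₀ ht', neg_mul, mul_right_comm, hc1]
      linarith
    nlinarith

lemma gad_leaf {u w : ι} (hne : u ≠ w) {m : ℤ} (hm : m ≤ A u w * A w u) :
    Gad A u {w} (m / 2) := by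
  simpa using h.gad_step (gad_zero w) (by simp) (by simp) hne hm

lemma walk {v : ℕ → ι} {m : ℕ} (hp : IsPath A v m) (S : Set ι) (i : ℕ) (T : ℕ → ℝ)
    (hS : ∀ k, i ≤ k → k ≤ m → v k ∉ S) (h0 : Gad A (v i) S (T i))
    (hT : ∀ k, T (k + 1) ≤ 1 / (2 - T k)) :
    ∀ j, i ≤ j → j ≤ m → Gad A (v j) (S ∪ seg v i j) (T j) := by
  have hn : ∀ j k, i ≤ j → j ≤ k → k ≤ m → v k ∉ S ∪ seg v i j := by
    rintro j k h1 h2 h3 (h4 | ⟨l, h4, h5, h6⟩)
    · exact hS k (by omega) h3 h4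
    · have := hp.1 l (by omega) k h3 h6
      omega
  intro j hj
  induction j, hj using Nat.le_induction with
  | base => exact fun hm => h.gad_mono h0 subset_union_left (hn i i le_rfl le_rfl hm) le_rfl
  | succ j hj ih =>
    intro hm
    have hne : v (j + 1) ≠ v j := fun h' => by have := hp.1 _ hm _ (by omega) h'; omega
    have := h.gad_step (ih (by omega)) (hn j j hj le_rfl (by omega)) (hn j (j + 1) hj (by omega) hm)
      hne (h.one_le hne (h.adj_symm (hp.2 j hm)))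
    refine h.gad_mono this ?_ (hn _ _ (by omega) le_rfl hm) (by simpa using hT j)
    rintro x (rfl | h1 | ⟨l, h1, h2, h3⟩)
    · exact Or.inr ⟨j, hj, by omega, rfl⟩
    · exact Or.inl h1
    · exact Or.inr ⟨l, h1, by omega, h3⟩

lemma walk_one {v : ℕ → ι} {m : ℕ} (hp : IsPath A v m) {S : Set ι} {i j : ℕ}
    (hS : ∀ k, i ≤ k → k ≤ m → v k ∉ S) (h0 : Gad A (v i) S 1) (hij : i ≤ j) (hj : j ≤ m) :
    Gad A (v j) (S ∪ seg v i j) 1 :=
  h.walk hp S i (fun _ => 1) hS h0 (fun _ => by norm_num) j hij hj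

lemma armL {v : ℕ → ι} {m : ℕ} (hp : IsPath A v m) {k : ℕ} (hk : k ≤ m) (a : ℕ) (ha : a ≤ k) :
    Gad A (v k) (seg v 0 k) (a / (a + 1)) := by
  have := h.walk hp ∅ 0 (fun k => k / (k + 1)) (by simp) (by simpa using gad_zero (v 0)) (by
    intro k
    have : (2 : ℝ) - k / (k + 1) = (k + 2) / (k + 1) := by field_simp; ring
    rw [this, one_div_div]
    push_cast
    apply le_of_eq
    congr 1
    ring) k (Nat.zero_le _) hk
  refine h.gad_mono this (by simp) ?_ ?_
  · rintro ⟨l, -, h2, h3⟩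
    have := hp.1 l (by omega) k hk h3
    omega
  · have : (a : ℝ) ≤ k := by exact_mod_cast ha
    rw [div_le_div_iff₀ (by positivity) (by positivity)]
    nlinarith

lemma rev {v : ℕ → ι} {m : ℕ} (hp : IsPath A v m) : IsPath A (fun i => v (m - i)) m := by
  refine ⟨fun i hi j hj hij => ?_, fun i hi => ?_⟩
  · have := hp.1 _ (by omega) _ (by omega) hij
    omega
  · have := h.adj_symm (hp.2 (m - (i + 1)) (by omega))
    rwa [show m - (i + 1) + 1 = m - i by omega] at this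

lemma armR {v : ℕ → ι} {m : ℕ} (hp : IsPath A v m) {k : ℕ} (a : ℕ) (ha : k + a ≤ m) :
    Gad A (v k) (seg v (k + 1) (m + 1)) (a / (a + 1)) := by
  have := h.armL (h.rev hp) (k := m - k) (by omega) a (by omega)
  simp only [show m - (m - k) = k by omega] at this
  refine h.gad_mono this ?_ ?_ le_rfl
  · rintro x ⟨l, -, h2, h3⟩
    exact ⟨m - l, by omega, by omega, h3⟩
  · rintro ⟨l, h1, h2, h3⟩
    have := hp.1 l (by omega) k (by omega) h3
    omega

lemma three {v : ℕ → ι} {m : ℕ} (hp : IsPath A v m) {k : ℕ} (hk : k ≤ m) {X Y : Set ι}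
    (hX : ∀ x ∈ X, Out v m x) (hY : ∀ x ∈ Y, Out v m x) (hXY : ∀ x ∈ X, x ∉ Y) {a b c : ℝ}
    (ga : Gad A (v k) (X ∪ seg v 0 k) a) (gb : Gad A (v k) (seg v (k + 1) (m + 1)) b)
    (gc : Gad A (v k) Y c) : a + b + c < 2 := by
  refine h.gad_lt ?_ (h.gad_add (h.gad_add ga gb ?_) gc ?_)
  · rintro (((h1 | ⟨l, h1, h2, h3⟩) | ⟨l, h1, h2, h3⟩) | h1)
    · exact hX _ h1 k hk rfl
    · have := hp.1 l (by omega) k hk h3; omega
    · have := hp.1 l (by omega) k hk h3; omega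
    · exact hY _ h1 k hk rfl
  · rintro x (h1 | ⟨l, h1, h2, h3⟩) ⟨l', h4, h5, h6⟩
    · exact hX _ h1 l' (by omega) h6
    · have := hp.1 l (by omega) l' (by omega) (h3.trans h6.symm); omega
  · rintro x ((h1 | ⟨l, h1, h2, h3⟩) | ⟨l, h1, h2, h3⟩) h4
    · exact hXY _ h1 h4
    · exact hY _ h4 l (by omega) h3
    · exact hY _ h4 l (by omega) h3

lemma two {v : ℕ → ι} {m : ℕ} (hp : IsPath A v m) {k : ℕ} (hk : k ≤ m) {Y : Set ι}
    (hY : ∀ x ∈ Y, Out v m x) {a b c : ℝ}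
    (ga : Gad A (v k) (seg v 0 k) a) (gb : Gad A (v k) (seg v (k + 1) (m + 1)) b)
    (gc : Gad A (v k) Y c) : a + b + c < 2 :=
  h.three hp hk (X := ∅) (by simp) hY (by simp) (by simpa using ga) gb gc

lemma no_cycle {v : ℕ → ι} {m : ℕ} (hp : IsPath A v m) (hm : 2 ≤ m) : A (v 0) (v m) = 0 := by
  classical
  by_contra hc
  let y : ι → ℝ := fun x => if x ∈ seg v 0 (m + 1) then 1 else 0
  have hy : ∀ x, 0 ≤ y x := fun x => by simp only [y]; split_ifs <;> norm_num
  have hy1 : ∀ k ≤ m, y (v k) = 1 := fun k hk => if_pos ⟨k, Nat.zero_le _, by omega, rfl⟩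
  obtain ⟨i, hi⟩ := h.pos y hy (fun h' => by have := hy1 0 (by omega); simp [h'] at this)
  have key : ∀ k p q, k ≤ m → p ≤ m → q ≤ m → k ≠ p → k ≠ q → p ≠ q → A (v k) (v p) ≠ 0 →
      A (v k) (v q) ≠ 0 → ∑ j, (A (v k) j : ℝ) * y j ≤ 0 := by
    intro k p q hk hp' hq hkp hkq hpq h1 h2
    have n1 : v k ≠ v p := fun h' => hkp (hp.1 _ hk _ hp' h')
    have n2 : v k ≠ v q := fun h' => hkq (hp.1 _ hk _ hq h')
    have n3 : v p ≠ v q := fun h' => hpq (hp.1 _ hp' _ hq h')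
    rw [← sum_add_sum_compl {v k, v p, v q}, sum_insert (by simp [n1, n2]), sum_pair n3,
      hy1 k hk, hy1 p hp', hy1 q hq, h.diag]
    have h3 : ∑ j ∈ ({v k, v p, v q} : Finset ι)ᶜ, (A (v k) j : ℝ) * y j ≤ 0 := by
      refine sum_nonpos fun j hj => mul_nonpos_of_nonpos_of_nonneg (h.negR ?_) (hy j)
      rintro rfl
      simp at hj
    have h4 : (A (v k) (v p) : ℝ) ≤ -1 := by
      exact_mod_cast (show A (v k) (v p) ≤ -1 by have := h.neg _ _ n1; omega)
    have h5 : (A (v k) (v q) : ℝ) ≤ -1 := by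
      exact_mod_cast (show A (v k) (v q) ≤ -1 by have := h.neg _ _ n2; omega)
    push_cast
    linarith
  refine absurd hi (not_lt_of_ge ?_)
  by_cases hiS : i ∈ seg v 0 (m + 1)
  · obtain ⟨k, -, hk, rfl⟩ := hiS
    rcases Nat.eq_zero_or_pos k with rfl | hk0
    · exact key 0 1 m (by omega) (by omega) le_rfl (by omega) (by omega) (by omega)
        (hp.2 0 (by omega)) hc
    · obtain ⟨k, rfl⟩ : ∃ l, k = l + 1 := ⟨k - 1, by omega⟩
      by_cases hkm : k + 1 = m
      · refine key (k + 1) k 0 (by omega) (by omega) (by omega) (by omega) (by omega) (by omega)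
          (h.adj_symm (hp.2 k (by omega))) ?_
        rw [hkm]; exact h.adj_symm hc
      · exact key (k + 1) k (k + 2) (by omega) (by omega) (by omega) (by omega) (by omega)
          (by omega) (h.adj_symm (hp.2 k (by omega))) (hp.2 (k + 1) (by omega))
  · exact h.nonpos hy (if_neg hiS)

omit [Fintype ι] h in
lemma shift {v : ℕ → ι} {m : ℕ} (hp : IsPath A v m) (i l : ℕ) (hl : i + l ≤ m) :
    IsPath A (fun k => v (i + k)) l := by
  refine ⟨fun a ha b hb hab => ?_, fun a ha => hp.2 (i + a) (by omega)⟩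
  have := hp.1 _ (by omega) _ (by omega) hab
  omega

omit [Fintype ι] h in
lemma snoc {v : ℕ → ι} {m : ℕ} (hp : IsPath A v m) {w : ι} (hw : Out v m w)
    (ha : A (v m) w ≠ 0) : IsPath A (fun k => if k ≤ m then v k else w) (m + 1) := by
  refine ⟨fun a ha b hb hab => ?_, fun a ha' => ?_⟩
  · simp only at hab
    split_ifs at hab with h1 h2 h2
    · exact hp.1 _ h1 _ h2 hab
    · exact absurd hab (hw _ h1)
    · exact absurd hab.symm (hw _ h2)
    · omega
  · simp only [if_pos (show a ≤ m by omega)]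
    split_ifs with h1
    · exact hp.2 a h1
    · rwa [show a = m by omega]

lemma no_chord {v : ℕ → ι} {m : ℕ} (hp : IsPath A v m) {i j : ℕ} (hij : i + 2 ≤ j) (hj : j ≤ m) :
    A (v i) (v j) = 0 := by
  have := h.no_cycle (shift hp i (j - i) (by omega)) (by omega)
  simpa [show i + (j - i) = j by omega] using this

lemma attach_unique {v : ℕ → ι} {m : ℕ} (hp : IsPath A v m) {w : ι} (hw : Out v m w) {k l : ℕ}
    (hkl : k < l) (hl : l ≤ m) (h2 : A (v l) w ≠ 0) : A (v k) w = 0 := by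
  have h3 := snoc (shift hp k (l - k) (by omega)) (w := w) (fun a ha => hw _ (by omega))
    (by simpa [show k + (l - k) = l by omega] using h2)
  simpa using h.no_cycle h3 (by omega)

omit [Fintype ι] h in
lemma out_rev {v : ℕ → ι} {m : ℕ} {w : ι} (hw : Out v m w) : Out (fun i => v (m - i)) m w :=
  fun k _ => hw _ (by omega)

section Max

variable {v : ℕ → ι} {m : ℕ} (hp : IsPath A v m) (hmax : ∀ v', ¬ IsPath A v' (m + 1))
include hp hmax

lemma attach_pos {w : ι} (hw : Out v m w) {k : ℕ} (hk : k ≤ m) (ha : A (v k) w ≠ 0) :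
    0 < k ∧ k < m := by
  constructor
  · by_contra h0
    obtain rfl : k = 0 := by omega
    exact hmax _ (snoc (h.rev hp) (out_rev hw) (by simpa using ha))
  · by_contra h0
    obtain rfl : k = m := by omega
    exact hmax _ (snoc hp hw ha)

lemma fork {w : ι} (hw : Out v m w) {k : ℕ} (hk : k ≤ m) (ha : A (v k) w ≠ 0) {l : ℕ}
    (hkl : k ≤ l) (hl : l ≤ m) : Gad A (v l) ({w} ∪ seg v 0 l) 1 := by
  have h1 := h.attach_pos hp hmax hw hk ha
  have h2 := h.gad_add (h.gad_leaf (hw k hk) (h.one_le (hw k hk) ha))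
    (h.armL hp hk 1 h1.1) (by
      rintro x rfl ⟨l, -, h2, h3⟩
      exact hw l (by omega) h3)
  norm_num at h2
  have h3 := h.walk_one hp (S := {w} ∪ seg v 0 k) (by
    rintro a ha1 ha2 (h3 | ⟨b, -, h3, h4⟩)
    · exact hw a ha2 h3
    · have := hp.1 b (by omega) a ha2 h4; omega) h2 hkl hl
  refine h.gad_mono h3 ?_ ?_ le_rfl
  · rintro x ((h4 | ⟨b, -, h4, h5⟩) | ⟨b, h4, h5, h6⟩)
    · exact Or.inl h4
    · exact Or.inr ⟨b, Nat.zero_le _, by omega, h5⟩
    · exact Or.inr ⟨b, Nat.zero_le _, h5, h6⟩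
  · rintro (h4 | ⟨b, -, h4, h5⟩)
    · exact hw l hl h4
    · have := hp.1 b (by omega) l hl h5; omega

lemma out_unique {w w' : ι} (hw : Out v m w) (hw' : Out v m w') {k l : ℕ} (hk : k ≤ m)
    (hl : l ≤ m) (ha : A (v k) w ≠ 0) (ha' : A (v l) w' ≠ 0) : w = w' := by
  wlog hkl : k ≤ l generalizing w w' k l
  · exact (this hw' hw hl hk ha' ha (by omega)).symm
  by_contra hne
  have := h.three hp hl (X := {w}) (Y := {w'}) (by simpa) (by simpa) (by simpa)
    (h.fork hp hmax hw hk ha hkl hl)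
    (h.armR hp 1 (h.attach_pos hp hmax hw' hl ha').2)
    (h.gad_leaf (hw' l hl) (h.one_le (hw' l hl) ha'))
  norm_num at this

lemma out_leaf_aux {w u : ι} (hw : Out v m w) (hu : Out v m u) (hne : w ≠ u) {k : ℕ}
    (hk : k ≤ m) (ha : A (v k) w ≠ 0) (hb : A w u ≠ 0) : k + 2 ≤ m := by
  have h1 := h.attach_pos hp hmax hw hk ha
  by_contra h0
  obtain rfl : m = k + 1 := by omega
  have h2 := snoc (shift hp 0 k (by omega)) (w := w) (fun a ha => hw _ (by omega))
    (by simpa using ha)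
  refine hmax _ (snoc h2 (w := u) (fun a ha => ?_) (by simpa using hb))
  simp only
  split_ifs
  · exact hu _ (by omega)
  · exact hne

lemma out_leaf {w u : ι} (hw : Out v m w) (hu : Out v m u) (hne : w ≠ u) {k : ℕ}
    (hk : k ≤ m) (ha : A (v k) w ≠ 0) : A w u = 0 := by
  by_contra hb
  have h1 := h.out_leaf_aux hp hmax hw hu hne hk ha hb
  have h2 := h.out_leaf_aux (h.rev hp) hmax (out_rev hw) (out_rev hu) hne (k := m - k) (by omega)
    (by simpa [show m - (m - k) = k by omega] using ha) hb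
  have h3 := h.gad_step (h.gad_leaf hne (h.one_le hne hb)) (by simpa) (u := v k)
    (by simpa using hu k hk) (hw k hk) (h.one_le (hw k hk) ha)
  have := h.two hp hk (by rintro x (rfl | rfl) <;> assumption)
    (h.armL hp hk 2 (by omega)) (h.armR hp 2 h1) h3
  norm_num at this

lemma cover (x : ι) : (∃ k ≤ m, v k = x) ∨ (Out v m x ∧ ∃ k ≤ m, A (v k) x ≠ 0) := by
  refine h.conn (fun x => (∃ k ≤ m, v k = x) ∨ (Out v m x ∧ ∃ k ≤ m, A (v k) x ≠ 0)) (v 0) x
    (Or.inl ⟨0, Nat.zero_le _, rfl⟩) ?_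
  intro i j hi hij
  by_cases hj : ∃ k ≤ m, v k = j
  · exact Or.inl hj
  have hj' : Out v m j := fun k hk h' => hj ⟨k, hk, h'⟩
  right
  refine ⟨hj', ?_⟩
  rcases hi with ⟨k, hk, rfl⟩ | ⟨hi, k, hk, ha⟩
  · exact ⟨k, hk, h.adj_symm hij⟩
  · by_cases hne : i = j
    · exact ⟨k, hk, hne ▸ ha⟩
    · exact absurd (h.out_leaf hp hmax hi hj' hne hk ha) (h.adj_symm hij)

lemma branch_pos (hm : 7 ≤ m) {w : ι} (hw : Out v m w) {k : ℕ} (hk : k ≤ m)
    (ha : A (v k) w ≠ 0) : k = 1 ∨ k + 1 = m := by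
  have h1 := h.attach_pos hp hmax hw hk ha
  have h2 := h.gad_leaf (hw k hk) (h.one_le (hw k hk) ha)
  have h3 : ∀ a b : ℕ, a ≤ k → k + b ≤ m → (a / (a + 1) + b / (b + 1) + (1 : ℤ) / 2 : ℝ) < 2 :=
    fun a b ha hb => h.two hp hk (by simpa) (h.armL hp hk a ha) (h.armR hp b hb) h2
  by_contra h0
  rcases (by omega : (2 ≤ k ∧ k + 5 ≤ m) ∨ (3 ≤ k ∧ k + 3 ≤ m) ∨ (5 ≤ k ∧ k + 2 ≤ m)) with
    h4 | h4 | h4 <;> have := h3 _ _ h4.1 h4.2 <;> norm_num at this

lemma d_edges (hm : 2 ≤ m) {w : ι} (hw : Out v m w) (ha : A (v 1) w ≠ 0) :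
    A (v 1) w * A w (v 1) ≤ 1 ∧ ∀ j < m, A (v j) (v (j + 1)) * A (v (j + 1)) (v j) ≤ 1 := by
  have h1 : 1 ≤ m := by omega
  refine ⟨?_, fun j hj => ?_⟩
  · by_contra h0
    have := h.two hp h1 (by simpa) (h.armL hp h1 1 le_rfl) (h.armR hp 1 hm)
      (h.gad_leaf (hw 1 h1) (m := 2) (by omega))
    norm_num at this
  · by_contra h0
    have hne : v j ≠ v (j + 1) := fun h' => by have := hp.1 _ hj.le _ hj h'; omega
    rcases Nat.eq_zero_or_pos j with rfl | hj0
    · have h2 := h.gad_mono (h.gad_leaf hne.symm (m := 2) (by rw [mul_comm]; omega))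
        (S' := seg v 0 1) (by rintro x rfl; exact ⟨0, le_rfl, one_pos, rfl⟩)
        (by rintro ⟨l, -, h2, h3⟩; have := hp.1 l (by omega) _ h1 h3; omega) le_rfl
      have := h.two hp h1 (by simpa) h2 (h.armR hp 1 hm)
        (h.gad_leaf (hw 1 h1) (h.one_le (hw 1 h1) ha))
      norm_num at this
    · have h2 := h.gad_mono (h.gad_leaf hne (m := 2) (by omega))
        (S' := seg v (j + 1) (m + 1)) (by rintro x rfl; exact ⟨j + 1, le_rfl, by omega, rfl⟩)
        (by rintro ⟨l, h2, h3, h4⟩; have := hp.1 l (by omega) _ hj.le h4; omega) le_rfl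
      have := h.three hp hj.le (X := {w}) (Y := ∅) (by simpa) (by simp) (by simp)
        (h.fork hp hmax hw h1 ha hj0 hj.le) h2 (gad_zero _)
      norm_num at this

end Max

lemma mid_edge {v : ℕ → ι} {m : ℕ} (hp : IsPath A v m) (hm : 4 ≤ m) {j : ℕ} (hj : 1 ≤ j)
    (hj' : j + 2 ≤ m) : A (v j) (v (j + 1)) * A (v (j + 1)) (v j) ≤ 1 := by
  by_contra h0
  have hne : v j ≠ v (j + 1) := fun h' => by have := hp.1 _ (by omega) _ (by omega) h'; omega
  have key : ∀ a b : ℕ, a ≤ j → j + 1 + b ≤ m →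
      (a / (a + 1) + (2 : ℤ) / (2 - b / (b + 1)) + 0 : ℝ) < 2 := by
    intro a b ha hb
    have h2 := h.gad_step (h.armR hp b hb) (u := v j)
      (by rintro ⟨l, h2, h3, h4⟩; have := hp.1 l (by omega) _ (by omega) h4; omega)
      (by rintro ⟨l, h2, h3, h4⟩; have := hp.1 l (by omega) _ (by omega) h4; omega) hne
      (m := 2) (by omega)
    refine h.two hp (k := j) (by omega) (Y := ∅) (by simp) (h.armL hp (by omega) a ha)
      (h.gad_mono h2 ?_ ?_ le_rfl) (gad_zero _)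
    · rintro x (rfl | ⟨l, h2, h3, h4⟩)
      · exact ⟨j + 1, le_rfl, by omega, rfl⟩
      · exact ⟨l, by omega, h3, h4⟩
    · rintro ⟨l, h2, h3, h4⟩; have := hp.1 l (by omega) _ (by omega) h4; omega
  rcases (by omega : (1 ≤ j ∧ j + 1 + 2 ≤ m) ∨ (2 ≤ j ∧ j + 1 + 1 ≤ m)) with h4 | h4 <;>
    have := key _ _ h4.1 h4.2 <;> norm_num at this

lemma first_gad {v : ℕ → ι} {m : ℕ} (hp : IsPath A v m) (hm : 1 ≤ m) {a : ℤ}
    (ha : a ≤ A (v 0) (v 1) * A (v 1) (v 0)) : Gad A (v 1) (seg v 0 1) (a / 2) := by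
  have hne : v 1 ≠ v 0 := fun h' => by have := hp.1 _ hm _ (by omega) h'; omega
  exact h.gad_mono (h.gad_leaf hne (by rwa [mul_comm]))
    (by rintro x rfl; exact ⟨0, le_rfl, one_pos, rfl⟩)
    (by rintro ⟨l, -, h2, h3⟩; have := hp.1 l (by omega) _ hm h3; omega) le_rfl

lemma first_edge {v : ℕ → ι} {m : ℕ} (hp : IsPath A v m) (hm : 2 ≤ m) :
    A (v 0) (v 1) * A (v 1) (v 0) ≤ 2 := by
  by_contra h0
  have := h.two hp (k := 1) (by omega) (Y := ∅) (by simp)
    (h.first_gad hp (by omega) (a := 3) (by omega)) (h.armR hp 1 hm) (gad_zero _)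
  norm_num at this

lemma both_edges {v : ℕ → ι} {m : ℕ} (hp : IsPath A v (m + 1)) (hm : 1 ≤ m)
    (h1 : 2 ≤ A (v 0) (v 1) * A (v 1) (v 0)) : A (v m) (v (m + 1)) * A (v (m + 1)) (v m) ≤ 1 := by
  by_contra h0
  have hne : v m ≠ v (m + 1) := fun h' => by have := hp.1 _ (by omega) _ le_rfl h'; omega
  have h2 := h.walk_one hp (S := seg v 0 1) (i := 1) (j := m)
    (by rintro k h2 h3 ⟨l, -, h4, h5⟩; have := hp.1 l (by omega) _ h3 h5; omega)
    (by simpa using h.first_gad hp (by omega) h1) hm (by omega)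
  have h3 := h.gad_mono h2 (S' := seg v 0 m) (by
      rintro x (⟨l, h2, h3, h4⟩ | ⟨l, h2, h3, h4⟩)
      · exact ⟨l, h2, by omega, h4⟩
      · exact ⟨l, by omega, h3, h4⟩)
    (by rintro ⟨l, -, h2, h3⟩; have := hp.1 l (by omega) _ (by omega) h3; omega) le_rfl
  have h4 := h.gad_mono (h.gad_leaf hne (m := 2) (by omega))
    (S' := seg v (m + 1) (m + 1 + 1)) (by rintro x rfl; exact ⟨m + 1, le_rfl, by omega, rfl⟩)
    (by rintro ⟨l, h2, h3, h4⟩; have := hp.1 l (by omega) _ (by omega) h4; omega) le_rfl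
  have := h.two hp (k := m) (by omega) (Y := ∅) (by simp) h3 h4 (gad_zero _)
  norm_num at this

omit h in
lemma path_lt {v : ℕ → ι} {m : ℕ} (hp : IsPath A v m) : m < Fintype.card ι := by
  have := Fintype.card_le_of_injective (fun i : Fin (m + 1) => v i) fun i j hij =>
    Fin.ext (hp.1 _ (by omega) _ (by omega) hij)
  simpa using this

omit h in
lemma exists_max [Nonempty ι] : ∃ v m, IsPath A v m ∧ ∀ v', ¬ IsPath A v' (m + 1) := by
  classical
  have hex : ∃ k, ∀ v', ¬ IsPath A v' (k + 1) :=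
    ⟨Fintype.card ι, fun v' hv => by have := path_lt hv; omega⟩
  rcases Nat.eq_zero_or_pos (Nat.find hex) with h0 | h0
  · refine ⟨fun _ => Classical.arbitrary ι, 0, ⟨fun i hi j hj _ => by omega, by simp⟩, ?_⟩
    have := Nat.find_spec hex
    rwa [h0] at this
  · have := Nat.find_min hex (m := Nat.find hex - 1) (by omega)
    push Not at this
    obtain ⟨v, hv⟩ := this
    rw [show Nat.find hex - 1 + 1 = Nat.find hex by omega] at hv
    exact ⟨v, _, hv, Nat.find_spec hex⟩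

lemma path_case {v : ℕ → ι} {m : ℕ} (hp : IsPath A v m) (hm : 2 ≤ m)
    (he : ∀ j, j + 1 < m → A (v j) (v (j + 1)) * A (v (j + 1)) (v j) ≤ 1) :
    ∃ p q : ℤ, ((p = 1 ∧ q = 1) ∨ (p = 2 ∧ q = 1) ∨ (p = 1 ∧ q = 2)) ∧
      ∀ i ≤ m, ∀ j ≤ m, A (v i) (v j) = pathM (m + 1) p q i j := by
  have hne : ∀ j < m, v j ≠ v (j + 1) := fun j hj h' => by have := hp.1 _ hj.le _ hj h'; omega
  obtain ⟨m, rfl⟩ : ∃ l, m = l + 1 := ⟨m - 1, by omega⟩
  have h1 := h.first_edge (h.rev hp) hm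
  simp only [Nat.sub_zero, Nat.add_sub_cancel] at h1
  have h2 := h.neg _ _ (hne m (by omega))
  have h3 := h.neg _ _ (hne m (by omega)).symm
  have h4 := hp.2 m (by omega)
  have h5 := h.adj_symm h4
  refine ⟨-A (v m) (v (m + 1)), -A (v (m + 1)) (v m), ?_, fun i hi j hj => ?_⟩
  · generalize A (v m) (v (m + 1)) = a at *
    generalize A (v (m + 1)) (v m) = b at *
    have h6 : -2 ≤ a := by nlinarith [show b ≤ -1 by omega]
    have h7 : -2 ≤ b := by nlinarith [show a ≤ -1 by omega]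
    interval_cases a <;> interval_cases b <;> simp_all
  · unfold pathM
    split_ifs with c1 c2 c3 c4 c5
    · rw [c1, h.diag]
    · obtain rfl : i = m := by omega
      rw [c2, neg_neg]
    · subst c2
      exact (h.simple (hne i (by omega)) (hp.2 i (by omega)) (he i (by omega))).1
    · obtain rfl : j = m := by omega
      rw [c4, neg_neg]
    · subst c4
      exact (h.simple (hne j (by omega)) (hp.2 j (by omega)) (he j (by omega))).2
    · rcases (by omega : i + 2 ≤ j ∨ j + 2 ≤ i) with c | c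
      · exact h.no_chord hp c hj
      · exact h.sym _ _ (h.no_chord hp c hi)

lemma d_case {v : ℕ → ι} {m : ℕ} (hp : IsPath A v m) (hmax : ∀ v', ¬ IsPath A v' (m + 1))
    (hm : 2 ≤ m) {w : ι} (hw : Out v m w) (ha : A (v 1) w ≠ 0) :
    ∀ i ≤ m + 1, ∀ j ≤ m + 1, A (if i ≤ m then v (m - i) else w) (if j ≤ m then v (m - j) else w)
      = dM (m + 2) i j := by
  obtain ⟨h1, h2⟩ := h.d_edges hp hmax hm hw ha
  have hne : ∀ j < m, v j ≠ v (j + 1) := fun j hj h' => by have := hp.1 _ hj.le _ hj h'; omega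
  have h3 := h.simple (hw 1 (by omega)) ha h1
  have h4 : ∀ k ≤ m, k ≠ 1 → A (v k) w = 0 := by
    intro k hk hk1
    rcases Nat.eq_zero_or_pos k with rfl | h0
    · exact h.attach_unique hp hw one_pos (by omega) ha
    · by_contra h5
      exact ha (h.attach_unique hp hw (by omega) hk h5)
  intro i hi j hj
  unfold dM
  by_cases c1 : i = j
  · rw [if_pos c1, c1, h.diag]
  rw [if_neg c1]
  by_cases ci : i ≤ m <;> by_cases cj : j ≤ m <;> simp only [ci, cj, if_true, if_false]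
  · split_ifs with c2
    · rcases (by omega : m - i = m - j + 1 ∨ m - j = m - i + 1) with c | c <;> rw [c]
      · exact (h.simple (hne _ (by omega)) (hp.2 _ (by omega)) (h2 _ (by omega))).2
      · exact (h.simple (hne _ (by omega)) (hp.2 _ (by omega)) (h2 _ (by omega))).1
    · rcases (by omega : m - i + 2 ≤ m - j ∨ m - j + 2 ≤ m - i) with c | c
      · exact h.no_chord hp c (by omega)
      · exact h.sym _ _ (h.no_chord hp c (by omega))
  · split_ifs with c2
    · rw [show m - i = 1 by omega]; exact h3.1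
    · exact h4 _ (by omega) (by omega)
  · split_ifs with c2
    · rw [show m - j = 1 by omega]; exact h3.2
    · exact h.sym _ _ (h4 _ (by omega) (by omega))
  · omega

theorem classify (hn : 9 ≤ Fintype.card ι) : ∃ (n : ℕ) (u : Fin n ≃ ι), 9 ≤ n ∧
    ((∃ p q : ℤ, ((p = 1 ∧ q = 1) ∨ (p = 2 ∧ q = 1) ∨ (p = 1 ∧ q = 2)) ∧
      ∀ i j, A (u i) (u j) = pathM n p q i j) ∨ ∀ i j, A (u i) (u j) = dM n i j) := by
  classical
  have : Nonempty ι := Fintype.card_pos_iff.1 (by omega)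
  obtain ⟨v, m, hp, hmax⟩ := exists_max (A := A)
  have mk : ∀ (n : ℕ) (u : ℕ → ι), (∀ i < n, ∀ j < n, u i = u j → i = j) →
      (∀ x, ∃ k < n, u k = x) → ∃ e : Fin n ≃ ι, 9 ≤ n ∧ ∀ i, e i = u i := by
    intro n u h1 h2
    let e : Fin n ≃ ι := Equiv.ofBijective (fun i => u i)
      ⟨fun i j hij => Fin.ext (h1 _ i.2 _ j.2 hij), fun x => by
        obtain ⟨k, hk, rfl⟩ := h2 x
        exact ⟨⟨k, hk⟩, rfl⟩⟩
    exact ⟨e, by rw [← Fintype.card_congr e, Fintype.card_fin] at hn; exact hn, fun _ => rfl⟩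
  by_cases hout : ∃ w, Out v m w
  · obtain ⟨w, hw⟩ := hout
    obtain ⟨k, hk, ha⟩ := ((h.cover hp hmax w).resolve_left
      (fun ⟨k, hk, h'⟩ => hw k hk h')).2
    have hD : ∀ v : ℕ → ι, IsPath A v m → Out v m w → ∀ k ≤ m, A (v k) w ≠ 0 →
        ∃ e : Fin (m + 2) ≃ ι, 9 ≤ m + 2 ∧ ∀ i, e i = if i.1 ≤ m then v (m - i) else w := by
      intro v hp hw k hk ha
      refine mk (m + 2) (fun i => if i ≤ m then v (m - i) else w) ?_ ?_
      · intro i hi j hj hij
        split_ifs at hij with h1 h2 h2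
        · have := hp.1 _ (by omega) _ (by omega) hij; omega
        · exact absurd hij (hw _ (by omega))
        · exact absurd hij.symm (hw _ (by omega))
        · omega
      · intro x
        rcases h.cover hp hmax x with ⟨l, hl, rfl⟩ | ⟨hx, l, hl, hb⟩
        · exact ⟨m - l, by omega, by simp [show m - (m - l) = l by omega]⟩
        · exact ⟨m + 1, by omega, by simpa using h.out_unique hp hmax hw hx hk hl ha hb⟩
    have hm : 7 ≤ m := by obtain ⟨e, he, -⟩ := hD v hp hw k hk ha; omega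
    have hD' : ∀ v : ℕ → ι, IsPath A v m → Out v m w → A (v 1) w ≠ 0 →
        ∃ e : Fin (m + 2) ≃ ι, ∀ i j, A (e i) (e j) = dM (m + 2) i j := by
      intro v hp hw ha
      obtain ⟨e, -, he⟩ := hD v hp hw 1 (by omega) ha
      refine ⟨e, fun i j => ?_⟩
      rw [he, he]
      exact h.d_case hp hmax (by omega) hw ha i (by omega) j (by omega)
    rcases h.branch_pos hp hmax hm hw hk ha with rfl | hk'
    · obtain ⟨e, he⟩ := hD' v hp hw ha
      exact ⟨m + 2, e, by omega, Or.inr he⟩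
    · obtain ⟨e, he⟩ := hD' _ (h.rev hp) (out_rev hw) (by
        simpa [show m - 1 = k by omega] using ha)
      exact ⟨m + 2, e, by omega, Or.inr he⟩
  · have hcov : ∀ x, ∃ k ≤ m, v k = x := fun x =>
      (h.cover hp hmax x).resolve_right fun h' => hout ⟨x, h'.1⟩
    have hP : ∀ v : ℕ → ι, IsPath A v m → (∀ x, ∃ k ≤ m, v k = x) →
        ∃ e : Fin (m + 1) ≃ ι, 9 ≤ m + 1 ∧ ∀ i, e i = v i := by
      intro v hp hcov
      refine mk (m + 1) v (fun i hi j hj => hp.1 i (by omega) j (by omega)) fun x => ?_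
      obtain ⟨k, hk, rfl⟩ := hcov x
      exact ⟨k, by omega, rfl⟩
    have hm : 8 ≤ m := by obtain ⟨e, he, -⟩ := hP v hp hcov; omega
    have hP' : ∀ v : ℕ → ι, IsPath A v m → (∀ x, ∃ k ≤ m, v k = x) →
        A (v 0) (v 1) * A (v 1) (v 0) ≤ 1 → ∃ (u : Fin (m + 1) ≃ ι) (p q : ℤ),
          ((p = 1 ∧ q = 1) ∨ (p = 2 ∧ q = 1) ∨ (p = 1 ∧ q = 2)) ∧
          ∀ i j, A (u i) (u j) = pathM (m + 1) p q i j := by
      intro v hp hcov h0
      obtain ⟨e, -, he⟩ := hP v hp hcov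
      obtain ⟨p, q, hpq, hA⟩ := h.path_case hp (by omega) (fun j hj => by
        rcases Nat.eq_zero_or_pos j with rfl | hj0
        · exact h0
        · exact h.mid_edge hp (by omega) hj0 hj)
      exact ⟨e, p, q, hpq, fun i j => by rw [he, he]; exact hA i (by omega) j (by omega)⟩
    by_cases h0 : A (v 0) (v 1) * A (v 1) (v 0) ≤ 1
    · obtain ⟨e, he⟩ := hP' v hp hcov h0
      exact ⟨m + 1, e, by omega, Or.inl he⟩
    · obtain ⟨e, he⟩ := hP' _ (h.rev hp) (fun x => by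
        obtain ⟨k, hk, rfl⟩ := hcov x
        exact ⟨m - k, by omega, by simp [show m - (m - k) = k by omega]⟩) (by
          obtain ⟨m, rfl⟩ : ∃ l, m = l + 1 := ⟨m - 1, by omega⟩
          have := h.both_edges hp (by omega) (by omega)
          simpa [mul_comm] using this)
      exact ⟨m + 1, e, by omega, Or.inl he⟩

end GC

end Pool.Agent.Lib.MP_775e5c_al
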