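import Pool.Agent.Lib.MP_775e5c_al.ClsModel
import Pool.Agent.Lib.MP_775e5c_al.ClsExist

/-!
The classification of compact simple Lie algebras of large dimension.
-/

set_option autoImplicit false

namespace Pool.Agent.Lib.MP_775e5c_al

open Matrix LieSubalgebra
open scoped ComplexOrder ComplexConjugate

attribute [local instance 100] LieRing.ofAssociativeRing

section

variable {ι : Type} [Fintype ι] [DecidableEq ι] {g : Submodule ℝ (Matrix ι ι ℂ)}

omit [Fintype ι] [DecidableEq ι] in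
lemma real_smul_eq (r : ℝ) (X : Matrix ι ι ℂ) : r • X = (r : ℂ) • X := by
  ext i j
  simp

/-- The complex span of a compact matrix Lie algebra. -/
def cplx (hg : IsCompactLie g) : LieSubalgebra ℂ (Matrix ι ι ℂ) where
  carrier := {X | ∃ a ∈ g, ∃ b ∈ g, X = a + Complex.I • b}
  add_mem' := by
    rintro _ _ ⟨a, ha, b, hb, rfl⟩ ⟨a', ha', b', hb', rfl⟩
    exact ⟨a + a', add_mem ha ha', b + b', add_mem hb hb', by module⟩
  zero_mem' := ⟨0, zero_mem _, 0, zero_mem _, by simp⟩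
  smul_mem' := by
    rintro z _ ⟨a, ha, b, hb, rfl⟩
    refine ⟨z.re • a - z.im • b, sub_mem (g.smul_mem _ ha) (g.smul_mem _ hb),
      z.im • a + z.re • b, add_mem (g.smul_mem _ ha) (g.smul_mem _ hb), ?_⟩
    simp only [real_smul_eq]
    conv_lhs => rw [← Complex.re_add_im z]
    match_scalars
    · ring
    · linear_combination (z.im : ℂ) * Complex.I_mul_I
  lie_mem' := by
    rintro _ _ ⟨a, ha, b, hb, rfl⟩ ⟨a', ha', b', hb', rfl⟩
    refine ⟨⁅a, a'⁆ - ⁅b, b'⁆, sub_mem (hg.lie_mem _ ha _ ha') (hg.lie_mem _ hb _ hb'),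
      ⁅a, b'⁆ + ⁅b, a'⁆, add_mem (hg.lie_mem _ ha _ hb') (hg.lie_mem _ hb _ ha'), ?_⟩
    simp only [add_lie, lie_add, smul_lie, lie_smul, smul_add, smul_smul, Complex.I_mul_I]
    module

variable (hg : IsCompactLie g)

lemma mem_cplx {X : Matrix ι ι ℂ} (h : X ∈ g) : X ∈ cplx hg := ⟨X, h, 0, zero_mem _, by simp⟩

omit [DecidableEq ι] in
include hg in
lemma star_cplx {a b : Matrix ι ι ℂ} (ha : a ∈ g) (hb : b ∈ g) :
    (a + Complex.I • b)ᴴ = -a + Complex.I • b := by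
  rw [conjTranspose_add, conjTranspose_smul, hg.skew a ha, hg.skew b hb]
  simp

lemma σ_mem_cplx : ∀ X ∈ cplx hg, (matCpt ι).σ X ∈ cplx hg := by
  rintro _ ⟨a, ha, b, hb, rfl⟩
  exact ⟨-a, neg_mem ha, b, hb, star_cplx hg ha hb⟩

lemma mem_of_skew {X : Matrix ι ι ℂ} (h : X ∈ cplx hg) (hX : Xᴴ = -X) : X ∈ g := by
  obtain ⟨a, ha, b, hb, rfl⟩ := h
  rw [star_cplx hg ha hb] at hX
  have : a + Complex.I • b = a := by
    have h2 : (2 : ℂ) • (Complex.I • b) = 0 := by linear_combination (norm := module) hX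
    rw [(smul_eq_zero.1 h2).resolve_left two_ne_zero, add_zero]
  rw [this]
  exact ha

lemma cplx_simple (hs : IsSimpleLie g) : LieAlgebra.IsSimple ℂ (cplx hg) := by
  refine ((matCpt ι).sub _ (σ_mem_cplx hg)).isSimple (fun h => ?_) fun J hJ => ?_
  · obtain ⟨X, hX, Y, hY, hXY⟩ := hs.nonabelian
    have := congrArg Subtype.val (h.trivial ⟨X, mem_cplx hg hX⟩ ⟨Y, mem_cplx hg hY⟩)
    exact hXY (sub_eq_zero.1 this)
  let a : Submodule ℝ (Matrix ι ι ℂ) :=
    { carrier := {X | ∃ h : X ∈ g, (⟨X, mem_cplx hg h⟩ : cplx hg) ∈ J}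
      add_mem' := fun ⟨h1, h2⟩ ⟨h3, h4⟩ => ⟨add_mem h1 h3, add_mem h2 h4⟩
      zero_mem' := ⟨zero_mem _, zero_mem J⟩
      smul_mem' := fun r X ⟨h1, h2⟩ => ⟨g.smul_mem r h1, by
        have := SMulMemClass.smul_mem (r : ℂ) h2
        convert this using 1
        exact Subtype.ext (real_smul_eq r X)⟩ }
  have ha : ∀ y ∈ J, (y : Matrix ι ι ℂ)ᴴ = -y → (y : Matrix ι ι ℂ) ∈ a :=
    fun y hy h => ⟨mem_of_skew hg y.2 h, hy⟩
  rcases hs.ideal a ⟨fun X h => h.1, fun X hX Y ⟨h1, h2⟩ =>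
    ⟨hg.lie_mem X hX Y h1, J.lie_mem (x := ⟨X, mem_cplx hg hX⟩) h2⟩⟩ with h | h
  · left
    rw [_root_.eq_bot_iff]
    intro y hy
    have h1 := ha _ (sub_mem hy (hJ y hy)) (by simp)
    have h2 := ha _ (SMulMemClass.smul_mem Complex.I (add_mem hy (hJ y hy))) (by
      simp [add_comm])
    rw [h, Submodule.mem_bot] at h1 h2
    have h3 : (y : Matrix ι ι ℂ) - (y : Matrix ι ι ℂ)ᴴ = 0 := h1
    have h4 : Complex.I • ((y : Matrix ι ι ℂ) + (y : Matrix ι ι ℂ)ᴴ) = 0 := h2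
    have h5 := (smul_eq_zero.1 h4).resolve_left Complex.I_ne_zero
    have h6 : (2 : ℂ) • (y : Matrix ι ι ℂ) = 0 := by linear_combination (norm := module) h3 + h5
    exact Subtype.ext ((smul_eq_zero.1 h6).resolve_left two_ne_zero)
  · right
    rw [eq_top_iff]
    rintro ⟨_, b, hb, b', hb', rfl⟩ -
    obtain ⟨_, h1⟩ : b ∈ a := h ▸ hb
    obtain ⟨_, h2⟩ : b' ∈ a := h ▸ hb'
    exact add_mem h1 (SMulMemClass.smul_mem Complex.I h2)

lemma finrank_le_cplx : Module.finrank ℝ g ≤ 2 * Module.finrank ℂ (cplx hg) := by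
  let f : g →ₗ[ℝ] cplx hg :=
    { toFun := fun X => ⟨X, mem_cplx hg X.2⟩
      map_add' := fun _ _ => rfl
      map_smul' := fun _ _ => rfl }
  have : Module.Finite ℝ (cplx hg) := Module.Finite.trans ℂ _
  have h := LinearMap.finrank_le_finrank_of_injective (f := f)
    (fun X Y h => Subtype.ext (congrArg Subtype.val h :))
  rwa [← Module.finrank_mul_finrank ℝ ℂ (cplx hg), Complex.finrank_real_complex] at h

lemma iso_of_model {μ : Type} [Fintype μ] [DecidableEq μ] {A : Matrix μ μ ℤ}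
    {e : μ → Matrix ι ι ℂ} (s : SB (matCpt ι) A e) (he : (matCpt ι).gen e = cplx hg) {n : ℕ}
    (u : Fin n ≃ μ) {M : ℕ → ℕ → ℤ} (hM : ∀ i j, A (u i) (u j) = M i j) (h : HasModel n M) :
    ∃ (κ : Type) (_ : Fintype κ) (_ : DecidableEq κ) (ψ : Matrix ι ι ℂ →ₗ[ℝ] Matrix κ κ ℂ),
      IsClassicalIso g ψ := by
  obtain ⟨κ, _, _, e₀, h1, h2, h3, h4⟩ := h
  have s' : SB (matCpt κ) A (fun x => e₀ (u.symm x)) :=
    { ne := fun x => h1 _
      diag := s.diag
      det := s.det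
      lie_h := fun x y => by
        rw [matCpt_σ, h2, ← hM, u.apply_symm_apply, u.apply_symm_apply]
      lie_ef := fun x y hxy => h3 _ _ fun h => hxy (u.symm.injective h) }
  have hgen : (matCpt κ).gen (fun x => e₀ (u.symm x)) = (matCpt κ).gen e₀ := by
    unfold Cpt.gen
    congr 2
    · exact u.symm.surjective.range_comp e₀
    · exact u.symm.surjective.range_comp fun i => (matCpt κ).σ (e₀ i)
  obtain ⟨ψ, p1, p2, p3, p4, p5⟩ := s.exists_iso s'
  rw [he] at p1 p2 p3 p4 p5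
  rw [hgen] at p4 p5
  refine ⟨κ, inferInstance, inferInstance, ψ.restrictScalars ℝ,
    fun X hX => p1 X (mem_cplx hg hX),
    fun X hX Y hY => p2 X (mem_cplx hg hX) Y (mem_cplx hg hY), ?_⟩
  convert h4 using 1
  ext Y
  constructor
  · rintro ⟨X, hX, rfl⟩
    refine ⟨?_, p4 X (mem_cplx hg hX)⟩
    have := p3 X (mem_cplx hg hX)
    rw [matCpt_σ, matCpt_σ, hg.skew X hX, map_neg] at this
    exact this.symm
  · rintro ⟨hY, hY'⟩
    obtain ⟨X, hX, rfl⟩ := p5 Y hY'
    refine ⟨X, mem_of_skew hg hX ?_, rfl⟩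
    have := p1 (Xᴴ + X) (add_mem (σ_mem_cplx hg X hX) hX) (by
      have := p3 X hX
      rw [matCpt_σ, matCpt_σ] at this
      rw [map_add, this, hY, neg_add_cancel])
    exact eq_neg_of_add_eq_zero_left this

end

theorem largeClassification : LargeClassification := by
  refine ⟨2 * (8 + 9 ^ 8), fun N g hg hs => ?_⟩
  have := cplx_simple hg hs
  obtain ⟨μ, _, _, A, e, s, hgen, hneg, hsym, hconn, hdim⟩ :=
    ((matCpt (Fin N)).sub _ (σ_mem_cplx hg)).exists_SB
  by_cases hn : 9 ≤ Fintype.card μ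
  · right
    have he : (matCpt (Fin N)).gen (fun i => (e i : Matrix (Fin N) (Fin N) ℂ)) = cplx hg := by
      have := Cpt.map_gen ((matCpt (Fin N)).sub _ (σ_mem_cplx hg)) (matCpt (Fin N)) e
        (cplx hg).incl (fun _ => rfl)
      rw [hgen] at this
      refine this.symm.trans ?_
      ext X
      simp
    obtain ⟨n, u, h9, ⟨p, q, hpq, hM⟩ | hM⟩ :=
      GC.classify (A := A) ⟨s.diag, hneg, hsym, s.exists_pos, hconn⟩ hn
    · refine iso_of_model hg s.ofSub he u hM ?_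
      rcases hpq with ⟨rfl, rfl⟩ | ⟨rfl, rfl⟩ | ⟨rfl, rfl⟩
      · exact model_A n
      · exact model_B (by omega)
      · exact model_C (by omega)
    · exact iso_of_model hg s.ofSub he u hM (model_D (by omega))
  · left
    have h1 : 9 ^ Fintype.card μ ≤ 9 ^ 8 := Nat.pow_le_pow_right (by norm_num) (by omega)
    have h2 := finrank_le_cplx hg
    omega

end Pool.Agent.Lib.MP_775e5c_al
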