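import Pool.Agent.Lib.MP_775e5c_al.ClsForm
import Pool.Agent.Lib.MP_775e5c_al.ClsGraph

/-!
Chevalley generators of the classical Lie algebras.
-/

set_option autoImplicit false

namespace Pool.Agent.Lib.MP_775e5c_al

open Matrix LieSubalgebra
open scoped ComplexOrder ComplexConjugate

attribute [local instance 100] LieRing.ofAssociativeRing

/-- A classical Lie algebra has Chevalley generators with Cartan matrix `M`. -/
def HasModel (n : ℕ) (M : ℕ → ℕ → ℤ) : Prop :=
  ∃ (κ : Type) (_ : Fintype κ) (_ : DecidableEq κ) (e : Fin n → Matrix κ κ ℂ),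
    (∀ i, e i ≠ 0) ∧ (∀ i j, ⁅⁅e j, (e j)ᴴ⁆, e i⁆ = (M i j : ℂ) • e i) ∧
    (∀ i j, i ≠ j → ⁅e i, (e j)ᴴ⁆ = 0) ∧ IsClassical {X | Xᴴ = -X ∧ X ∈ (matCpt κ).gen e}

lemma form_model {κ : Type} [Fintype κ] [DecidableEq κ] (φ : FD κ) (n : ℕ) (M : ℕ → ℕ → ℤ)
    (a b : Fin n → κ) (c : Fin n → ℝ) (hc : ∀ i, c i ≠ 0)
    (hne : ∀ i, b i = φ.s (a i) → φ.τ = -1)
    (hK : ∀ i j, (c j : ℂ) * c j * (if b j = φ.s (a j) then 1 - φ.ε (a j) * φ.ε (b j) else 1) *
      ((φ.w (a j) (a i) - φ.w (a j) (b i) - (φ.w (b j) (a i) - φ.w (b j) (b i)) : ℤ) : ℂ) = M i j)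
    (hZ : ∀ i j, i ≠ j → ⁅φ.F (a i) (b i), φ.F (b j) (a j)⁆ = 0)
    (hG : ∀ D : LieSubalgebra ℂ (Matrix κ κ ℂ), (∀ x y, φ.F x y ∈ D → φ.F y x ∈ D) →
      (∀ i, φ.F (a i) (b i) ∈ D) → ∀ x y, φ.F x y ∈ D) : HasModel n M := by
  have hc' : ∀ i, (c i : ℂ) ≠ 0 := fun i => by exact_mod_cast hc i
  have hst : ∀ i, ((c i : ℂ) • φ.F (a i) (b i))ᴴ = (c i : ℂ) • φ.F (b i) (a i) := by
    intro i
    rw [conjTranspose_smul, φ.F_star]
    simp
  refine ⟨κ, inferInstance, inferInstance, fun i => (c i : ℂ) • φ.F (a i) (b i),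
    fun i => smul_ne_zero (hc' i) (φ.F_ne (hne i)), fun i j => ?_, fun i j hij => ?_, ?_⟩
  · rw [hst, ← hK]
    simp only [smul_lie, lie_smul, φ.lie_F_self, sub_lie, φ.lie_diag_F]
    push_cast
    module
  · rw [hst, smul_lie, lie_smul, hZ i j hij, smul_zero, smul_zero]
  · have : (matCpt κ).gen (fun i => (c i : ℂ) • φ.F (a i) (b i)) = φ.lie := by
      apply le_antisymm
      · rw [Cpt.gen, lieSpan_le]
        rintro x (⟨i, rfl⟩ | ⟨i, rfl⟩)
        · exact SMulMemClass.smul_mem _ (φ.F_mem _ _)
        · simp only [matCpt_σ, hst]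
          exact SMulMemClass.smul_mem _ (φ.F_mem _ _)
      · refine FD.lie_le (hG _ (fun x y h => ?_) fun i => ?_)
        · rw [← φ.F_star]
          exact (matCpt κ).σ_mem_gen _ _ h
        · have := SMulMemClass.smul_mem (c i : ℂ)⁻¹
            ((matCpt κ).e_mem_gen (fun i => (c i : ℂ) • φ.F (a i) (b i)) i)
          rwa [smul_smul, inv_mul_cancel₀ (hc' i), one_smul] at this
    rw [this]
    exact φ.isClassical

section Fin

variable {N n : ℕ} {φ : FD (Fin N)} (hs : ∀ a, (φ.s a).val = N - (a.val + 1))
include hs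

lemma s_eq_val {a b : Fin N} : φ.s a = b ↔ a.val + b.val + 1 = N := by
  rw [Fin.ext_iff, hs]
  have := a.2
  omega

lemma eq_s_val {a b : Fin N} : b = φ.s a ↔ a.val + b.val + 1 = N := by
  rw [eq_comm, s_eq_val hs]

lemma w_val (x y : Fin N) : φ.w x y =
    (if x.val = y.val then 1 else 0) - (if x.val + y.val + 1 = N then 1 else 0) := by
  simp only [FD.w, s_eq_val hs, Fin.ext_iff (a := x)]

lemma genFin (hN : N = 2 * n ∨ N = 2 * n + 1) (hn : 2 ≤ n)
    {D : LieSubalgebra ℂ (Matrix (Fin N) (Fin N) ℂ)} (hsym : ∀ x y, φ.F x y ∈ D → φ.F y x ∈ D)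
    (h1 : ∀ a b : Fin N, a.val + 1 = b.val → b.val < n → φ.F a b ∈ D)
    (h2 : N = 2 * n → ∀ a b : Fin N, a.val + 2 = n → b.val = n → φ.F a b ∈ D)
    (h3 : N = 2 * n + 1 → ∀ a b : Fin N, a.val + 1 = n → b.val = n → φ.F a b ∈ D) :
    ∀ a b, φ.F a b ∈ D := by
  have tr : ∀ a b c : Fin N, φ.F a b ∈ D → φ.F b c ∈ D → c.val ≠ a.val →
      c.val + b.val + 1 ≠ N → b.val + a.val + 1 ≠ N → φ.F a c ∈ D := fun a b c h h' e1 e2 e3 =>
    FD.mem_trans h h' (Fin.ne_of_val_ne e1) (by rwa [Ne, eq_s_val hs]) (by rwa [Ne, s_eq_val hs])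
  have fl : ∀ a b : Fin N, φ.F (φ.s a) (φ.s b) ∈ D → φ.F a b ∈ D := by
    intro a b h
    have := FD.mem_flip (hsym _ _ h)
    rwa [φ.ss, φ.ss] at this
  have LL : ∀ (d : ℕ) (a b : Fin N), b.val = a.val + d + 1 → b.val < n → φ.F a b ∈ D := by
    intro d
    induction d with
    | zero => exact fun a b h h' => h1 a b (by omega) h'
    | succ d ih =>
      intro a b h h'
      exact tr a ⟨a.val + d + 1, by omega⟩ b (ih _ _ rfl (by simp only; omega))
        (h1 _ _ (by simp only; omega) h') (by omega) (by simp only; omega) (by simp only; omega)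
  have LL' : ∀ a b : Fin N, a.val < n → b.val < n → a.val ≠ b.val → φ.F a b ∈ D := by
    intro a b ha hb hab
    rcases lt_or_gt_of_ne hab with h | h
    · exact LL (b.val - a.val - 1) a b (by omega) hb
    · exact hsym _ _ (LL (a.val - b.val - 1) b a (by omega) ha)
  have LM : N = 2 * n + 1 → ∀ a b : Fin N, a.val < n → b.val = n → φ.F a b ∈ D := by
    intro h a b ha hb
    by_cases h' : a.val + 1 = n
    · exact h3 h a b h' hb
    · exact tr a ⟨n - 1, by omega⟩ b (LL' _ _ ha (by simp only; omega) (by simp only; omega))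
        (h3 h _ _ (by simp only; omega) hb) (by omega) (by simp only; omega) (by simp only; omega)
  have LH : ∀ a b : Fin N, a.val < n → N ≤ b.val + n → φ.F a b ∈ D := by
    rcases hN with hN | hN
    · have ext : ∀ a a' b : Fin N, a.val < n → a'.val < n → N ≤ b.val + n → φ.F a b ∈ D →
          a.val + b.val + 1 ≠ N → φ.F a' b ∈ D := by
        intro a a' b ha ha' hb h h'
        by_cases e : a'.val = a.val
        · rwa [Fin.ext e]
        · exact tr a' a b (LL' _ _ ha' ha e) h (by omega) (by omega) (by omega)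
      have g1 : ∀ a b : Fin N, a.val < n → b.val = n → φ.F a b ∈ D := fun a b ha hb =>
        ext ⟨n - 2, by omega⟩ a b (by simp only; omega) ha (by omega)
          (h2 hN _ _ (by simp only; omega) hb) (by simp only; omega)
      intro a b ha hb
      by_cases e : b.val = n
      · exact g1 a b ha e
      · refine ext ⟨n - 1, by omega⟩ a b (by simp only; omega) ha hb (fl _ _ (hsym _ _ ?_))
          (by simp only; omega)
        have := b.2
        exact g1 _ _ (by rw [hs]; omega) (by rw [hs]; simp only; omega)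
    · intro a b ha hb
      have := b.2
      refine tr a ⟨n, by omega⟩ b (LM hN _ _ ha rfl) (fl _ _ (hsym _ _ ?_)) (by omega)
        (by simp only; omega) (by simp only; omega)
      exact LM hN _ _ (by rw [hs]; omega) (by rw [hs]; simp only; omega)
  have L : ∀ a b : Fin N, a.val < n → a.val ≠ b.val → φ.F a b ∈ D := by
    intro a b ha hab
    by_cases h : b.val < n
    · exact LL' a b ha h hab
    · by_cases h' : N ≤ b.val + n
      · exact LH a b ha h'
      · exact LM (by omega) a b ha (by omega)
  have off : ∀ a b : Fin N, a ≠ b → φ.F a b ∈ D := by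
    intro a b hab
    have hab' : a.val ≠ b.val := fun h => hab (Fin.ext h)
    have := a.2
    have := b.2
    by_cases ha : a.val < n
    · exact L a b ha hab'
    by_cases hb : b.val < n
    · exact hsym _ _ (L b a hb hab'.symm)
    apply fl
    by_cases ha' : N ≤ a.val + n
    · exact L _ _ (by rw [hs]; omega) (by rw [hs, hs]; omega)
    · exact hsym _ _ (L _ _ (by rw [hs]; omega) (by rw [hs, hs]; omega))
  intro a b
  by_cases hab : a = b
  · subst hab
    by_cases h : a.val = 0 ∨ a.val + 1 = N
    · exact FD.mem_diag off (b := ⟨1, by omega⟩) (Fin.ne_of_val_ne (by simp only; omega))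
        (by rw [Ne, eq_s_val hs]; simp only; omega)
    · exact FD.mem_diag off (b := ⟨0, by omega⟩) (Fin.ne_of_val_ne (by simp only; omega))
        (by rw [Ne, eq_s_val hs]; simp only; omega)
  · exact off a b hab

lemma lie_F_zero {a b c d : Fin N} (h1 : b.val ≠ c.val) (h2 : d.val ≠ a.val)
    (h3 : d.val + b.val + 1 ≠ N) (h4 : c.val + a.val + 1 ≠ N) : ⁅φ.F a b, φ.F c d⁆ = 0 := by
  rw [FD.lie_F, if_neg (Fin.ne_of_val_ne h1), if_neg (Fin.ne_of_val_ne h2),
    if_neg (by rwa [eq_s_val hs]), if_neg (by rwa [s_eq_val hs])]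
  simp

lemma lie_F_orth (hτ : φ.τ = 1) {a b c d : Fin N} (h1 : b.val ≠ c.val) (h2 : d.val = a.val)
    (h3 : d.val + b.val + 1 ≠ N) (h4 : c.val + a.val + 1 ≠ N) (h5 : b.val + c.val + 1 = N) :
    ⁅φ.F a b, φ.F c d⁆ = 0 := by
  rw [FD.lie_F, if_neg (Fin.ne_of_val_ne h1), if_pos (Fin.ext h2),
    if_neg (by rwa [eq_s_val hs]), if_neg (by rwa [s_eq_val hs]), (eq_s_val hs).2 h5,
    φ.F_orth hτ]
  simp

end Fin

/-- The split symmetric form. -/
def orthFD (N : ℕ) : FD (Fin N) where
  s := Fin.rev
  ε := fun _ => 1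
  τ := 1
  ss := Fin.rev_rev
  ε_eq := fun _ => Or.inl rfl
  τ_eq := Or.inl rfl
  ε_s := fun _ => by simp

/-- The standard skew form. -/
def sympFD (n : ℕ) : FD (Fin (2 * n)) where
  s := Fin.rev
  ε := fun a => if a.val < n then 1 else -1
  τ := -1
  ss := Fin.rev_rev
  ε_eq := fun a => by split_ifs <;> simp
  τ_eq := Or.inr rfl
  ε_s := fun a => by
    have := a.2
    simp only [Fin.val_rev]
    split_ifs <;> first | omega | simp

lemma model_B {n : ℕ} (hn : 2 ≤ n) : HasModel n (pathM n 2 1) := by
  have hs : ∀ a, ((orthFD (2 * n + 1)).s a).val = 2 * n + 1 - (a.val + 1) := Fin.val_rev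
  refine form_model (orthFD (2 * n + 1)) n _ (fun i => ⟨i.val, by omega⟩)
    (fun i => ⟨i.val + 1, by omega⟩) (fun i => if i.val + 1 < n then 1 else Real.sqrt 2)
    (fun i => by split_ifs <;> positivity) (fun i h => ?_) (fun i j => ?_) (fun i j hij => ?_)
    (fun D hsym h => ?_)
  · rw [eq_s_val hs] at h
    simp only at h
    omega
  · have hi := i.2
    have hj := j.2
    rw [if_neg (show ¬ _ = (orthFD (2 * n + 1)).s _ by rw [eq_s_val hs]; simp only; omega), mul_one]
    have h1 : (((if j.val + 1 < n then 1 else Real.sqrt 2 : ℝ) : ℂ) *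
        ((if j.val + 1 < n then 1 else Real.sqrt 2 : ℝ) : ℂ)) =
        ((if j.val + 1 < n then 1 else 2 : ℤ) : ℂ) := by
      split_ifs
      · simp
      · rw [← Complex.ofReal_mul, Real.mul_self_sqrt (by norm_num)]; simp
    rw [h1, ← Int.cast_mul]
    congr 1
    simp only [w_val hs, pathM]
    grind
  · have hi := i.2
    have hj := j.2
    have : i.val ≠ j.val := fun h => hij (Fin.ext h)
    exact lie_F_zero hs (by simp only; omega) (by simp only; omega) (by simp only; omega)
      (by simp only; omega)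
  · have h' : ∀ a b : Fin (2 * n + 1), a.val + 1 = b.val → a.val < n →
        (orthFD (2 * n + 1)).F a b ∈ D := by
      intro a b e ha
      have := h ⟨a.val, ha⟩
      simp only [e] at this
      exact this
    exact genFin hs (Or.inr rfl) hn hsym (fun a b e hb => h' a b e (by omega))
      (fun h => by omega) (fun _ a b e e' => h' a b (by omega) (by omega))

lemma model_C {n : ℕ} (hn : 2 ≤ n) : HasModel n (pathM n 1 2) := by
  have hs : ∀ a, ((sympFD n).s a).val = 2 * n - (a.val + 1) := Fin.val_rev
  refine form_model (sympFD n) n _ (fun i => ⟨i.val, by omega⟩)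
    (fun i => ⟨i.val + 1, by omega⟩) (fun i => if i.val + 1 < n then 1 else 1 / 2)
    (fun i => by split_ifs <;> positivity) (fun i h => rfl) (fun i j => ?_) (fun i j hij => ?_)
    (fun D hsym h => ?_)
  · have hi := i.2
    have hj := j.2
    have h1 : ∀ W : ℤ, W = (if j.val + 1 < n then 1 else 2) * pathM n 1 2 i j →
        ((if j.val + 1 < n then 1 else 1 / 2 : ℝ) : ℂ) *
        ((if j.val + 1 < n then 1 else 1 / 2 : ℝ) : ℂ) *
        (if j.val + (j.val + 1) + 1 = 2 * n then 1 - (if j.val < n then (1 : ℂ) else -1) *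
          (if j.val + 1 < n then (1 : ℂ) else -1) else 1) * W = pathM n 1 2 i j := by
      rintro W rfl
      by_cases h : j.val + 1 < n
      · simp [h, show j.val + (j.val + 1) + 1 ≠ 2 * n by omega]
      · simp only [h, hj, show j.val + (j.val + 1) + 1 = 2 * n by omega, if_true, if_false]
        push_cast
        ring
    simp only [eq_s_val hs]
    apply h1
    simp only [w_val hs, pathM]
    grind
  · have hi := i.2
    have hj := j.2
    have : i.val ≠ j.val := fun h => hij (Fin.ext h)
    exact lie_F_zero hs (by simp only; omega) (by simp only; omega) (by simp only; omega)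
      (by simp only; omega)
  · have h' : ∀ a b : Fin (2 * n), a.val + 1 = b.val → a.val < n → (sympFD n).F a b ∈ D := by
      intro a b e ha
      have := h ⟨a.val, ha⟩
      simp only [e] at this
      exact this
    refine genFin hs (Or.inl rfl) hn hsym (fun a b e hb => h' a b e (by omega))
      (fun _ a b e e' => ?_) (fun h => by omega)
    let c : Fin (2 * n) := ⟨n - 1, by omega⟩
    have hc : (sympFD n).s c = b := by rw [s_eq_val hs]; simp only [c]; omega
    have h1 := lie_mem _ (h' a c (by simp only [c]; omega) (by omega))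
      (h' c b (by simp only [c]; omega) (by simp only [c]; omega))
    rw [FD.lie_F, if_pos rfl, if_neg (Fin.ne_of_val_ne (by omega)),
      if_pos (by rw [← hc, FD.ss]), hc, if_neg (Fin.ne_of_val_ne (by omega))] at h1
    have h2 : (sympFD n).ε c * (sympFD n).ε b = -1 := by
      simp [sympFD, c, e', show n - 1 < n by omega]
    rw [h2] at h1
    have h3 := SMulMemClass.smul_mem (1 / 2 : ℂ) h1
    convert h3 using 1
    module

lemma model_D {n : ℕ} (hn : 3 ≤ n) : HasModel n (dM n) := by
  have hs : ∀ a, ((orthFD (2 * n)).s a).val = 2 * n - (a.val + 1) := Fin.val_rev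
  refine form_model (orthFD (2 * n)) n _
    (fun i => ⟨if i.val + 1 < n then i.val else n - 2, by split_ifs <;> omega⟩)
    (fun i => ⟨i.val + 1, by omega⟩) (fun _ => 1)
    (fun _ => one_ne_zero) (fun i h => ?_) (fun i j => ?_) (fun i j hij => ?_)
    (fun D hsym h => ?_)
  · rw [eq_s_val hs] at h
    have := i.2
    simp only at h
    split_ifs at h <;> omega
  · have hi := i.2
    have hj := j.2
    rw [if_neg (show ¬ _ = (orthFD (2 * n)).s _ by
      rw [eq_s_val hs]; simp only; split_ifs <;> omega)]
    simp only [Complex.ofReal_one, one_mul]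
    congr 1
    simp only [w_val hs, dM]
    by_cases hi' : i.val + 1 < n <;> by_cases hj' : j.val + 1 < n <;>
      simp only [hi', hj', if_true, if_false] <;> grind
  · have hi := i.2
    have hj := j.2
    have : i.val ≠ j.val := fun h => hij (Fin.ext h)
    by_cases h : i.val + j.val + 3 = 2 * n
    · exact lie_F_orth hs rfl (by simp only; omega) (by simp only; split_ifs <;> omega)
        (by simp only; split_ifs <;> omega) (by simp only; split_ifs <;> omega)
        (by simp only; omega)
    · exact lie_F_zero hs (by simp only; omega) (by simp only; split_ifs <;> omega)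
        (by simp only; split_ifs <;> omega) (by simp only; split_ifs <;> omega)
  · refine genFin hs (Or.inl rfl) (by omega) hsym (fun a b e hb => ?_)
      (fun _ a b e e' => ?_) (fun h => by omega)
    · have := h ⟨a.val, by omega⟩
      simp only [e, hb, if_true] at this
      exact this
    · have := h ⟨n - 1, by omega⟩
      convert this using 2
      · exact Fin.ext (by simp only; split_ifs <;> omega)
      · exact Fin.ext (by simp only; omega)

/-- Traceless matrices. -/
def slLie (κ : Type) [Fintype κ] [DecidableEq κ] : LieSubalgebra ℂ (Matrix κ κ ℂ) where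
  carrier := {X | X.trace = 0}
  add_mem' := fun {X Y} hX hY => by
    simp only [Set.mem_ofPred_eq] at *
    rw [trace_add, hX, hY, add_zero]
  zero_mem' := by simp
  smul_mem' := fun a X hX => by
    simp only [Set.mem_ofPred_eq] at *
    rw [trace_smul, hX, smul_zero]
  lie_mem' := fun {X Y} _ _ => by
    simp only [Set.mem_ofPred_eq]
    rw [Ring.lie_def, trace_sub, trace_mul_comm, sub_self]

lemma model_A (n : ℕ) : HasModel n (pathM n 1 1) := by
  have hne : ∀ i : Fin n, i.castSucc ≠ i.succ := fun i => Fin.castSucc_lt_succ.ne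
  have hst : ∀ a b : Fin (n + 1), (single a b (1 : ℂ))ᴴ = single b a 1 := by
    intro a b; simp [conjTranspose_single]
  refine ⟨Fin (n + 1), inferInstance, inferInstance, fun i => single i.castSucc i.succ 1,
    fun i h => ?_, fun i j => ?_, fun i j hij => ?_, Or.inl ?_⟩
  · simpa using congrFun (congrFun h i.castSucc) i.succ
  · rw [hst, lie_single, if_pos rfl, if_pos rfl, ← diagonal_single, ← diagonal_single, sub_lie,
      lie_diagonal_single, lie_diagonal_single, ← sub_smul]
    congr 1
    have hi := i.2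
    have hj := j.2
    have : pathM n 1 1 i j = (if i.val = j.val then 1 else 0) - (if i.val + 1 = j.val then 1 else 0)
        - ((if i.val = j.val + 1 then 1 else 0) - (if i.val + 1 = j.val + 1 then 1 else 0)) := by
      simp only [pathM]
      grind
    rw [this]
    simp [Pi.single_apply, Fin.ext_iff]
  · rw [hst, lie_single, if_neg (fun h => hij (Fin.succ_injective _ h)),
      if_neg (fun h => hij (Fin.castSucc_injective _ h).symm), sub_zero]
  · set D := (matCpt (Fin (n + 1))).gen fun i : Fin n => single i.castSucc i.succ (1 : ℂ) with hD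
    have h1 : D ≤ slLie (Fin (n + 1)) := by
      rw [hD, Cpt.gen, lieSpan_le]
      rintro x (⟨i, rfl⟩ | ⟨i, rfl⟩)
      · exact trace_single_eq_of_ne _ _ _ (hne i)
      · simp only [matCpt_σ, hst]
        exact trace_single_eq_of_ne _ _ _ (hne i).symm
    have LL : ∀ (d : ℕ) (a b : Fin (n + 1)), b.val = a.val + d + 1 → single a b (1 : ℂ) ∈ D := by
      have h0 : ∀ a b : Fin (n + 1), b.val = a.val + 1 → single a b (1 : ℂ) ∈ D := by
        intro a b h
        have := (matCpt (Fin (n + 1))).e_mem_gen
          (fun i : Fin n => single i.castSucc i.succ (1 : ℂ)) ⟨a.val, by omega⟩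
        convert this using 2
        · exact Fin.ext rfl
        · exact Fin.ext h
      intro d
      induction d with
      | zero => exact h0
      | succ d ih =>
        intro a b h
        have := lie_mem _ (ih a ⟨a.val + d + 1, by omega⟩ rfl) 
          (h0 ⟨a.val + d + 1, by omega⟩ b (by simp only; omega))
        rwa [lie_single, if_pos rfl, if_neg (Fin.ne_of_val_ne (by omega)), sub_zero] at this
    have off : ∀ a b : Fin (n + 1), a ≠ b → single a b (1 : ℂ) ∈ D := by
      intro a b hab
      rcases lt_or_gt_of_ne (show a.val ≠ b.val from fun h => hab (Fin.ext h)) with h | h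
      · exact LL (b.val - a.val - 1) a b (by omega)
      · rw [← hst]
        exact (matCpt _).σ_mem_gen _ _ (LL (a.val - b.val - 1) b a (by omega))
    have all : ∀ a b : Fin (n + 1),
        single a b (1 : ℂ) - (if a = b then single 0 0 1 else 0) ∈ D := by
      intro a b
      split_ifs with hab
      · subst hab
        by_cases h0 : a = 0
        · rw [h0, sub_self]; exact zero_mem _
        · have := lie_mem _ (off a 0 h0) (off 0 a (Ne.symm h0))
          rwa [lie_single, if_pos rfl, if_pos rfl] at this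
      · rw [sub_zero]; exact off a b hab
    have h2 : slLie (Fin (n + 1)) ≤ D := by
      intro X hX
      have hX' : ∑ a, X a a = 0 := hX
      have : X = ∑ a, ∑ b, X a b • (single a b (1 : ℂ) - (if a = b then single 0 0 1 else 0)) := by
        simp only [smul_sub, Finset.sum_sub_distrib, smul_ite, smul_zero, Finset.sum_ite_eq,
          Finset.mem_univ, if_true, ← Finset.sum_smul, hX', zero_smul, sub_zero]
        simp only [smul_single, smul_eq_mul, mul_one]
        exact matrix_eq_sum_single X
      rw [this]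
      exact sum_mem fun a _ => sum_mem fun b _ => SMulMemClass.smul_mem _ (all a b)
    rw [le_antisymm h1 h2]
    rfl

end Pool.Agent.Lib.MP_775e5c_al
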