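import Mathlib

/-!
Definitions used in the statement: word measures, convolution powers, bounded density.
-/

namespace Pool.Agent.Lib.MP_775e5c_al

open MeasureTheory

noncomputable section

variable {G : Type*} [Group G] [MeasurableSpace G]

/-- The word measure: the push-forward of `μ^r` under the word map of `w`. -/
def wordMeasure {r : ℕ} (w : FreeGroup (Fin r)) (μ : Measure G) : Measure G :=
  (Measure.pi fun _ : Fin r => μ).map fun g => FreeGroup.lift g w

/-- The `t`-fold convolution power. -/
def convPow (ν : Measure G) : ℕ → Measure G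
  | 0 => Measure.dirac 1
  | t + 1 => Measure.mconv ν (convPow ν t)

/-- `ν = f μ` with `f` in `L^∞(μ)`. -/
def HasBoundedDensity (ν μ : Measure G) : Prop :=
  ∃ f : G → ℝ, MemLp f ⊤ μ ∧ ν = μ.withDensity fun x => ENNReal.ofReal (f x)

end

end Pool.Agent.Lib.MP_775e5c_al
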