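import Mathlib

/-!
The adjoint representation of a compact connected Lie group: its kernel is central.
-/

namespace Pool.Agent.Lib.MP_775e5c_al.H42

open scoped Manifold Topology
open Filter Set

noncomputable section

variable (E : Type*) [NormedAddCommGroup E] [NormedSpace ℝ E]
  (G : Type*) [TopologicalSpace G] [ChartedSpace E G] [Group G]

/-- The chart at the identity. -/
def ch : PartialEquiv G E := extChartAt 𝓘(ℝ, E) (1 : G)

variable {G}

/-- Conjugation in the chart. -/
def cj (g : G) (x : E) : E := ch E G (g * (ch E G).symm x * g⁻¹)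

variable {E}

theorem ch_symm_one : (ch E G).symm (ch E G 1) = 1 := extChartAt_to_inv 1

theorem ch_source : (ch E G).source ∈ 𝓝 (1 : G) := extChartAt_source_mem_nhds 1

theorem ch_target : (ch E G).target ∈ 𝓝 (ch E G 1) := extChartAt_target_mem_nhds 1

theorem ch_cont : ContinuousAt (ch E G) 1 := continuousAt_extChartAt 1

theorem cj_base (g : G) : cj E g (ch E G 1) = ch E G 1 := by
  simp [cj, ch_symm_one]

theorem ch_smooth : ContMDiffAt 𝓘(ℝ, E) 𝓘(ℝ, E) 3 (ch E G) 1 := contMDiffAt_extChartAt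

variable [LieGroup 𝓘(ℝ, E) 3 G]

theorem ch_symm_smooth : ContMDiffAt 𝓘(ℝ, E) 𝓘(ℝ, E) 3 (ch E G).symm (ch E G 1) :=
  (contMDiffOn_extChartAt_symm (1 : G)).contMDiffAt ch_target

theorem cj_smooth (g : G) : ContMDiffAt (𝓘(ℝ, E).prod 𝓘(ℝ, E)) 𝓘(ℝ, E) 3
    (fun p : G × E => cj E p.1 p.2) (g, ch E G 1) := by
  have h1 : ContMDiffAt (𝓘(ℝ, E).prod 𝓘(ℝ, E)) 𝓘(ℝ, E) 3
      (fun p : G × E => (ch E G).symm p.2) (g, ch E G 1) :=
    ch_symm_smooth.comp (g, ch E G 1) contMDiffAt_snd
  have h2 := (contMDiffAt_fst.mul h1).mul contMDiffAt_fst.inv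
  refine ContMDiffAt.comp_of_eq ch_smooth h2 ?_
  simp [ch_symm_one]

theorem cj_diff (g : G) :
    ∀ᶠ p : G × E in 𝓝 (g, ch E G 1), DifferentiableAt ℝ (cj E p.1) p.2 := by
  filter_upwards [(contMDiffAt_iff_contMDiffAt_nhds (by simp)).1 (cj_smooth (E := E) g)] with p hp
  have h : ContMDiffAt 𝓘(ℝ, E) 𝓘(ℝ, E) 3 (cj E p.1) p.2 :=
    ContMDiffAt.comp (f := fun x : E => (p.1, x)) (g := fun p : G × E => cj E p.1 p.2) p.2 hp
      (contMDiffAt_const.prodMk contMDiffAt_id)
  exact (contMDiffAt_iff_contDiffAt.1 h).differentiableAt (by simp)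

theorem cj_fderiv_cont (g : G) :
    ContinuousAt (fun p : G × E => fderiv ℝ (cj E p.1) p.2) (g, ch E G 1) := by
  have h := ContMDiffAt.mfderiv (I := 𝓘(ℝ, E)) (I' := 𝓘(ℝ, E)) (J := 𝓘(ℝ, E).prod 𝓘(ℝ, E))
    (n := 3) (m := 0) (x₀ := (g, ch E G 1))
    (fun (p : G × E) (y : E) => cj E p.1 y) Prod.snd
    (ContMDiffAt.comp (f := fun q : (G × E) × E => (q.1.1, q.2))
      (g := fun p : G × E => cj E p.1 p.2) ((g, ch E G 1), ch E G 1) (cj_smooth g)
      ((contMDiffAt_fst.comp _ contMDiffAt_fst).prodMk contMDiffAt_snd)) contMDiffAt_snd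
    (by norm_num)
  rw [inTangentCoordinates_model_space] at h
  simpa only [mfderiv_eq_fderiv] using h.continuousAt

theorem cj_mul (g h : G) : cj E (g * h) =ᶠ[𝓝 (ch E G 1)] cj E g ∘ cj E h := by
  have := topologicalGroup_of_lieGroup 𝓘(ℝ, E) 3 (G := G)
  have h1 : ContinuousAt (fun x : E => h * (ch E G).symm x * h⁻¹) (ch E G 1) :=
    (continuousAt_const.mul ch_symm_smooth.continuousAt).mul continuousAt_const
  filter_upwards [h1.preimage_mem_nhds (t := (ch E G).source)
    (by simpa [ch_symm_one] using ch_source)] with x hx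
  simp only [cj, Function.comp]
  rw [(ch E G).left_inv hx]
  simp only [mul_inv_rev, mul_assoc]

variable (E G) in
/-- The adjoint representation. -/
def ad : G →* (E →L[ℝ] E) where
  toFun g := fderiv ℝ (cj E g) (ch E G 1)
  map_one' := by
    have : cj E (1 : G) =ᶠ[𝓝 (ch E G 1)] id := by
      filter_upwards [ch_target (G := G)] with x hx
      simp [cj, (ch E G).right_inv hx]
    rw [this.fderiv_eq, fderiv_id]
    rfl
  map_mul' g h := by
    rw [(cj_mul g h).fderiv_eq, fderiv_comp _ (by rw [cj_base]; exact (cj_diff g).self_of_nhds)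
      (cj_diff h).self_of_nhds, cj_base]
    rfl

theorem ad_cont : Continuous (ad E G) := continuous_iff_continuousAt.2 fun g =>
  (cj_fderiv_cont g).comp (f := fun g : G => (g, ch E G 1)) (by fun_prop)

theorem ad_ker [CompactSpace G] [ConnectedSpace G] : (ad E G).ker ≤ Subgroup.center G := by
  have := topologicalGroup_of_lieGroup 𝓘(ℝ, E) 3 (G := G)
  have h1 : ∀ᶠ x in 𝓝 (ch E G 1), ∀ g ∈ (univ : Set G),
      DifferentiableAt ℝ (cj E g) x ∧ ‖fderiv ℝ (cj E g) x - ad E G g‖ ≤ 1 / 2 := by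
    refine isCompact_univ.eventually_forall_of_forall_eventually fun g _ => ?_
    have hs : Tendsto (Prod.swap : E × G → G × E) (𝓝 (ch E G 1, g)) (𝓝 (g, ch E G 1)) :=
      continuous_swap.tendsto _
    refine (hs.eventually (cj_diff g)).and ?_
    have h0 : Tendsto (fun z : E × G => fderiv ℝ (cj E z.2) z.1) (𝓝 (ch E G 1, g))
        (𝓝 (ad E G g)) := (cj_fderiv_cont (E := E) g).tendsto.comp hs
    have h0' : Tendsto (fun z : E × G => ad E G z.2) (𝓝 (ch E G 1, g)) (𝓝 (ad E G g)) :=
      ((ad_cont (E := E) (G := G)).comp continuous_snd).tendsto (ch E G 1, g)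
    have h2 := (h0.sub h0').norm
    rw [sub_self, norm_zero] at h2
    exact h2.eventually (ge_mem_nhds (by norm_num))
  obtain ⟨δ, hδ, h2⟩ := Metric.eventually_nhds_iff_ball.1 h1
  have h3 : ∀ᶠ u in 𝓝 (1 : G), ∀ g ∈ (univ : Set G), g * u * g⁻¹ ∈ (ch E G).source ∧
      ch E G (g * u * g⁻¹) ∈ Metric.ball (ch E G 1) δ := by
    refine isCompact_univ.eventually_forall_of_forall_eventually fun g _ => ?_
    have hs : Tendsto (fun z : G × G => z.2 * z.1 * z.2⁻¹) (𝓝 (1, g)) (𝓝 1) :=
      Continuous.tendsto' (by fun_prop) _ _ (by simp)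
    exact hs.eventually ((show ∀ᶠ x in 𝓝 (1 : G), x ∈ (ch E G).source from ch_source).and
      (ch_cont.eventually (Metric.ball_mem_nhds _ hδ)))
  intro k hk
  have h4 : (Subgroup.centralizer {k} : Set G) ∈ 𝓝 (1 : G) := by
    filter_upwards [h3] with u hu
    have hu1 := hu 1 trivial
    simp only [one_mul, inv_one, mul_one] at hu1
    have h5 : ∀ n : ℕ, ∀ k ∈ (ad E G).ker,
        ‖ch E G (k * u * k⁻¹) - ch E G u‖ ≤ 2 * δ * (2 / 3) ^ n := by
      intro n
      induction n with
      | zero =>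
        intro k _
        have a1 := mem_ball_iff_norm.1 (hu k trivial).2
        have a2 := mem_ball_iff_norm.1 hu1.2
        have a3 := norm_sub_le_norm_sub_add_norm_sub (ch E G (k * u * k⁻¹)) (ch E G 1) (ch E G u)
        rw [norm_sub_rev (ch E G 1)] at a3
        linarith
      | succ n ih =>
        intro k hk
        have a1 := ih (k * k) (mul_mem hk hk)
        have a2 := (convex_ball (ch E G 1) δ).norm_image_sub_le_of_norm_fderiv_le'
          (fun x hx => (h2 x hx k trivial).1) (fun x hx => (h2 x hx k trivial).2) hu1.2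
          (hu k trivial).2
        rw [MonoidHom.mem_ker.1 hk] at a2
        simp only [cj, (ch E G).left_inv hu1.1, (ch E G).left_inv (hu k trivial).1,
          one_apply_eq_self] at a2
        rw [show k * k * u * (k * k)⁻¹ = k * (k * u * k⁻¹) * k⁻¹ by group] at a1
        generalize ch E G (k * (k * u * k⁻¹) * k⁻¹) = z at *
        generalize ch E G (k * u * k⁻¹) = y at *
        generalize ch E G u = x at *
        have a3 : ‖(2 : ℝ) • (y - x)‖ ≤ ‖z - x‖ + ‖z - y - (y - x)‖ := by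
          refine le_of_eq_of_le ?_ (norm_sub_le _ _)
          congr 1
          module
        rw [norm_smul, Real.norm_two] at a3
        rw [pow_succ]
        linarith
    have h6 : Tendsto (fun n : ℕ => 2 * δ * (2 / 3 : ℝ) ^ n) atTop (𝓝 (2 * δ * 0)) :=
      (tendsto_pow_atTop_nhds_zero_of_lt_one (by norm_num) (by norm_num)).const_mul _
    have h7 := ge_of_tendsto' h6 fun n => h5 n k hk
    rw [mul_zero, norm_le_zero_iff, sub_eq_zero] at h7
    have h8 := (ch E G).injOn (hu k trivial).1 hu1.1 h7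
    rw [SetLike.mem_coe, Subgroup.mem_centralizer_singleton_iff]
    exact (mul_inv_eq_iff_eq_mul.1 h8).symm
  have h5 := Subgroup.isOpen_of_mem_nhds _ h4
  have h6 := IsClopen.eq_univ ⟨Subgroup.isClosed_of_isOpen _ h5, h5⟩ ⟨1, one_mem _⟩
  refine Subgroup.mem_center_iff.2 fun g => ?_
  have h7 : g ∈ (Subgroup.centralizer {k} : Set G) := h6 ▸ mem_univ g
  rwa [SetLike.mem_coe, Subgroup.mem_centralizer_singleton_iff] at h7

end

end Pool.Agent.Lib.MP_775e5c_al.H42
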