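import Pool.Agent.Lib.MP_775e5c_al.H42Ad

/-!
A compact Lie group whose Lie algebra has trivial centre has finite centre.
-/

namespace Pool.Agent.Lib.MP_775e5c_al.H42

open scoped Manifold Topology
open Filter Set VectorField

noncomputable section

variable {E : Type*} [NormedAddCommGroup E] [NormedSpace ℝ E]
  (G : Type*) [TopologicalSpace G] [ChartedSpace E G] [Group G]

/-- Multiplication in the chart. -/
def mu (p : E × E) : E := ch E G ((ch E G).symm p.1 * (ch E G).symm p.2)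

variable {G}

/-- A left invariant vector field in the chart. -/
def pull (w : GroupLieAlgebra 𝓘(ℝ, E) G) : E → E :=
  mpullbackWithin 𝓘(ℝ, E) 𝓘(ℝ, E) (extChartAt 𝓘(ℝ, E) (1 : G)).symm (mulInvariantVectorField w)
    (range 𝓘(ℝ, E))

theorem bracket_eq_zero {v w : GroupLieAlgebra 𝓘(ℝ, E) G}
    (h : lieBracket ℝ (pull v) (pull w) (ch E G 1) = 0) : ⁅v, w⁆ = 0 := by
  have h1 : lieBracketWithin ℝ (pull v) (pull w)
      ((extChartAt 𝓘(ℝ, E) (1 : G)).symm ⁻¹' univ ∩ range 𝓘(ℝ, E))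
      (extChartAt 𝓘(ℝ, E) (1 : G) 1) = 0 := by
    rw [preimage_univ, univ_inter, ModelWithCorners.range_eq_univ, lieBracketWithin_univ]
    exact h
  rw [GroupLieAlgebra.bracket_def, mlieBracket, mlieBracketWithin_apply]
  exact (congrArg _ h1).trans (map_zero _)

variable [LieGroup 𝓘(ℝ, E) 3 G]

theorem mu_smooth : ContDiffAt ℝ 3 (mu G) (ch E G 1, ch E G 1) := by
  have h1 : ContMDiffAt 𝓘(ℝ, E × E) 𝓘(ℝ, E) 3 (fun p : E × E => (ch E G).symm p.1)
      (ch E G 1, ch E G 1) :=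
    ContMDiffAt.comp (f := Prod.fst) (g := (ch E G).symm) _ ch_symm_smooth
      contDiff_fst.contMDiff.contMDiffAt
  have h2 : ContMDiffAt 𝓘(ℝ, E × E) 𝓘(ℝ, E) 3 (fun p : E × E => (ch E G).symm p.2)
      (ch E G 1, ch E G 1) :=
    ContMDiffAt.comp (f := Prod.snd) (g := (ch E G).symm) _ ch_symm_smooth
      contDiff_snd.contMDiff.contMDiffAt
  refine contMDiffAt_iff_contDiffAt.1 (ContMDiffAt.comp_of_eq ch_smooth (h1.mul h2) ?_)
  simp [ch_symm_one]

theorem mu_diff : ∀ᶠ x in 𝓝 (ch E G 1), DifferentiableAt ℝ (mu G) (x, ch E G 1) ∧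
    DifferentiableAt ℝ (mu G) (ch E G 1, x) := by
  have h := ((mu_smooth (E := E) (G := G)).eventually (by simp)).mono
    fun p hp => hp.differentiableAt (by simp)
  exact ((Continuous.prodMk_left _).continuousAt.eventually h).and
    ((Continuous.prodMk_right _).continuousAt.eventually h)

theorem pull_eq (w : GroupLieAlgebra 𝓘(ℝ, E) G) {x : E} (hx : x ∈ (ch E G).target)
    (hd : DifferentiableAt ℝ (mu G) (x, ch E G 1)) :
    pull w x = fderiv ℝ (mu G) (x, ch E G 1) (0, w) := by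
  have : IsManifold 𝓘(ℝ, E) 1 G := IsManifold.of_le (n := 3) (by norm_num)
  have h1 := ContinuousLinearMap.inverse_eq
    (mfderivWithin_extChartAt_symm_comp_mfderiv_extChartAt (I := 𝓘(ℝ, E)) (x := (1 : G)) hx)
    (mfderiv_extChartAt_comp_mfderivWithin_extChartAt_symm (I := 𝓘(ℝ, E)) (x := (1 : G)) hx)
  have hg : (ch E G).symm x ∈ (chartAt E (1 : G)).source := by
    rw [← extChartAt_source 𝓘(ℝ, E)]
    exact (ch E G).map_target hx
  have d1 : MDifferentiableAt 𝓘(ℝ, E) 𝓘(ℝ, E) (ch E G) ((ch E G).symm x) :=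
    mdifferentiableAt_extChartAt hg
  have d2 : MDifferentiableAt 𝓘(ℝ, E) 𝓘(ℝ, E) (fun y : G => (ch E G).symm x * y) 1 :=
    (contMDiff_mul_left (n := 3)).contMDiffAt.mdifferentiableAt (by simp)
  have h2 := mfderiv_comp_of_eq d1 d2 (mul_one _)
  have h3 := (d1.comp_of_eq 1 d2 (mul_one _)).mfderiv
  have h4 : HasFDerivAt (fun y : E => mu G (x, y))
      ((fderiv ℝ (mu G) (x, ch E G 1)).comp (ContinuousLinearMap.inr ℝ E E)) (ch E G 1) :=
    hd.hasFDerivAt.comp _ (hasFDerivAt_prodMk_right x (ch E G 1))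
  rw [ModelWithCorners.range_eq_univ, fderivWithin_univ] at h3
  have h5 : writtenInExtChartAt 𝓘(ℝ, E) 𝓘(ℝ, E) (1 : G)
      (ch E G ∘ fun y : G => (ch E G).symm x * y) = fun y : E => mu G (x, y) := by
    funext y
    simp only [writtenInExtChartAt, extChartAt_model_space_eq_id, PartialEquiv.refl_coe,
      Function.comp, id]
    rfl
  rw [h5, h2] at h3
  have h6 := h3.trans h4.fderiv
  have h7 := congrArg (fun f : E →L[ℝ] E => f w) h6
  refine Eq.trans ?_ h7
  have h8 := congrArg (fun y : G => (show E →L[ℝ] E from mfderiv 𝓘(ℝ, E) 𝓘(ℝ, E) (ch E G) y))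
    (mul_one ((ch E G).symm x))
  exact congrArg (fun f : E →L[ℝ] E => f (mulInvariantVectorField w ((ch E G).symm x)))
    (h1.trans h8.symm)

theorem pull_base (w : GroupLieAlgebra 𝓘(ℝ, E) G) : pull w (ch E G 1) = w := by
  have hd := (mu_diff (E := E) (G := G)).self_of_nhds.1
  rw [pull_eq w (mem_of_mem_nhds ch_target) hd]
  have h4 : HasFDerivAt (fun y : E => mu G (ch E G 1, y))
      ((fderiv ℝ (mu G) (ch E G 1, ch E G 1)).comp (ContinuousLinearMap.inr ℝ E E)) (ch E G 1) :=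
    hd.hasFDerivAt.comp _ (hasFDerivAt_prodMk_right (ch E G 1) (ch E G 1))
  have h5 : (fun y : E => mu G (ch E G 1, y)) =ᶠ[𝓝 (ch E G 1)] id := by
    filter_upwards [ch_target (E := E) (G := G)] with x hx
    simp [mu, ch_symm_one, (ch E G).right_inv hx]
  have h6 := h4.unique ((hasFDerivAt_id _).congr_of_eventuallyEq h5)
  exact congrArg (fun f : E →L[ℝ] E => f w) h6

theorem central_of_tangent {v : GroupLieAlgebra 𝓘(ℝ, E) G}
    (hv : (show E from v) ∈ tangentConeAt ℝ (ch E G '' ((ch E G).source ∩ Subgroup.center G)) (ch E G 1))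
    (w : GroupLieAlgebra 𝓘(ℝ, E) G) : ⁅v, w⁆ = 0 := by
  refine bracket_eq_zero ?_
  have h1 : pull w =ᶠ[𝓝 (ch E G 1)] fun x => fderiv ℝ (mu G) (x, ch E G 1) (0, w) := by
    filter_upwards [ch_target (E := E) (G := G), mu_diff (E := E) (G := G)] with x hx hd
    exact pull_eq w hx hd.1
  have h2 : pull v =ᶠ[𝓝 (ch E G 1)]
      fun x => fderiv ℝ (mu G) (ch E G 1, x) (v, 0) := by
    filter_upwards [ch_target (E := E) (G := G), mu_diff (E := E) (G := G)] with x hx hd
    rw [pull_eq _ hx hd.1]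
    have a1 : HasFDerivAt (fun y : E => mu G (x, y))
        ((fderiv ℝ (mu G) (x, ch E G 1)).comp (ContinuousLinearMap.inr ℝ E E)) (ch E G 1) :=
      hd.1.hasFDerivAt.comp _ (hasFDerivAt_prodMk_right x (ch E G 1))
    have a2 : HasFDerivAt (fun y : E => mu G (y, x))
        ((fderiv ℝ (mu G) (ch E G 1, x)).comp (ContinuousLinearMap.inl ℝ E E)) (ch E G 1) :=
      HasFDerivAt.comp (f := fun y : E => (y, x)) _ hd.2.hasFDerivAt
        (hasFDerivAt_prodMk_left (ch E G 1) x)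
    have key : ∀ z ∈ (ch E G).source ∩ Subgroup.center G,
        mu G (ch E G z, x) = mu G (x, ch E G z) := fun z hz => by
      simp only [mu, (ch E G).left_inv hz.1, Subgroup.mem_center_iff.1 hz.2]
    have a3 := a1.hasFDerivWithinAt.congr (f₁ := fun y : E => mu G (y, x))
      (s := ch E G '' ((ch E G).source ∩ Subgroup.center G))
      (by rintro _ ⟨z, hz, rfl⟩; exact key z hz)
      (key 1 ⟨mem_of_mem_nhds ch_source, one_mem _⟩)
    exact a3.unique_on a2.hasFDerivWithinAt hv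
  have d : HasFDerivAt (fderiv ℝ (mu G)) (fderiv ℝ (fderiv ℝ (mu G)) (ch E G 1, ch E G 1))
      (ch E G 1, ch E G 1) :=
    ((mu_smooth.fderiv_right (m := 1) (by norm_num)).differentiableAt (by simp)).hasFDerivAt
  have d1 := (HasFDerivAt.comp (f := fun y : E => (y, ch E G 1)) _ d
    (hasFDerivAt_prodMk_left (ch E G 1) (ch E G 1))).clm_apply
    (hasFDerivAt_const ((0, w) : E × E) (ch E G 1))
  have d2 := (d.comp _ (hasFDerivAt_prodMk_right (ch E G 1) (ch E G 1))).clm_apply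
    (hasFDerivAt_const ((v, 0) : E × E) (ch E G 1))
  have s := (mu_smooth (E := E) (G := G)).isSymmSndFDerivAt (by simp; norm_num) (v, 0) (0, w)
  rw [lieBracket, pull_base, pull_base, h1.fderiv_eq, h2.fderiv_eq, sub_eq_zero]
  refine (congrArg (fun f : E →L[ℝ] E => f v) d1.fderiv).trans
    (Eq.trans ?_ (congrArg (fun f : E →L[ℝ] E => f w) d2.fderiv).symm)
  simpa using s

theorem finite_center [FiniteDimensional ℝ E] [CompactSpace G]
    (h : ∀ v : GroupLieAlgebra 𝓘(ℝ, E) G, (∀ w : GroupLieAlgebra 𝓘(ℝ, E) G, ⁅v, w⁆ = 0) → v = 0) :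
    Finite (Subgroup.center G) := by
  have := topologicalGroup_of_lieGroup 𝓘(ℝ, E) 3 (G := G)
  have := ChartedSpace.t1Space E G
  by_contra hf
  have h1 : (Subgroup.center G : Set G).Infinite := fun h => hf h.to_subtype
  obtain ⟨a, ha⟩ := h1.exists_accPt_principal
  have h2 : AccPt (ch E G 1) (𝓟 (ch E G '' ((ch E G).source ∩ Subgroup.center G))) := by
    rw [accPt_iff_nhds] at ha ⊢
    intro U hU
    have hs : Tendsto (fun z : G × G => z.1⁻¹ * z.2) (𝓝 (a, a)) (𝓝 1) :=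
      Continuous.tendsto' (by fun_prop) _ _ (by simp)
    obtain ⟨V, hV, W, hW, hVW⟩ := mem_nhds_prod_iff.1
      (hs (inter_mem (ch_source (E := E)) (ch_cont.preimage_mem_nhds hU)))
    obtain ⟨y, hy, hya⟩ := ha V hV
    obtain ⟨z, hz, -⟩ := ha (W ∩ {y}ᶜ) (inter_mem hW (compl_singleton_mem_nhds hya.symm))
    have h3 := hVW (mk_mem_prod hy.1 hz.1.1)
    refine ⟨ch E G (y⁻¹ * z), ⟨h3.2, _, ⟨h3.1, mul_mem (inv_mem hy.2) hz.2⟩, rfl⟩, fun h4 => ?_⟩
    have h5 := (ch E G).injOn h3.1 (mem_of_mem_nhds ch_source) h4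
    exact hz.1.2 (inv_mul_eq_one.1 h5).symm
  obtain ⟨v, hv, hv0⟩ := tangentConeAt_nonempty_of_properSpace (𝕜 := ℝ) h2
  exact hv0 (h v (central_of_tangent hv))

end

end Pool.Agent.Lib.MP_775e5c_al.H42
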