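import Pool.Agent.Lib.MP_775e5c_al.Main

/-!
The bound for compact connected groups with finite centre and a unitary representation whose
kernel is central.
-/

namespace Pool.Agent.Lib.MP_775e5c_al.H42

open MeasureTheory Measure Set
open scoped ENNReal

universe u

theorem finite_center_range {G H : Type*} [Group G] [TopologicalSpace G] [IsTopologicalGroup G]
    [ConnectedSpace G] [T1Space G] [Group H] (f : G →* H) (hs : Function.Surjective f)
    (hk : f.ker ≤ Subgroup.center G) [Finite (Subgroup.center G)] :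
    Finite (Subgroup.center H) := by
  have h : ∀ z : Subgroup.center H, ∃ g : Subgroup.center G, f g = z := fun z => by
    obtain ⟨g, hg⟩ := hs z
    have h1 : ∀ x : G, x * g * x⁻¹ * g⁻¹ ∈ Subgroup.center G := fun x => hk (by
      rw [MonoidHom.mem_ker, map_mul, map_mul, map_mul, map_inv, map_inv, hg,
        Subgroup.mem_center_iff.1 z.2]
      group)
    have h2 : Continuous fun x : G => (⟨_, h1 x⟩ : Subgroup.center G) :=
      Continuous.subtype_mk (by fun_prop) _
    refine ⟨⟨g, Subgroup.mem_center_iff.2 fun x => ?_⟩, hg⟩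
    have h3 := congrArg Subtype.val (PreconnectedSpace.constant inferInstance h2 (x := x) (y := 1))
    simp only [one_mul, inv_one, mul_one, mul_inv_cancel] at h3
    rwa [mul_inv_eq_one, mul_inv_eq_iff_eq_mul] at h3
  choose g hg using h
  exact Finite.of_injective g fun a b hab => Subtype.ext (by rw [← hg, ← hg, hab])

theorem le_smul_of_map {G H : Type*} [Group G] [TopologicalSpace G] [IsTopologicalGroup G]
    [CompactSpace G] [SecondCountableTopology G] [MeasurableSpace G] [BorelSpace G] [Group H]
    [TopologicalSpace H] [T2Space H] [MeasurableSpace H] [BorelSpace H] (f : G →* H)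
    (hf : Continuous f) [Fintype f.ker] (μ ν : Measure G) [μ.IsHaarMeasure] [IsFiniteMeasure ν]
    {M : ℝ≥0∞} (h : ν.map f ≤ M • μ.map f) : ν ≤ (M * Fintype.card f.ker) • μ := by
  refine Measure.le_iff.2 fun A hA => ?_
  rw [hA.measure_eq_iSup_isCompact ν]
  refine iSup_le fun K => iSup_le fun hKA => iSup_le fun hK => ?_
  have h1 : f ⁻¹' (f '' K) ⊆ ⋃ k : f.ker, (fun x => (k : G) * x) ⁻¹' K := by
    rintro x ⟨y, hy, hxy⟩
    refine mem_iUnion.2 ⟨⟨y * x⁻¹, ?_⟩, by simpa using hy⟩
    rw [MonoidHom.mem_ker, map_mul, map_inv, hxy, mul_inv_cancel]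
  calc ν K ≤ ν (f ⁻¹' (f '' K)) := measure_mono (subset_preimage_image f K)
    _ ≤ ν.map f (f '' K) := le_map_apply hf.measurable.aemeasurable _
    _ ≤ M * μ.map f (f '' K) := h _
    _ = M * μ (f ⁻¹' (f '' K)) := by
      rw [map_apply hf.measurable (hK.image hf).isClosed.measurableSet]
    _ ≤ M * ∑ k : f.ker, μ ((fun x => (k : G) * x) ⁻¹' K) := by
      gcongr
      exact (measure_mono h1).trans (measure_iUnion_fintype_le _ _)
    _ = M * (Fintype.card f.ker * μ K) := by simp [measure_preimage_mul]
    _ ≤ _ := by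
      rw [Measure.smul_apply, smul_eq_mul, mul_assoc]
      gcongr

theorem exists_bound_ker : ∃ C : ℕ, 0 < C ∧ ∀ (r : ℕ) (w : FreeGroup (Fin r)), w ≠ 1 →
    ∀ t : ℕ, C * w.norm ^ 9 ≤ t → ∀ (G : Type u) [Group G] [TopologicalSpace G]
    [IsTopologicalGroup G] [CompactSpace G] [ConnectedSpace G] [T1Space G]
    [SecondCountableTopology G] [MeasurableSpace G] [BorelSpace G]
    (N : ℕ) (ρ : G →* Matrix.unitaryGroup (Fin N) ℂ), Continuous ρ → ρ.ker ≤ Subgroup.center G →
    Finite (Subgroup.center G) → ∀ (μ : Measure G) [μ.IsHaarMeasure] [IsProbabilityMeasure μ],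
      HasBoundedDensity (convPow (wordMeasure w μ) t) μ := by
  obtain ⟨C, hC, h⟩ := exists_bound.{0}
  refine ⟨C, hC, fun r w hw t ht G _ _ _ _ _ _ _ _ _ N ρ hρ hk hZ μ _ _ => ?_⟩
  let f := ρ.rangeRestrict
  have hf : Continuous f := hρ.subtype_mk _
  have hs : Function.Surjective f := ρ.rangeRestrict_surjective
  have hk' : f.ker ≤ Subgroup.center G := by rwa [MonoidHom.ker_rangeRestrict]
  have : CompactSpace ρ.range := ⟨hs.range_eq ▸ isCompact_range hf⟩
  have : ConnectedSpace ρ.range := hs.connectedSpace hf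
  let _ : MeasurableSpace ρ.range := borel _
  have : BorelSpace ρ.range := ⟨rfl⟩
  have := isHaarMeasure_map_of_isFiniteMeasure μ f hf hs
  have : IsProbabilityMeasure (μ.map f) := isProbabilityMeasure_map hf.measurable.aemeasurable
  have hinj : Function.Injective (URep.ofUnitary ρ.range.subtype continuous_subtype_val) :=
    Subtype.val_injective.comp Subtype.val_injective
  have := URep.secondCountable _ hinj
  obtain ⟨M, hM, h⟩ := h r w hw t ht ρ.range N _ hinj (finite_center_range f hs hk') (μ.map f)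
  rw [← map_listMeasure _ f ⟨hf.measurable, rfl⟩, ← map_convPow _ f hf.measurable] at h
  have : Finite f.ker := Finite.of_injective _ (Subgroup.inclusion_injective hk')
  let _ := Fintype.ofFinite f.ker
  rw [wordMeasure_eq]
  exact hasBoundedDensity_of_le μ _ (ENNReal.mul_ne_top hM (ENNReal.natCast_ne_top _))
    (le_smul_of_map f hf μ _ h)

end Pool.Agent.Lib.MP_775e5c_al.H42
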