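import Pool.Agent.Lib.MP_775e5c_al.Main

/-!
Convolution powers of word measures on compact connected semisimple Lie groups have bounded
density after a number of steps polynomial in the length of the word, uniformly in the group.
-/

namespace Pool.Agent.Lib.MP_775e5c_al.MatrixVersion

open MeasureTheory
open Pool.Agent.Lib.MP_775e5c_al (wordMeasure convPow HasBoundedDensity)

universe u

theorem result : ∃ C α : ℕ, 0 < C ∧ 0 < α ∧
    ∀ (r : ℕ) (w : FreeGroup (Fin r)), w ≠ 1 → ∀ t : ℕ, C * w.norm ^ α ≤ t →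
      ∀ (G : Type u) [Group G] [TopologicalSpace G] [IsTopologicalGroup G] [CompactSpace G]
        [ConnectedSpace G] [MeasurableSpace G] [BorelSpace G],
        (∃ (N : ℕ) (ρ : G →* Matrix.unitaryGroup (Fin N) ℂ),
          Continuous ρ ∧ Function.Injective ρ) →
        Finite (Subgroup.center G) →
        ∀ (μ : Measure G) [μ.IsHaarMeasure] [IsProbabilityMeasure μ],
          HasBoundedDensity (convPow (wordMeasure w μ) t) μ := by
  obtain ⟨C, hC, h⟩ := Lib.MP_775e5c_al.exists_bound.{u}
  refine ⟨C, 9, hC, by norm_num, fun r w hw t ht G _ _ _ _ _ _ _ ⟨N, ρ, hρ, hinj⟩ hZ μ _ _ => ?_⟩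
  have hinj' : Function.Injective (Lib.MP_775e5c_al.URep.ofUnitary ρ hρ) :=
    Subtype.val_injective.comp hinj
  haveI := Lib.MP_775e5c_al.URep.secondCountable _ hinj'
  obtain ⟨M, hM, h⟩ := h r w hw t ht G N _ hinj' hZ μ
  rw [Lib.MP_775e5c_al.wordMeasure_eq]
  exact Lib.MP_775e5c_al.hasBoundedDensity_of_le μ _ hM h

end Pool.Agent.Lib.MP_775e5c_al.MatrixVersion
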