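import Mathlib

/-!
A continuous finite-dimensional real representation of a compact group is unitarisable.
-/

namespace Pool.Agent.Lib.MP_775e5c_al.H42

open MeasureTheory Matrix

open scoped MatrixOrder in
theorem exists_form {G : Type*} [Group G] [TopologicalSpace G] [IsTopologicalGroup G]
    [CompactSpace G] [MeasurableSpace G] [BorelSpace G] (μ : Measure G) [μ.IsHaarMeasure] {N : ℕ}
    (M : G →* Matrix (Fin N) (Fin N) ℝ) (hM : Continuous M) :
    ∃ S : Matrix (Fin N) (Fin N) ℝ, IsUnit S ∧ ∀ h, (M h)ᴴ * (Sᴴ * S) * M h = Sᴴ * S := by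
  let Q : G → Matrix (Fin N) (Fin N) ℝ := fun g => (M g⁻¹)ᴴ * M g⁻¹
  have h0 : Continuous fun g : G => M g⁻¹ := hM.comp continuous_inv
  have hQ : Continuous Q := h0.matrix_conjTranspose.matrix_mul h0
  let Q' : G → Fin N → Fin N → ℝ := Q
  have hQ' : Continuous Q' := hQ
  have iQ : Integrable Q' μ :=
    hQ'.integrable_of_hasCompactSupport (HasCompactSupport.of_compactSpace _)
  let P : Matrix (Fin N) (Fin N) ℝ := Matrix.of (∫ g, Q' g ∂μ)
  have comm : ∀ L : Matrix (Fin N) (Fin N) ℝ →ₗ[ℝ] ℝ, L P = ∫ g, L (Q g) ∂μ := fun L =>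
    ((LinearMap.toContinuousLinearMap
      (L.comp (Matrix.ofLinearEquiv ℝ).toLinearMap)).integral_comp_comm iQ).symm
  have hP : P.PosDef := by
    refine PosDef.of_dotProduct_mulVec_pos ?_ fun x hx => ?_
    · ext i j
      refine (comm (entryLinearMap ℝ ℝ j i)).trans (Eq.trans ?_ (comm (entryLinearMap ℝ ℝ i j)).symm)
      congr 1
      funext g
      simp [Q, Matrix.mul_apply, mul_comm]
    · have h1 := comm ((dotProductBilin ℝ ℝ x).comp ((mulVecBilin ℝ ℝ).flip x))
      have h2 : ∀ g, x ⬝ᵥ (Q g *ᵥ x) = (M g⁻¹ *ᵥ x) ⬝ᵥ (M g⁻¹ *ᵥ x) := fun g => by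
        simp only [Q, ← mulVec_mulVec, conjTranspose_eq_transpose_of_trivial, dotProduct_mulVec x,
          vecMul_transpose]
      refine lt_of_lt_of_eq ?_ h1.symm
      change 0 < ∫ g, x ⬝ᵥ (Q g *ᵥ x) ∂μ
      simp only [h2]
      have h3 : Continuous fun g : G => M g⁻¹ *ᵥ x := h0.matrix_mulVec continuous_const
      refine (h3.dotProduct h3).integral_pos_of_hasCompactSupport_nonneg_nonzero
        (HasCompactSupport.of_compactSpace _) (fun g => ?_) (x := 1) ?_
      · exact Finset.sum_nonneg fun i _ => mul_self_nonneg _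
      · simpa using hx
  obtain ⟨S, hS, h⟩ := CStarAlgebra.isStrictlyPositive_iff_eq_star_mul_self.1 hP.isStrictlyPositive
  refine ⟨S, hS, fun k => ?_⟩
  rw [star_eq_conjTranspose] at h
  rw [← h]
  ext i j
  refine (comm ((entryLinearMap ℝ ℝ i j).comp (LinearMap.mulLeftRight ℝ ((M k)ᴴ, M k)))).trans
    (Eq.trans ?_ (comm (entryLinearMap ℝ ℝ i j)).symm)
  rw [← integral_mul_left_eq_self (fun g => entryLinearMap ℝ ℝ i j (Q g)) k⁻¹]
  congr 1
  funext g
  simp [Q, Matrix.mul_assoc]

theorem exists_unitary {G : Type*} [Group G] [TopologicalSpace G] [IsTopologicalGroup G]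
    [CompactSpace G] [MeasurableSpace G] [BorelSpace G] (μ : Measure G) [μ.IsHaarMeasure]
    {E : Type*} [NormedAddCommGroup E] [NormedSpace ℝ E] [FiniteDimensional ℝ E]
    (A : G →* (E →L[ℝ] E)) (hA : Continuous A) :
    ∃ (N : ℕ) (ρ : G →* unitaryGroup (Fin N) ℂ), Continuous ρ ∧ ρ.ker ≤ A.ker := by
  let b := Module.finBasis ℝ E
  let M : G →* Matrix (Fin (Module.finrank ℝ E)) (Fin (Module.finrank ℝ E)) ℝ :=
    { toFun := fun g => LinearMap.toMatrix b b (A g)
      map_one' := by
        rw [map_one]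
        exact LinearMap.toMatrix_id b
      map_mul' := fun g h => by
        rw [map_mul]
        exact LinearMap.toMatrix_comp b b b _ _ }
  have hM : Continuous M := continuous_matrix fun i j => by
    have : (fun g => M g i j) = fun g => b.coord i (A g (b j)) := by
      funext g
      simp [M, LinearMap.toMatrix_apply]
    rw [this]
    exact (b.coord i).continuous_of_finiteDimensional.comp (hA.clm_apply continuous_const)
  obtain ⟨_, ⟨S, rfl⟩, hS⟩ := exists_form μ M hM
  let U : G →* Matrix (Fin (Module.finrank ℝ E)) (Fin (Module.finrank ℝ E)) ℝ :=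
    { toFun := fun g => S.val * M g * (S⁻¹).val
      map_one' := by simp
      map_mul' := fun g h => by simp [Matrix.mul_assoc] }
  have hU : ∀ g, (U g)ᴴ * U g = 1 := fun g => by
    have h1 : (U g)ᴴ * U g = (S⁻¹).valᴴ * ((M g)ᴴ * (S.valᴴ * S.val) * M g) * (S⁻¹).val := by
      simp only [U, MonoidHom.coe_mk, OneHom.coe_mk, conjTranspose_mul, Matrix.mul_assoc]
    rw [h1, hS, ← Matrix.mul_assoc, ← conjTranspose_mul, Matrix.mul_assoc, S.mul_inv,
      conjTranspose_one, Matrix.one_mul]
  let f := (Complex.ofRealHom.mapMatrix (m := Fin (Module.finrank ℝ E))).toMonoidHom.comp U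
  have hf : ∀ g, f g ∈ unitaryGroup (Fin (Module.finrank ℝ E)) ℂ := fun g => by
    rw [mem_unitaryGroup_iff', star_eq_conjTranspose]
    have h1 : (f g)ᴴ = Complex.ofRealHom.mapMatrix (U g)ᴴ := by
      ext i j
      simp [f]
    rw [h1]
    exact (map_mul Complex.ofRealHom.mapMatrix _ _).symm.trans (by rw [hU, map_one])
  refine ⟨_, f.codRestrict _ hf, ?_, fun g hg => ?_⟩
  · refine Continuous.subtype_mk ?_ _
    exact ((continuous_const.matrix_mul hM).matrix_mul continuous_const).matrix_map
      Complex.continuous_ofReal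
  · have h1 : f g = 1 := congrArg Subtype.val (MonoidHom.mem_ker.1 hg)
    have h2 : U g = 1 := by
      ext i j
      have := congrFun (congrFun h1 i) j
      rw [← map_one Complex.ofRealHom.mapMatrix] at this
      exact Complex.ofReal_injective this
    have h3 : M g = 1 := by
      have h4 : S.val * M g * (S⁻¹).val = 1 := h2
      rw [Units.mul_inv_eq_iff_eq_mul, Matrix.one_mul] at h4
      exact S.isUnit.mul_left_cancel (h4.trans (Matrix.mul_one _).symm)
    rw [MonoidHom.mem_ker]
    apply ContinuousLinearMap.coe_injective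
    exact (LinearMap.toMatrix b b).injective (h3.trans (LinearMap.toMatrix_id b).symm)

end Pool.Agent.Lib.MP_775e5c_al.H42
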