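import Pool.Agent.Lib.MP_775e5c_al.Spectral

/-!
Integrability of functions decaying with the eigenvalue gaps.
-/

namespace Pool.Agent.Lib.MP_775e5c_al

open MeasureTheory Measure Module InnerProductSpace
open scoped ENNReal

noncomputable section

theorem lintegral_ne_top_of_perturb {Y W A ι : Type*} [Fintype ι] [NormedAddCommGroup Y]
    [NormedSpace ℝ Y] [FiniteDimensional ℝ Y] [MeasurableSpace Y] [BorelSpace Y]
    [NormedAddCommGroup W] [NormedSpace ℝ W] [FiniteDimensional ℝ W] [NormedAddCommGroup A]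
    (ν : Measure Y) [ν.IsAddHaarMeasure] {H : Y → A} (hH : Continuous H) {Ψ : (ι → W) → A}
    (hΨ : Continuous Ψ) {M : ℝ}
    (hM : ∀ v v', (∀ a, ‖v' a - v a‖ ≤ (1 + ‖v a‖)⁻¹) → ‖Ψ v - Ψ v'‖ ≤ M) {ℒ : Set A} {c : ℝ}
    (hc0 : 0 ≤ c) (hc : ∀ ξ ξ', ∀ l ∈ ℒ, ∀ l' ∈ ℒ, ‖ξ - ξ'‖ ≤ c * ‖H ξ - l - (H ξ' - l')‖)
    {F : Y → ℝ≥0∞} {C : ℝ≥0∞} (hC : C ≠ ⊤) (hF : ∀ ξ, ∃ v, ∃ l ∈ ℒ, H ξ = l + Ψ v ∧
      F ξ ≤ C * ENNReal.ofReal (∏ a, (1 + ‖v a‖)⁻¹ ^ (2 * finrank ℝ W + 1))) :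
    ∫⁻ ξ, F ξ ∂ν ≠ ⊤ := by
  borelize W
  set D := finrank ℝ W with hD
  set V := (addHaar (Metric.closedBall (0 : W) 1)) ^ Fintype.card ι with hV
  have hV0 : V ≠ 0 := pow_ne_zero _ (Metric.measure_closedBall_pos _ _ one_pos).ne'
  have hVt : V ≠ ⊤ := ENNReal.pow_ne_top measure_closedBall_lt_top.ne
  set g : (ι → W) → ℝ := fun v => ∏ a, (2 * (1 + ‖v a‖)⁻¹) ^ (D + 1) with hg
  have hg0 : ∀ v, 0 ≤ g v := fun v => Finset.prod_nonneg fun a _ => by positivity
  have hgi : Integrable g (Measure.pi fun _ => addHaar) :=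
    Integrable.fintype_prod (f := fun _ (w : W) => (2 * (1 + ‖w‖)⁻¹) ^ (D + 1)) fun _ => by
      refine ((integrable_one_add_norm (r := (D + 1 : ℕ)) (by simp [hD])).const_mul
        (2 ^ (D + 1))).congr (ae_of_all _ fun w => ?_)
      beta_reduce
      rw [Real.rpow_neg (by positivity), Real.rpow_natCast, mul_pow, inv_pow]
  set Z : Set (Y × (ι → W)) := {p | Metric.infDist (H p.1 - Ψ p.2) ℒ ≤ M} with hZ
  have hZm : MeasurableSet Z := (isClosed_le ((Metric.continuous_infDist_pt ℒ).comp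
    ((hH.comp continuous_fst).sub (hΨ.comp continuous_snd))) continuous_const).measurableSet
  have hgm : Measurable fun v => ENNReal.ofReal (g v) := by fun_prop
  have h1 : ∀ ξ, F ξ ≤ C * V⁻¹ * ∫⁻ v, Z.indicator (fun p => ENNReal.ofReal (g p.2)) (ξ, v)
      ∂Measure.pi fun _ => addHaar := fun ξ => by
    obtain ⟨v, l, hl, h1, h2⟩ := hF ξ
    refine h2.trans ?_
    rw [mul_assoc]
    refine mul_le_mul_right ?_ _
    rw [← ENNReal.div_eq_inv_mul, ENNReal.le_div_iff_mul_le (Or.inl hV0) (Or.inl hVt)]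
    have hB : MeasurableSet (Set.univ.pi fun a => Metric.closedBall (v a) (1 + ‖v a‖)⁻¹) :=
      MeasurableSet.univ_pi fun a => measurableSet_closedBall
    refine le_trans (le_of_eq ?_) (lintegral_mono (f := (Set.univ.pi fun a =>
      Metric.closedBall (v a) (1 + ‖v a‖)⁻¹).indicator fun _ =>
        ENNReal.ofReal (∏ a, (1 + ‖v a‖)⁻¹ ^ (D + 1))) fun v' =>
          Set.indicator_apply_le' (fun hv' => ?_) fun _ => zero_le)
    · rw [lintegral_indicator_const hB, Measure.pi_pi]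
      simp only [addHaar_closedBall' addHaar _ (show 0 ≤ (1 + ‖v _‖)⁻¹ by positivity)]
      rw [Finset.prod_mul_distrib, Finset.prod_const, ← ENNReal.ofReal_prod_of_nonneg
        (fun _ _ => by positivity), ← mul_assoc, ← ENNReal.ofReal_mul
          (Finset.prod_nonneg fun _ _ => by positivity), ← Finset.prod_mul_distrib]
      congr 3
      funext a
      rw [← pow_add]; congr 1; omega
    · have h3 : ∀ a, ‖v' a - v a‖ ≤ (1 + ‖v a‖)⁻¹ := fun a =>
        mem_closedBall_iff_norm.1 (hv' a trivial)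
      rw [Set.indicator_of_mem]
      · refine ENNReal.ofReal_le_ofReal (Finset.prod_le_prod (fun _ _ => by positivity)
          fun a _ => pow_le_pow_left₀ (by positivity) ?_ _)
        have h4 := norm_sub_norm_le (v' a) (v a)
        have h5 : (1 + ‖v a‖)⁻¹ ≤ 1 := inv_le_one_of_one_le₀ (by linarith [norm_nonneg (v a)])
        rw [← div_eq_mul_inv, ← one_div, div_le_div_iff₀ (by positivity) (by positivity)]
        linarith [h3 a, norm_nonneg (v a)]
      · refine (Metric.infDist_le_dist_of_mem hl).trans ?_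
        rw [dist_eq_norm, h1, show l + Ψ v - Ψ v' - l = Ψ v - Ψ v' by abel]
        exact hM v v' h3
  obtain ⟨-, l₀, hl₀, -⟩ := hF 0
  have h2 : ∀ v, ν {ξ | (ξ, v) ∈ Z} ≤ ν (Metric.closedBall 0 (c * (2 * (M + 1)))) := fun v => by
    rcases Set.eq_empty_or_nonempty {ξ | (ξ, v) ∈ Z} with h | ⟨ξ₀, h₀⟩
    · rw [h, measure_empty]; exact zero_le
    rw [← addHaar_closedBall_center ν ξ₀]
    refine measure_mono fun ξ h => mem_closedBall_iff_norm.2 ?_
    obtain ⟨l, hl, h3⟩ := (Metric.infDist_lt_iff ⟨l₀, hl₀⟩).1 (lt_of_le_of_lt h (lt_add_one M))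
    obtain ⟨l', hl', h4⟩ := (Metric.infDist_lt_iff ⟨l₀, hl₀⟩).1 (lt_of_le_of_lt h₀ (lt_add_one M))
    refine (hc ξ ξ₀ l hl l' hl').trans (mul_le_mul_of_nonneg_left ?_ hc0)
    rw [dist_eq_norm] at h3 h4
    have h5 := norm_sub_le (H ξ - Ψ v - l) (H ξ₀ - Ψ v - l')
    rw [show H ξ - Ψ v - l - (H ξ₀ - Ψ v - l') = H ξ - l - (H ξ₀ - l') by abel] at h5
    linarith
  refine ne_top_of_le_ne_top ?_ (lintegral_mono h1)
  rw [lintegral_const_mul' _ _ (by finiteness),
    lintegral_lintegral_swap (f := fun ξ v => Z.indicator (fun p => ENNReal.ofReal (g p.2)) (ξ, v))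
      ((hgm.comp measurable_snd).indicator hZm).aemeasurable]
  refine ENNReal.mul_ne_top (by finiteness) (ne_top_of_le_ne_top ?_ (lintegral_mono
    (g := fun v => ENNReal.ofReal (g v) * ν (Metric.closedBall 0 (c * (2 * (M + 1))))) fun v => ?_))
  · rw [lintegral_mul_const' _ _ measure_closedBall_lt_top.ne]
    exact ENNReal.mul_ne_top hgi.lintegral_lt_top.ne measure_closedBall_lt_top.ne
  · refine le_trans (le_of_eq ?_) (mul_le_mul_right (h2 v) _)
    refine (lintegral_congr fun ξ => ?_).trans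
      (lintegral_indicator_const (measurable_prodMk_right hZm) _)
    by_cases h : (ξ, v) ∈ Z <;> simp [h]

variable {W : Type*} [NormedAddCommGroup W] [InnerProductSpace ℂ W]
  [DecidableEq W] [InnerProductSpace ℝ W] [IsScalarTower ℝ ℂ W]
  [FiniteDimensional ℂ W] [FiniteDimensional ℝ W] [MeasurableSpace W] [BorelSpace W]
  {α : Type*} {K : Type*} [DecidableEq α] [Group K] [Fintype α] [TopologicalSpace K]
  [IsTopologicalGroup K] [CompactSpace K] [MeasurableSpace K] [BorelSpace K]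
  [SecondCountableTopology K] [DistribMulAction K W] [IsIsometricSMul K W] [ContinuousSMul K W]
  [SMulCommClass K ℂ W]

theorem lintegral_near_ne_top (μ : Measure K) [μ.IsHaarMeasure] [IsProbabilityMeasure μ]
    {j : W →ₗ⋆[ℂ] W} (hW : ∀ m p, 0 < p → p + 2 * (m + 1) ≤ finrank ℂ W → HasWts α μ j m (2 * p))
    {L : List (α × Bool)} (hL : FreeGroup.IsReduced L) (hL0 : L ≠ [])
    (hl : 16 * L.length * (L.length + 2) ≤ finrank ℂ W) {R : ℝ} (hR : 0 < R) {Y : Type*}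
    [NormedAddCommGroup Y] [NormedSpace ℝ Y] [FiniteDimensional ℝ Y] [MeasurableSpace Y]
    [BorelSpace Y] (ν : Measure Y) [ν.IsAddHaarMeasure] (H : Y →ₗ[ℝ] W →L[ℂ] W)
    (hi : ∀ ξ, H ξ = 0 → ξ = 0) (hs : ∀ ξ u v, inner ℂ (H ξ u) v = inner ℂ u (H ξ v))
    (hj : ∀ ξ z, j (H ξ z) = -H ξ (j z))
    (htr : ∀ ξ, LinearMap.trace ℂ W (H ξ : W →ₗ[ℂ] W) = 0) :
    ∫⁻ ξ, (Measure.pi fun _ : α => μ) (Near K L (H ξ) R) ^ (80 * L.length * (L.length + 1)) ∂ν
      ≠ ⊤ := by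
  obtain ⟨C, hC, ε, hε, h⟩ := full_bound μ rfl hW hL hL0 hl hR
  have hd : finrank ℝ W = 2 * finrank ℂ W := by
    rw [← Complex.finrank_real_complex, finrank_mul_finrank ℝ ℂ W]
  have hn : (finrank ℂ W : ℂ) ≠ 0 := by
    have := List.length_pos_iff.2 hL0
    exact Nat.cast_ne_zero.2 (by nlinarith)
  set T : (Y × ℂ) →ₗ[ℝ] W →L[ℂ] W := H.coprod
    ((LinearMap.toSpanSingleton ℂ _ (1 : W →L[ℂ] W)).restrictScalars ℝ) with hT
  have hT1 : ∀ ξ t, T (ξ, t) = H ξ + t • 1 := fun ξ t => rfl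
  obtain ⟨c, -, hc⟩ := T.exists_antilipschitzWith (LinearMap.ker_eq_bot'.2 fun ⟨ξ, t⟩ h => by
    have h1 := congrArg (fun X : W →L[ℂ] W => LinearMap.trace ℂ W (X : W →ₗ[ℂ] W)) h
    obtain rfl : t = 0 := by simpa [hT1, htr, hn] using h1
    rw [hT1, zero_smul, add_zero] at h
    rw [hi ξ h]; rfl)
  have hr : Continuous fun w : W => rankOne ℂ w w :=
    ((ContinuousLinearMap.smulRightL ℂ W W).continuous.comp (innerSL ℂ).continuous).clm_apply
      continuous_id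
  have hΨ : Continuous fun v : Fin (finrank ℂ W) → W => ∑ a, ε a • rankOne ℂ (v a) (v a) :=
    continuous_finsetSum _ fun a _ => by
      have h1 : Continuous fun v : Fin (finrank ℂ W) → W => v a := continuous_apply a
      have h2 := hr.comp h1
      exact h2.const_smul (ε a)
  refine lintegral_ne_top_of_perturb ν H.continuous_of_finiteDimensional
    (Ψ := fun v => ∑ a, ε a • rankOne ℂ (v a) (v a)) hΨ (M := finrank ℂ W * 2)
    (fun v v' hv => ?_) (ℒ := Set.range fun t : ℂ => t • (1 : W →L[ℂ] W)) c.2 ?_ hC fun ξ => ?_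
  · rw [← Finset.sum_sub_distrib]
    refine (norm_sum_le _ _).trans ((Finset.sum_le_sum (g := fun _ => 2) fun a _ => ?_).trans_eq
      (by simp))
    rw [← smul_sub, norm_smul, hε, one_mul, show rankOne ℂ (v a) (v a) - rankOne ℂ (v' a) (v' a) =
      -(rankOne ℂ (v' a - v a) (v a) + rankOne ℂ (v' a) (v' a - v a)) by simp, norm_neg]
    refine (norm_add_le _ _).trans ?_
    have h1 := hv a
    have h2 := norm_sub_norm_le (v' a) (v a)
    have h3 : (1 + ‖v a‖)⁻¹ ≤ 1 := inv_le_one_of_one_le₀ (by linarith [norm_nonneg (v a)])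
    rw [← one_div, le_div_iff₀ (by positivity)] at h1
    rw [norm_rankOne, norm_rankOne]
    nlinarith [norm_nonneg (v' a - v a), hv a]
  · rintro ξ ξ' _ ⟨t, rfl⟩ _ ⟨t', rfl⟩
    have h1 := hc.le_mul_norm (map_zero T) (ξ - ξ', t' - t)
    rw [hT1, map_sub, sub_smul] at h1
    refine (norm_fst_le (ξ - ξ', t' - t)).trans (h1.trans_eq ?_)
    congr 2; abel
  · obtain ⟨v, t, h1, h2⟩ := h (H ξ) (hs ξ) (hj ξ) (htr ξ)
    exact ⟨v, _, ⟨t, rfl⟩, h1, by rwa [hd, ← mul_assoc]⟩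

end

end Pool.Agent.Lib.MP_775e5c_al
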