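import Mathlib

/-!
Negative moments: a dyadic lemma, and trigonometric polynomials with a bound on the degree in each
variable separately.
-/

namespace Pool.Agent.Lib.MP_775e5c_al

open MeasureTheory Complex
open scoped ENNReal

noncomputable section

/-- The constant of the dyadic lemma. -/
def dyK (a b : ℝ) : ℝ≥0∞ := 1 + (2 : ℝ≥0∞) ^ b * ∑' k : ℕ, ((2 : ℝ≥0∞) ^ (b - a)) ^ k

theorem dyK_ne_top {a b : ℝ} (hab : b < a) : dyK a b ≠ ⊤ := by
  have h : (2 : ℝ≥0∞) ^ (b - a) < 1 :=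
    ENNReal.rpow_lt_one_of_one_lt_of_neg (by norm_num) (by linarith)
  rw [dyK, ENNReal.tsum_geometric]
  refine ENNReal.add_ne_top.2 ⟨by simp, ENNReal.mul_ne_top (by simp [ENNReal.rpow_eq_top_iff]) ?_⟩
  exact ENNReal.inv_ne_top.2 (tsub_pos_of_lt h).ne'

theorem rpow_neg_le_tsum {b : ℝ} (hb : 0 < b) (x : ℝ≥0∞) :
    x ^ (-b) ≤ 1 + ∑' k : ℕ, {y : ℝ≥0∞ | y ≤ 2⁻¹ ^ k}.indicator
      (fun _ => ((2 : ℝ≥0∞) ^ b) ^ (k + 1)) x := by
  have h2 : (1 : ℝ≥0∞) ≤ 2 ^ b := ENNReal.one_le_rpow (by norm_num) hb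
  rcases le_or_gt 1 x with h1 | h1
  · exact (ENNReal.rpow_le_one_of_one_le_of_neg h1 (by linarith)).trans le_self_add
  rcases eq_or_ne x 0 with rfl | h0
  · refine le_add_left ?_
    rw [ENNReal.zero_rpow_of_neg (by linarith), ← ENNReal.tsum_const_eq_top_of_ne_zero
      (α := ℕ) one_ne_zero]
    refine ENNReal.tsum_le_tsum fun k => ?_
    rw [Set.indicator_of_mem (by simp)]
    exact one_le_pow₀ h2
  · have hex : ∃ k : ℕ, 2⁻¹ ^ (k + 1) < x := by
      obtain ⟨k, hk⟩ := ENNReal.exists_inv_two_pow_lt h0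
      exact ⟨k, lt_of_le_of_lt (pow_le_pow_right_of_le_one' (by simp) (Nat.le_succ k)) hk⟩
    have hk := Nat.find_spec hex
    have hk' : x ≤ 2⁻¹ ^ Nat.find hex := by
      rcases Nat.eq_zero_or_pos (Nat.find hex) with h | h
      · rw [h, pow_zero]; exact h1.le
      · have := Nat.find_min hex (Nat.sub_one_lt h.ne')
        rwa [Nat.sub_add_cancel h, not_lt] at this
    refine le_add_left (le_trans ?_ (ENNReal.le_tsum (Nat.find hex)))
    rw [Set.indicator_of_mem (by exact hk'), ENNReal.rpow_neg, ← ENNReal.inv_rpow,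
      ← ENNReal.rpow_natCast, ← ENNReal.rpow_mul, mul_comm, ENNReal.rpow_mul, ENNReal.rpow_natCast]
    refine ENNReal.rpow_le_rpow ?_ hb.le
    rw [← ENNReal.inv_pow] at hk
    exact ENNReal.inv_le_iff_inv_le.1 hk.le

theorem lintegral_rpow_neg_le {Ω : Type*} [MeasurableSpace Ω] (ν : Measure Ω) {f : Ω → ℝ≥0∞}
    (hf : Measurable f) {a b : ℝ} (hb : 0 < b) {C : ℝ≥0∞} (h1 : ν Set.univ ≤ C)
    (h : ∀ s : ℝ≥0∞, 0 < s → s ≤ 1 → ν {x | f x ≤ s} ≤ C * s ^ a) :
    ∫⁻ x, f x ^ (-b) ∂ν ≤ dyK a b * C := by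
  refine (lintegral_mono fun x => rpow_neg_le_tsum hb (f x)).trans ?_
  have hm : ∀ k : ℕ, MeasurableSet {x | f x ≤ 2⁻¹ ^ k} := fun k =>
    measurableSet_le hf measurable_const
  have h2 : ∀ (k : ℕ) x, {y : ℝ≥0∞ | y ≤ 2⁻¹ ^ k}.indicator
      (fun _ => ((2 : ℝ≥0∞) ^ b) ^ (k + 1)) (f x) =
      {x | f x ≤ 2⁻¹ ^ k}.indicator (fun _ => ((2 : ℝ≥0∞) ^ b) ^ (k + 1)) x := fun k x => rfl
  simp_rw [h2]
  rw [lintegral_add_left measurable_const,
    lintegral_tsum fun k => (measurable_const.indicator (hm k)).aemeasurable, dyK, add_mul,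
    ← ENNReal.tsum_mul_left, ← ENNReal.tsum_mul_right]
  refine add_le_add (by simpa using h1) (ENNReal.tsum_le_tsum fun k => ?_)
  rw [lintegral_indicator_const (hm k)]
  refine (mul_le_mul_right (h _ (by simp [pos_iff_ne_zero]) (pow_le_one' (by simp) k)) _).trans
    (le_of_eq ?_)
  have h3 : ((2⁻¹ : ℝ≥0∞) ^ k) ^ a = (2 ^ (-a)) ^ k := by
    rw [← ENNReal.rpow_natCast, ← ENNReal.rpow_natCast, ← ENNReal.rpow_mul, ← ENNReal.rpow_mul,
      ENNReal.inv_rpow, ← ENNReal.rpow_neg]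
    congr 1; ring
  rw [h3, sub_eq_add_neg, ENNReal.rpow_add _ _ (by simp) (by simp), mul_pow]
  ring

/-- One-variable trigonometric polynomials of degree at most `n`. -/
def T1 (n : ℕ) : Submodule ℂ (ℝ → ℂ) :=
  Submodule.span ℂ {f | ∃ k : ℤ, |k| ≤ n ∧ f = fun s : ℝ => Complex.exp (k * s * I)}

theorem exists_poly_of_mem_T1 {n : ℕ} {p : ℝ → ℂ} (hp : p ∈ T1 n) :
    ∃ q : Polynomial ℂ, q.natDegree ≤ 2 * n ∧
      ∀ s : ℝ, Complex.exp (n * s * I) * p s = q.eval (Complex.exp (s * I)) := by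
  induction hp using Submodule.span_induction with
  | mem x hx =>
    obtain ⟨k, hk, rfl⟩ := hx
    have hk' := abs_le.1 hk
    refine ⟨Polynomial.X ^ (n + k).toNat, by simp; omega, fun s => ?_⟩
    have h1 : (((n + k).toNat : ℕ) : ℂ) = n + k := by
      have : (((n + k).toNat : ℕ) : ℤ) = n + k := Int.toNat_of_nonneg (by omega)
      exact_mod_cast congrArg (Int.cast : ℤ → ℂ) this
    rw [Polynomial.eval_pow, Polynomial.eval_X, ← Complex.exp_nat_mul, ← Complex.exp_add, h1]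
    congr 1; ring
  | zero => exact ⟨0, by simp, by simp⟩
  | add x y _ _ hx hy =>
    obtain ⟨q, hq, hq'⟩ := hx
    obtain ⟨r, hr, hr'⟩ := hy
    exact ⟨q + r, (Polynomial.natDegree_add_le _ _).trans (max_le hq hr),
      fun s => by simp [mul_add, hq', hr']⟩
  | smul a x _ hx =>
    obtain ⟨q, hq, hq'⟩ := hx
    exact ⟨a • q, (Polynomial.natDegree_smul_le _ _).trans hq,
      fun s => by simp [← hq', mul_left_comm]⟩

theorem continuous_of_mem_T1 {n : ℕ} {p : ℝ → ℂ} (hp : p ∈ T1 n) : Continuous p := by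
  induction hp using Submodule.span_induction with
  | mem x hx => obtain ⟨k, -, rfl⟩ := hx; fun_prop
  | zero => exact continuous_const
  | add x y _ _ hx hy => exact hx.add hy
  | smul a x _ hx => exact hx.const_smul a

theorem abs_sub_le_norm_exp_sub {s a : ℝ} (hs : s ∈ Set.Icc (-1 : ℝ) 1)
    (ha : a ∈ Set.Icc (-1 : ℝ) 1) :
    |s - a| / 2 ≤ ‖Complex.exp (s * I) - Complex.exp (a * I)‖ := by
  have h1 : Complex.exp (s * I) - Complex.exp (a * I) =
      Complex.exp (a * I) * (Complex.exp (I * (s - a : ℝ)) - 1) := by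
    rw [mul_sub, ← Complex.exp_add]; congr 2 <;> push_cast <;> ring
  rw [h1, norm_mul, norm_exp_ofReal_mul_I, one_mul, norm_exp_I_mul_ofReal_sub_one, Real.norm_eq_abs,
    abs_mul, abs_two]
  have h2 : |(s - a) / 2| ≤ Real.pi / 2 := by
    rw [abs_le]; constructor <;> linarith [hs.1, hs.2, ha.1, ha.2, Real.pi_gt_three]
  have h3 := Real.mul_abs_le_abs_sin h2
  rw [abs_div, abs_two] at h3
  have h4 : 1 / 2 ≤ 2 / Real.pi := by
    rw [div_le_div_iff₀ (by norm_num) Real.pi_pos]; linarith [Real.pi_le_four]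
  nlinarith [abs_nonneg (s - a)]

theorem exists_root_approx (z : ℂ) : ∃ a ∈ Set.Icc (-1 : ℝ) 1, ∀ s ∈ Set.Icc (-1 : ℝ) 1,
    ∀ s₀ : ℝ, ‖Complex.exp (s₀ * I) - z‖ * (|s - a| / 16) ≤ ‖Complex.exp (s * I) - z‖ := by
  obtain ⟨a, ha, hmin⟩ := isCompact_Icc.exists_isMinOn (Set.nonempty_Icc.2 (by norm_num :
    (-1 : ℝ) ≤ 1)) (f := fun s : ℝ => ‖Complex.exp (s * I) - z‖) (by fun_prop)
  refine ⟨a, ha, fun s hs s₀ => ?_⟩
  have h1 : ‖Complex.exp (s₀ * I) - z‖ ≤ 1 + ‖z‖ := by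
    simpa [norm_exp_ofReal_mul_I] using norm_sub_le (Complex.exp (s₀ * I)) z
  have h2 : |s - a| ≤ 2 := by rw [abs_le]; constructor <;> linarith [hs.1, hs.2, ha.1, ha.2]
  have h0 := abs_nonneg (s - a)
  rcases le_or_gt 3 ‖z‖ with h | h
  · have h3 : ‖z‖ - 1 ≤ ‖Complex.exp (s * I) - z‖ := by
      have := norm_sub_norm_le z (Complex.exp (s * I))
      rwa [norm_exp_ofReal_mul_I, norm_sub_rev] at this
    calc _ ≤ (1 + ‖z‖) * (2 / 16) := by gcongr
      _ ≤ _ := by linarith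
  · have h3 := abs_sub_le_norm_exp_sub hs ha
    have h4 : ‖Complex.exp (a * I) - z‖ ≤ ‖Complex.exp (s * I) - z‖ := hmin hs
    have h5 := norm_sub_le_norm_sub_add_norm_sub (Complex.exp (s * I)) z (Complex.exp (a * I))
    rw [norm_sub_rev z] at h5
    calc _ ≤ 4 * (|s - a| / 16) := by gcongr; linarith
      _ ≤ _ := by linarith

theorem volume_sublevel_le {n : ℕ} (hn : 0 < n) {p : ℝ → ℂ} (hp : p ∈ T1 n) (s₀ : ℝ)
    (h0 : p s₀ ≠ 0) {ε : ℝ} (hε : 0 < ε) (hε1 : ε ≤ 1) :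
    volume {s ∈ Set.Icc (-1 : ℝ) 1 | ‖p s‖ ≤ ε * ‖p s₀‖} ≤
      ENNReal.ofReal (64 * n * ε ^ (1 / (2 * n) : ℝ)) := by
  classical
  rcases hε1.eq_or_lt with rfl | hε1
  · refine (measure_mono (Set.sep_subset _ _)).trans ?_
    rw [Real.volume_Icc]
    refine ENNReal.ofReal_le_ofReal ?_
    have : (1 : ℝ) ≤ n := by exact_mod_cast hn
    simp; linarith
  obtain ⟨q, hq, hqp⟩ := exists_poly_of_mem_T1 hp
  choose a ha hax using exists_root_approx
  have hnorm : ∀ s : ℝ, ‖p s‖ =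
      ‖q.leadingCoeff‖ * (q.roots.map fun z => ‖Complex.exp (s * I) - z‖).prod := by
    intro s
    have h1 := congrArg norm (hqp s)
    have h2 : ‖Complex.exp (n * s * I)‖ = 1 := by
      simpa using norm_exp_ofReal_mul_I (n * s)
    rw [norm_mul, h2, one_mul, (IsAlgClosed.splits q).eval_eq_prod_roots, norm_mul] at h1
    rw [h1]
    congr 1
    exact (map_multiset_prod (normHom (α := ℂ)) _).trans (by simp)
  set r : ℝ := ε ^ (1 / (2 * n) : ℝ) with hr
  have hr0 : 0 < r := Real.rpow_pos_of_pos hε _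
  have hr1 : r < 1 := Real.rpow_lt_one hε.le hε1 (by positivity)
  have hrp : r ^ (2 * n) = ε := by
    rw [hr, ← Real.rpow_natCast, ← Real.rpow_mul hε.le]
    have : (1 / (2 * n) : ℝ) * ((2 * n : ℕ) : ℝ) = 1 := by push_cast; field_simp
    rw [this, Real.rpow_one]
  have hcard : Multiset.card q.roots ≤ 2 * n := (Polynomial.card_roots' q).trans hq
  have hsub : {s ∈ Set.Icc (-1 : ℝ) 1 | ‖p s‖ ≤ ε * ‖p s₀‖} ⊆
      ⋃ z ∈ q.roots.toFinset, Metric.closedBall (a z) (16 * r) := by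
    intro s ⟨hs, hle⟩
    by_contra hcon
    simp only [Set.mem_iUnion, not_exists, Multiset.mem_toFinset, Metric.mem_closedBall, not_le,
      Real.dist_eq] at hcon
    have hpos : 0 < ‖p s₀‖ := norm_pos_iff.2 h0
    have key : ∀ m : Multiset ℂ, (∀ z ∈ m, 16 * r < |s - a z|) → m ≠ 0 →
        0 < (m.map fun z => ‖Complex.exp (s₀ * I) - z‖).prod →
        (m.map fun z => ‖Complex.exp (s₀ * I) - z‖).prod * r ^ Multiset.card m <
          (m.map fun z => ‖Complex.exp (s * I) - z‖).prod := by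
      intro m
      induction m using Multiset.induction_on with
      | empty => simp
      | cons z m ih =>
        intro h _ hp
        simp only [Multiset.map_cons, Multiset.prod_cons, Multiset.card_cons] at hp ⊢
        have hm0 : 0 ≤ (m.map fun z => ‖Complex.exp (s₀ * I) - z‖).prod :=
          Multiset.prod_nonneg (by simp only [Multiset.mem_map]; rintro _ ⟨_, _, rfl⟩; positivity)
        have hz : 0 < ‖Complex.exp (s₀ * I) - z‖ := pos_of_mul_pos_left hp hm0 |> fun h => h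
        have hm : 0 < (m.map fun z => ‖Complex.exp (s₀ * I) - z‖).prod :=
          pos_of_mul_pos_right hp hz.le
        have h1 : ‖Complex.exp (s₀ * I) - z‖ * r < ‖Complex.exp (s * I) - z‖ := by
          refine lt_of_lt_of_le ?_ (hax z s hs s₀)
          gcongr
          linarith [h z (by simp)]
        have h2 : (m.map fun z => ‖Complex.exp (s₀ * I) - z‖).prod * r ^ Multiset.card m ≤
            (m.map fun z => ‖Complex.exp (s * I) - z‖).prod := by
          rcases eq_or_ne m 0 with rfl | hne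
          · simp
          · exact (ih (fun w hw => h w (by simp [hw])) hne hm).le
        calc _ = (‖Complex.exp (s₀ * I) - z‖ * r) *
              ((m.map fun z => ‖Complex.exp (s₀ * I) - z‖).prod * r ^ Multiset.card m) := by ring
          _ < _ := mul_lt_mul h1 h2 (by positivity) (norm_nonneg _)
    rw [hnorm s, hnorm s₀] at hle
    rw [hnorm s₀] at hpos
    have hlc : 0 < ‖q.leadingCoeff‖ := pos_of_mul_pos_left hpos
      (Multiset.prod_nonneg (by simp only [Multiset.mem_map]; rintro _ ⟨_, _, rfl⟩; positivity))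
    have hP := pos_of_mul_pos_right hpos hlc.le
    rcases eq_or_ne q.roots 0 with h | h
    · rw [h] at hle
      simp only [Multiset.map_zero, Multiset.prod_zero, mul_one] at hle
      nlinarith
    · have h1 := key _ hcon h hP
      have h2 : ε ≤ r ^ Multiset.card q.roots := hrp ▸ pow_le_pow_of_le_one hr0.le hr1.le hcard
      rw [mul_left_comm, mul_le_mul_iff_right₀ hlc] at hle
      nlinarith
  refine (measure_mono hsub).trans ((measure_biUnion_finset_le _ _).trans ?_)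
  simp only [Real.volume_closedBall, Finset.sum_const, nsmul_eq_mul]
  rw [← ENNReal.ofReal_natCast, ← ENNReal.ofReal_mul (by positivity)]
  refine ENNReal.ofReal_le_ofReal ?_
  have h3 : (q.roots.toFinset.card : ℝ) ≤ 2 * n := by
    exact_mod_cast (Multiset.toFinset_card_le _).trans hcard
  nlinarith

theorem lintegral_T1_le {n : ℕ} (hn : 0 < n) {p : ℝ → ℂ} (hp : p ∈ T1 n) (s₀ : ℝ) {κ : ℝ}
    (hκ : 0 < κ) : ∫⁻ s in Set.Icc (-1 : ℝ) 1, ‖p s‖ₑ ^ (-κ) ≤
      dyK (1 / (2 * n)) κ * (64 * n) * ‖p s₀‖ₑ ^ (-κ) := by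
  have hK : dyK (1 / (2 * n)) κ * (64 * n) ≠ 0 :=
    mul_ne_zero (by simp [dyK]) (by simp [hn.ne'])
  by_cases h0 : p s₀ = 0
  · rw [h0, enorm_zero, ENNReal.zero_rpow_of_neg (by linarith), ENNReal.mul_top hK]; exact le_top
  have he0 : ‖p s₀‖ₑ ≠ 0 := by simpa using h0
  have hm : Measurable fun s => ‖p s‖ₑ / ‖p s₀‖ₑ :=
    (continuous_of_mem_T1 hp).measurable.enorm.div_const _
  have h1 := lintegral_rpow_neg_le (volume.restrict (Set.Icc (-1 : ℝ) 1)) hm (a := 1 / (2 * n)) hκ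
    (C := 64 * n) ?_ ?_
  · have h2 : ∀ s, ‖p s‖ₑ ^ (-κ) = (‖p s‖ₑ / ‖p s₀‖ₑ) ^ (-κ) * ‖p s₀‖ₑ ^ (-κ) := by
      intro s
      rw [← ENNReal.mul_rpow_of_ne_top (ENNReal.div_ne_top enorm_ne_top he0) enorm_ne_top,
        ENNReal.div_mul_cancel he0 enorm_ne_top]
    rw [lintegral_congr h2, lintegral_mul_const _ (hm.pow_const _)]
    gcongr
  · rw [Measure.restrict_apply_univ, Real.volume_Icc]
    have : (1 : ℝ≥0∞) ≤ n := by exact_mod_cast hn
    calc ENNReal.ofReal (1 - -1) = 2 * 1 := by norm_num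
      _ ≤ _ := by gcongr; norm_num
  · intro s hs hs1
    have hst : s ≠ ⊤ := ne_top_of_le_ne_top (by simp) hs1
    have hε : 0 < s.toReal := ENNReal.toReal_pos hs.ne' hst
    rw [Measure.restrict_apply (measurableSet_le hm measurable_const)]
    refine le_trans (measure_mono ?_) ((volume_sublevel_le hn hp s₀ h0 hε
      (by simpa using ENNReal.toReal_mono (by simp) hs1)).trans (le_of_eq ?_))
    · intro x ⟨hx, hx'⟩
      refine ⟨hx', ?_⟩
      have h3 := (ENNReal.div_le_iff he0 enorm_ne_top).1 hx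
      simpa using ENNReal.toReal_mono (ENNReal.mul_ne_top hst enorm_ne_top) h3
    · rw [ENNReal.ofReal_mul (by positivity), ← ENNReal.ofReal_rpow_of_pos hε,
        ENNReal.ofReal_toReal hst, ENNReal.ofReal_mul (by positivity)]
      simp

/-- Negative moments in several variables; the exponent does not depend on their number. -/
theorem lintegral_sep_le {n : ℕ} (hn : 0 < n) {κ : ℝ} (hκ : 0 < κ) (M : ℕ)
    (f : (Fin M → ℝ) → ℂ) (hc : Continuous f)
    (hf : ∀ θ i, (fun s => f (Function.update θ i s)) ∈ T1 n) (θ₀ : Fin M → ℝ) :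
    ∫⁻ θ, ‖f θ‖ₑ ^ (-κ) ∂(Measure.pi fun _ => volume.restrict (Set.Icc (-1 : ℝ) 1)) ≤
      (dyK (1 / (2 * n)) κ * (64 * n)) ^ M * ‖f θ₀‖ₑ ^ (-κ) := by
  induction M with
  | zero =>
    rw [Measure.pi_of_empty _ θ₀, lintegral_dirac, pow_zero, one_mul]
  | succ M ih =>
    set K := dyK (1 / (2 * n)) κ * (64 * n) with hK
    have h := (measurePreserving_piFinSuccAbove
      (fun _ : Fin (M + 1) => volume.restrict (Set.Icc (-1 : ℝ) 1)) 0).symm
    have hm : Measurable fun θ => ‖f θ‖ₑ ^ (-κ) := hc.measurable.enorm.pow_const _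
    rw [← h.lintegral_comp hm]
    refine (lintegral_prod_symm _ (hm.comp h.measurable).aemeasurable).trans_le ?_
    have hc' : Continuous fun θ : Fin M → ℝ => f (Fin.cons (θ₀ 0) θ) :=
      hc.comp (Continuous.finCons continuous_const continuous_id)
    have h2 := ih (fun θ => f (Fin.cons (θ₀ 0) θ)) hc' (fun θ i => by
      simpa only [Fin.cons_update] using hf (Fin.cons (θ₀ 0) θ) i.succ) (Fin.tail θ₀)
    rw [Fin.cons_self_tail] at h2
    calc _ ≤ ∫⁻ θ, K * ‖f (Fin.cons (θ₀ 0) θ)‖ₑ ^ (-κ)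
          ∂(Measure.pi fun _ : Fin M => volume.restrict (Set.Icc (-1 : ℝ) 1)) := by
          refine lintegral_mono fun θ => ?_
          have := lintegral_T1_le hn (hf (Fin.cons 0 θ) 0) (θ₀ 0) hκ
          simp only [Fin.update_cons_zero] at this
          refine le_trans (le_of_eq (lintegral_congr fun s => ?_)) this
          simp; rfl
      _ ≤ _ := by
          rw [lintegral_const_mul _ (hc'.measurable.enorm.pow_const _), pow_succ', mul_assoc K]
          gcongr

end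

end Pool.Agent.Lib.MP_775e5c_al
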