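import Pool.Agent.Lib.MP_775e5c_al.NotLaw
import Pool.Agent.Lib.MP_775e5c_al.NegMoment
import Pool.Agent.Lib.MP_775e5c_al.Area2

/-!
Integrability of the small-ball function with an exponent depending on the dimension.
-/

namespace Pool.Agent.Lib.MP_775e5c_al

open Matrix NormedSpace Module Filter Topology MeasureTheory Measure
open scoped ENNReal

noncomputable section

variable {ι : Type} [Fintype ι] [DecidableEq ι]

theorem entry_mem_T1 {V : Submodule ℂ (Matrix ι ι ℂ)} {n : ℕ} {F : ℝ → Matrix ι ι ℂ}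
    (hF : F ∈ VT V n) (i j : ι) : (fun s => F s i j) ∈ T1 n := by
  induction hF using Submodule.span_induction with
  | mem x hx =>
    obtain ⟨k, hk, Y, -, rfl⟩ := hx
    have := (T1 n).smul_mem (Y i j) (Submodule.subset_span ⟨k, hk, rfl⟩)
    convert this using 1
    funext s
    simp [mul_comm]
  | zero => exact (T1 n).zero_mem
  | add x y _ _ hx hy => exact (T1 n).add_mem hx hy
  | smul a x _ hx => exact (T1 n).smul_mem a hx

theorem exists_entry_ge {A : Matrix ι ι ℂ} {c : ℝ} (hc : 0 < c) (h : c < ‖A‖) :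
    ∃ i j, c / (Fintype.card ι + 1) ≤ ‖A i j‖ := by
  by_contra! hcon
  have h1 : ‖A‖ ^ 2 ≤ c ^ 2 := by
    rw [norm_sq_eq_sum]
    calc ∑ i, ∑ j, ‖A i j‖ ^ 2 ≤ ∑ _i : ι, ∑ _j : ι, (c / (Fintype.card ι + 1)) ^ 2 := by
          gcongr with i _ j _; exact (hcon i j).le
      _ = (c * (Fintype.card ι / (Fintype.card ι + 1))) ^ 2 := by simp; ring
      _ ≤ c ^ 2 := by
          gcongr
          exact mul_le_of_le_one_right hc.le (div_le_one_of_le₀ (by linarith) (by positivity))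
  exact absurd (pow_le_pow_left₀ hc.le h.le 2 |>.trans h1 |> fun _ =>
    (pow_le_pow_iff_left₀ (norm_nonneg _) hc.le two_ne_zero).1 h1) (not_le.2 h)

namespace URep

variable {G : Type*} [Group G] [TopologicalSpace G] (ρ : URep G ι)

theorem continuous_Ad_ev [IsTopologicalGroup G] {Z α : Type*} [TopologicalSpace Z] {f : Z → α → G}
    {ξ : Z → Matrix ι ι ℂ} (hf : Continuous f) (hξ : Continuous ξ) (L : List (α × Bool)) :
    Continuous fun z => ρ.Ad (ev (f z) L) (ξ z) := by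
  have h1 : Continuous fun z => ev (f z) L := (continuous_ev L).comp hf
  exact ρ.continuous_Ad.comp (f := fun z => (ev (f z) L, ξ z)) (h1.prodMk hξ)

/-- The adjoint action as a complex-linear map. -/
def AdC (g : G) : Matrix ι ι ℂ →ₗ[ℂ] Matrix ι ι ℂ where
  toFun := ρ.Ad g
  map_add' := ρ.Ad_add g
  map_smul' := ρ.Ad_csmul g

variable [CompactSpace G]

theorem VT_Ad {e : Matrix ι ι ℂ} (he : IsRootVec ρ.lie e) (c : ℤ) (hc : |c| ≤ 1) (k : ℝ → G)
    (hk : ∀ s : ℝ, ρ (k s) = exp ((c * s) • (Complex.I • cor e))) (u v : G) {Y : Matrix ι ι ℂ}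
    (hY : Y ∈ cx ρ.lie) : (fun s => ρ.Ad (u * k s * v) Y) ∈ VT (cx ρ.lie) (finrank ℝ ρ.lie) := by
  have := VT_map (fun _ => ρ.AdC u) (fun Y hY => VT_const (ρ.Ad_mem_cx u hY) 0)
    (he.VT_conj ρ.isCompactLie c hc (ρ.Ad_mem_cx v hY))
  rw [zero_add] at this
  convert this using 2 with s
  rw [Ad_mul, Ad_mul, ρ.Ad_eq_of_eq_exp (hk s)]
  rfl

theorem VT_Ad_ev {α : Type*} [DecidableEq α] {X : Matrix ι ι ℂ}
    (hX : ∃ e, IsRootVec ρ.lie e ∧ X = Complex.I • cor e) (A B : α → G) (a : α)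
    (L : List (α × Bool)) {Y : Matrix ι ι ℂ} (hY : Y ∈ cx ρ.lie) :
    (fun s : ℝ => ρ.Ad (ev (A * Pi.mulSingle a (ρ.ex (s • X)) * B) L) Y) ∈
      VT (cx ρ.lie) (L.length * finrank ℝ ρ.lie) := by
  obtain ⟨e, he, rfl⟩ := hX
  induction L with
  | nil => simpa [ev_nil, Ad_one] using VT_const hY 0
  | cons x L ih =>
    simp only [ev_cons, Ad_mul, List.length_cons, Nat.succ_mul]
    rw [add_comm]
    refine VT_map (fun s => ρ.AdC _) (fun Z hZ => ?_) ih
    obtain ⟨b, ε⟩ := x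
    obtain ⟨c, hc, hk⟩ : ∃ c : ℤ, |c| ≤ 1 ∧ ∀ s : ℝ,
        ρ ((Pi.mulSingle a (ρ.ex (s • (Complex.I • cor e))) : α → G) b) =
          exp ((c * s) • (Complex.I • cor e)) := by
      by_cases h : b = a
      · subst h
        exact ⟨1, by simp, fun s => by simpa using ρ.map_ex (he.I_cor_mem ρ.isCompactLie) s⟩
      · exact ⟨0, by simp, fun s => by simp [h, ρ.map_one]⟩
    cases ε
    · have := ρ.VT_Ad he (-c) (by simpa using hc)
        (fun s => ((Pi.mulSingle a (ρ.ex (s • (Complex.I • cor e))) : α → G) b)⁻¹)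
        (fun s => by rw [ρ.map_inv_of_eq_exp (hk s), ← neg_smul]; simp) (B b)⁻¹ (A b)⁻¹ hZ
      simpa [AdC, mul_assoc] using this
    · exact ρ.VT_Ad he c hc _ hk (A b) (B b) hZ

variable [IsTopologicalGroup G] [ConnectedSpace G]

theorem eq_top_of_isFrame (hinj : Function.Injective ρ) {m : ℕ} {X : Fin m → Matrix ι ι ℂ}
    (hX : ρ.IsFrame X) (K : Subgroup G) (hK : IsClosed (K : Set G))
    (h : ∀ i (s : ℝ), ρ.ex (s • X i) ∈ K) : K = ⊤ := by
  have : CompactSpace K := isCompact_iff_compactSpace.1 hK.isCompact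
  have h1 : ρ.lie ≤ (ρ.comp K.subtype continuous_subtype_val).lie := by
    rw [← hX.span, Submodule.span_le]
    rintro _ ⟨i, rfl⟩ s
    exact ⟨⟨_, h i s⟩, ρ.map_ex (hX.mem i) s⟩
  refine ρ.subgroup_eq_top K fun Y hY g hg => ?_
  obtain ⟨k, hk⟩ := h1 hY 1
  rw [one_smul, ← hg] at hk
  exact hinj hk ▸ k.2

theorem exists_Ad_ev_ne_of_ne_zero (hs : IsSimpleLie ρ.lie) {r : ℕ} {L : List (Fin r × Bool)}
    (hL : FreeGroup.IsReduced L) (hL0 : L ≠ []) {ξ : Matrix ι ι ℂ} (hξ : ξ ∈ ρ.lie) (h0 : ξ ≠ 0) :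
    ∃ g : Fin r → G, ρ.Ad (ev g L) ξ ≠ ξ := by
  let F : Submodule ℝ (Matrix ι ι ℂ) :=
    { carrier := {ξ | ξ ∈ ρ.lie ∧ ∀ g : Fin r → G, ρ.Ad (ev g L) ξ = ξ}
      add_mem' := fun ha hb => ⟨ρ.lie.add_mem ha.1 hb.1, fun g => by rw [Ad_add, ha.2, hb.2]⟩
      zero_mem' := ⟨ρ.lie.zero_mem, fun g => ρ.Ad_zero _⟩
      smul_mem' := fun c x hx => ⟨ρ.lie.smul_mem c hx.1, fun g => by rw [Ad_smul, hx.2]⟩ }
  have hF : IsIdealIn F ρ.lie := by
    refine ρ.isIdealIn_of_Ad (fun _ h => h.1) fun k Y hY => ⟨ρ.Ad_mem_lie k hY.1, fun g => ?_⟩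
    have := hY.2 fun a => k⁻¹ * g a * k⁻¹⁻¹
    rw [ev_conj, Ad_mul, Ad_mul, inv_inv] at this
    conv_rhs => rw [← this, Ad_Ad_inv]
  by_contra! hcon
  rcases hs.ideal F hF with h | h
  · exact h0 ((Submodule.eq_bot_iff _).1 h ξ ⟨hξ, hcon⟩)
  · obtain ⟨g, Y, hY, hne⟩ := ρ.exists_Ad_ev_ne hs.nonabelian hL hL0
    exact hne ((h.ge hY).2 g)

/-- A product of elementary moves. -/
def run {r m M : ℕ} (X : Fin m → Matrix ι ι ℂ) (P : Fin M → Fin r × Fin m) (θ : Fin M → ℝ) :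
    Fin r → G :=
  (List.ofFn fun k => (Pi.mulSingle (P k).1 (ρ.ex (θ k • X (P k).2)) : Fin r → G)).prod

omit [CompactSpace G] [IsTopologicalGroup G] [ConnectedSpace G] in
theorem run_append {r m M M' : ℕ} (X : Fin m → Matrix ι ι ℂ) (P : Fin M → Fin r × Fin m)
    (P' : Fin M' → Fin r × Fin m) (θ : Fin M → ℝ) (θ' : Fin M' → ℝ) :
    ρ.run X (Fin.append P P') (Fin.append θ θ') = ρ.run X P θ * ρ.run X P' θ' := by
  rw [run, run, run, ← List.prod_append, ← List.ofFn_fin_append]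
  congr 2
  funext k
  refine Fin.addCases (fun k => ?_) (fun k => ?_) k <;> simp

omit [IsTopologicalGroup G] [ConnectedSpace G] in
theorem run_zero (hinj : Function.Injective ρ) {r m M : ℕ} (X : Fin m → Matrix ι ι ℂ)
    (P : Fin M → Fin r × Fin m) : ρ.run X P 0 = 1 := by
  simp [run, ρ.ex_zero hinj]

omit [ConnectedSpace G] in
theorem continuous_run (hinj : Function.Injective ρ) {r m M : ℕ} {X : Fin m → Matrix ι ι ℂ}
    (hX : ∀ i, X i ∈ ρ.lie) (P : Fin M → Fin r × Fin m) : Continuous (ρ.run X P) := by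
  refine continuous_prod_ofFn.comp (continuous_pi fun k => ?_)
  exact (continuous_mulSingle _).comp ((ρ.continuous_ex hinj (hX _)).comp (continuous_apply k))

theorem dense_run (hinj : Function.Injective ρ) {r m : ℕ} {X : Fin m → Matrix ι ι ℂ}
    (hX : ρ.IsFrame X) :
    Dense {γ : Fin r → G | ∃ (M : ℕ) (P : Fin M → Fin r × Fin m) (θ : _), ρ.run X P θ = γ} := by
  set S : Set (Fin r → G) := {γ | ∃ a i, ∃ s : ℝ, γ = Pi.mulSingle a (ρ.ex (s • X i))} with hS
  have h1 : (Subgroup.closure S).topologicalClosure = ⊤ := by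
    refine eq_top_iff.2 fun γ _ => Subgroup.pi_mem_of_mulSingle_mem γ fun a => ?_
    have := ρ.eq_top_of_isFrame hinj hX
      ((Subgroup.closure S).topologicalClosure.comap (MonoidHom.mulSingle (fun _ => G) a))
      ((Subgroup.isClosed_topologicalClosure _).preimage
        (continuous_mulSingle (A := fun _ : Fin r => G) a))
      fun i s => Subgroup.le_topologicalClosure _ (Subgroup.subset_closure ⟨a, i, s, rfl⟩)
    exact this.ge (Subgroup.mem_top (γ a))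
  have h2 : Dense (Subgroup.closure S : Set (Fin r → G)) :=
    dense_iff_closure_eq.2 (congrArg SetLike.coe h1)
  refine h2.mono fun γ hγ => ?_
  induction hγ using Subgroup.closure_induction'' with
  | one => exact ⟨0, Fin.elim0, 0, by simp [run]⟩
  | mem x hx =>
    obtain ⟨a, i, s, rfl⟩ := hx
    exact ⟨1, fun _ => (a, i), fun _ => s, by simp [run]⟩
  | inv_mem x hx =>
    obtain ⟨a, i, s, rfl⟩ := hx
    refine ⟨1, fun _ => (a, i), fun _ => -s, ?_⟩
    have : ρ.ex ((-s) • X i) = (ρ.ex (s • X i))⁻¹ :=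
      eq_inv_of_mul_eq_one_left (by rw [← ρ.ex_add hinj (hX.mem i)]; simp [ρ.ex_zero hinj])
    simp only [run, List.ofFn_succ, List.ofFn_zero, List.prod_cons, List.prod_nil, mul_one, this,
      Pi.mulSingle_inv]
  | mul x y _ _ hx hy =>
    obtain ⟨M, P, θ, rfl⟩ := hx
    obtain ⟨M', P', θ', rfl⟩ := hy
    exact ⟨_, _, _, ρ.run_append X P P' θ θ'⟩

theorem exists_uniform_run (hinj : Function.Injective ρ) (hs : IsSimpleLie ρ.lie) {r m : ℕ}
    {X : Fin m → Matrix ι ι ℂ} (hX : ρ.IsFrame X) {L : List (Fin r × Bool)}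
    (hL : FreeGroup.IsReduced L) (hL0 : L ≠ []) :
    ∃ (M : ℕ) (P : Fin M → Fin r × Fin m) (c : ℝ), 0 < c ∧ ∀ g : Fin r → G, ∀ ξ ∈ ρ.lie, ‖ξ‖ = 1 →
      ∃ θ, c < ‖ρ.Ad (ev (g * ρ.run X P θ) L) ξ - ξ‖ := by
  have hc : ∀ γ : Fin r → G, Continuous fun p : (Fin r → G) × ρ.lie =>
      ‖ρ.Ad (ev (p.1 * γ) L) p.2 - p.2‖ := fun γ =>
    ((ρ.continuous_Ad_ev (by fun_prop) (by fun_prop) L).sub (by fun_prop)).norm
  let U : (Σ M : ℕ, (Fin M → Fin r × Fin m)) × ℕ → Set ((Fin r → G) × ρ.lie) := fun j =>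
    ⋃ θ, {p | 1 / ((j.2 : ℝ) + 1) < ‖ρ.Ad (ev (p.1 * ρ.run X j.1.2 θ) L) p.2 - p.2‖}
  have : Nonempty ((Σ M : ℕ, (Fin M → Fin r × Fin m)) × ℕ) := ⟨⟨⟨0, Fin.elim0⟩, 0⟩⟩
  have hcov : (Set.univ : Set (Fin r → G)) ×ˢ Metric.sphere (0 : ρ.lie) 1 ⊆ ⋃ j, U j := by
    rintro ⟨g, ξ⟩ ⟨-, hξ⟩
    have hξ0 : (ξ : Matrix ι ι ℂ) ≠ 0 := by
      intro h
      have : ξ = 0 := Subtype.ext h
      simp [this] at hξ
    obtain ⟨g', hg'⟩ := ρ.exists_Ad_ev_ne_of_ne_zero hs hL hL0 ξ.2 hξ0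
    have hop : IsOpen {γ : Fin r → G | ρ.Ad (ev (g * γ) L) ξ ≠ ξ} :=
      isOpen_ne_fun (ρ.continuous_Ad_ev (by fun_prop) (by fun_prop) L) continuous_const
    obtain ⟨_, ⟨M, P, θ, rfl⟩, h⟩ := (ρ.dense_run hinj hX).exists_mem_open hop
      ⟨g⁻¹ * g', by simpa using hg'⟩
    obtain ⟨n, hn⟩ := exists_nat_one_div_lt (norm_pos_iff.2 (sub_ne_zero.2 h))
    exact Set.mem_iUnion.2 ⟨⟨⟨M, P⟩, n⟩, Set.mem_iUnion.2 ⟨θ, hn⟩⟩
  have hdir : Directed (· ⊆ ·) U := by
    rintro ⟨⟨M, P⟩, n⟩ ⟨⟨M', P'⟩, n'⟩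
    refine ⟨⟨⟨_, Fin.append P P'⟩, max n n'⟩, fun p hp => ?_, fun p hp => ?_⟩
    · obtain ⟨θ, hθ⟩ := Set.mem_iUnion.1 hp
      refine Set.mem_iUnion.2 ⟨Fin.append θ 0, ?_⟩
      simp only [Set.mem_ofPred_eq, run_append, ρ.run_zero hinj, mul_one] at hθ ⊢
      refine lt_of_le_of_lt ?_ hθ
      gcongr; exact le_max_left _ _
    · obtain ⟨θ, hθ⟩ := Set.mem_iUnion.1 hp
      refine Set.mem_iUnion.2 ⟨Fin.append 0 θ, ?_⟩
      simp only [Set.mem_ofPred_eq, run_append, ρ.run_zero hinj, one_mul] at hθ ⊢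
      refine lt_of_le_of_lt ?_ hθ
      gcongr; exact le_max_right _ _
  obtain ⟨⟨⟨M, P⟩, n⟩, hj⟩ := (isCompact_univ.prod (isCompact_sphere (0 : ρ.lie) 1)
    ).elim_directed_cover U (fun j => isOpen_iUnion fun θ => isOpen_lt continuous_const (hc _))
    hcov hdir
  refine ⟨M, P, 1 / ((n : ℝ) + 1), by positivity, fun g ξ hξ h1 => ?_⟩
  have h2 : (g, (⟨ξ, hξ⟩ : ρ.lie)) ∈ U ⟨⟨M, P⟩, n⟩ :=
    hj ⟨trivial, mem_sphere_zero_iff_norm.2 h1⟩
  exact Set.mem_iUnion.1 h2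

variable [MeasurableSpace G] [BorelSpace G] [SecondCountableTopology G]

theorem exists_small_ball (hinj : Function.Injective ρ) (hs : IsSimpleLie ρ.lie) {r : ℕ}
    {L : List (Fin r × Bool)} (hL : FreeGroup.IsReduced L) (hL0 : L ≠ []) (μ : Measure G)
    [μ.IsHaarMeasure] [IsProbabilityMeasure μ] {κ : ℝ} (hκ : 0 < κ)
    (hκ' : κ < 1 / (2 * (L.length * finrank ℝ ρ.lie : ℕ))) :
    ∃ C : ℝ≥0∞, C ≠ ⊤ ∧ ∀ ξ ∈ ρ.lie, ‖ξ‖ = 1 → ∀ ε : ℝ, 0 < ε →
      listMeasure L μ (ρ.fix ε ξ) ≤ C * ENNReal.ofReal ε ^ κ := by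
  obtain ⟨m, X, hX⟩ := ρ.exists_isFrame hs
  obtain ⟨M, P, c, hc, hrun⟩ := ρ.exists_uniform_run hinj hs hX hL hL0
  set n := L.length * finrank ℝ ρ.lie with hn
  have hn0 : 0 < n := by
    rcases Nat.eq_zero_or_pos n with h | h
    · rw [h] at hκ'; simp at hκ'; linarith
    · exact h
  set K := (dyK (1 / (2 * n)) κ * (64 * n)) ^ M with hK
  have hKtop : K ≠ ⊤ := ENNReal.pow_ne_top (ENNReal.mul_ne_top (dyK_ne_top hκ') (by finiteness))
  set c₁ := ENNReal.ofReal (c / (Fintype.card ι + 1)) with hc₁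
  have hc₁0 : c₁ ≠ 0 := by simpa [hc₁] using (by positivity : 0 < c / (Fintype.card ι + 1))
  refine ⟨K * c₁ ^ (-κ), ENNReal.mul_ne_top hKtop (ENNReal.rpow_ne_top_of_ne_zero hc₁0 ENNReal.ofReal_ne_top),
    fun ξ hξ h1 ε hε => ?_⟩
  have := isMulRightInvariant μ
  set ν : Measure (Fin M → ℝ) := Measure.pi fun _ => volume.restrict (Set.Icc (-1 : ℝ) 1) with hν
  have hν1 : 1 ≤ ν Set.univ := by
    rw [hν, Measure.pi_univ]
    refine Finset.one_le_prod' fun _ _ => ?_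
    simp
  have hF : IsClosed (ρ.fix ε ξ) := isClosed_le ((ρ.continuous_Ad.comp
    (continuous_id.prodMk continuous_const)).sub continuous_const).norm continuous_const
  set E : Set (Fin r → G) := (fun g => ev g L) ⁻¹' ρ.fix ε ξ with hE
  have hEm : MeasurableSet E := (hF.preimage (continuous_ev L)).measurableSet
  set W : Set ((Fin M → ℝ) × (Fin r → G)) := {p | p.2 * ρ.run X P p.1 ∈ E} with hW
  have hWm : MeasurableSet W :=
    (continuous_snd.mul ((ρ.continuous_run hinj hX.mem P).comp continuous_fst)).measurable hEm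
  rw [listMeasure, map_apply (continuous_ev L).measurable hF.measurableSet]
  set Q := (Measure.pi fun _ : Fin r => μ) with hQ
  have h2 : Q E * ν Set.univ = (ν.prod Q) W := by
    rw [Measure.prod_apply hWm, ← lintegral_const]
    refine lintegral_congr fun θ => ?_
    have h := measurePreserving_pi (fun _ : Fin r => μ) (fun _ : Fin r => μ)
      fun a => measurePreserving_mul_right μ (ρ.run X P θ a)
    exact (h.measure_preimage hEm.nullMeasurableSet).symm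
  have h3 : (ν.prod Q) W ≤ K * c₁ ^ (-κ) * ENNReal.ofReal ε ^ κ := by
    rw [Measure.prod_apply_symm hWm]
    refine (lintegral_mono (g := fun _ => K * c₁ ^ (-κ) * ENNReal.ofReal ε ^ κ)
      fun g => ?_).trans (by simp)
    obtain ⟨θ₀, hθ₀⟩ := hrun g ξ hξ h1
    obtain ⟨i, j, hij⟩ := exists_entry_ge hc hθ₀
    set f : (Fin M → ℝ) → ℂ := fun θ => (ρ.Ad (ev (g * ρ.run X P θ) L) ξ - ξ) i j with hf
    have hfc : Continuous f := by
      have h4 : Continuous fun θ => ρ.Ad (ev (g * ρ.run X P θ) L) ξ - ξ :=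
        (ρ.continuous_Ad_ev (continuous_const.mul
          (ρ.continuous_run hinj hX.mem P)) continuous_const L).sub continuous_const
      exact h4.matrix_elem i j
    have hT : ∀ θ k, (fun s => f (Function.update θ k s)) ∈ T1 n := by
      intro θ k
      set F : Fin M → Fin r → G :=
        fun k => Pi.mulSingle (P k).1 (ρ.ex (θ k • X (P k).2)) with hFdef
      have h4 : ∀ s : ℝ, g * ρ.run X P (Function.update θ k s) =
          (g * Fin.partialProd F k.castSucc) * Pi.mulSingle (P k).1 (ρ.ex (s • X (P k).2)) *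
            ((F k)⁻¹ * (Fin.partialProd F k.castSucc)⁻¹ * (List.ofFn F).prod) := by
        intro s
        have h5 := prod_ofFn_update F k (Pi.mulSingle (P k).1 (ρ.ex (s • X (P k).2)) * (F k)⁻¹)
        rw [inv_mul_cancel_right] at h5
        have h6 : ρ.run X P (Function.update θ k s) = (List.ofFn
            (Function.update F k (Pi.mulSingle (P k).1 (ρ.ex (s • X (P k).2))))).prod := by
          rw [run]
          congr 2
          funext k'
          by_cases h : k' = k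
          · subst h; simp
          · simp [h, hFdef]
        rw [h6, h5]; group
      simp only [hf, h4]
      exact entry_mem_T1 ((VT _ n).sub_mem (ρ.VT_Ad_ev (hX.root _) _ _ _ L (mem_cx_of_mem hξ))
        (VT_const (mem_cx_of_mem hξ) n)) i j
    have h5 := lintegral_sep_le hn0 hκ M f hfc hT θ₀
    have h6 := mul_meas_ge_le_lintegral (μ := ν) (hfc.measurable.enorm.pow_const (-κ))
      (ENNReal.ofReal ε ^ (-κ))
    have h7 : (fun θ => (θ, g)) ⁻¹' W ⊆ {θ | ENNReal.ofReal ε ^ (-κ) ≤ ‖f θ‖ₑ ^ (-κ)} := by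
      intro θ hθ
      have h8 : ‖f θ‖ ≤ ε := (norm_entry_le _ i j).trans hθ
      simp only [Set.mem_ofPred_eq, ENNReal.rpow_neg, ENNReal.inv_le_inv]
      exact ENNReal.rpow_le_rpow (by rw [← ofReal_norm]; exact ENNReal.ofReal_le_ofReal h8) hκ.le
    have h8 : ‖f θ₀‖ₑ ^ (-κ) ≤ c₁ ^ (-κ) := by
      simp only [ENNReal.rpow_neg, ENNReal.inv_le_inv]
      exact ENNReal.rpow_le_rpow (by rw [← ofReal_norm]; exact ENNReal.ofReal_le_ofReal hij) hκ.le
    have he0 : ENNReal.ofReal ε ^ κ ≠ 0 := by simp [hε]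
    have he1 : ENNReal.ofReal ε ^ κ ≠ ⊤ := by simp [ENNReal.rpow_eq_top_iff, hε]
    calc ν ((fun θ => (θ, g)) ⁻¹' W)
        = ENNReal.ofReal ε ^ (-κ) * ν ((fun θ => (θ, g)) ⁻¹' W) * ENNReal.ofReal ε ^ κ := by
          rw [mul_right_comm, ENNReal.rpow_neg, ENNReal.inv_mul_cancel he0 he1, one_mul]
      _ ≤ K * c₁ ^ (-κ) * ENNReal.ofReal ε ^ κ := by
          gcongr ?_ * _
          exact (mul_le_mul_right (measure_mono h7) _).trans (h6.trans (h5.trans (by gcongr)))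
  exact (le_mul_of_one_le_right' hν1).trans (h2.trans_le h3)

theorem integrable_small (hinj : Function.Injective ρ) (hs : IsSimpleLie ρ.lie) {r : ℕ}
    {L : List (Fin r × Bool)} (hL : FreeGroup.IsReduced L) (hL0 : L ≠ []) (μ : Measure G)
    [μ.IsHaarMeasure] [IsProbabilityMeasure μ] {t : ℕ}
    (ht : 4 * L.length * finrank ℝ ρ.lie ^ 2 < t) (R : ℝ) :
    ∫⁻ ξ : ρ.lie, listMeasure L μ (ρ.fix R ξ) ^ t ≠ ⊤ := by
  set d := finrank ℝ ρ.lie with hd
  have hd0 : 0 < d := by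
    obtain ⟨X, hX, Y, hY, hne⟩ := hs.nonabelian
    refine finrank_pos_iff_exists_ne_zero.2 ⟨⟨X, hX⟩, fun h => hne ?_⟩
    have : X = 0 := congrArg Subtype.val h
    simp [this]
  have hl0 : 0 < L.length := List.length_pos_iff.2 hL0
  set κ : ℝ := 1 / (4 * (L.length * d : ℕ)) with hκ
  have hκ0 : 0 < κ := by positivity
  obtain ⟨C, hC, h⟩ := ρ.exists_small_ball hinj hs hL hL0 μ hκ0
    (one_div_lt_one_div_of_lt (by positivity) (by
      have : (0 : ℝ) < (L.length * d : ℕ) := by positivity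
      linarith))
  set R' := max R 1 with hR'
  have hR'0 : 0 < R' := by positivity
  have hb : ∀ ξ : ρ.lie, listMeasure L μ (ρ.fix R ξ) ≤
      (C + 1) * ENNReal.ofReal ((2 * R') ^ κ) * ENNReal.ofReal ((1 + ‖ξ‖) ^ (-κ)) := by
    intro ξ
    rw [mul_assoc, ← ENNReal.ofReal_mul (by positivity), Real.rpow_neg (by positivity),
      ← div_eq_mul_inv, ← Real.div_rpow (by positivity) (by positivity)]
    rcases le_or_gt ‖ξ‖ 1 with h1 | h1
    · refine prob_le_one.trans (one_le_mul le_add_self ?_)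
      refine ENNReal.one_le_ofReal.2 (Real.one_le_rpow ?_ hκ0.le)
      rw [le_div_iff₀ (by positivity)]
      linarith [le_max_right R 1]
    · have hn : 0 < ‖(ξ : Matrix ι ι ℂ)‖ := zero_lt_one.trans h1
      have h2 := h (‖(ξ : Matrix ι ι ℂ)‖⁻¹ • ξ) (ρ.lie.smul_mem _ ξ.2)
        (by rw [norm_smul, norm_inv, norm_norm, inv_mul_cancel₀ hn.ne']) (2 * R' / (1 + ‖ξ‖))
        (by positivity)
      rw [ENNReal.ofReal_rpow_of_pos (by positivity)] at h2
      refine le_trans (measure_mono fun g hg => ?_) (h2.trans (by gcongr; exact le_self_add))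
      change ‖_‖ ≤ _
      rw [Ad_smul, ← smul_sub, norm_smul, norm_inv, norm_norm, inv_mul_le_iff₀ hn, ← mul_div_assoc,
        le_div_iff₀ (by positivity)]
      have h3 : ‖ρ.Ad g ξ - ξ‖ ≤ R' := le_trans hg (le_max_left _ _)
      have h4 : ‖(ξ : Matrix ι ι ℂ)‖ = ‖ξ‖ := rfl
      rw [h4]
      nlinarith [norm_nonneg (ρ.Ad g ξ - ξ)]
  have hfin := finite_integral_one_add_norm (E := ρ.lie) (μ := volume) (r := κ * t) (by
    rw [hκ, one_div, lt_inv_mul_iff₀ (by positivity)]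
    have : ((4 * L.length * d ^ 2 : ℕ) : ℝ) < t := by exact_mod_cast ht
    push_cast at this ⊢
    nlinarith)
  refine ne_top_of_le_ne_top ?_ (lintegral_mono fun ξ => pow_le_pow_left' (hb ξ) t)
  simp_rw [mul_pow ((C + 1) * _), ← ENNReal.ofReal_pow (Real.rpow_nonneg
    (add_nonneg zero_le_one (norm_nonneg _)) _), ← Real.rpow_natCast,
    ← Real.rpow_mul (add_nonneg zero_le_one (norm_nonneg _)), neg_mul]
  rw [lintegral_const_mul' _ _ (by finiteness)]
  exact ENNReal.mul_ne_top (by finiteness) hfin.ne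

end URep

end

end Pool.Agent.Lib.MP_775e5c_al
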