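import Pool.Agent.Lib.MP_775e5c_al.Integr
import Pool.Agent.Lib.MP_775e5c_al.SmallDim

/-!
The classical groups of large rank.
-/

namespace Pool.Agent.Lib.MP_775e5c_al

open Matrix NormedSpace Module MeasureTheory Measure
open scoped ENNReal

noncomputable section

variable {κ : Type} [Fintype κ] [DecidableEq κ]

/-- Matrices as operators on the Hermitian space. -/
abbrev op (X : Matrix κ κ ℂ) : EuclideanSpace ℂ κ →L[ℂ] EuclideanSpace ℂ κ :=
  toEuclideanCLM (𝕜 := ℂ) X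

theorem op_mul (X Y : Matrix κ κ ℂ) (z : EuclideanSpace ℂ κ) : op (X * Y) z = op X (op Y z) := by
  simp [op]

theorem inner_op (X : Matrix κ κ ℂ) (u v : EuclideanSpace ℂ κ) :
    inner ℂ (op X u) v = inner ℂ u (op Xᴴ v) := by
  rw [← star_eq_conjTranspose, op, op, map_star, ContinuousLinearMap.star_eq_adjoint,
    ContinuousLinearMap.adjoint_inner_right]

theorem trace_op (X : Matrix κ κ ℂ) : LinearMap.trace ℂ _
    (op X : EuclideanSpace ℂ κ →ₗ[ℂ] EuclideanSpace ℂ κ) = X.trace :=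
  X.trace_toLin_eq (EuclideanSpace.basisFun κ ℂ).toBasis

/-- The real-linear version. -/
def opR : Matrix κ κ ℂ →ₗ[ℝ] EuclideanSpace ℂ κ →L[ℝ] EuclideanSpace ℂ κ where
  toFun X := (op X).restrictScalars ℝ
  map_add' X Y := by simp [op]
  map_smul' r X := by ext z i; simp [op, smul_mulVec]

theorem hasDerivAt_op {X : ℝ → Matrix κ κ ℂ} {X' : Matrix κ κ ℂ} {f : ℝ → EuclideanSpace ℂ κ}
    {f' : EuclideanSpace ℂ κ} {t : ℝ} (hX : HasDerivAt X X' t) (hf : HasDerivAt f f' t) :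
    HasDerivAt (fun t => op (X t) (f t)) (op X' (f t) + op (X t) f') t := by
  have h : HasDerivAt (fun t => opR (X t)) (opR X') t :=
    (opR (κ := κ)).toContinuousLinearMap.hasFDerivAt.comp_hasDerivAt t hX
  have h2 := h.clm_apply hf
  exact h2

theorem eq_op_exp {X : Matrix κ κ ℂ} {f : ℝ → EuclideanSpace ℂ κ}
    (hf : ∀ t, HasDerivAt f (op X (f t)) t) (t : ℝ) : op (exp (t • X)) (f 0) = f t := by
  have h : ∀ t : ℝ, HasDerivAt (fun t : ℝ => op (exp (t • -X)) (f t)) 0 t := fun t =>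
    (hasDerivAt_op (hasDerivAt_exp_smul (-X) t) (hf t)).congr_deriv (by simp [op])
  have h2 := is_const_of_deriv_eq_zero (fun t => (h t).differentiableAt)
    (fun t => (h t).deriv) t 0
  simp only [zero_smul, exp_zero, op, map_one, one_apply_eq_self] at h2
  rw [← h2, ← op_mul, smul_neg, exp_mul_exp_neg]
  simp [op]

/-- The three types of structure maps. -/
def Types (j : EuclideanSpace ℂ κ →ₗ⋆[ℂ] EuclideanSpace ℂ κ) : Prop :=
  ((∀ x y, inner ℂ (j x) y = -inner ℂ (j y) x) ∧ (j = 0 ∨ ∀ x, j (j x) = -x)) ∨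
    ((∀ x y, inner ℂ (j x) y = inner ℂ (j y) x) ∧ ∀ x, j (j x) = x)

/-- Traceless skew-Hermitian matrices commuting with `j`. -/
def Adm (j : EuclideanSpace ℂ κ →ₗ⋆[ℂ] EuclideanSpace ℂ κ) (X : Matrix κ κ ℂ) : Prop :=
  Xᴴ = -X ∧ X.trace = 0 ∧ ∀ z, j (op X z) = op X (j z)

theorem IsClassical.exists_j {s : Set (Matrix κ κ ℂ)} (hs : IsClassical s) :
    ∃ j, Types j ∧ ∀ X, X ∈ s ↔ Adm j X := by
  rcases hs with rfl | ⟨J, hJ, hJ', rfl⟩
  · exact ⟨0, Or.inl ⟨by simp, Or.inl rfl⟩, fun X => by simp [suSet, Adm]⟩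
  let j : EuclideanSpace ℂ κ →ₗ⋆[ℂ] EuclideanSpace ℂ κ :=
    { toFun := fun z => WithLp.toLp 2 (star (J *ᵥ z.ofLp))
      map_add' := fun x y => by simp [mulVec_add]
      map_smul' := fun c x => by simp [mulVec_smul] }
  have h1 : ∀ x y, inner ℂ (j x) y = y.ofLp ⬝ᵥ J *ᵥ x.ofLp := fun x y => by
    simp [j, EuclideanSpace.inner_eq_star_dotProduct]
  have h2 : ∀ x y, inner ℂ (j x) (j y) = inner ℂ y x := fun x y => by
    rw [h1, EuclideanSpace.inner_eq_star_dotProduct]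
    simp only [j, LinearMap.coe_mk, AddHom.coe_mk]
    rw [star_mulVec, dotProduct_mulVec, vecMul_vecMul, hJ, vecMul_one, dotProduct_comm]
  have h3 : ∀ x y : EuclideanSpace ℂ κ, y.ofLp ⬝ᵥ J *ᵥ x.ofLp = x.ofLp ⬝ᵥ Jᵀ *ᵥ y.ofLp :=
    fun x y => by rw [dotProduct_mulVec, ← mulVec_transpose, dotProduct_comm]
  refine ⟨j, ?_, fun X => and_congr_right fun hX => ?_⟩
  · rcases hJ' with h | h
    · have h4 : ∀ x y, inner ℂ (j x) y = inner ℂ (j y) x := fun x y => by rw [h1, h1, h3, h]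
      exact Or.inr ⟨h4, fun x => ext_inner_right ℂ fun y => by rw [h4, h2]⟩
    · have h4 : ∀ x y, inner ℂ (j x) y = -inner ℂ (j y) x := fun x y => by
        rw [h1, h1, h3, h, neg_mulVec, dotProduct_neg]
      exact Or.inl ⟨h4, Or.inr fun x => ext_inner_right ℂ fun y => by rw [h4, h2, inner_neg_left]⟩
  have h5 : ∀ x y, inner ℂ (j (op X x) - op X (j x)) y =
      y.ofLp ⬝ᵥ (Xᵀ * J + J * X) *ᵥ x.ofLp := fun x y => by
    rw [inner_sub_left, inner_op, hX, h1, h1, add_mulVec, dotProduct_add, ← mulVec_mulVec,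
      ← mulVec_mulVec, dotProduct_mulVec _ Xᵀ, vecMul_transpose]
    simp [op, add_comm]
  refine ⟨fun h => ⟨?_, fun z => sub_eq_zero.1 (ext_inner_right ℂ fun y => ?_)⟩, fun h => ?_⟩
  · have h6 := congrArg (fun Y => (Jᴴ * Y).trace) h
    simp only [Matrix.mul_add, trace_add, ← Matrix.mul_assoc, hJ, Matrix.one_mul] at h6
    rw [trace_mul_cycle, mul_eq_one_comm.1 hJ, Matrix.one_mul, trace_transpose] at h6
    simp only [Matrix.mul_zero, trace_zero] at h6
    linear_combination h6 / 2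
  · rw [h5, h]; simp
  · ext a b
    have := h5 (EuclideanSpace.single b 1) (EuclideanSpace.single a 1)
    rw [h.2, sub_self, inner_zero_left] at this
    simpa using this.symm

theorem Adm.exp_comm {j : EuclideanSpace ℂ κ →ₗ⋆[ℂ] EuclideanSpace ℂ κ} {X : Matrix κ κ ℂ}
    (hX : Adm j X) (z : EuclideanSpace ℂ κ) : j (op (exp X) z) = op (exp X) (j z) := by
  let jR : EuclideanSpace ℂ κ →ₗ[ℝ] EuclideanSpace ℂ κ :=
    { toFun := j, map_add' := map_add j, map_smul' := map_real_smul j }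
  have h := eq_op_exp (X := X) (f := fun t => j (op (exp (t • X)) z)) (fun t => by
    have h1 := hasDerivAt_op (hasDerivAt_exp_smul' X t) (hasDerivAt_const t z)
    refine (jR.toContinuousLinearMap.hasFDerivAt.comp_hasDerivAt t h1).congr_deriv ?_
    rw [map_zero, add_zero, op_mul]
    exact hX.2.2 _) 1
  simpa [op] using h.symm

variable {K : Type*} [Group K] [TopologicalSpace K] [IsTopologicalGroup K] [CompactSpace K]
  [MeasurableSpace K] [BorelSpace K] [SecondCountableTopology K]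

theorem URep.lintegral_fix_ne_top (σ : URep K κ) (μ : Measure K) [μ.IsHaarMeasure]
    [IsProbabilityMeasure μ] {j : EuclideanSpace ℂ κ →ₗ⋆[ℂ] EuclideanSpace ℂ κ} (hj : Types j)
    (hK : ∀ k z, j (op (σ k) z) = op (σ k) (j z)) (hexp : ∀ X, Adm j X → ∀ θ : ℝ, ∃ k,
      σ k = exp (θ • X)) {α : Type*} [Fintype α] [DecidableEq α] {L : List (α × Bool)}
    (hL : FreeGroup.IsReduced L) (hL0 : L ≠ [])
    (hl : 16 * L.length * (L.length + 2) ≤ Fintype.card κ) (R : ℝ) {Y : Type*}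
    [NormedAddCommGroup Y] [NormedSpace ℝ Y] [FiniteDimensional ℝ Y] [MeasurableSpace Y]
    [BorelSpace Y] (ν : Measure Y) [ν.IsAddHaarMeasure] (φ : Y →ₗ[ℝ] Matrix κ κ ℂ)
    (hi : ∀ ξ, φ ξ = 0 → ξ = 0) (hφ : ∀ ξ, Adm j (φ ξ)) :
    ∫⁻ ξ, listMeasure L μ (σ.fix R (φ ξ)) ^ (80 * L.length * (L.length + 1)) ∂ν ≠ ⊤ := by
  classical
  letI : DistribMulAction K (EuclideanSpace ℂ κ) :=
    { smul := fun k z => op (σ k) z
      one_smul := fun z => by change op (σ 1) z = z; simp [op, σ.map_one]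
      mul_smul := fun k l z => by change op (σ (k * l)) z = _; rw [σ.map_mul, op_mul]; rfl
      smul_zero := fun k => map_zero _
      smul_add := fun k => map_add _ }
  have hs : ∀ (k : K) (z : EuclideanSpace ℂ κ), k • z = op (σ k) z := fun _ _ => rfl
  haveI : IsIsometricSMul K (EuclideanSpace ℂ κ) := ⟨fun k => Isometry.of_dist_eq fun a b => by
    rw [dist_eq_norm, dist_eq_norm, ← smul_sub, norm_eq_sqrt_re_inner (𝕜 := ℂ), hs, inner_op,
      ← op_mul, σ.star_eq, σ.inv_mul, norm_eq_sqrt_re_inner (𝕜 := ℂ) (a - b)]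
    simp [op]⟩
  haveI : ContinuousSMul K (EuclideanSpace ℂ κ) := ⟨((opR.continuous_of_finiteDimensional.comp
    (σ.cont.comp continuous_fst)).clm_apply continuous_snd :)⟩
  haveI : SMulCommClass K ℂ (EuclideanSpace ℂ κ) := ⟨fun k c z => map_smul (op (σ k)) c z⟩
  haveI : SMulCommClass K ℝ (EuclideanSpace ℂ κ) := ⟨fun k c z => map_smul (opR (σ k)) c z⟩
  have hR : Rotates K j := by
    intro Y h1 h2 h3 a c ha hc θ
    obtain ⟨X, rfl⟩ : ∃ X, op X = Y := (toEuclideanCLM (n := κ) (𝕜 := ℂ)).surjective Y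
    obtain ⟨k, hk⟩ := hexp X ⟨(toEuclideanCLM (n := κ) (𝕜 := ℂ)).injective
      (show op _ = op _ from ContinuousLinearMap.ext fun v => ext_inner_left ℂ fun u => by
        rw [← inner_op, h1]; simp [op]), (trace_op X).symm.trans h2, h3⟩ θ
    refine ⟨k, ?_, fun s h => ?_⟩
    · have := eq_op_exp (X := X) (f := fun t => Real.cos t • a + Real.sin t • c) (fun t =>
        (((Real.hasDerivAt_cos t).smul_const a).fun_add
          ((Real.hasDerivAt_sin t).smul_const c)).congr_deriv (by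
            change _ = opR X _
            rw [map_add, map_smul, map_smul]
            change _ = _ • op X a + _ • op X c
            rw [ha, hc]; module)) θ
      rw [hs, hk, ← this]; simp
    · rw [hs, hk]
      exact eq_op_exp (f := fun _ => s) (fun t => (hasDerivAt_const t s).congr_deriv h.symm) θ
  let H : Y →ₗ[ℝ] EuclideanSpace ℂ κ →L[ℂ] EuclideanSpace ℂ κ :=
    { toFun := fun ξ => op (Complex.I • φ ξ)
      map_add' := fun a b => by simp [op]
      map_smul' := fun r a => by ext z i; simp [op, smul_mulVec]; ring }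
  have hH : ∀ ξ z, H ξ z = Complex.I • op (φ ξ) z := fun ξ z => by simp [H, op]
  set c := ‖(opR (κ := κ)).toContinuousLinearMap‖ with hc
  refine ne_top_of_le_ne_top (lintegral_near_ne_top (α := α) μ (j := j) (fun m p hp hm => ?_) hL hL0
    (by simpa using hl) (R := c * |R| + 1) (by positivity) ν H (fun ξ h => hi ξ ?_)
    (fun ξ u v => ?_) (fun ξ z => ?_) fun ξ => ?_) (lintegral_mono fun ξ => ?_)
  · rcases hj with ⟨h1, h2⟩ | ⟨h1, h2⟩
    exacts [hasWts_skew α μ h1 h2 hR hp hm, hasWts_symm α μ h1 h2 hK hR hp hm]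
  · have := (map_eq_zero_iff _ (toEuclideanCLM (n := κ) (𝕜 := ℂ)).injective).1 h
    simpa using this
  · rw [hH, hH, inner_smul_left, inner_smul_right, inner_op, (hφ ξ).1]; simp [op]
  · rw [hH, hH, LinearMap.map_smulₛₗ, (hφ ξ).2.2]; simp
  · exact (trace_op _).trans (by simp [(hφ ξ).2.1])
  refine pow_le_pow_left' ?_ _
  have hm : MeasurableSet (σ.fix R (φ ξ)) := (isClosed_le
    (((σ.continuous_Ad.comp (continuous_id.prodMk continuous_const)).sub continuous_const).norm)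
      continuous_const).measurableSet
  rw [listMeasure, Measure.map_apply (continuous_ev L).measurable hm]
  refine measure_mono fun g hg z => ?_
  have h1 : ‖σ.Ad (ev g L) (φ ξ) - φ ξ‖ ≤ R := hg
  rw [← σ.norm_mul_right (ev g L), Matrix.sub_mul, URep.Ad, Matrix.mul_assoc, σ.inv_mul,
    Matrix.mul_one] at h1
  rw [hH, hH, smul_comm, ← smul_sub, norm_smul, Complex.norm_I, one_mul, hs, hs, ← op_mul,
    ← op_mul]
  have h2 := (opR (κ := κ)).toContinuousLinearMap.le_opNorm₂ (σ (ev g L) * φ ξ - φ ξ * σ (ev g L)) z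
  rw [map_sub] at h2
  refine le_trans h2 (mul_le_mul_of_nonneg_right ?_ (norm_nonneg _))
  nlinarith [le_abs_self R, norm_nonneg (opR (κ := κ)).toContinuousLinearMap]

instance : CompactSpace (unitaryGroup κ ℂ) := by
  refine isCompact_iff_compactSpace.1 (Metric.isCompact_of_isClosed_isBounded isClosed_unitary
    ((Metric.isBounded_closedBall (x := 0) (r := ‖(1 : Matrix κ κ ℂ)‖)).subset fun u hu => ?_))
  rw [mem_closedBall_zero_iff, ← norm_unitary_mul hu.1 1, Matrix.mul_one]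

namespace URep

variable {ι : Type} [Fintype ι] [DecidableEq ι] {G : Type*} [Group G]
  [TopologicalSpace G] [IsTopologicalGroup G] [CompactSpace G] (ρ : URep G ι)
  (ψ : Matrix ι ι ℂ →ₗ[ℝ] Matrix κ κ ℂ) (j : EuclideanSpace ℂ κ →ₗ⋆[ℂ] EuclideanSpace ℂ κ)

/-- The graph group of a homomorphism of Lie algebras. -/
def graph : Subgroup (G × unitaryGroup κ ℂ) where
  carrier := {p | (∀ ξ ∈ ρ.lie, ψ (ρ.Ad p.1 ξ) * p.2 = p.2 * ψ ξ) ∧
    ∀ z, j (op p.2 z) = op p.2 (j z)}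
  one_mem' := ⟨fun ξ _ => by simp [ρ.Ad_one], fun z => by simp [op]⟩
  mul_mem' := fun {a b} ha hb => ⟨fun ξ hξ => by
      rw [Prod.fst_mul, Prod.snd_mul, Submonoid.coe_mul, ρ.Ad_mul, ← Matrix.mul_assoc,
        ha.1 _ (ρ.Ad_mem_lie _ hξ), Matrix.mul_assoc, hb.1 _ hξ, Matrix.mul_assoc],
    fun z => by rw [Prod.snd_mul, Submonoid.coe_mul, op_mul, op_mul, ha.2, hb.2]⟩
  inv_mem' := fun {a} ha => by
    have h1 : (a.2⁻¹ : unitaryGroup κ ℂ) * (a.2 : Matrix κ κ ℂ) = 1 := a.2.2.1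
    have h2 : (a.2 : Matrix κ κ ℂ) * (a.2⁻¹ : unitaryGroup κ ℂ) = 1 := a.2.2.2
    refine ⟨fun ξ hξ => ?_, fun z => ?_⟩
    · have h := ha.1 _ (ρ.Ad_mem_lie a.1⁻¹ hξ)
      rw [ρ.Ad_Ad_inv] at h
      rw [Prod.fst_inv, Prod.snd_inv, ← Matrix.one_mul (ψ (ρ.Ad _ _)), ← h1,
        Matrix.mul_assoc _ _ (ψ _), ← h, Matrix.mul_assoc, Matrix.mul_assoc, h2,
        Matrix.mul_one]
    · have h := congrArg (op (a.2⁻¹ : unitaryGroup κ ℂ)) (ha.2 (op (a.2⁻¹ : unitaryGroup κ ℂ) z))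
      rw [← op_mul, ← op_mul, h1, h2] at h
      simpa [op] using h.symm

theorem isClosed_graph : IsClosed (ρ.graph ψ j : Set (G × unitaryGroup κ ℂ)) := by
  have hc2 : Continuous fun p : G × unitaryGroup κ ℂ => (p.2 : Matrix κ κ ℂ) :=
    continuous_subtype_val.comp continuous_snd
  have hop : ∀ z, Continuous fun p : G × unitaryGroup κ ℂ => op (p.2 : Matrix κ κ ℂ) z := fun z => by
    have h1 : Continuous fun X : Matrix κ κ ℂ => op X z :=
      ((opR (κ := κ)).continuous_of_finiteDimensional.clm_apply continuous_const :)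
    exact Continuous.comp (g := fun X : Matrix κ κ ℂ => op X z)
      (f := fun p : G × unitaryGroup κ ℂ => (p.2 : Matrix κ κ ℂ)) h1 hc2
  refine IsClosed.inter (s₁ := {p : G × unitaryGroup κ ℂ | ∀ ξ ∈ ρ.lie,
    ψ (ρ.Ad p.1 ξ) * p.2 = p.2 * ψ ξ}) (s₂ := {p | ∀ z, j (op p.2 z) = op p.2 (j z)}) ?_ ?_
  · simp only [Set.ofPred_forall]
    refine isClosed_iInter fun ξ => isClosed_iInter fun _ => isClosed_eq
      (Continuous.mul ?_ hc2) (hc2.mul continuous_const)
    have h1 : Continuous fun p : G × unitaryGroup κ ℂ => (p.1, ξ) :=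
      continuous_fst.prodMk continuous_const
    have h2 := ρ.continuous_Ad.comp h1
    exact ψ.continuous_of_finiteDimensional.comp h2
  · simp only [Set.ofPred_forall]
    let jR : EuclideanSpace ℂ κ →ₗ[ℝ] EuclideanSpace ℂ κ :=
      { toFun := j, map_add' := map_add j, map_smul' := map_real_smul j }
    exact isClosed_iInter fun z => isClosed_eq
      (jR.continuous_of_finiteDimensional.comp (hop z)) (hop _)

variable {ψ j} in
theorem exists_mem_graph (hψ : IsClassicalIso ρ.lie ψ) {X : Matrix ι ι ℂ} (hX : X ∈ ρ.lie)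
    (hA : Adm j (ψ X)) {g : G} (hg : ρ g = exp X) :
    ∃ k : ρ.graph ψ j, k.1.1 = g ∧ k.1.2 = exp (ψ X) := by
  have h1 := exp_skew_conjTranspose hA.1
  refine ⟨⟨(g, ⟨exp (ψ X), ?_, ?_⟩), fun ξ hξ => ?_, hA.exp_comm⟩, rfl, rfl⟩
  · rw [star_eq_conjTranspose, h1, exp_neg_mul_exp]
  · rw [star_eq_conjTranspose, h1, exp_mul_exp_neg]
  · change ψ (ρ.Ad g ξ) * exp (ψ X) = exp (ψ X) * ψ ξ
    rw [ρ.Ad_eq_of_eq_exp hg, map_exp_conj ψ fun t => hψ.map_lie _ hX _ ?_, Matrix.mul_assoc,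
      exp_neg_mul_exp, Matrix.mul_one]
    rw [smul_neg, ← ρ.Ad_eq_of_eq_exp (ρ.map_ex hX t)]
    exact ρ.Ad_mem_lie _ hξ

/-- The natural representation of the graph group. -/
def graphRep : URep (ρ.graph ψ j) κ where
  hom := (unitaryGroup κ ℂ).subtype.comp ((MonoidHom.snd _ _).comp (ρ.graph ψ j).subtype)
  cont := continuous_subtype_val.comp (continuous_snd.comp continuous_subtype_val)
  star_eq := fun _ => rfl

omit [IsTopologicalGroup G] [CompactSpace G] in
theorem measurableSet_fix [IsTopologicalGroup G] [MeasurableSpace G] [BorelSpace G] (R : ℝ)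
    (ξ : Matrix ι ι ℂ) : MeasurableSet (ρ.fix R ξ) := (isClosed_le
  (((ρ.continuous_Ad.comp (continuous_id.prodMk continuous_const)).sub continuous_const).norm)
    continuous_const).measurableSet

variable {ψ} in
theorem integrable_large [ConnectedSpace G] [MeasurableSpace G] [BorelSpace G]
    [SecondCountableTopology G] (hψ : IsClassicalIso ρ.lie ψ) {α : Type*} [Fintype α]
    [DecidableEq α] {L : List (α × Bool)} (hL : FreeGroup.IsReduced L) (hL0 : L ≠ [])
    (μ : Measure G) [μ.IsHaarMeasure] [IsProbabilityMeasure μ]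
    (hl : 16 * L.length * (L.length + 2) ≤ Fintype.card κ) (R : ℝ) :
    ∫⁻ ξ : ρ.lie, listMeasure L μ (ρ.fix R ξ) ^ (80 * L.length * (L.length + 1)) ≠ ⊤ := by
  obtain ⟨j, hj, hs⟩ := hψ.classical.exists_j
  have hA : ∀ X ∈ ρ.lie, Adm j (ψ X) := fun X hX => (hs _).1 ⟨X, hX, rfl⟩
  haveI : CompactSpace (ρ.graph ψ j) :=
    isCompact_iff_compactSpace.1 (ρ.isClosed_graph ψ j).isCompact
  haveI : SecondCountableTopology (unitaryGroup κ ℂ) :=
    TopologicalSpace.Subtype.secondCountableTopology _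
  haveI : SecondCountableTopology (ρ.graph ψ j) :=
    TopologicalSpace.Subtype.secondCountableTopology _
  letI : MeasurableSpace (ρ.graph ψ j) := borel _
  haveI : BorelSpace (ρ.graph ψ j) := ⟨rfl⟩
  let π : ρ.graph ψ j →* G := (MonoidHom.fst _ _).comp (ρ.graph ψ j).subtype
  have hπ : Function.Surjective π := MonoidHom.range_eq_top.1 (ρ.subgroup_eq_top _
    fun X hX g hg => (ρ.exists_mem_graph hψ hX (hA X hX) hg).imp fun k hk => hk.1)
  let ν : Measure (ρ.graph ψ j) := haarMeasure ⊤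
  haveI : IsProbabilityMeasure ν := ⟨haarMeasure_self (K₀ := (⊤ : _))⟩
  have hp : MeasurePreserving π ν μ := MonoidHom.measurePreserving
    (continuous_fst.comp continuous_subtype_val) hπ (by simp)
  refine ne_top_of_le_ne_top ((ρ.graphRep ψ j).lintegral_fix_ne_top ν hj (fun k => k.2.2)
    (fun X hX θ => ?_) hL hL0 hl (‖ψ.toContinuousLinearMap‖ * R) volume (ψ.comp ρ.lie.subtype)
    (fun ξ h => Subtype.ext (hψ.inj _ ξ.2 h)) fun ξ => hA _ ξ.2) (lintegral_mono fun ξ => ?_)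
  · obtain ⟨Z, hZ, rfl⟩ := (hs X).2 hX
    have h := ρ.lie.smul_mem θ hZ
    obtain ⟨k, -, hk⟩ := ρ.exists_mem_graph hψ h (hA _ h) (ρ.map_ex hZ θ)
    exact ⟨k, by rw [← map_smul, ← hk]; rfl⟩
  rw [← map_listMeasure L π hp, Measure.map_apply hp.measurable (ρ.measurableSet_fix R ξ)]
  refine pow_le_pow_left' (measure_mono fun k hk => ?_) _
  have h1 : (ρ.graphRep ψ j).Ad k (ψ ξ) = ψ (ρ.Ad (π k) ξ) := by
    have h2 : ψ (ρ.Ad (π k) ξ) * ρ.graphRep ψ j k = ρ.graphRep ψ j k * ψ ξ := k.2.1 _ ξ.2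
    rw [URep.Ad, ← h2, Matrix.mul_assoc, URep.mul_inv, Matrix.mul_one]
  change ‖(ρ.graphRep ψ j).Ad k (ψ ξ) - ψ ξ‖ ≤ _
  rw [h1, ← map_sub]
  exact (ψ.toContinuousLinearMap.le_opNorm _).trans
    (mul_le_mul_of_nonneg_left hk (norm_nonneg _))

end URep

end

end Pool.Agent.Lib.MP_775e5c_al
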