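import Pool.Agent.Lib.MP_775e5c_al.Reduce

/-!
The theorem for compact connected matrix groups with finite centre.
-/

namespace Pool.Agent.Lib.MP_775e5c_al

open Matrix NormedSpace Module MeasureTheory Measure
open scoped ENNReal

noncomputable section

universe u

theorem URep.center_eq_zero {ι : Type} [Fintype ι] [DecidableEq ι] {G : Type u} [Group G]
    [TopologicalSpace G] [IsTopologicalGroup G] [CompactSpace G] [ConnectedSpace G] (ρ : URep G ι)
    (hinj : Function.Injective ρ) [Finite (Subgroup.center G)] {Z : Matrix ι ι ℂ} (hZ : Z ∈ ρ.lie)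
    (h : ∀ X ∈ ρ.lie, X * Z = Z * X) : Z = 0 := by
  haveI : T2Space G := (ρ.isClosedEmbedding hinj).isEmbedding.t2Space
  have h1 : ∀ t : ℝ, ρ.ex (t • Z) ∈ Subgroup.center G := fun t =>
    Subgroup.mem_center_iff.2 fun g => hinj (by
      rw [ρ.map_mul, ρ.map_mul, ρ.map_ex hZ]
      exact ((show Commute (ρ g) Z from (ρ.Ad_eq_self_iff _ _).1
        (ρ.Ad_eq_of_forall_commute h g)).smul_right t).exp_right)
  have h2 : Continuous fun t : ℝ => (⟨_, h1 t⟩ : Subgroup.center G) :=
    (ρ.continuous_ex hinj hZ).subtype_mk _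
  have h3 : (fun t : ℝ => exp (t • Z)) = fun _ => 1 := funext fun t => by
    have := congrArg Subtype.val (PreconnectedSpace.constant inferInstance h2 (x := t) (y := 0))
    simp only [zero_smul, ρ.ex_zero hinj] at this
    rw [← ρ.map_ex hZ, this, ρ.map_one]
  have h4 := hasDerivAt_exp_smul Z 0
  rw [h3] at h4
  simpa using h4.unique (hasDerivAt_const _ _)

theorem URep.secondCountable {ι : Type} [Fintype ι] [DecidableEq ι] {G : Type u} [Group G]
    [TopologicalSpace G] [CompactSpace G] (ρ : URep G ι) (hinj : Function.Injective ρ) :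
    SecondCountableTopology G := (ρ.isClosedEmbedding hinj).isEmbedding.secondCountableTopology

theorem exists_bound : ∃ C : ℕ, 0 < C ∧ ∀ (r : ℕ) (w : FreeGroup (Fin r)), w ≠ 1 →
    ∀ t : ℕ, C * w.norm ^ 9 ≤ t → ∀ (G : Type u) [Group G] [TopologicalSpace G]
    [IsTopologicalGroup G] [CompactSpace G] [ConnectedSpace G] [MeasurableSpace G] [BorelSpace G]
    (N : ℕ) (ρ : URep G (Fin N)), Function.Injective ρ → Finite (Subgroup.center G) →
    ∀ (μ : Measure G) [μ.IsHaarMeasure] [IsProbabilityMeasure μ],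
      ∃ M : ℝ≥0∞, M ≠ ⊤ ∧ convPow (listMeasure w.toWord μ) t ≤ M • μ := by
  obtain ⟨d₀, hd⟩ := largeClassification
  refine ⟨8 * (d₀ + 4608) ^ 2 + 320, by positivity,
    fun r w hw t ht G _ _ _ _ _ _ _ N ρ hinj _ μ _ _ => ?_⟩
  haveI := ρ.secondCountable hinj
  obtain ⟨M, hM, h⟩ := semisimple_case (fun G _ _ _ _ _ _ _ _ ρ hinj hs μ _ _ =>
    URep.simple_case (hd N) ρ hinj hs FreeGroup.isReduced_toWord
      (fun h => hw (FreeGroup.toWord_eq_nil_iff.1 h)) μ) _ G ρ rfl hinj
    (fun Z hZ h => ρ.center_eq_zero hinj hZ h) μ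
  rw [FreeGroup.norm] at ht
  exact ⟨M, hM, convPow_le_smul_of_le μ _ ht h⟩

/-- A continuous homomorphism to the unitary group as a `URep`. -/
def URep.ofUnitary {G : Type u} [Group G] [TopologicalSpace G] {N : ℕ}
    (ρ : G →* unitaryGroup (Fin N) ℂ) (hρ : Continuous ρ) : URep G (Fin N) where
  hom := (unitaryGroup (Fin N) ℂ).subtype.comp ρ
  cont := continuous_subtype_val.comp hρ
  star_eq g := by
    change _ = ((ρ g⁻¹ : unitaryGroup (Fin N) ℂ) : Matrix (Fin N) (Fin N) ℂ)
    rw [map_inv]; rfl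

theorem wordMeasure_eq {G : Type u} [Group G] [TopologicalSpace G] [MeasurableSpace G] {r : ℕ}
    (w : FreeGroup (Fin r)) (μ : Measure G) : wordMeasure w μ = listMeasure w.toWord μ := by
  simp only [wordMeasure, listMeasure, lift_eq_ev]

end

end Pool.Agent.Lib.MP_775e5c_al
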