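import Pool.Agent.Lib.MP_775e5c_al.Periodic
import Pool.Agent.Lib.MP_775e5c_al.Conv

/-!
A nontrivial reduced word acts nontrivially on a nonabelian compact Lie algebra.
-/

namespace Pool.Agent.Lib.MP_775e5c_al

open Matrix NormedSpace Complex

noncomputable section

variable {ι κ : Type} [Fintype ι] [DecidableEq ι] [Fintype κ] [DecidableEq κ]

theorem map_exp_conj (L : Matrix ι ι ℂ →ₗ[ℝ] Matrix κ κ ℂ) {Y Z : Matrix ι ι ℂ}
    (hL : ∀ t : ℝ, L (Y * (exp (t • Y) * Z * exp (t • (-Y))) - exp (t • Y) * Z * exp (t • (-Y)) * Y) =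
      L Y * L (exp (t • Y) * Z * exp (t • (-Y))) - L (exp (t • Y) * Z * exp (t • (-Y))) * L Y) :
    L (exp Y * Z * exp (-Y)) = exp (L Y) * L Z * exp (-L Y) := by
  have h1 : ∀ t : ℝ, HasDerivAt (fun t : ℝ => exp (t • (-L Y)) *
      L (exp (t • Y) * Z * exp (t • (-Y))) * exp (t • L Y)) 0 t := by
    intro t
    have h2 := ((hasDerivAt_exp_smul' Y t).mul_const Z).fun_mul (hasDerivAt_exp_smul (-Y) t)
    have h3 := L.toContinuousLinearMap.hasFDerivAt.comp_hasDerivAt t h2
    have h4 := ((hasDerivAt_exp_smul (-L Y) t).fun_mul h3).fun_mul (hasDerivAt_exp_smul' (L Y) t)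
    refine h4.congr_deriv ?_
    have h5 : Y * exp (t • Y) * Z * exp (t • -Y) + exp (t • Y) * Z * (exp (t • -Y) * -Y) =
        Y * (exp (t • Y) * Z * exp (t • (-Y))) - exp (t • Y) * Z * exp (t • (-Y)) * Y := by
      simp only [Matrix.mul_assoc, Matrix.mul_neg, sub_eq_add_neg]
    simp only [LinearMap.coe_toContinuousLinearMap', Function.comp, h5, hL]
    noncomm_ring
  have h2 := is_const_of_deriv_eq_zero (fun t => (h1 t).differentiableAt)
    (fun t => (h1 t).deriv) 1 0
  simp only [one_smul, zero_smul, NormedSpace.exp_zero, Matrix.one_mul, Matrix.mul_one] at h2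
  rw [← h2]
  simp only [← Matrix.mul_assoc, exp_mul_exp_neg, Matrix.one_mul]
  rw [Matrix.mul_assoc _ (exp (L Y)), exp_mul_exp_neg, Matrix.mul_one]

/-- The representation of `gl(2)` attached to a root vector. -/
def chi (e : Matrix ι ι ℂ) : Matrix (Fin 2) (Fin 2) ℂ →ₗ[ℂ] Matrix ι ι ℂ where
  toFun Z := Z 0 1 • e + Z 1 0 • eᴴ + ((Z 0 0 - Z 1 1) / 2) • cor e
  map_add' A B := by simp only [Matrix.add_apply]; module
  map_smul' c A := by simp only [Matrix.smul_apply, smul_eq_mul, RingHom.id_apply]; module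

theorem chi_apply (e : Matrix ι ι ℂ) (Z : Matrix (Fin 2) (Fin 2) ℂ) :
    chi e Z = Z 0 1 • e + Z 1 0 • eᴴ + ((Z 0 0 - Z 1 1) / 2) • cor e := rfl

theorem chi_conjTranspose (e : Matrix ι ι ℂ) (Z : Matrix (Fin 2) (Fin 2) ℂ) :
    (chi e Z)ᴴ = chi e Zᴴ := by
  simp only [chi_apply, conjTranspose_add, conjTranspose_smul, conjTranspose_conjTranspose,
    cor_conjTranspose, conjTranspose_apply, star_div₀, star_sub, star_ofNat]
  abel

namespace IsRootVec

variable {g : Submodule ℝ (Matrix ι ι ℂ)} {e : Matrix ι ι ℂ} (he : IsRootVec g e)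
include he

theorem chi_lie (Y Z : Matrix (Fin 2) (Fin 2) ℂ) :
    chi e (Y * Z - Z * Y) = chi e Y * chi e Z - chi e Z * chi e Y := by
  have h1 : e * eᴴ = cor e + eᴴ * e := by simp [cor]
  have h2 : cor e * e = 2 • e + e * cor e := sub_eq_iff_eq_add.1 he.rel_e
  have h3 : cor e * eᴴ = -(2 • eᴴ) + eᴴ * cor e := sub_eq_iff_eq_add.1 he.rel_f
  simp only [chi_apply, Matrix.sub_apply, Matrix.mul_apply, Fin.sum_univ_two, Matrix.add_mul,
    Matrix.mul_add, Matrix.smul_mul, Matrix.mul_smul, h1, h2, h3]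
  module

theorem chi_mem_cx (hg : IsCompactLie g) (Z : Matrix (Fin 2) (Fin 2) ℂ) : chi e Z ∈ cx g :=
  Submodule.add_mem _ (Submodule.add_mem _ (Submodule.smul_mem _ _ he.mem)
    (Submodule.smul_mem _ _ (hg.conjTranspose_mem_cx he.mem)))
    (Submodule.smul_mem _ _ (he.cor_mem_cx hg))

theorem chi_mem (hg : IsCompactLie g) {Z : Matrix (Fin 2) (Fin 2) ℂ} (hZ : Zᴴ = -Z) :
    chi e Z ∈ g :=
  hg.mem_of_skew (he.chi_mem_cx hg Z) (by rw [chi_conjTranspose, hZ, map_neg])

theorem chi_eq_zero {Z : Matrix (Fin 2) (Fin 2) ℂ} (hZ : chi e Z = 0) (ht : Z.trace = 0) :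
    Z = 0 := by
  have h1 := he.chi_lie !![1, 0; 0, -1] Z
  have h2 := he.chi_lie !![1, 0; 0, -1] (!![1, 0; 0, -1] * Z - Z * !![1, 0; 0, -1])
  rw [hZ, Matrix.mul_zero, Matrix.zero_mul, sub_zero] at h1
  rw [h1, Matrix.mul_zero, Matrix.zero_mul, sub_zero] at h2
  simp only [chi_apply, Matrix.sub_apply, Matrix.mul_apply, Fin.sum_univ_two, of_apply, cons_val',
    cons_val_zero, cons_val_one, cons_val_fin_one] at h1 h2
  have ha : (8 * Z 0 1) • e = 0 := by linear_combination (norm := module) h2 + (2 : ℂ) • h1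
  have hb : (8 * Z 1 0) • eᴴ = 0 := by linear_combination (norm := module) h2 - (2 : ℂ) • h1
  have ha' : Z 0 1 = 0 := by simpa [he.ne] using ha
  have hb' : Z 1 0 = 0 := by simpa [he.ne] using hb
  rw [chi_apply, ha', hb'] at hZ
  have hc : Z 0 0 - Z 1 1 = 0 := by simpa [he.cor_ne_zero] using hZ
  rw [trace_fin_two] at ht
  ext i j
  fin_cases i <;> fin_cases j
  · simp; linear_combination (hc + ht) / 2
  · simpa using ha'
  · simpa using hb'
  · simp; linear_combination (ht - hc) / 2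

end IsRootVec

/-- Direction vectors attached to letters. -/
def pv (n : ℝ) : Bool → Fin 2 → ℂ
  | true => ![1, n]
  | false => ![-n, 1]

/-- Rank one projections attached to letters. -/
def pm (n : ℝ) (b : Bool) : Matrix (Fin 2) (Fin 2) ℂ :=
  (1 / (1 + n ^ 2) : ℂ) • vecMulVec (pv n b) (pv n b)

theorem one_add_sq_ne (n : ℝ) : (1 + n ^ 2 : ℂ) ≠ 0 := by
  exact_mod_cast (by positivity : (1 + n ^ 2 : ℝ) ≠ 0)

theorem pm_add (n : ℝ) (b : Bool) : pm n b + pm n (!b) = 1 := by
  have := one_add_sq_ne n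
  ext i j
  cases b <;> fin_cases i <;> fin_cases j <;> simp [pm, pv] <;> field_simp <;> ring

theorem pm_mul_self (n : ℝ) (b : Bool) : pm n b * pm n b = pm n b := by
  have := one_add_sq_ne n
  ext i j
  cases b <;> fin_cases i <;> fin_cases j <;>
    simp [pm, pv, Matrix.mul_apply, Fin.sum_univ_two] <;> field_simp <;> ring

theorem pm_mul_not (n : ℝ) (b : Bool) : pm n (!b) * pm n b = 0 := by
  have h := congrArg (· * pm n b) (pm_add n b)
  simpa [Matrix.add_mul, pm_mul_self] using h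

theorem pm_conjTranspose (n : ℝ) (b : Bool) : (pm n b)ᴴ = pm n b := by
  ext i j
  cases b <;> fin_cases i <;> fin_cases j <;> simp [pm, pv]

/-- The generator of the rotation attached to a letter. -/
def gen (n : ℝ) (b : Bool) (θ : ℝ) : Matrix (Fin 2) (Fin 2) ℂ :=
  (θ * I : ℂ) • (pm n b - pm n (!b))

theorem gen_conjTranspose (n : ℝ) (b : Bool) (θ : ℝ) : (gen n b θ)ᴴ = -gen n b θ := by
  simp [gen, pm_conjTranspose]

theorem gen_false (n : ℝ) (θ : ℝ) : gen n false θ = -gen n true θ := by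
  simp [gen, ← smul_neg]

theorem exp_gen (n : ℝ) (b : Bool) (θ : ℝ) :
    exp (gen n b θ) = Complex.exp (θ * I) • (pm n b + Complex.exp (-(2 * θ * I)) • pm n (!b)) := by
  have h1 : exp (gen n b θ) * pm n b = Complex.exp (θ * I) • pm n b := by
    rw [exp_mul_of_semiconj (B := 0) (c := θ * I)]
    · simp
    · simp [gen, Matrix.sub_mul, pm_mul_self, pm_mul_not]
  have h2 : exp (gen n b θ) * pm n (!b) = Complex.exp (-(θ * I)) • pm n (!b) := by
    rw [exp_mul_of_semiconj (B := 0) (c := -(θ * I))]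
    · simp
    · have := pm_mul_not n (!b)
      rw [Bool.not_not] at this
      simp [gen, Matrix.sub_mul, pm_mul_self, this]
  rw [← Matrix.mul_one (exp (gen n b θ)), ← pm_add n b, Matrix.mul_add, h1, h2, smul_add, smul_smul,
    ← Complex.exp_add]
  congr 3; ring

section

variable {α : Type*} (n : α → ℝ)

/-- The polynomial matrix attached to a word. -/
def Qm (L : List (α × Bool)) (y : ℂ) : Matrix (Fin 2) (Fin 2) ℂ :=
  (L.map fun x => pm (n x.1) x.2 + y • pm (n x.1) (!x.2)).prod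

theorem differentiable_Qm (L : List (α × Bool)) : Differentiable ℂ (Qm n L) := by
  induction L with
  | nil => exact differentiable_const _
  | cons x L ih =>
    have : Qm n (x :: L) = fun y => (pm (n x.1) x.2 + y • pm (n x.1) (!x.2)) * Qm n L y := by
      funext y; simp [Qm]
    rw [this]
    exact ((differentiable_const _).add (differentiable_id.smul_const _)).mul ih

theorem Qm_zero (hn : Function.Injective n) (hn0 : ∀ a, 0 ≤ n a) (x : α × Bool)
    (L : List (α × Bool)) (hL : FreeGroup.IsReduced (x :: L)) :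
    ∃ v : Fin 2 → ℂ, v ≠ 0 ∧ Qm n (x :: L) 0 = vecMulVec (pv (n x.1) x.2) v := by
  induction L generalizing x with
  | nil =>
    refine ⟨(1 / (1 + n x.1 ^ 2) : ℂ) • pv (n x.1) x.2,
      smul_ne_zero (one_div_ne_zero (one_add_sq_ne _)) ?_, by simp [Qm, pm, vecMulVec_smul]⟩
    cases x.2 <;> simp [pv]
  | cons x' L ih =>
    obtain ⟨h1, h2⟩ := FreeGroup.isReduced_cons_cons.1 hL
    obtain ⟨v, hv, hQ⟩ := ih x' h2
    refine ⟨((1 / (1 + n x.1 ^ 2) : ℂ) * (pv (n x.1) x.2 ⬝ᵥ pv (n x'.1) x'.2)) • v,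
      smul_ne_zero (mul_ne_zero (one_div_ne_zero (one_add_sq_ne _)) ?_) hv, ?_⟩
    · obtain ⟨a, b⟩ := x
      obtain ⟨a', b'⟩ := x'
      have h3 : (1 + n a * n a' : ℝ) ≠ 0 := by have := hn0 a; have := hn0 a'; positivity
      have h4 : b ≠ b' → (n a - n a' : ℝ) ≠ 0 := fun hb h => hb (h1 (hn (sub_eq_zero.1 h)))
      cases b <;> cases b' <;> simp only [pv, vec2_dotProduct, cons_val_zero, cons_val_one]
      · intro h; apply h3; exact_mod_cast (by linear_combination h : (1 + n a * n a' : ℂ) = 0)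
      · intro h; apply h4 (by simp); exact_mod_cast (by linear_combination -h : (n a - n a' : ℂ) = 0)
      · intro h; apply h4 (by simp); exact_mod_cast (by linear_combination h : (n a - n a' : ℂ) = 0)
      · intro h; apply h3; exact_mod_cast (by linear_combination h : (1 + n a * n a' : ℂ) = 0)
    · have : Qm n (x :: x' :: L) 0 = pm (n x.1) x.2 * Qm n (x' :: L) 0 := by simp [Qm]
      rw [this, hQ, pm, Matrix.smul_mul, vecMulVec_mul_vecMulVec, mul_smul]
      simp [vecMulVec_smul]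

theorem prod_exp_gen (L : List (α × Bool)) (θ : ℝ) :
    (L.map fun x => exp (gen (n x.1) x.2 θ)).prod =
      Complex.exp (θ * I) ^ L.length • Qm n L (Complex.exp (-(2 * θ * I))) := by
  induction L with
  | nil => simp [Qm]
  | cons x L ih =>
    rw [List.map_cons, List.prod_cons, ih, exp_gen]
    simp only [List.map_cons, List.prod_cons, Qm, List.length_cons, Matrix.smul_mul,
      Matrix.mul_smul, smul_smul, pow_succ]

end

namespace URep

variable {G : Type*} [Group G] [TopologicalSpace G] [CompactSpace G] (ρ : URep G ι)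

theorem exists_Ad_ev_ne (hna : ∃ X ∈ ρ.lie, ∃ Y ∈ ρ.lie, X * Y ≠ Y * X) {r : ℕ}
    {L : List (Fin r × Bool)} (hL : FreeGroup.IsReduced L) (hL0 : L ≠ []) :
    ∃ g : Fin r → G, ∃ Y ∈ ρ.lie, ρ.Ad (ev g L) Y ≠ Y := by
  by_contra! hcon
  obtain ⟨e, he⟩ := exists_isRootVec ρ.isCompactLie hna
  let n : Fin r → ℝ := fun a => (a : ℕ)
  have hn : Function.Injective n := fun a b h => Fin.ext (Nat.cast_injective (R := ℝ) h)
  have hcomm : ∀ (θ : ℝ) Z, Qm n L (Complex.exp (-(2 * θ * I))) * Z =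
      Z * Qm n L (Complex.exp (-(2 * θ * I))) := by
    intro θ Z
    let g : Fin r → G := fun a => ρ.ex (chi e (gen (n a) true θ))
    have hg : ∀ a, ρ (g a) = exp (chi e (gen (n a) true θ)) := fun a => by
      simpa using ρ.map_ex (he.chi_mem ρ.isCompactLie (gen_conjTranspose (n a) true θ)) 1
    have hx : ∀ x : Fin r × Bool, ρ (cond x.2 (g x.1) (g x.1)⁻¹) =
        exp (chi e (gen (n x.1) x.2 θ)) := by
      rintro ⟨a, _ | _⟩
      · simpa [gen_false] using ρ.map_inv_of_eq_exp (hg a)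
      · exact hg a
    have hW : ∀ L : List (Fin r × Bool),
        ((L.map fun x => exp (gen (n x.1) x.2 θ)).prod)ᴴ *
          (L.map fun x => exp (gen (n x.1) x.2 θ)).prod = 1 ∧
        ρ.Ad (ev g L) (chi e Z) = chi e ((L.map fun x => exp (gen (n x.1) x.2 θ)).prod * Z *
          ((L.map fun x => exp (gen (n x.1) x.2 θ)).prod)ᴴ) := by
      intro L
      induction L with
      | nil => simp [ev_nil, Ad_one]
      | cons x L ih =>
        simp only [List.map_cons, List.prod_cons, conjTranspose_mul,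
          exp_skew_conjTranspose (gen_conjTranspose _ _ _)]
        refine ⟨?_, ?_⟩
        · rw [Matrix.mul_assoc, ← Matrix.mul_assoc (exp (-_)), exp_neg_mul_exp, Matrix.one_mul, ih.1]
        · rw [ev_cons, Ad_mul, ih.2, ρ.Ad_eq_of_eq_exp (hx x)]
          have := map_exp_conj ((chi e).restrictScalars ℝ) (Y := gen (n x.1) x.2 θ)
            (Z := (L.map fun x => exp (gen (n x.1) x.2 θ)).prod * Z *
              ((L.map fun x => exp (gen (n x.1) x.2 θ)).prod)ᴴ) fun t => he.chi_lie _ _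
          simp only [LinearMap.restrictScalars_apply] at this
          rw [← this]
          simp only [Matrix.mul_assoc]
    obtain ⟨h1, h2⟩ := hW L
    set W := (L.map fun x => exp (gen (n x.1) x.2 θ)).prod with hWdef
    have h3 : ρ.Ad (ev g L) (chi e Z) = chi e Z := by
      obtain ⟨A, hA, B, hB, h⟩ := mem_cx.1 (he.chi_mem_cx ρ.isCompactLie Z)
      rw [h, Ad_add, Ad_csmul, hcon g A hA, hcon g B hB]
    have h4 : W * Z * Wᴴ - Z = 0 := by
      refine he.chi_eq_zero (by rw [map_sub, ← h2, h3, sub_self]) ?_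
      rw [trace_sub, trace_mul_comm, ← Matrix.mul_assoc, h1, Matrix.one_mul, sub_self]
    have h5 : W * Z = Z * W := by
      have := congrArg (· * W) (sub_eq_zero.1 h4)
      simpa only [Matrix.mul_assoc, h1, Matrix.mul_one] using this
    rw [hWdef, prod_exp_gen, Matrix.smul_mul, Matrix.mul_smul] at h5
    exact smul_right_injective _ (pow_ne_zero _ (Complex.exp_ne_zero _)) h5
  have hzero : ∀ Z, Qm n L 0 * Z = Z * Qm n L 0 := by
    intro Z
    refine Complex.eqOn_of_eqOn_frontier (U := Metric.ball (0 : ℂ) 1)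
      (f := fun y => Qm n L y * Z) (g := fun y => Z * Qm n L y) Metric.isBounded_ball
      ((differentiable_Qm n L).mul_const Z).diffContOnCl
      ((differentiable_Qm n L).const_mul Z).diffContOnCl (fun y hy => ?_) (by simp)
    rw [frontier_ball _ one_ne_zero, mem_sphere_zero_iff_norm] at hy
    have h1 : Complex.exp (-(2 * (-(arg y) / 2 : ℝ) * I)) = y := by
      have := norm_mul_exp_arg_mul_I y
      rw [hy, ofReal_one, one_mul] at this
      rw [← this, this]
      conv_rhs => rw [← this]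
      congr 1; push_cast; ring
    simpa only [h1] using hcomm (-(arg y) / 2) Z
  obtain ⟨x, L, rfl⟩ := List.exists_cons_of_ne_nil hL0
  obtain ⟨v, hv, hQ⟩ := Qm_zero n hn (fun a => Nat.cast_nonneg _) x L hL
  set u := pv (n x.1) x.2 with hu
  have hu0 : u ≠ 0 := by rw [hu]; cases x.2 <;> simp [pv]
  have h1 := hzero !![0, 1; 0, 0]
  have h2 := hzero !![0, 0; 1, 0]
  rw [hQ] at h1 h2
  have e1 := congrFun (congrFun h1 0) 0
  have e2 := congrFun (congrFun h1 0) 1
  have e3 := congrFun (congrFun h2 0) 0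
  simp [Matrix.mul_apply, Fin.sum_univ_two, vecMulVec_apply, -mul_eq_zero, -zero_eq_mul] at e1 e2 e3
  have e4 : u 0 * v 0 = 0 := by
    have : (u 0 * v 0) ^ 2 = 0 := by linear_combination (u 0 * v 0) * e2 + (u 1 * v 0) * e3
    exact pow_eq_zero_iff two_ne_zero |>.1 this
  have : vecMulVec u v = 0 := by
    ext i j
    fin_cases i <;> fin_cases j <;> simp [vecMulVec_apply, -mul_eq_zero]
    · exact e4
    · exact e3
    · exact e1.symm
    · rw [← e2, e4]
  rcases vecMulVec_eq_zero.1 this with h | h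
  exacts [hu0 h, hv h]

end URep

end

end Pool.Agent.Lib.MP_775e5c_al
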