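import Mathlib

/-!
Trigonometric polynomials in several real variables: algebraic relations and a uniform bound for
the multiplicity of trigonometric polynomial maps.
-/

namespace Pool.Agent.Lib.MP_775e5c_al

open Complex MeasureTheory Filter

noncomputable section

variable {σ : Type*} [Fintype σ]

/-- The character with frequency `k`. -/
def chr (k : σ → ℤ) (θ : σ → ℝ) : ℂ := Complex.exp ((∑ s, (k s : ℝ) * θ s : ℝ) * I)

/-- Trigonometric polynomials of degree at most `D` in every variable. -/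
def Trig (σ : Type*) [Fintype σ] (D : ℕ) : Submodule ℂ ((σ → ℝ) → ℂ) :=
  Submodule.span ℂ (chr '' {k : σ → ℤ | ∀ s, |k s| ≤ D})

theorem chr_add (k l : σ → ℤ) : chr (k + l) = chr k * chr l := by
  funext θ
  simp only [chr, Pi.mul_apply, Pi.add_apply, Int.cast_add, add_mul, Finset.sum_add_distrib,
    ofReal_add, Complex.exp_add]

theorem chr_mem {D : ℕ} {k : σ → ℤ} (h : ∀ s, |k s| ≤ D) : chr k ∈ Trig σ D :=
  Submodule.subset_span ⟨k, h, rfl⟩

theorem Trig_mono {D D' : ℕ} (h : D ≤ D') : Trig σ D ≤ Trig σ D' :=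
  Submodule.span_mono (Set.image_mono fun _ hk s => (hk s).trans (by exact_mod_cast h))

theorem const_mem_Trig (D : ℕ) (c : ℂ) : (fun _ => c) ∈ Trig σ D := by
  have : (fun _ : σ → ℝ => c) = c • chr (0 : σ → ℤ) := by funext θ; simp [chr]
  rw [this]
  exact Submodule.smul_mem _ _ (chr_mem (by simp))

theorem mul_mem_Trig {D D' : ℕ} {f g : (σ → ℝ) → ℂ} (hf : f ∈ Trig σ D) (hg : g ∈ Trig σ D') :
    f * g ∈ Trig σ (D + D') := by
  have h := Submodule.mul_mem_mul hf hg
  rw [Trig, Trig, Submodule.span_mul_span] at h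
  refine Submodule.span_mono ?_ h
  rintro _ ⟨_, ⟨k, hk, rfl⟩, _, ⟨l, hl, rfl⟩, rfl⟩
  refine ⟨k + l, fun s => ?_, chr_add k l⟩
  have := abs_add_le (k s) (l s)
  have h1 := hk s
  have h2 := hl s
  simp only [Pi.add_apply, Nat.cast_add]
  linarith

theorem pow_mem_Trig {D : ℕ} {f : (σ → ℝ) → ℂ} (hf : f ∈ Trig σ D) (n : ℕ) :
    f ^ n ∈ Trig σ (n * D) := by
  induction n with
  | zero => simpa using! const_mem_Trig (σ := σ) 0 1
  | succ n ih => rw [pow_succ, Nat.succ_mul]; exact mul_mem_Trig ih hf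

theorem prod_mem_Trig {κ : Type*} (s : Finset κ) {D : ℕ} {f : κ → (σ → ℝ) → ℂ}
    (hf : ∀ i ∈ s, f i ∈ Trig σ D) : ∏ i ∈ s, f i ∈ Trig σ (s.card * D) := by
  classical
  induction s using Finset.induction_on with
  | empty => simpa using! const_mem_Trig (σ := σ) 0 1
  | insert a s ha ih =>
    rw [Finset.prod_insert ha, Finset.card_insert_of_notMem ha, Nat.succ_mul, add_comm]
    exact mul_mem_Trig (hf a (by simp)) (ih fun i hi => hf i (by simp [hi]))

theorem conj_mem_Trig {D : ℕ} {f : (σ → ℝ) → ℂ} (hf : f ∈ Trig σ D) :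
    (fun θ => (starRingEnd ℂ) (f θ)) ∈ Trig σ D := by
  induction hf using Submodule.span_induction with
  | mem x hx =>
    obtain ⟨k, hk, rfl⟩ := hx
    have : (fun θ => (starRingEnd ℂ) (chr k θ)) = chr (-k) := by
      funext θ
      simp only [chr, ← Complex.exp_conj, map_mul, conj_ofReal, conj_I, Pi.neg_apply, Int.cast_neg,
        neg_mul, Finset.sum_neg_distrib, ofReal_neg, mul_neg]
    rw [this]
    exact chr_mem fun s => by simpa using hk s
  | zero => simpa using! const_mem_Trig (σ := σ) D 0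
  | add x y _ _ hx hy => simpa using! (Trig σ D).add_mem hx hy
  | smul a x _ hx => simpa using! (Trig σ D).smul_mem ((starRingEnd ℂ) a) hx

theorem re_mem_Trig {D : ℕ} {f : (σ → ℝ) → ℂ} (hf : f ∈ Trig σ D) :
    (fun θ => ((f θ).re : ℂ)) ∈ Trig σ D := by
  have := (Trig σ D).smul_mem (1 / 2 : ℂ) ((Trig σ D).add_mem hf (conj_mem_Trig hf))
  convert this using 1
  funext θ
  simp only [Pi.smul_apply, Pi.add_apply, smul_eq_mul, add_conj]
  push_cast; ring

theorem comp_mem_Trig {τ : Type*} [Fintype τ] [DecidableEq σ] {D : ℕ} {f : (σ → ℝ) → ℂ}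
    (hf : f ∈ Trig σ D) (θ₀ : σ → ℝ) (J : τ → σ) :
    (fun u : τ → ℝ => f (θ₀ + ∑ k, u k • Pi.single (J k) 1)) ∈ Trig τ D := by
  induction hf using Submodule.span_induction with
  | mem x hx =>
    obtain ⟨k, hk, rfl⟩ := hx
    have : (fun u : τ → ℝ => chr k (θ₀ + ∑ j, u j • Pi.single (J j) 1)) =
        chr k θ₀ • chr (k ∘ J) := by
      funext u
      simp only [chr, Pi.smul_apply, smul_eq_mul, ← Complex.exp_add, ← add_mul, ← ofReal_add,
        Pi.add_apply, mul_add, Finset.sum_add_distrib, Finset.sum_apply, Finset.mul_sum,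
        Function.comp]
      congr 4
      rw [Finset.sum_comm]
      refine Finset.sum_congr rfl fun j _ => ?_
      simp [Pi.single_apply]
    rw [this]
    exact Submodule.smul_mem _ _ (chr_mem fun s => hk _)
  | zero => exact (Trig τ D).zero_mem
  | add x y _ _ hx hy => simpa using! (Trig τ D).add_mem hx hy
  | smul a x _ hx => simpa using! (Trig τ D).smul_mem a hx

theorem Trig_eq_span_finset [DecidableEq σ] (D : ℕ) :
    Trig σ D = Submodule.span ℂ
      (Set.range fun k : Fintype.piFinset (fun _ : σ => Finset.Icc (-(D : ℤ)) D) => chr k.1) := by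
  rw [Trig]
  congr 1
  ext f
  simp only [Set.mem_image, Set.mem_ofPred_eq, Set.mem_range, Subtype.exists, Fintype.mem_piFinset,
    Finset.mem_Icc, abs_le, exists_prop]

instance (D : ℕ) : FiniteDimensional ℂ (Trig σ D) := by
  classical
  rw [Trig_eq_span_finset]
  exact FiniteDimensional.span_of_finite _ (Set.finite_range _)

theorem finrank_Trig_le (D : ℕ) : Module.finrank ℂ (Trig σ D) ≤ (2 * D + 1) ^ Fintype.card σ := by
  classical
  rw [Trig_eq_span_finset]
  refine (finrank_range_le_card _).trans (le_of_eq ?_)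
  rw [Fintype.card_coe, Fintype.card_piFinset, Finset.prod_const, Int.card_Icc, Finset.card_univ]
  congr 1
  omega

/-- `d + 1` trigonometric polynomials in `d` variables satisfy a relation of bounded degree. -/
theorem exists_relation (d D : ℕ) : ∃ M : ℕ, ∀ f : Fin (d + 1) → (Fin d → ℝ) → ℂ,
    (∀ i, f i ∈ Trig (Fin d) D) → ∃ c : (Fin (d + 1) → Fin M) → ℂ, c ≠ 0 ∧
      ∀ θ, ∑ m, c m * ∏ i, f i θ ^ (m i : ℕ) = 0 := by
  set M := (2 * ((d + 1) * D) + 1) ^ d + 1 with hM
  refine ⟨M, fun f hf => ?_⟩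
  have hmem : ∀ m : Fin (d + 1) → Fin M,
      ∏ i, f i ^ (m i : ℕ) ∈ Trig (Fin d) ((d + 1) * (M * D)) := by
    intro m
    have := prod_mem_Trig (D := M * D) Finset.univ (f := fun i => f i ^ (m i : ℕ)) fun i _ =>
      Trig_mono (Nat.mul_le_mul_right D (m i).2.le) (pow_mem_Trig (hf i) (m i))
    simpa using this
  let L : ((Fin (d + 1) → Fin M) → ℂ) →ₗ[ℂ] Trig (Fin d) ((d + 1) * (M * D)) :=
    Fintype.linearCombination ℂ fun m => ⟨_, hmem m⟩
  have hlt : Module.finrank ℂ (Trig (Fin d) ((d + 1) * (M * D))) <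
      Module.finrank ℂ ((Fin (d + 1) → Fin M) → ℂ) := by
    refine (finrank_Trig_le _).trans_lt ?_
    simp only [Fintype.card_fin, Module.finrank_fintype_fun_eq_card, Fintype.card_pi,
      Finset.prod_const, Finset.card_univ]
    have hM1 : 1 ≤ M := by omega
    calc (2 * ((d + 1) * (M * D)) + 1) ^ d ≤ (M * (2 * ((d + 1) * D) + 1)) ^ d := by
          gcongr; nlinarith
      _ = M ^ d * (2 * ((d + 1) * D) + 1) ^ d := mul_pow _ _ _
      _ < M ^ d * M := by gcongr; omega
      _ = M ^ (d + 1) := by ring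
  obtain ⟨c, hc, hc0⟩ := (Submodule.ne_bot_iff _).1 (L.ker_ne_bot_of_finrank_lt hlt)
  refine ⟨c, hc0, fun θ => ?_⟩
  have h := congrFun (congrArg Subtype.val (LinearMap.mem_ker.1 hc)) θ
  simpa [L, Fintype.linearCombination_apply, Finset.sum_apply, Finset.prod_apply] using h

theorem exists_roots {M : ℕ} (a : Fin M → ℂ) (ha : a ≠ 0) :
    ∃ R : Finset ℂ, R.card ≤ M ∧ ∀ z, ∑ k, a k * z ^ (k : ℕ) = 0 → z ∈ R := by
  classical
  set p : Polynomial ℂ := ∑ k : Fin M, Polynomial.monomial k (a k) with hp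
  have hp0 : p ≠ 0 := by
    intro h
    apply ha
    funext k
    have := congrArg (fun q => Polynomial.coeff q k) h
    simpa [hp, Polynomial.finsetSum_coeff, Polynomial.coeff_monomial, Fin.val_inj] using this
  have hdeg : p.natDegree ≤ M :=
    Polynomial.natDegree_sum_le_of_forall_le _ _ fun k _ =>
      (Polynomial.natDegree_monomial_le _).trans k.2.le
  refine ⟨p.roots.toFinset, ((Multiset.toFinset_card_le _).trans (Polynomial.card_roots' p)).trans
    hdeg, fun z hz => ?_⟩
  rw [Multiset.mem_toFinset, Polynomial.mem_roots hp0, Polynomial.IsRoot, hp,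
    Polynomial.eval_finsetSum]
  simpa using hz

theorem sum_cons {M n : ℕ} (c : (Fin (n + 1) → Fin M) → ℂ) (z : Fin (n + 1) → ℂ) :
    ∑ m, c m * ∏ i, z i ^ (m i : ℕ) =
      ∑ k : Fin M, (∑ m : Fin n → Fin M, c (Fin.cons k m) * ∏ i, z i.succ ^ (m i : ℕ)) *
        z 0 ^ (k : ℕ) := by
  rw [← (Fin.consEquiv fun _ => Fin M).sum_comp, Fintype.sum_prod_type]
  refine Finset.sum_congr rfl fun k _ => ?_
  rw [Finset.sum_mul]
  refine Finset.sum_congr rfl fun m _ => ?_
  rw [Fin.prod_univ_succ]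
  simp only [Fin.consEquiv_apply, Fin.cons_zero, Fin.cons_succ]
  have : (Fin.consEquiv fun _ => Fin M) (k, m) = Fin.cons k m := rfl
  rw [this]
  ring

theorem exists_cons_ne_zero {M n : ℕ} {c : (Fin (n + 1) → Fin M) → ℂ} (hc : c ≠ 0) :
    ∃ k : Fin M, (fun m : Fin n → Fin M => c (Fin.cons k m)) ≠ 0 := by
  obtain ⟨m, hm⟩ := Function.ne_iff.1 hc
  refine ⟨m 0, Function.ne_iff.2 ⟨Fin.tail m, ?_⟩⟩
  simpa [Fin.cons_self_tail] using hm

/-- The real zero set of a nonzero polynomial is null. -/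
theorem ae_poly_ne_zero {M : ℕ} (n : ℕ) (c : (Fin n → Fin M) → ℂ) (hc : c ≠ 0) :
    ∀ᵐ y : Fin n → ℝ, ∑ m, c m * ∏ i, (y i : ℂ) ^ (m i : ℕ) ≠ 0 := by
  induction n with
  | zero =>
    refine Eventually.of_forall fun y => ?_
    obtain ⟨m, hm⟩ := Function.ne_iff.1 hc
    simpa [Subsingleton.elim default m] using hm
  | succ n ih =>
    obtain ⟨k, hk⟩ := exists_cons_ne_zero hc
    have hmp := (volume_preserving_piFinSuccAbove (fun _ : Fin (n + 1) => ℝ) 0).symm
    have hmeas : MeasurableSet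
        {y : Fin (n + 1) → ℝ | ∑ m, c m * ∏ i, (y i : ℂ) ^ (m i : ℕ) ≠ 0} :=
      (isOpen_ne_fun (by fun_prop) continuous_const).measurableSet
    rw [← hmp.map_eq, ae_map_iff hmp.measurable.aemeasurable hmeas, Measure.volume_eq_prod,
      ← Measure.prod_swap]
    refine (ae_map_iff measurable_swap.aemeasurable (hmp.measurable hmeas)).2 ?_
    refine (Measure.ae_prod_iff_ae_ae (measurable_swap (hmp.measurable hmeas))).2 ?_
    filter_upwards [ih _ hk] with y hy
    obtain ⟨R, -, hR⟩ := exists_roots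
      (fun k => ∑ m : Fin n → Fin M, c (Fin.cons k m) * ∏ i, (y i : ℂ) ^ (m i : ℕ))
      (Function.ne_iff.2 ⟨k, hy⟩)
    have hfin : ((fun x : ℝ => (x : ℂ)) ⁻¹' R).Finite :=
      R.finite_toSet.preimage ofReal_injective.injOn
    refine mem_of_superset (compl_mem_ae_iff.2 (hfin.measure_zero volume)) fun x hx h => hx ?_
    refine hR _ ?_
    rw [sum_cons] at h
    simpa using h

/-- Uniform bound for the number of preimages of almost every point. -/
theorem exists_multiplicity (d D : ℕ) : ∃ B : ℕ, ∀ Φ : (Fin d → ℝ) → (Fin d → ℝ),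
    (∀ i, (fun u => (Φ u i : ℂ)) ∈ Trig (Fin d) D) →
      ∀ᵐ y : Fin d → ℝ, {u : Fin d → ℝ | (∀ i, |u i| ≤ 3) ∧ Φ u = y}.encard ≤ B := by
  classical
  obtain ⟨M, hM⟩ := exists_relation d (D + 1)
  refine ⟨M ^ d, fun Φ hΦ => ?_⟩
  have key : ∀ j : Fin d, ∀ᵐ y : Fin d → ℝ, ∃ R : Finset ℂ, R.card ≤ M ∧
      ∀ u, Φ u = y → Complex.exp (u j * I) ∈ R := by
    intro j
    obtain ⟨c, hc, hrel⟩ := hM (Fin.cons (chr (Pi.single j 1)) fun i u => (Φ u i : ℂ)) (by
      intro i
      refine Fin.cases ?_ (fun i => ?_) i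
      · exact chr_mem fun s => by
          by_cases h : s = j
          · subst h; simp
          · simp [h]; positivity
      · exact Trig_mono (Nat.le_succ D) (hΦ i))
    obtain ⟨k, hk⟩ := exists_cons_ne_zero hc
    filter_upwards [ae_poly_ne_zero d _ hk] with y hy
    obtain ⟨R, hRc, hR⟩ := exists_roots
      (fun k => ∑ m : Fin d → Fin M, c (Fin.cons k m) * ∏ i, (y i : ℂ) ^ (m i : ℕ))
      (Function.ne_iff.2 ⟨k, hy⟩)
    refine ⟨R, hRc, fun u hu => hR _ ?_⟩
    have h := hrel u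
    rw [sum_cons] at h
    simpa [hu, chr, Pi.single_apply] using h
  filter_upwards [ae_all_iff.2 key] with y hy
  choose R hRc hR using hy
  have h1 : {u : Fin d → ℝ | (∀ i, |u i| ≤ 3) ∧ Φ u = y}.encard ≤
      (Fintype.piFinset R : Set (Fin d → ℂ)).encard := by
    refine Set.encard_le_encard_of_injOn (f := fun u j => Complex.exp (u j * I))
      (fun u hu => by simpa using fun j => hR j u hu.2) fun u hu v hv huv => ?_
    funext j
    have h := congrFun huv j
    have hu' := abs_le.1 (hu.1 j)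
    have hv' := abs_le.1 (hv.1 j)
    have := Complex.exp_inj_of_neg_pi_lt_of_le_pi (x := u j * I) (y := v j * I)
      (by simp; linarith [Real.pi_gt_three]) (by simp; linarith [Real.pi_gt_three])
      (by simp; linarith [Real.pi_gt_three]) (by simp; linarith [Real.pi_gt_three]) h
    simpa using this
  refine h1.trans ?_
  rw [Set.encard_coe_eq_coe_finsetCard, Fintype.card_piFinset]
  exact_mod_cast (Finset.prod_le_pow_card _ _ M fun j _ => hRc j).trans (by simp)

end

end Pool.Agent.Lib.MP_775e5c_al
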