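import Pool.Agent.Lib.MP_775e5c_al.Sl2
import Pool.Agent.Lib.MP_775e5c_al.Trig

/-!
Frames of circle directions and trigonometric expansions of the corresponding one-parameter groups.
-/

namespace Pool.Agent.Lib.MP_775e5c_al

open Matrix NormedSpace Complex Module Filter Topology

noncomputable section

variable {ι : Type} [Fintype ι] [DecidableEq ι]

theorem exp_mul_of_semiconj {A B Y : Matrix ι ι ℂ} {c : ℂ} (h : A * Y = Y * B + c • Y) :
    exp A * Y = Complex.exp c • (Y * exp B) := by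
  have h1 : SemiconjBy Y (B + algebraMap ℂ _ c) A := by
    rw [SemiconjBy, h, Matrix.mul_add, Algebra.algebraMap_eq_smul_one, Matrix.mul_smul,
      Matrix.mul_one]
  have h2 := h1.exp_right
  rw [SemiconjBy, NormedSpace.exp_add_of_commute (Algebra.commute_algebraMap_right c B),
    ← algebraMap_exp_comm, ← Complex.exp_eq_exp_ℂ, Algebra.algebraMap_eq_smul_one] at h2
  rw [← h2]
  simp

/-- Matrix-valued trigonometric polynomials in several variables. -/
def MT (σ : Type*) [Fintype σ] (D : ℕ) (F : (σ → ℝ) → Matrix ι ι ℂ) : Prop :=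
  ∀ i j, (fun θ => F θ i j) ∈ Trig σ D

section MT

variable {σ : Type*} [Fintype σ] {D D' : ℕ} {F F' : (σ → ℝ) → Matrix ι ι ℂ}

theorem MT.const (D : ℕ) (A : Matrix ι ι ℂ) : MT σ D fun _ => A := fun _ _ => const_mem_Trig _ _

theorem MT.mono (h : MT σ D F) (hD : D ≤ D') : MT σ D' F := fun i j => Trig_mono hD (h i j)

theorem MT.add (h : MT σ D F) (h' : MT σ D F') : MT σ D fun θ => F θ + F' θ :=
  fun i j => (Trig σ D).add_mem (h i j) (h' i j)

theorem MT.sub (h : MT σ D F) (h' : MT σ D F') : MT σ D fun θ => F θ - F' θ :=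
  fun i j => (Trig σ D).sub_mem (h i j) (h' i j)

theorem MT.mul (h : MT σ D F) (h' : MT σ D' F') : MT σ (D + D') fun θ => F θ * F' θ := by
  intro i j
  have := (Trig σ (D + D')).sum_mem (t := Finset.univ) fun k _ => mul_mem_Trig (h i k) (h' k j)
  convert this using 1
  funext θ
  simp [Matrix.mul_apply]

theorem MT.conjTranspose (h : MT σ D F) : MT σ D fun θ => (F θ)ᴴ :=
  fun i j => conj_mem_Trig (h j i)

theorem MT.inner (h : MT σ D F) (B : Matrix ι ι ℂ) :
    (fun θ => ((inner ℝ B (F θ) : ℝ) : ℂ)) ∈ Trig σ D := by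
  have h1 := (MT.const 0 Bᴴ).mul h
  rw [zero_add] at h1
  have h2 := (Trig σ D).sum_mem (t := Finset.univ) fun k _ => h1 k k
  have h3 := re_mem_Trig h2
  convert h3 using 3 with θ
  simp [inner_def, Matrix.trace]

theorem MT.of_chr {k : σ → ℤ} (hk : ∀ s, |k s| ≤ D) (A : Matrix ι ι ℂ) :
    MT σ D fun θ => chr k θ • A := by
  intro i j
  have := (Trig σ D).smul_mem (A i j) (chr_mem hk)
  convert this using 1
  funext θ
  simp [mul_comm]

theorem IsRootVec.MT_exp [DecidableEq σ] {g : Submodule ℝ (Matrix ι ι ℂ)} {e : Matrix ι ι ℂ}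
    (he : IsRootVec g e) (s : σ) :
    MT σ (finrank ℂ (Matrix ι ι ℂ)) fun θ => exp (θ s • (I • cor e)) := by
  have hT : (LinearMap.mulLeft ℝ (cor e)).IsSymmetric := fun X Y => by
    simp only [LinearMap.mulLeft_apply]
    rw [inner_mul_left, cor_conjTranspose]
  have := symm_induction hT (V := ⊤) (fun _ _ => trivial)
    (P := fun Y => MT σ (finrank ℂ (Matrix ι ι ℂ)) fun θ => exp (θ s • (I • cor e)) * Y)
    (by simpa using MT.const _ 0) (fun x y hx hy => by simpa [Matrix.mul_add] using hx.add hy)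
    (fun Y _ μ hY => ?_) (y := 1) trivial
  · simpa using this
  by_cases h0 : Y = 0
  · subst h0; simpa using MT.const _ 0
  have hY' : cor e * Y = (μ : ℂ) • Y := hY
  obtain ⟨k, hk, hk'⟩ := he.left_int h0 hY'
  have h1 : (fun θ : σ → ℝ => exp (θ s • (I • cor e)) * Y) =
      fun θ => chr (Pi.single s k) θ • Y := by
    funext θ
    rw [exp_mul_of_semiconj (B := 0) (c := (k * θ s : ℝ) * I)]
    · simp [chr, Pi.single_apply]
    · simp only [Matrix.smul_mul, hY', hk, Matrix.mul_zero, zero_add, smul_smul]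
      rw [← Complex.coe_smul, smul_smul]
      congr 1; push_cast; ring
  rw [h1]
  refine MT.of_chr (fun s' => ?_) Y
  by_cases h : s' = s
  · subst h; simpa using hk'
  · simp [h]

end MT

/-- One-variable trigonometric polynomials of degree at most `n` with values in `V`. -/
def VT (V : Submodule ℂ (Matrix ι ι ℂ)) (n : ℕ) : Submodule ℂ (ℝ → Matrix ι ι ℂ) :=
  Submodule.span ℂ {F | ∃ k : ℤ, |k| ≤ n ∧ ∃ Y ∈ V, F = fun s : ℝ => Complex.exp (k * s * I) • Y}

theorem VT_const {V : Submodule ℂ (Matrix ι ι ℂ)} {Y : Matrix ι ι ℂ} (hY : Y ∈ V) (n : ℕ) :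
    (fun _ => Y) ∈ VT V n :=
  Submodule.subset_span ⟨0, by simp, Y, hY, by simp⟩

theorem VT_mono {V : Submodule ℂ (Matrix ι ι ℂ)} {m n : ℕ} (h : m ≤ n) : VT V m ≤ VT V n :=
  Submodule.span_mono fun _ ⟨k, hk, hF⟩ => ⟨k, hk.trans (by exact_mod_cast h), hF⟩

theorem VT_smul {V : Submodule ℂ (Matrix ι ι ℂ)} {m n : ℕ} {F : ℝ → Matrix ι ι ℂ}
    (hF : F ∈ VT V n) {k : ℤ} (hk : |k| ≤ m) :
    (fun s : ℝ => Complex.exp (k * s * I) • F s) ∈ VT V (n + m) := by
  induction hF using Submodule.span_induction with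
  | mem x hx =>
    obtain ⟨l, hl, Y, hY, rfl⟩ := hx
    refine Submodule.subset_span ⟨l + k, (abs_add_le _ _).trans (by push_cast; linarith), Y, hY, ?_⟩
    funext s
    rw [smul_smul, ← Complex.exp_add]
    congr 2; push_cast; ring
  | zero => simpa using VT_const V.zero_mem _
  | add x y _ _ hx hy => simpa [smul_add] using! (VT V (n + m)).add_mem hx hy
  | smul a x _ hx => simpa only [Pi.smul_apply, smul_comm _ a] using! (VT V (n + m)).smul_mem a hx

/-- A family of complex-linear maps which sends constants to polynomials of degree `m` raises the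
degree by at most `m`. -/
theorem VT_map {V : Submodule ℂ (Matrix ι ι ℂ)} {m n : ℕ}
    (T : ℝ → Matrix ι ι ℂ →ₗ[ℂ] Matrix ι ι ℂ) (hT : ∀ Y ∈ V, (fun s => T s Y) ∈ VT V m)
    {F : ℝ → Matrix ι ι ℂ} (hF : F ∈ VT V n) : (fun s => T s (F s)) ∈ VT V (m + n) := by
  induction hF using Submodule.span_induction with
  | mem x hx =>
    obtain ⟨l, hl, Y, hY, rfl⟩ := hx
    simpa only [map_smul] using VT_smul (hT Y hY) hl
  | zero => simpa using VT_const V.zero_mem _
  | add x y _ _ hx hy => simpa using! (VT V (m + n)).add_mem hx hy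
  | smul a x _ hx => simpa using! (VT V (m + n)).smul_mem a hx

theorem IsRootVec.VT_conj {g : Submodule ℝ (Matrix ι ι ℂ)} (hg : IsCompactLie g)
    {e : Matrix ι ι ℂ} (he : IsRootVec g e) (c : ℤ) (hc : |c| ≤ 1) {Y : Matrix ι ι ℂ}
    (hY : Y ∈ cx g) :
    (fun s : ℝ => exp ((c * s) • (I • cor e)) * Y * exp (-((c * s) • (I • cor e)))) ∈
      VT (cx g) (finrank ℝ g) := by
  have hT : (LinearMap.mulLeft ℝ (cor e) - LinearMap.mulRight ℝ (cor e)).IsSymmetric :=
    fun X Y => by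
      simp only [LinearMap.sub_apply, LinearMap.mulLeft_apply, LinearMap.mulRight_apply]
      rw [inner_sub_left, inner_sub_right, inner_mul_left, inner_mul_right, cor_conjTranspose]
  refine symm_induction hT (V := (cx g).restrictScalars ℝ)
    (fun v hv => hg.lie_mem_cx (he.cor_mem_cx hg) hv)
    (P := fun Y => (fun s : ℝ => exp ((c * s) • (I • cor e)) * Y *
      exp (-((c * s) • (I • cor e)))) ∈ VT (cx g) (finrank ℝ g))
    (by simpa using VT_const (cx g).zero_mem _)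
    (fun x y hx hy => by
      simpa only [Matrix.mul_add, Matrix.add_mul] using! (VT (cx g) (finrank ℝ g)).add_mem hx hy)
    (fun Y hYg μ hY => ?_) hY
  by_cases h0 : Y = 0
  · subst h0; simpa using VT_const (cx g).zero_mem _
  have hY' : cor e * Y - Y * cor e = (μ : ℂ) • Y := hY
  obtain ⟨k, hk, hk'⟩ := he.ad_int hg hYg h0 hY'
  refine Submodule.subset_span ⟨c * k, ?_, Y, hYg, ?_⟩
  · rw [abs_mul]; nlinarith [abs_nonneg c, abs_nonneg k]
  funext s
  rw [exp_mul_of_semiconj (B := (c * s) • (I • cor e)) (c := (c * k : ℤ) * s * I)]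
  · rw [Matrix.smul_mul, Matrix.mul_assoc, exp_mul_exp_neg, Matrix.mul_one]
  · rw [sub_eq_iff_eq_add'] at hY'
    simp only [Matrix.smul_mul, Matrix.mul_smul, hY', hk, smul_add, smul_smul, add_right_inj]
    rw [← Complex.coe_smul, smul_smul]
    congr 1; push_cast; ring

namespace URep

variable {G : Type*} [Group G] [TopologicalSpace G] [CompactSpace G] (ρ : URep G ι)

theorem Ad_mem_cx (g : G) {Y : Matrix ι ι ℂ} (hY : Y ∈ cx ρ.lie) : ρ.Ad g Y ∈ cx ρ.lie := by
  obtain ⟨A, hA, B, hB, rfl⟩ := mem_cx.1 hY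
  exact mem_cx.2 ⟨_, ρ.Ad_mem_lie g hA, _, ρ.Ad_mem_lie g hB, by rw [Ad_add, Ad_csmul]⟩

omit [CompactSpace G] in
theorem Ad_conjTranspose (g : G) (Y : Matrix ι ι ℂ) : (ρ.Ad g Y)ᴴ = ρ.Ad g Yᴴ := by
  simp only [Ad, conjTranspose_mul, ρ.star_eq, inv_inv, Matrix.mul_assoc]

omit [CompactSpace G] in
theorem cor_Ad (g : G) (e : Matrix ι ι ℂ) : cor (ρ.Ad g e) = ρ.Ad g (cor e) := by
  simp only [cor, Ad_conjTranspose, Ad_mul_Ad, Ad_sub]

theorem isRootVec_Ad (g : G) {e : Matrix ι ι ℂ} (he : IsRootVec ρ.lie e) :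
    IsRootVec ρ.lie (ρ.Ad g e) where
  mem := ρ.Ad_mem_cx g he.mem
  ne h := he.ne (by rw [← ρ.Ad_inv_Ad g e, h, Ad_zero])
  rel := by
    change cor _ * _ - _ * cor _ = _
    rw [cor_Ad, Ad_mul_Ad, Ad_mul_Ad, ← Ad_sub, he.rel_e, two_smul, two_smul, Ad_add]

/-- A spanning family of circle directions. -/
structure IsFrame {m : ℕ} (X : Fin m → Matrix ι ι ℂ) : Prop where
  root : ∀ i, ∃ e, IsRootVec ρ.lie e ∧ X i = I • cor e
  span : Submodule.span ℝ (Set.range X) = ρ.lie

theorem IsFrame.mem {ρ : URep G ι} {m : ℕ} {X : Fin m → Matrix ι ι ℂ} (h : ρ.IsFrame X) (i : Fin m) :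
    X i ∈ ρ.lie := h.span ▸ Submodule.subset_span ⟨i, rfl⟩

theorem exists_isFrame (hs : IsSimpleLie ρ.lie) :
    ∃ (m : ℕ) (X : Fin m → Matrix ι ι ℂ), ρ.IsFrame X := by
  set R : Set (Matrix ι ι ℂ) := {X | ∃ e, IsRootVec ρ.lie e ∧ X = I • cor e} with hR
  have hle : Submodule.span ℝ R ≤ ρ.lie :=
    Submodule.span_le.2 fun _ ⟨e, he, h⟩ => h ▸ he.I_cor_mem ρ.isCompactLie
  have hid : IsIdealIn (Submodule.span ℝ R) ρ.lie := by
    refine ρ.isIdealIn_of_Ad hle fun g Y hY => ?_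
    have : (Submodule.span ℝ R).map (ρ.AdL g) ≤ Submodule.span ℝ R := by
      rw [Submodule.map_span]
      refine Submodule.span_mono ?_
      rintro _ ⟨_, ⟨e, he, rfl⟩, rfl⟩
      exact ⟨_, ρ.isRootVec_Ad g he, by rw [cor_Ad]; exact ρ.Ad_csmul _ _ _⟩
    exact this ⟨Y, hY, rfl⟩
  have hsp : Submodule.span ℝ R = ρ.lie := by
    refine (hs.ideal _ hid).resolve_left fun h => ?_
    obtain ⟨e, he⟩ := exists_isRootVec ρ.isCompactLie hs.nonabelian
    have : I • cor e ∈ Submodule.span ℝ R := Submodule.subset_span ⟨e, he, rfl⟩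
    rw [h, Submodule.mem_bot] at this
    exact he.cor_ne_zero ((smul_eq_zero.1 this).resolve_left I_ne_zero)
  obtain ⟨f, hf, hf', -⟩ := Submodule.exists_fun_fin_finrank_span_eq ℝ R
  exact ⟨_, f, hf, hf'.trans hsp⟩

end URep

end

end Pool.Agent.Lib.MP_775e5c_al
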