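import Pool.Agent.Lib.MP_775e5c_al.LargeDim
import Pool.Agent.Lib.MP_775e5c_al.ClsMain

/-!
The simple case, and the reduction of the semisimple case to it.
-/

namespace Pool.Agent.Lib.MP_775e5c_al

open Matrix NormedSpace Module MeasureTheory Measure
open scoped ENNReal

noncomputable section

universe u

namespace URep

variable {ι : Type} [Fintype ι] [DecidableEq ι] {G : Type u} [Group G]
  [TopologicalSpace G] [IsTopologicalGroup G] [CompactSpace G] (ρ : URep G ι)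

/-- The centraliser of a space of matrices. -/
def cent (b : Submodule ℝ (Matrix ι ι ℂ)) : Subgroup G where
  carrier := {g | ∀ Y ∈ b, ρ.Ad g Y = Y}
  one_mem' Y _ := ρ.Ad_one Y
  mul_mem' hx hy Y hY := by rw [ρ.Ad_mul, hy Y hY, hx Y hY]
  inv_mem' {x} hx Y hY := by conv_lhs => rw [← hx Y hY, ρ.Ad_inv_Ad]

/-- The identity component of the centraliser. -/
def cent0 (b : Submodule ℝ (Matrix ι ι ℂ)) : Subgroup G :=
  (Subgroup.connectedComponentOfOne (ρ.cent b)).map (ρ.cent b).subtype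

instance (b : Submodule ℝ (Matrix ι ι ℂ)) : ConnectedSpace (ρ.cent0 b) :=
  isConnected_iff_connectedSpace.1
    (isConnected_connectedComponent.image _ continuous_subtype_val.continuousOn)

instance (b : Submodule ℝ (Matrix ι ι ℂ)) : CompactSpace (ρ.cent0 b) := by
  have h : IsClosed (ρ.cent b : Set G) := by
    change IsClosed {g | ∀ Y ∈ b, ρ.Ad g Y = Y}
    simp only [Set.ofPred_forall]
    exact isClosed_iInter fun Y => isClosed_iInter fun _ => isClosed_eq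
      (ρ.continuous_Ad.comp (continuous_id.prodMk continuous_const) :) continuous_const
  haveI : CompactSpace (ρ.cent b) := isCompact_iff_compactSpace.1 h.isCompact
  exact isCompact_iff_compactSpace.1
    (isClosed_connectedComponent.isCompact.image continuous_subtype_val)

instance [SecondCountableTopology G] (b : Submodule ℝ (Matrix ι ι ℂ)) :
    SecondCountableTopology (ρ.cent0 b) := TopologicalSpace.Subtype.secondCountableTopology _

theorem ex_mem_cent0 (hinj : Function.Injective ρ) {b : Submodule ℝ (Matrix ι ι ℂ)}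
    {A : Matrix ι ι ℂ} (hA : A ∈ ρ.lie) (h : ∀ Y ∈ b, A * Y = Y * A) (t : ℝ) :
    ρ.ex (t • A) ∈ ρ.cent0 b := by
  have h1 : ∀ t : ℝ, ρ.ex (t • A) ∈ ρ.cent b := fun t Y hY => by
    rw [Ad_eq_self_iff, ρ.map_ex hA]
    exact ((show Commute A Y from h Y hY).smul_left t).exp_left
  have h2 : Continuous fun t : ℝ => (⟨_, h1 t⟩ : ρ.cent b) :=
    (ρ.continuous_ex hinj hA).subtype_mk _
  exact ⟨⟨_, h1 t⟩, (isPreconnected_range h2).subset_connectedComponent
    ⟨0, Subtype.ext (by simpa using ρ.ex_zero hinj)⟩ ⟨t, rfl⟩, rfl⟩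

theorem lie_cent0 (hinj : Function.Injective ρ)
    (hZ : ∀ Z ∈ ρ.lie, (∀ X ∈ ρ.lie, X * Z = Z * X) → Z = 0) {a b : Submodule ℝ (Matrix ι ι ℂ)}
    (hab : a ⊔ b = ρ.lie) (hc : ∀ A ∈ a, ∀ B ∈ b, A * B = B * A) :
    (ρ.comp (ρ.cent0 b).subtype continuous_subtype_val).lie = a := by
  refine le_antisymm (fun X hX => ?_) fun A hA t =>
    ⟨⟨_, ρ.ex_mem_cent0 hinj (hab ▸ Submodule.mem_sup_left hA) (hc A hA) t⟩,
      ρ.map_ex (hab ▸ Submodule.mem_sup_left hA) t⟩
  have h1 : X ∈ a ⊔ b := hab ▸ fun t => (hX t).elim fun g hg => ⟨g, hg⟩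
  obtain ⟨A, hA, B, hB, rfl⟩ := Submodule.mem_sup.1 h1
  have h2 : ∀ Y ∈ b, (A + B) * Y = Y * (A + B) := fun Y hY => by
    have hF : HasDerivAt (fun t : ℝ => exp (t • (A + B)) * Y * exp (t • (-(A + B))))
        ((A + B) * Y - Y * (A + B)) 0 := by
      have := ((hasDerivAt_exp_smul (A + B) 0).mul_const Y).fun_mul
        (hasDerivAt_exp_smul (-(A + B)) 0)
      refine this.congr_deriv ?_
      simp only [zero_smul, exp_zero, Matrix.one_mul, Matrix.mul_one, Matrix.mul_neg,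
        sub_eq_add_neg]
    have e : (fun t : ℝ => exp (t • (A + B)) * Y * exp (t • (-(A + B)))) = fun _ => Y := by
      funext t
      obtain ⟨⟨_, g, _, rfl⟩, hg⟩ := hX t
      rw [smul_neg, ← ρ.Ad_eq_of_eq_exp (g := g) hg]
      exact g.2 Y hY
    rw [e] at hF
    exact sub_eq_zero.1 (hF.unique (hasDerivAt_const _ _))
  obtain rfl : B = 0 := hZ B (hab ▸ Submodule.mem_sup_right hB) fun X hX => by
    obtain ⟨A', hA', B', hB', rfl⟩ := Submodule.mem_sup.1 (hab.symm ▸ hX)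
    have h3 := h2 B' hB'
    rw [Matrix.add_mul, Matrix.mul_add, hc A hA B' hB', add_left_cancel_iff] at h3
    rw [Matrix.add_mul, Matrix.mul_add, hc A' hA' B hB, h3]
  simpa using hA

variable [ConnectedSpace G] [MeasurableSpace G] [BorelSpace G] [SecondCountableTopology G]

theorem simple_case {N d₀ : ℕ} (hd : ∀ g : Submodule ℝ (Matrix (Fin N) (Fin N) ℂ),
    IsCompactLie g → IsSimpleLie g → finrank ℝ g ≤ d₀ ∨
      ∃ (κ : Type) (_ : Fintype κ) (_ : DecidableEq κ)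
        (ψ : Matrix (Fin N) (Fin N) ℂ →ₗ[ℝ] Matrix κ κ ℂ), IsClassicalIso g ψ)
    (ρ : URep G (Fin N)) (hinj : Function.Injective ρ) (hs : IsSimpleLie ρ.lie) {r : ℕ}
    {L : List (Fin r × Bool)} (hL : FreeGroup.IsReduced L) (hL0 : L ≠ []) (μ : Measure G)
    [μ.IsHaarMeasure] [IsProbabilityMeasure μ] : ∃ M : ℝ≥0∞, M ≠ ⊤ ∧
      convPow (listMeasure L μ) ((8 * (d₀ + 4608) ^ 2 + 320) * L.length ^ 9) ≤ M • μ := by
  haveI : T2Space G := (ρ.isClosedEmbedding hinj).isEmbedding.t2Space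
  have hl : 1 ≤ L.length := List.length_pos_iff.2 hL0
  have h9 : ∀ k ≤ 9, L.length ^ k ≤ L.length ^ 9 := fun k hk => Nat.pow_le_pow_right hl hk
  suffices h : ∃ t, t + t ≤ (8 * (d₀ + 4608) ^ 2 + 320) * L.length ^ 9 ∧
      ∀ R : ℝ, ∫⁻ ξ : ρ.lie, listMeasure L μ (ρ.fix R ξ) ^ t ≠ ⊤ by
    obtain ⟨t, ht, h⟩ := h
    obtain ⟨M, hM, h⟩ := ρ.convPow_le_of_integrable hinj hs μ _
      (measurePreserving_conj_listMeasure L μ) t h
    exact ⟨M, hM, convPow_le_smul_of_le μ _ ht h⟩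
  by_cases h : finrank ℝ ρ.lie ≤ (d₀ + 4608) * L.length ^ 4
  · refine ⟨_, ?_, ρ.integrable_small hinj hs hL hL0 μ (Nat.lt_succ_self _)⟩
    have h1 := Nat.mul_le_mul_left L.length (Nat.pow_le_pow_left h 2)
    have h2 := h9 0 (by norm_num)
    rw [Nat.succ_eq_add_one]
    nlinarith
  have h4 : 1 ≤ L.length ^ 4 := Nat.one_le_pow _ _ hl
  obtain ⟨κ, _, _, ψ, hψ⟩ := (hd _ ρ.isCompactLie hs).resolve_left fun h' => h (by nlinarith)
  refine ⟨_, ?_, ρ.integrable_large hψ hL hL0 μ ?_⟩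
  · have h1 := h9 1 (by norm_num)
    have h2 := h9 2 (by norm_num)
    nlinarith [Nat.zero_le ((d₀ + 4608) ^ 2 * L.length ^ 9)]
  have h1 := LinearMap.finrank_le_finrank_of_injective (f := ψ.comp ρ.lie.subtype)
    ((injective_iff_map_eq_zero _).2 fun ξ h => Subtype.ext (hψ.inj _ ξ.2 h))
  rw [finrank_matrix, Complex.finrank_real_complex] at h1
  by_contra h2
  have h3 : Fintype.card κ ≤ 48 * L.length ^ 2 := by nlinarith
  have h5 := Nat.mul_le_mul h3 h3
  nlinarith [Nat.zero_le (d₀ * L.length ^ 4)]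

end URep

theorem semisimple_case {ι : Type} [Fintype ι] [DecidableEq ι] {α : Type} [Fintype α]
    {L : List (α × Bool)} {t : ℕ}
    (H : ∀ (G : Type u) [Group G] [TopologicalSpace G] [IsTopologicalGroup G] [CompactSpace G]
      [ConnectedSpace G] [MeasurableSpace G] [BorelSpace G] [SecondCountableTopology G]
      (ρ : URep G ι), Function.Injective ρ → IsSimpleLie ρ.lie → ∀ (μ : Measure G)
      [μ.IsHaarMeasure] [IsProbabilityMeasure μ],
      ∃ M : ℝ≥0∞, M ≠ ⊤ ∧ convPow (listMeasure L μ) t ≤ M • μ)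
    (d : ℕ) (G : Type u) [Group G] [TopologicalSpace G] [IsTopologicalGroup G] [CompactSpace G]
    [ConnectedSpace G] [MeasurableSpace G] [BorelSpace G] [SecondCountableTopology G]
    (ρ : URep G ι) (hd : finrank ℝ ρ.lie = d) (hinj : Function.Injective ρ)
    (hZ : ∀ Z ∈ ρ.lie, (∀ X ∈ ρ.lie, X * Z = Z * X) → Z = 0) (μ : Measure G)
    [μ.IsHaarMeasure] [IsProbabilityMeasure μ] :
    ∃ M : ℝ≥0∞, M ≠ ⊤ ∧ convPow (listMeasure L μ) t ≤ M • μ := by
  induction d using Nat.strong_induction_on generalizing G with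
  | _ d ih =>
  by_cases hs : IsSimpleLie ρ.lie
  · exact H G ρ hinj hs μ
  by_cases h0 : ∀ X ∈ ρ.lie, X = 0
  · have h1 := ρ.subgroup_eq_top ⊥ fun X hX g hg => hinj (by
      rw [hg, h0 X hX, exp_zero]; exact ρ.map_one.symm)
    haveI : Subsingleton G := (Subgroup.subsingleton_iff.1 (subsingleton_of_bot_eq_top h1))
    refine ⟨1, ENNReal.one_ne_top, Measure.le_iff.2 fun A _ => ?_⟩
    rcases A.eq_empty_or_nonempty with rfl | h
    · simp
    · simp [Subsingleton.eq_univ_of_nonempty h]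
  obtain ⟨a, ha, ha0, ha1⟩ : ∃ a, IsIdealIn a ρ.lie ∧ a ≠ ⊥ ∧ a ≠ ρ.lie := by
    by_contra! h
    refine hs ⟨?_, fun a ha => or_iff_not_imp_left.2 (h a ha)⟩
    by_contra! h'
    exact h0 fun X hX => hZ X hX fun Y hY => h' Y hY X hX
  set b := aᗮ ⊓ ρ.lie with hb
  have hab : a ⊔ b = ρ.lie := Submodule.sup_orthogonal_inf_of_hasOrthogonalProjection ha.1
  have hc : ∀ A ∈ a, ∀ B ∈ b, A * B = B * A := fun A hA B hB => by
    have h1 := ha.2 B hB.2 A hA
    have h2 := hB.1 _ (ha.2 A (ha.1 hA) _ h1)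
    rw [inner_sub_left, inner_mul_left, inner_mul_right, ρ.skew_of_mem_lie (ha.1 hA),
      ← inner_sub_right, Matrix.neg_mul, Matrix.mul_neg, sub_neg_eq_add, neg_add_eq_sub,
      inner_self_eq_zero] at h2
    exact (sub_eq_zero.1 h2).symm
  have hc' : ∀ B ∈ b, ∀ A ∈ a, B * A = A * B := fun B hB A hA => (hc A hA B hB).symm
  have hba : b ⊔ a = ρ.lie := (sup_comm _ _).trans hab
  have key : ∀ {a b : Submodule ℝ (Matrix ι ι ℂ)}, a ⊔ b = ρ.lie → a ≠ ρ.lie →
      (∀ A ∈ a, ∀ B ∈ b, A * B = B * A) → ∃ M : ℝ≥0∞, M ≠ ⊤ ∧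
      convPow (listMeasure L (haarMeasure ⊤ : Measure (ρ.cent0 b))) t ≤ M • haarMeasure ⊤ := by
    intro a b hab hne hc
    haveI : IsProbabilityMeasure (haarMeasure ⊤ : Measure (ρ.cent0 b)) :=
      ⟨haarMeasure_self (K₀ := (⊤ : _))⟩
    have h1 := ρ.lie_cent0 hinj hZ hab hc
    refine ih _ ?_ _ (ρ.comp (ρ.cent0 b).subtype continuous_subtype_val) rfl
      (hinj.comp Subtype.val_injective) ?_ _
    · rw [h1, ← hd]
      exact Submodule.finrank_lt_finrank_of_lt (lt_of_le_of_ne (hab ▸ le_sup_left) hne)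
    · rw [h1]
      refine fun Z hZ' h => hZ Z (hab ▸ Submodule.mem_sup_left hZ') fun X hX => ?_
      obtain ⟨A, hA, B, hB, rfl⟩ := Submodule.mem_sup.1 (hab.symm ▸ hX)
      rw [Matrix.add_mul, Matrix.mul_add, h A hA, hc Z hZ' B hB]
  obtain ⟨M₁, hM₁, h₁⟩ := key hab ha1 hc
  obtain ⟨M₂, hM₂, h₂⟩ := key hba (fun h => ha0 (by
    rw [← a.inf_orthogonal_eq_bot, left_eq_inf]
    exact ha.1.trans (h.ge.trans inf_le_left))) hc'
  haveI : IsProbabilityMeasure (haarMeasure ⊤ : Measure (ρ.cent0 a)) :=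
    ⟨haarMeasure_self (K₀ := (⊤ : _))⟩
  haveI : IsProbabilityMeasure (haarMeasure ⊤ : Measure (ρ.cent0 b)) :=
    ⟨haarMeasure_self (K₀ := (⊤ : _))⟩
  let f := (ρ.cent0 b).subtype.noncommCoprod (ρ.cent0 a).subtype fun x y => hinj (by
    have h := (ρ.comp (ρ.cent0 a).subtype continuous_subtype_val).Ad_eq_of_forall_commute
      (Y := ρ x) (fun X hX => by
        rw [ρ.lie_cent0 hinj hZ hba hc'] at hX
        obtain ⟨_, g, _, rfl⟩ := x
        exact ((ρ.Ad_eq_self_iff _ _).1 (g.2 X hX)).symm) y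
    rw [ρ.map_mul, ρ.map_mul]
    exact ((URep.Ad_eq_self_iff _ _ _).1 h).symm)
  have hf : Continuous f := (continuous_subtype_val.comp continuous_fst).mul
    (continuous_subtype_val.comp continuous_snd)
  have hp : MeasurePreserving f ((haarMeasure ⊤).prod (haarMeasure ⊤)) μ := by
    refine MonoidHom.measurePreserving hf (MonoidHom.range_eq_top.1 (ρ.subgroup_eq_top _
      fun X hX g hg => ?_)) (by simp)
    obtain ⟨A, hA, B, hB, rfl⟩ := Submodule.mem_sup.1 (hab.symm ▸ hX)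
    refine ⟨(⟨_, ρ.ex_mem_cent0 hinj (ha.1 hA) (hc A hA) 1⟩,
      ⟨_, ρ.ex_mem_cent0 hinj hB.2 (hc' B hB) 1⟩), hinj ?_⟩
    change ρ (ρ.ex _ * ρ.ex _) = _
    rw [ρ.map_mul, ρ.map_ex (ha.1 hA), ρ.map_ex hB.2, one_smul, one_smul, hg,
      NormedSpace.exp_add_of_commute (hc A hA B hB)]
  refine ⟨M₁ * M₂, ENNReal.mul_ne_top hM₁ hM₂, ?_⟩
  rw [← map_listMeasure L f hp, ← map_convPow _ f hp.measurable, listMeasure_prod, convPow_prod,
    ← hp.map_eq, ← Measure.map_smul]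
  refine map_mono ((prod_mono h₁ h₂).trans_eq ?_) hp.measurable
  rw [prod_smul_left, prod_smul_right, smul_smul]

end

end Pool.Agent.Lib.MP_775e5c_al
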