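import Pool.Agent.Lib.MP_775e5c_al.Traj
import Pool.Agent.Lib.MP_775e5c_al.NegMoment

/-!
Rotation systems: packings of orbits of stabilisers and integrability of the weights.
-/

namespace Pool.Agent.Lib.MP_775e5c_al

open MeasureTheory Measure Module
open scoped ENNReal

noncomputable section

theorem exists_packing (Y : Type*) [NormedAddCommGroup Y] [NormedSpace ℝ Y]
    [FiniteDimensional ℝ Y] {ρ : ℝ} (hρ : 0 < ρ) :
    ∃ X : Finset Y, (∀ x ∈ X, ‖x‖ ≤ 1) ∧ (∀ x ∈ X, ∀ y ∈ X, x ≠ y → ρ < dist x y) ∧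
      1 ≤ X.card * ρ ^ finrank ℝ Y := by
  classical
  borelize Y
  have key : ∀ N : ℕ, ∃ X : Finset Y, (∀ x ∈ X, ‖x‖ ≤ 1) ∧
      (∀ x ∈ X, ∀ y ∈ X, x ≠ y → ρ < dist x y) ∧ (N ≤ X.card ∨ 1 ≤ X.card * ρ ^ finrank ℝ Y) := by
    intro N
    induction N with
    | zero => exact ⟨∅, by simp, by simp, by simp⟩
    | succ N ih =>
      obtain ⟨X, h1, h2, h3⟩ := ih
      by_cases h4 : 1 ≤ X.card * ρ ^ finrank ℝ Y
      · exact ⟨X, h1, h2, Or.inr h4⟩
      have h5 : ¬ Metric.closedBall (0 : Y) 1 ⊆ ⋃ x ∈ X, Metric.closedBall x ρ := by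
        intro hsub
        have h6 := (measure_mono (μ := addHaar) hsub).trans (measure_biUnion_finset_le _ _)
        simp only [addHaar_closedBall' addHaar _ hρ.le, Finset.sum_const, nsmul_eq_mul] at h6
        rw [← mul_assoc] at h6
        have h7 := (ENNReal.mul_le_mul_iff_left
          (Metric.measure_closedBall_pos (addHaar : Measure Y) 0 one_pos).ne'
          measure_closedBall_lt_top.ne).1 ((one_mul _).trans_le h6)
        rw [← ENNReal.ofReal_natCast, ← ENNReal.ofReal_mul (by positivity),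
          ENNReal.one_le_ofReal] at h7
        exact h4 h7
      obtain ⟨y, hy, hy'⟩ := Set.not_subset.1 h5
      simp only [Set.mem_iUnion, Metric.mem_closedBall, not_exists, not_le] at hy'
      have hyX : y ∉ X := fun h => by
        have := hy' y h
        rw [dist_self] at this
        linarith
      refine ⟨insert y X, ?_, ?_, Or.inl ?_⟩
      · intro x hx
        rcases Finset.mem_insert.1 hx with rfl | hx
        exacts [mem_closedBall_zero_iff.1 hy, h1 x hx]
      · intro a ha b hb hab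
        rcases Finset.mem_insert.1 ha with rfl | ha' <;>
          rcases Finset.mem_insert.1 hb with rfl | hb'
        · exact absurd rfl hab
        · exact hy' b hb'
        · rw [dist_comm]; exact hy' a ha'
        · exact h2 a ha' b hb' hab
      · rw [Finset.card_insert_of_notMem hyX]
        exact Nat.succ_le_succ (h3.resolve_right h4)
  obtain ⟨N, hN⟩ := exists_nat_ge (1 / ρ ^ finrank ℝ Y)
  obtain ⟨X, h1, h2, h3⟩ := key N
  refine ⟨X, h1, h2, h3.elim (fun h => ?_) id⟩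
  rw [div_le_iff₀ (by positivity)] at hN
  exact hN.trans (by gcongr)

variable {V : Type*} [NormedAddCommGroup V] [InnerProductSpace ℝ V] [FiniteDimensional ℝ V]

theorem measure_near_le [MeasurableSpace V] [BorelSpace V] (vol : Measure V)
    [vol.IsAddHaarMeasure] (B : Submodule ℝ V) {s : ℝ} (hs : 0 < s) :
    vol {u : V | ‖u‖ ≤ 2 ∧ ‖B.starProjection u‖ ≤ s} ≤
      ENNReal.ofReal (s ^ finrank ℝ B) * vol (Metric.closedBall (0 : V) 3) := by
  set e := B.prodEquivOfIsCompl Bᗮ B.isCompl_orthogonal with he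
  set f : (B × Bᗮ) →ₗ[ℝ] (B × Bᗮ) := LinearMap.prodMap (s • LinearMap.id) LinearMap.id with hf
  have hdet : LinearMap.det ((e : (B × Bᗮ) →ₗ[ℝ] V) ∘ₗ f ∘ₗ (e.symm : V →ₗ[ℝ] (B × Bᗮ))) =
      s ^ finrank ℝ B := by
    rw [LinearMap.det_conj, hf, LinearMap.det_prodMap, LinearMap.det_smul]; simp
  rw [← abs_of_pos (pow_pos hs _), ← hdet, ← addHaar_image_linearMap]
  refine measure_mono fun u hu => ⟨e (s⁻¹ • ⟨B.starProjection u, B.starProjection_apply_mem u⟩,
    ⟨Bᗮ.starProjection u, Bᗮ.starProjection_apply_mem u⟩), ?_, ?_⟩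
  · rw [mem_closedBall_zero_iff, he, Submodule.coe_prodEquivOfIsCompl']
    refine (norm_add_le _ _).trans ?_
    have h1 := (Bᗮ.norm_starProjection_apply_le u).trans hu.1
    have h2 : ‖s⁻¹ • B.starProjection u‖ ≤ 1 := by
      rw [norm_smul, norm_inv, Real.norm_of_nonneg hs.le, inv_mul_le_iff₀ hs, mul_one]
      exact hu.2
    change ‖s⁻¹ • B.starProjection u‖ + ‖Bᗮ.starProjection u‖ ≤ 3
    linarith
  · simp only [LinearMap.comp_apply, LinearEquiv.coe_coe, LinearEquiv.symm_apply_apply]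
    rw [he, Submodule.coe_prodEquivOfIsCompl']
    simp [hf, smul_smul, hs.ne']

/-- The weight of a vector relative to a subspace. -/
def wt (p : ℕ) (U : Submodule ℝ V) (v : V) : ℝ≥0∞ :=
  ENNReal.ofReal (‖Uᗮ.starProjection v‖ / 4) ^ (-(p : ℝ))

theorem wt_le (p : ℕ) {U : Submodule ℝ V} {v : V} (hv : v ∈ Uᗮ) (h : 1 / 2 ≤ ‖v‖) :
    wt p U v ≤ 8 ^ p := by
  rw [wt, Submodule.starProjection_eq_self_iff.2 hv, ENNReal.rpow_neg, ENNReal.rpow_natCast,
    ENNReal.inv_pow]
  gcongr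
  rw [ENNReal.inv_le_iff_inv_le, ← ENNReal.ofReal_ofNat 8,
    ← ENNReal.ofReal_inv_of_pos (by norm_num)]
  exact ENNReal.ofReal_le_ofReal (by linarith)

theorem lintegral_wt_le [MeasurableSpace V] [BorelSpace V] (vol : Measure V)
    [vol.IsAddHaarMeasure] {p : ℕ} (hp : 0 < p) (U : Submodule ℝ V)
    (hU : p + finrank ℝ U < finrank ℝ V) :
    ∫⁻ v in Metric.closedBall 0 2, wt p U v ∂vol ≤
      dyK (p + 1) p * (4 ^ finrank ℝ V * vol (Metric.closedBall (0 : V) 3)) := by
  have hd := U.finrank_add_finrank_orthogonal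
  refine lintegral_rpow_neg_le _ (by fun_prop) (by exact_mod_cast hp) ?_ fun s hs hs1 => ?_
  · rw [Measure.restrict_apply_univ]
    exact (measure_mono (Metric.closedBall_subset_closedBall (by norm_num))).trans
      (le_mul_of_one_le_left' (one_le_pow₀ (by norm_num)))
  · have hst : s ≠ ⊤ := ne_top_of_le_ne_top ENNReal.one_ne_top hs1
    have hr : 0 < s.toReal := ENNReal.toReal_pos hs.ne' hst
    rw [Measure.restrict_apply' measurableSet_closedBall]
    refine (measure_mono fun v hv => ?_).trans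
      ((measure_near_le vol Uᗮ (s := 4 * s.toReal) (by positivity)).trans ?_)
    · refine ⟨mem_closedBall_zero_iff.1 hv.2, ?_⟩
      have := ENNReal.ofReal_le_iff_le_toReal hst |>.1 hv.1
      linarith
    · rw [ENNReal.ofReal_pow (by positivity), ENNReal.ofReal_mul (by norm_num),
        ENNReal.ofReal_toReal hst, mul_pow, mul_right_comm, ← Nat.cast_succ, ENNReal.rpow_natCast,
        ENNReal.ofReal_ofNat]
      refine mul_le_mul' (mul_le_mul_left (pow_le_pow_right₀ (by norm_num) (by omega)) _)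
        (pow_le_pow_right_of_le_one' hs1 (by omega))

variable {α K : Type*} [DecidableEq α] [Group K] [Fintype α] [TopologicalSpace K]
  [IsTopologicalGroup K] [CompactSpace K] [MeasurableSpace K] [BorelSpace K]
  [SecondCountableTopology K]

theorem measure_con_le {W Y : Type*} [PseudoMetricSpace W] [MulAction K W] [IsIsometricSMul K W]
    [ContinuousSMul K W] [NormedAddCommGroup Y] [NormedSpace ℝ Y] [FiniteDimensional ℝ Y]
    (μ : Measure K) [μ.IsHaarMeasure] {π : W → Y} (hπ : ∀ a b, dist (π a) (π b) ≤ dist a b)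
    {p : ℕ} (hp : p ≤ finrank ℝ Y) {S : Set W} {u : W} {δ η : ℝ} (hδ : 0 ≤ δ) (hη : 0 < η)
    (h : 0 < δ → ∀ y : Y, ‖y‖ ≤ 1 → ∃ k : K, (∀ s ∈ S, k • s = s) ∧ π (k • u) = δ • y)
    {E : Set (α → K)} (hE : MeasurableSet E) {x : α × Bool} (hi : Inv E x S) (q : W) :
    (Measure.pi fun _ : α => μ) (E ∩ Con x u q (2 * η)) ≤ ENNReal.ofReal (η ^ p) *
      ENNReal.ofReal (δ / 4) ^ (-(p : ℝ)) * (Measure.pi fun _ : α => μ) E := by
  classical
  set P := Measure.pi fun _ : α => μ
  have triv : ∀ c : ℝ≥0∞, 1 ≤ c → P (E ∩ Con x u q (2 * η)) ≤ c * P E := fun c hc =>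
    (measure_mono Set.inter_subset_left).trans (le_mul_of_one_le_left' hc)
  rcases hδ.eq_or_lt with rfl | hδ
  · refine triv _ ?_
    rcases p.eq_zero_or_pos with rfl | hp0
    · simp
    · have : 0 < η ^ p := by positivity
      simp [ENNReal.zero_rpow_of_neg, hp0, ENNReal.mul_top, this]
  have hρ : 0 < 4 * η / δ := by positivity
  have e : ENNReal.ofReal (η ^ p) * ENNReal.ofReal (δ / 4) ^ (-(p : ℝ)) =
      ENNReal.ofReal ((4 * η / δ) ^ p) := by
    rw [ENNReal.ofReal_rpow_of_pos (by positivity), ← ENNReal.ofReal_mul (by positivity),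
      Real.rpow_neg (by positivity), Real.rpow_natCast, ← inv_pow, ← mul_pow]
    congr 2; field_simp
  rw [e]
  rcases le_total 1 (4 * η / δ) with h1 | h1
  · exact triv _ (ENNReal.one_le_ofReal.2 (one_le_pow₀ h1))
  obtain ⟨X, hX1, hX2, hX3⟩ := exists_packing Y hρ
  choose! k hk1 hk2 using h hδ
  have hsep : ∀ y ∈ X, ∀ y' ∈ X, y ≠ y' → 2 * (2 * η) < dist (k y • u) (k y' • u) := by
    intro y hy y' hy' hne
    have h2 := hπ (k y • u) (k y' • u)
    rw [hk2 y (hX1 y hy), hk2 y' (hX1 y' hy'), dist_smul₀, Real.norm_of_nonneg hδ.le] at h2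
    have h3 := hX2 y hy y' hy' hne
    rw [div_lt_iff₀ hδ] at h3
    linarith
  have hinj : Set.InjOn k X := fun y hy y' hy' he => by
    by_contra hne
    have := hsep y hy y' hy' hne
    rw [he, dist_self] at this
    linarith
  have h4 := card_mul_measure_con_le μ hE (x := x) u q (2 * η) (X.image k)
    (fun k' hk' => by
      obtain ⟨y, hy, rfl⟩ := Finset.mem_image.1 hk'
      exact hi _ (hk1 y (hX1 y hy)))
    (fun a ha b hb hab => by
      obtain ⟨y, hy, rfl⟩ := Finset.mem_image.1 ha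
      obtain ⟨y', hy', rfl⟩ := Finset.mem_image.1 hb
      exact hsep y hy y' hy' fun h => hab (by rw [h]))
  rw [Finset.card_image_of_injOn hinj] at h4
  refine le_trans ?_ (mul_le_mul_right h4 _)
  rw [← mul_assoc]
  refine le_mul_of_one_le_left' ?_
  rw [← ENNReal.ofReal_natCast, ← ENNReal.ofReal_mul (by positivity), ENNReal.one_le_ofReal,
    mul_comm]
  exact hX3.trans (mul_le_mul_of_nonneg_left (pow_le_pow_of_le_one hρ.le h1 hp) (by positivity))

/-- One constraint in a rotation system. -/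
theorem measure_con_le_wt {W : Type*} [NormedAddCommGroup W] [InnerProductSpace ℝ W]
    [FiniteDimensional ℝ W] [DistribMulAction K W] [IsIsometricSMul K W] [ContinuousSMul K W]
    [SMulCommClass K ℝ W] (μ : Measure K) [μ.IsHaarMeasure] (ι : V →ₗᵢ[ℝ] W)
    {U U' : Submodule ℝ V} {v : V} (hU : U ≤ U') (hv : v ∈ U') {p : ℕ}
    (hp : p + finrank ℝ U' ≤ finrank ℝ V) {S : Set W}
    (h : ∀ a ∈ Uᗮ, ‖a‖ = 1 → (∃ t : ℝ, v - t • a ∈ U ∧ t ≠ 0) → ∀ c ∈ U'ᗮ, ‖c‖ = 1 → ∀ θ : ℝ,
      ∃ k : K, (∀ s ∈ S, k • s = s) ∧ (∀ s ∈ U, k • ι s = ι s) ∧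
        k • ι a = Real.cos θ • ι a + Real.sin θ • ι c)
    {η : ℝ} (hη : 0 < η) {E : Set (α → K)} (hE : MeasurableSet E) {x : α × Bool}
    (hi : Inv E x S) (q : W) :
    (Measure.pi fun _ : α => μ) (E ∩ Con x (ι v) q (2 * η)) ≤ ENNReal.ofReal (η ^ p) *
      wt p U v * (Measure.pi fun _ : α => μ) E := by
  have hd := U'.finrank_add_finrank_orthogonal
  set Y := U'ᗮ.map ι.toLinearMap with hY
  have hYd : finrank ℝ Y = finrank ℝ U'ᗮ :=
    (Submodule.equivMapOfInjective _ ι.injective _).finrank_eq.symm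
  refine measure_con_le μ (Y := Y) (π := Y.orthogonalProjectionOnto) (fun a b => ?_) (by omega)
    (norm_nonneg _) hη (fun hδ y hy => ?_) hE hi q
  · rw [dist_eq_norm, dist_eq_norm, ← map_sub]
    exact Y.norm_orthogonalProjectionOnto_apply_le _
  set δ := ‖Uᗮ.starProjection v‖ with hδ'
  set a := δ⁻¹ • Uᗮ.starProjection v with ha
  have ha1 : ‖a‖ = 1 := norm_smul_inv_norm (norm_pos_iff.1 hδ)
  have ha2 : v - δ • a ∈ U := by
    rw [ha, smul_smul, mul_inv_cancel₀ hδ.ne', one_smul, Submodule.starProjection_orthogonal_val,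
      sub_sub_cancel]
    exact U.starProjection_apply_mem v
  have ha3 : a ∈ U' := by
    have := U'.smul_mem δ⁻¹ (U'.sub_mem hv (hU ha2))
    rwa [sub_sub_cancel, smul_smul, inv_mul_cancel₀ hδ.ne', one_smul] at this
  have hz : ∀ s ∈ U', Y.orthogonalProjectionOnto (ι s) = 0 := fun s hs => by
    refine Submodule.orthogonalProjectionOnto_apply_of_mem_orthogonal ?_
    rintro _ ⟨c, hc, rfl⟩
    rw [LinearIsometry.coe_toLinearMap, ι.inner_map_map, real_inner_comm]
    exact hc s hs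
  by_cases hy0 : y = 0
  · exact ⟨1, by simp, by rw [one_smul, hz v hv, hy0, smul_zero]⟩
  obtain ⟨_, c, hc, rfl⟩ := y
  have hc1 : ‖c‖ ≤ 1 := by rw [← ι.norm_map]; exact hy
  have hc0 : c ≠ 0 := fun h => hy0 (by simp [h])
  have hc0' := norm_pos_iff.2 hc0
  obtain ⟨k, hk1, hk2, hk3⟩ := h a (Uᗮ.smul_mem _ (Uᗮ.starProjection_apply_mem v)) ha1
    ⟨δ, ha2, hδ.ne'⟩ (‖c‖⁻¹ • c) (U'ᗮ.smul_mem _ hc) (norm_smul_inv_norm hc0) (Real.arcsin ‖c‖)
  refine ⟨k, hk1, ?_⟩
  have e : ι v = ι (v - δ • a) + δ • ι a := by simp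
  rw [e, smul_add, hk2 _ ha2, smul_comm k δ, hk3, Real.sin_arcsin (by linarith) hc1, map_add,
    hz _ (hU ha2), map_smul, map_add, map_smul, hz _ ha3, ← ι.map_smul, smul_smul,
    mul_inv_cancel₀ hc0'.ne', one_smul, zero_add, smul_zero, zero_add]
  congr 1
  exact Y.orthogonalProjectionOnto_mem_subspace_eq_self ⟨ι c, c, hc, rfl⟩

end

end Pool.Agent.Lib.MP_775e5c_al
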