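import Pool.Agent.Lib.MP_775e5c_al.VonNeumann

/-!
Root vectors and circle subgroups in compact matrix Lie algebras.
-/

namespace Pool.Agent.Lib.MP_775e5c_al

open Matrix NormedSpace Complex Module

noncomputable section

section abstract

attribute [local instance 100] LieRing.ofAssociativeRing

variable {V : Type*} [AddCommGroup V] [Module ℂ V] [FiniteDimensional ℂ V]

theorem sl2_aux {H E F : End ℂ V} (t : IsSl2Triple H E F) {v : V} (hv : v ≠ 0) {μ : ℂ}
    (h : H v = μ • v) : ∃ k : ℤ, μ = k ∧ k ≤ finrank ℂ V := by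
  have hcard : ∀ (n : ℕ) (c : ℕ → ℂ) (u : ℕ → V), Function.Injective c →
      (∀ i < n, u i ≠ 0 ∧ H (u i) = c i • u i) → n ≤ finrank ℂ V := by
    intro n c u hc hu
    have := (H.eigenvectors_linearIndependent' (fun i : Fin n => c i)
      (fun i j hij => Fin.ext (hc hij)) (fun i => u i) fun i =>
        ⟨End.mem_eigenspace_iff.2 (hu i i.2).2, (hu i i.2).1⟩).fintype_card_le_finrank
    simpa using this
  have hE : ∀ n : ℕ, H ((LieModule.toEnd ℂ (End ℂ V) V E ^ n) v) =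
      (μ + 2 * n) • (LieModule.toEnd ℂ (End ℂ V) V E ^ n) v := t.lie_h_pow_toEnd_e h
  have hex : ∃ n : ℕ, (LieModule.toEnd ℂ (End ℂ V) V E ^ n) v = 0 := by
    by_contra! hcon
    have := hcard (finrank ℂ V + 1) (fun n => μ + 2 * n) _ (fun a b hab => by simpa using hab)
      fun i _ => ⟨hcon i, hE i⟩
    omega
  obtain ⟨j, hj, hj'⟩ := Nat.exists_not_and_succ_of_not_zero_of_exists hv hex
  have P : t.HasPrimitiveVectorWith ((LieModule.toEnd ℂ (End ℂ V) V E ^ j) v) (μ + 2 * j) :=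
    ⟨hj, hE j, (IsSl2Triple.lie_e_pow_toEnd_e j).trans hj'⟩
  obtain ⟨n, hn⟩ := P.exists_nat
  have := hcard (n + 1) (fun i => μ + 2 * j - 2 * i) _ (fun a b hab => by simpa using hab)
    fun i hi => ⟨P.pow_toEnd_f_ne_zero_of_eq_nat hn (Nat.lt_succ_iff.1 hi), P.lie_h_pow_toEnd_f i⟩
  refine ⟨n - 2 * j, ?_, by omega⟩
  push_cast
  rw [← hn]; ring

theorem sl2_int {H E F : End ℂ V} (h1 : E * F - F * E = H) (h2 : H * E - E * H = 2 • E)
    (h3 : H * F - F * H = -(2 • F)) {v : V} (hv : v ≠ 0) {μ : ℂ} (h : H v = μ • v) :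
    ∃ k : ℤ, μ = k ∧ |k| ≤ finrank ℂ V := by
  by_cases hH : H = 0
  · refine ⟨0, ?_, by simp⟩
    rw [hH] at h
    simpa [hv] using h.symm
  have t : IsSl2Triple H E F := ⟨hH, h1, h2, h3⟩
  obtain ⟨k, hk, hk'⟩ := sl2_aux t hv h
  obtain ⟨l, hl, hl'⟩ := sl2_aux t.symm hv (μ := -μ) (by simp [h])
  have : l = -k := by
    have : (l : ℂ) = ((-k : ℤ) : ℂ) := by rw [← hl, hk]; simp
    exact_mod_cast this
  exact ⟨k, hk, abs_le.2 ⟨by omega, hk'⟩⟩

theorem sl2_int' (W : Submodule ℂ V) {H E F : End ℂ V} (hH : ∀ x ∈ W, H x ∈ W)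
    (hE : ∀ x ∈ W, E x ∈ W) (hF : ∀ x ∈ W, F x ∈ W)
    (h1 : E * F - F * E = H) (h2 : H * E - E * H = 2 • E)
    (h3 : H * F - F * H = -(2 • F)) {v : V} (hvW : v ∈ W) (hv : v ≠ 0) {μ : ℂ}
    (h : H v = μ • v) : ∃ k : ℤ, μ = k ∧ |k| ≤ finrank ℂ W := by
  refine sl2_int (H := H.restrict hH) (E := E.restrict hE) (F := F.restrict hF) ?_ ?_ ?_
    (v := ⟨v, hvW⟩) (fun h => hv (congrArg Subtype.val h)) (Subtype.ext h)
  · ext x; exact LinearMap.congr_fun h1 x
  · ext x; exact LinearMap.congr_fun h2 x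
  · ext x; exact LinearMap.congr_fun h3 x

end abstract

theorem symm_induction {E : Type*} [NormedAddCommGroup E] [InnerProductSpace ℝ E]
    [FiniteDimensional ℝ E] {T : E →ₗ[ℝ] E} (hT : T.IsSymmetric) {V : Submodule ℝ E}
    (hV : ∀ v ∈ V, T v ∈ V) {P : E → Prop} (h0 : P 0) (hadd : ∀ x y, P x → P y → P (x + y))
    (heig : ∀ v ∈ V, ∀ μ : ℝ, T v = μ • v → P v) {y : E} (hy : y ∈ V) : P y := by
  have h1 := (hT.restrict_invariant hV).orthogonalComplement_iSup_eigenspaces_eq_bot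
  rw [Submodule.orthogonal_eq_bot_iff] at h1
  have h2 : (⟨y, hy⟩ : V) ∈ ⨆ μ, End.eigenspace (T.restrict hV) μ := h1 ▸ Submodule.mem_top
  refine Submodule.iSup_induction (motive := fun v : V => P v) _ h2 ?_ h0 fun x y => hadd x y
  intro μ v hv
  exact heig v v.2 μ (congrArg Subtype.val (End.mem_eigenspace_iff.1 hv))

variable {ι : Type} [Fintype ι] [DecidableEq ι]

theorem inner_mul_left (A X Y : Matrix ι ι ℂ) : inner ℝ (A * X) Y = inner ℝ X (Aᴴ * Y) := by
  simp only [inner_def, conjTranspose_mul, Matrix.mul_assoc]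

theorem inner_mul_right (A X Y : Matrix ι ι ℂ) : inner ℝ (X * A) Y = inner ℝ X (Y * Aᴴ) := by
  simp only [inner_def, conjTranspose_mul, Matrix.mul_assoc]
  rw [Matrix.trace_mul_comm, Matrix.mul_assoc]

/-- The complexification inside the matrix algebra. -/
def cx (g : Submodule ℝ (Matrix ι ι ℂ)) : Submodule ℂ (Matrix ι ι ℂ) :=
  Submodule.span ℂ (g : Set (Matrix ι ι ℂ))

theorem mem_cx {g : Submodule ℝ (Matrix ι ι ℂ)} {Y : Matrix ι ι ℂ} :
    Y ∈ cx g ↔ ∃ A ∈ g, ∃ B ∈ g, Y = A + I • B := by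
  constructor
  · intro h
    induction h using Submodule.span_induction with
    | mem x hx => exact ⟨x, hx, 0, g.zero_mem, by simp⟩
    | zero => exact ⟨0, g.zero_mem, 0, g.zero_mem, by simp⟩
    | add x y _ _ hx hy =>
      obtain ⟨A, hA, B, hB, rfl⟩ := hx
      obtain ⟨A', hA', B', hB', rfl⟩ := hy
      exact ⟨_, g.add_mem hA hA', _, g.add_mem hB hB', by rw [smul_add]; abel⟩
    | smul c x _ hx =>
      obtain ⟨A, hA, B, hB, rfl⟩ := hx
      refine ⟨_, g.sub_mem (g.smul_mem c.re hA) (g.smul_mem c.im hB), _,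
        g.add_mem (g.smul_mem c.im hA) (g.smul_mem c.re hB), ?_⟩
      ext i j
      simp only [Matrix.smul_apply, Matrix.add_apply, Matrix.sub_apply, smul_eq_mul, real_smul]
      conv_lhs => rw [← re_add_im c]
      linear_combination (c.im * B i j) * I_mul_I
  · rintro ⟨A, hA, B, hB, rfl⟩
    exact Submodule.add_mem _ (Submodule.subset_span hA)
      (Submodule.smul_mem _ _ (Submodule.subset_span hB))

theorem mem_cx_of_mem {g : Submodule ℝ (Matrix ι ι ℂ)} {Y : Matrix ι ι ℂ} (h : Y ∈ g) :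
    Y ∈ cx g := Submodule.subset_span h

theorem finrank_cx_le (g : Submodule ℝ (Matrix ι ι ℂ)) : finrank ℂ (cx g) ≤ finrank ℝ g := by
  obtain ⟨f, -, hf, -⟩ := Submodule.exists_fun_fin_finrank_span_eq ℝ (g : Set (Matrix ι ι ℂ))
  have : cx g = Submodule.span ℂ (Set.range f) := by
    rw [← Submodule.span_span_of_tower ℝ ℂ, hf, Submodule.span_eq]; rfl
  rw [this]
  refine (finrank_range_le_card f).trans ?_
  simp

namespace IsCompactLie

variable {g : Submodule ℝ (Matrix ι ι ℂ)} (hg : IsCompactLie g)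
include hg

theorem conjTranspose_mem_cx {Y : Matrix ι ι ℂ} (h : Y ∈ cx g) : Yᴴ ∈ cx g := by
  obtain ⟨A, hA, B, hB, rfl⟩ := mem_cx.1 h
  exact mem_cx.2 ⟨_, g.neg_mem hA, _, hB, by simp [hg.skew A hA, hg.skew B hB]⟩

theorem lie_mem_cx {X Y : Matrix ι ι ℂ} (hX : X ∈ cx g) (hY : Y ∈ cx g) :
    X * Y - Y * X ∈ cx g := by
  obtain ⟨A, hA, B, hB, rfl⟩ := mem_cx.1 hX
  obtain ⟨A', hA', B', hB', rfl⟩ := mem_cx.1 hY
  refine mem_cx.2 ⟨_, g.sub_mem (hg.lie_mem A hA A' hA') (hg.lie_mem B hB B' hB'), _,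
    g.add_mem (hg.lie_mem A hA B' hB') (hg.lie_mem B hB A' hA'), ?_⟩
  simp only [Matrix.add_mul, Matrix.mul_add, Matrix.smul_mul, Matrix.mul_smul, smul_add, smul_sub,
    smul_smul, I_mul_I, neg_smul, one_smul]
  abel

theorem mem_of_skew {Y : Matrix ι ι ℂ} (h : Y ∈ cx g) (hY : Yᴴ = -Y) : Y ∈ g := by
  obtain ⟨A, hA, B, hB, rfl⟩ := mem_cx.1 h
  have h1 : (2 * I) • B = 0 := by
    simp only [conjTranspose_add, conjTranspose_smul, hg.skew A hA, hg.skew B hB, star_def, conj_I,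
      smul_neg, neg_smul, neg_neg, neg_add, add_right_inj] at hY
    rw [two_mul, add_smul]
    exact add_eq_zero_iff_eq_neg.2 hY
  have h2 : B = 0 := by simpa using h1
  simpa [h2] using hA

end IsCompactLie

/-- `e` is a normalised root vector for `g`. -/
structure IsRootVec (g : Submodule ℝ (Matrix ι ι ℂ)) (e : Matrix ι ι ℂ) : Prop where
  mem : e ∈ cx g
  ne : e ≠ 0
  rel : (e * eᴴ - eᴴ * e) * e - e * (e * eᴴ - eᴴ * e) = 2 • e

/-- The coroot of a root vector. -/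
def cor (e : Matrix ι ι ℂ) : Matrix ι ι ℂ := e * eᴴ - eᴴ * e

theorem cor_conjTranspose (e : Matrix ι ι ℂ) : (cor e)ᴴ = cor e := by simp [cor]

theorem exists_isRootVec {g : Submodule ℝ (Matrix ι ι ℂ)} (hg : IsCompactLie g)
    (hna : ∃ X ∈ g, ∃ Y ∈ g, X * Y ≠ Y * X) : ∃ e, IsRootVec g e := by
  obtain ⟨t, ⟨htg, hab⟩, hmax⟩ := (wellFounded_gt (α := Submodule ℝ (Matrix ι ι ℂ))).has_min
    {t | t ≤ g ∧ ∀ X ∈ t, ∀ Y ∈ t, X * Y = Y * X} ⟨⊥, bot_le, by simp⟩
  have hcen : ∀ X ∈ g, (∀ T ∈ t, T * X = X * T) → X ∈ t := by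
    intro X hX hc
    by_contra hXt
    refine hmax (t ⊔ Submodule.span ℝ {X}) ⟨sup_le htg (by simpa using hX), ?_⟩ ?_
    · intro A₁ hA₁ B₁ hB₁
      obtain ⟨A, hA, _, hA', rfl⟩ := Submodule.mem_sup.1 hA₁
      obtain ⟨B, hB, _, hB', rfl⟩ := Submodule.mem_sup.1 hB₁
      obtain ⟨a, rfl⟩ := Submodule.mem_span_singleton.1 hA'
      obtain ⟨b, rfl⟩ := Submodule.mem_span_singleton.1 hB'
      simp only [Matrix.add_mul, Matrix.mul_add, Matrix.smul_mul, Matrix.mul_smul, hab A hA B hB,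
        hc A hA, hc B hB, smul_add, smul_smul, mul_comm a b]
      abel
    · exact lt_of_le_of_ne le_sup_left fun h => hXt
        (h ▸ Submodule.mem_sup_right (Submodule.mem_span_singleton_self X))
  obtain ⟨T₀, hT₀, X₀, hX₀, hne⟩ : ∃ T ∈ t, ∃ X ∈ g, T * X ≠ X * T := by
    by_contra! hcon
    obtain ⟨X, hX, Y, hY, hXY⟩ := hna
    exact hXY (hab X (hcen X hX fun T hT => hcon T hT X hX) Y (hcen Y hY fun T hT => hcon T hT Y hY))
  let ad : Matrix ι ι ℂ → End ℂ (Matrix ι ι ℂ) := fun T =>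
    LinearMap.mulLeft ℂ T - LinearMap.mulRight ℂ T
  have had : ∀ T X, ad T X = T * X - X * T := fun T X => rfl
  have hcomm : ∀ T ∈ t, ∀ T' ∈ t, ∀ X, ad T (ad T' X) = ad T' (ad T X) := by
    intro T hT T' hT' X
    simp only [had, Matrix.mul_sub, Matrix.sub_mul, Matrix.mul_assoc]
    rw [← Matrix.mul_assoc T T', hab T hT T' hT', Matrix.mul_assoc]
    abel
  have hskew : ∀ T ∈ g, ∀ X Y, inner ℝ (ad T X) Y = -inner ℝ X (ad T Y) := by
    intro T hT X Y
    rw [had, had, inner_sub_left, inner_sub_right, inner_mul_left, inner_mul_right, hg.skew T hT,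
      Matrix.neg_mul, Matrix.mul_neg, inner_neg_right, inner_neg_right]
    ring
  obtain ⟨V, ⟨hV0, hVle, hVinv⟩, hmin⟩ :=
    (wellFounded_lt (α := Submodule ℂ (Matrix ι ι ℂ))).has_min
    {V | V ≠ ⊥ ∧ V ≤ (cx g).map (ad T₀) ∧ ∀ T ∈ t, ∀ x ∈ V, ad T x ∈ V}
    ⟨(cx g).map (ad T₀), (Submodule.ne_bot_iff _).2
      ⟨_, ⟨X₀, mem_cx_of_mem hX₀, rfl⟩, sub_ne_zero.2 hne⟩, le_rfl, by
      rintro T hT _ ⟨y, hy, rfl⟩
      exact ⟨ad T y, hg.lie_mem_cx (mem_cx_of_mem (htg hT)) hy, (hcomm T hT T₀ hT₀ y).symm⟩⟩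
  have hscal : ∀ T ∈ t, ∃ a : ℂ, ∀ x ∈ V, ad T x = a • x := by
    intro T hT
    have : Nontrivial V := Submodule.nontrivial_iff_ne_bot.2 hV0
    obtain ⟨a, ha⟩ := End.exists_eigenvalue ((ad T).restrict (hVinv T hT))
    obtain ⟨v, hv⟩ := ha.exists_hasEigenvector
    refine ⟨a, fun x hx => ?_⟩
    have h1 : ¬ V ⊓ End.eigenspace (ad T) a < V := by
      refine hmin _ ⟨(Submodule.ne_bot_iff _).2 ⟨v, ⟨v.2, End.mem_eigenspace_iff.2
        (congrArg Subtype.val hv.apply_eq_smul)⟩, fun h => hv.2 (Subtype.ext h)⟩,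
        inf_le_left.trans hVle, fun T' hT' y hy => ⟨hVinv T' hT' y hy.1, ?_⟩⟩
      refine End.mem_eigenspace_iff.2 ?_
      rw [hcomm T hT T' hT', End.mem_eigenspace_iff.1 hy.2, map_smul]
    have h2 : V ⊓ End.eigenspace (ad T) a = V := (eq_or_lt_of_le inf_le_left).resolve_right h1
    exact End.mem_eigenspace_iff.1 (h2.ge hx).2
  obtain ⟨e, heV, he0⟩ := (Submodule.ne_bot_iff _).1 hV0
  obtain ⟨y, hy, hye⟩ := hVle heV
  have hecx : e ∈ cx g := hye ▸ hg.lie_mem_cx (mem_cx_of_mem (htg hT₀)) hy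
  have hee : inner ℝ e e ≠ 0 := inner_self_ne_zero.2 he0
  have him : ∀ T ∈ t, ∃ a : ℝ, T * e - e * T = (a * I : ℂ) • e := by
    intro T hT
    obtain ⟨a, ha⟩ := hscal T hT
    have h1 := hskew T (htg hT) e e
    rw [real_inner_comm, ha e heV] at h1
    have h2 : inner ℝ e (a • e) = a.re * inner ℝ e e := by
      have h3 : (eᴴ * e).trace.im = 0 := by
        have : star (eᴴ * e).trace = (eᴴ * e).trace := by
          rw [← trace_conjTranspose]; simp
        exact conj_eq_iff_im.1 this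
      rw [inner_def, inner_def, Matrix.mul_smul, trace_smul, smul_eq_mul, mul_re, h3]; ring
    have h4 : a.re = 0 := by
      have : a.re * inner ℝ e e = 0 := by linarith
      exact (mul_eq_zero.1 this).resolve_right hee
    refine ⟨a.im, ?_⟩
    rw [← had, ha e heV]
    congr 1
    apply Complex.ext <;> simp [h4]
  have hstar : ∀ T ∈ t, ∀ a : ℝ, T * e - e * T = (a * I : ℂ) • e →
      T * eᴴ - eᴴ * T = -((a * I : ℂ) • eᴴ) := by
    intro T hT a ha
    have := congrArg conjTranspose ha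
    simp only [conjTranspose_sub, conjTranspose_mul, hg.skew T (htg hT), conjTranspose_smul,
      star_mul', star_def, conj_ofReal, conj_I, Matrix.neg_mul, mul_neg,
      neg_smul] at this
    rw [← this]; abel
  have hcor : I • cor e ∈ t := by
    refine hcen _ (hg.mem_of_skew (Submodule.smul_mem _ _
      (hg.lie_mem_cx hecx (hg.conjTranspose_mem_cx hecx))) (by simp [cor_conjTranspose])) ?_
    intro T hT
    obtain ⟨a, ha⟩ := him T hT
    have hb := hstar T hT a ha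
    rw [sub_eq_iff_eq_add] at ha hb
    simp only [Matrix.mul_smul, Matrix.smul_mul, cor, Matrix.mul_sub, Matrix.sub_mul]
    congr 1
    rw [← Matrix.mul_assoc, ← Matrix.mul_assoc, ha, hb]
    simp only [Matrix.add_mul, Matrix.mul_assoc, ha, hb, Matrix.mul_add, Matrix.smul_mul,
      Matrix.mul_smul, Matrix.neg_mul, Matrix.mul_neg]
    abel
  have hcor0 : cor e ≠ 0 := by
    intro h0
    obtain ⟨a, ha⟩ := him T₀ hT₀
    have ha0 : a ≠ 0 := by
      rintro rfl
      have h1 := hskew T₀ (htg hT₀) y e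
      rw [hye, had, ha] at h1
      simp [he0] at h1
    have h1 : (T₀ * cor e).trace = ((T₀ * e - e * T₀) * eᴴ).trace := by
      simp only [cor, Matrix.mul_sub, Matrix.sub_mul, trace_sub, Matrix.mul_assoc]
      rw [trace_mul_comm e, Matrix.mul_assoc]
    rw [h0, ha, Matrix.mul_zero, trace_zero, Matrix.smul_mul, trace_smul, trace_mul_comm] at h1
    have h2 : (eᴴ * e).trace = 0 := by simpa [ha0] using h1.symm
    exact hee (by rw [inner_def, h2, zero_re])
  obtain ⟨a, ha⟩ := him _ hcor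
  have ha' : cor e * e - e * cor e = (a : ℂ) • e := by
    refine smul_right_injective _ I_ne_zero ?_
    simp only [smul_sub, smul_smul]
    rw [mul_comm I, ← ha]; simp
  have hapos : 0 < a := by
    have h1 : inner ℝ e (cor e * e - e * cor e) = inner ℝ (cor e) (cor e) := by
      simp only [inner_def, cor_conjTranspose]
      conv_rhs => rw [cor, Matrix.sub_mul]
      rw [← cor]
      simp only [Matrix.mul_sub, trace_sub, Matrix.mul_assoc]
      rw [trace_mul_comm e, Matrix.mul_assoc]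
    have h2 : inner ℝ e ((a : ℂ) • e) = a * inner ℝ e e := by
      rw [← real_inner_smul_right]; rfl
    rw [ha', h2] at h1
    have h3 := real_inner_self_pos.2 hcor0
    have h4 := real_inner_self_pos.2 he0
    by_contra hcon
    nlinarith
  set s : ℝ := Real.sqrt (2 / a) with hs
  have hs2 : (s : ℂ) * s * a = 2 := by
    have : s * s * a = 2 := by
      rw [hs, Real.mul_self_sqrt (by positivity)]; field_simp
    exact_mod_cast this
  have hs0 : s ≠ 0 := by positivity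
  refine ⟨(s : ℂ) • e, Submodule.smul_mem _ _ hecx, smul_ne_zero (by exact_mod_cast hs0) he0, ?_⟩
  have h1 : ((s : ℂ) • e) * ((s : ℂ) • e)ᴴ - ((s : ℂ) • e)ᴴ * ((s : ℂ) • e) =
      ((s : ℂ) * s) • cor e := by
    simp only [cor, smul_sub, smul_smul, conjTranspose_smul, star_def, conj_ofReal, Matrix.smul_mul,
      Matrix.mul_smul]
  rw [h1]
  simp only [Matrix.smul_mul, Matrix.mul_smul, smul_smul]
  rw [mul_comm (s : ℂ) (s * s), ← smul_sub, ha', smul_smul, ← Nat.cast_smul_eq_nsmul ℂ, smul_smul]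
  congr 1
  push_cast
  linear_combination s * hs2

namespace IsRootVec

variable {g : Submodule ℝ (Matrix ι ι ℂ)} {e : Matrix ι ι ℂ} (he : IsRootVec g e)
include he

theorem rel_e : cor e * e - e * cor e = 2 • e := he.rel

theorem rel_f : cor e * eᴴ - eᴴ * cor e = -(2 • eᴴ) := by
  have := congrArg conjTranspose he.rel_e
  simp only [conjTranspose_sub, conjTranspose_mul, cor_conjTranspose, conjTranspose_nsmul] at this
  rw [← this]; abel

theorem cor_ne_zero : cor e ≠ 0 := by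
  intro h
  have := he.rel_e
  rw [h] at this
  rw [Matrix.zero_mul, Matrix.mul_zero, sub_zero, ← Nat.cast_smul_eq_nsmul ℂ] at this
  exact he.ne ((smul_eq_zero.1 this.symm).resolve_left (by norm_num))

theorem cor_mem_cx (hg : IsCompactLie g) : cor e ∈ cx g :=
  hg.lie_mem_cx he.mem (hg.conjTranspose_mem_cx he.mem)

theorem I_cor_mem (hg : IsCompactLie g) : I • cor e ∈ g :=
  hg.mem_of_skew (Submodule.smul_mem _ _ (he.cor_mem_cx hg)) (by simp [cor_conjTranspose])

theorem left_int {Y : Matrix ι ι ℂ} (hY : Y ≠ 0) {μ : ℂ} (h : cor e * Y = μ • Y) :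
    ∃ k : ℤ, μ = k ∧ |k| ≤ finrank ℂ (Matrix ι ι ℂ) := by
  refine sl2_int (H := LinearMap.mulLeft ℂ (cor e)) (E := LinearMap.mulLeft ℂ e)
    (F := LinearMap.mulLeft ℂ eᴴ) ?_ ?_ ?_ hY h
  · ext1 x; simp [cor, Matrix.sub_mul, Matrix.mul_assoc]
  · ext1 x
    have := congrArg (· * x) he.rel_e
    simpa [Matrix.sub_mul, Matrix.mul_assoc] using this
  · ext1 x
    have := congrArg (· * x) he.rel_f
    simpa [Matrix.sub_mul, Matrix.mul_assoc] using this

theorem ad_int (hg : IsCompactLie g) {Y : Matrix ι ι ℂ} (hYg : Y ∈ cx g) (hY : Y ≠ 0) {μ : ℂ}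
    (h : cor e * Y - Y * cor e = μ • Y) : ∃ k : ℤ, μ = k ∧ |k| ≤ finrank ℝ g := by
  let ad : Matrix ι ι ℂ → End ℂ (Matrix ι ι ℂ) := fun T =>
    LinearMap.mulLeft ℂ T - LinearMap.mulRight ℂ T
  have had : ∀ T X, ad T X = T * X - X * T := fun T X => rfl
  have hlie : ∀ A B, ad A * ad B - ad B * ad A = ad (A * B - B * A) := by
    intro A B
    ext1 x
    simp only [LinearMap.sub_apply, End.mul_apply, had, Matrix.mul_sub, Matrix.sub_mul,
      Matrix.mul_assoc]
    abel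
  obtain ⟨k, hk, hk'⟩ := sl2_int' (cx g) (H := ad (cor e)) (E := ad e) (F := ad eᴴ)
    (fun x hx => hg.lie_mem_cx (he.cor_mem_cx hg) hx) (fun x hx => hg.lie_mem_cx he.mem hx)
    (fun x hx => hg.lie_mem_cx (hg.conjTranspose_mem_cx he.mem) hx) (hlie _ _)
    (by rw [hlie, he.rel_e]; ext1 x
        simp only [had, two_smul, LinearMap.add_apply, Matrix.add_mul, Matrix.mul_add]; abel)
    (by rw [hlie, he.rel_f]; ext1 x
        simp only [had, two_smul, LinearMap.add_apply, LinearMap.neg_apply, Matrix.add_mul,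
          Matrix.mul_add, Matrix.neg_mul, Matrix.mul_neg]; abel) hYg hY h
  exact ⟨k, hk, hk'.trans (by exact_mod_cast finrank_cx_le g)⟩

end IsRootVec

end

end Pool.Agent.Lib.MP_775e5c_al
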