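import Pool.Agent.Lib.MP_775e5c_al.Weights

/-!
The probability that a word nearly commutes with a Hermitian operator.
-/

namespace Pool.Agent.Lib.MP_775e5c_al

open MeasureTheory Measure Module InnerProductSpace
open scoped ENNReal

noncomputable section

variable {W : Type*} [NormedAddCommGroup W] [InnerProductSpace ℂ W]

theorem block_le {n : ℕ} (b : OrthonormalBasis (Fin n) ℂ W) {x : Fin n → ℝ} (hx : Antitone x)
    {H : W → W} (hs : ∀ u v, inner ℂ (H u) v = inner ℂ u (H v))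
    (hb : ∀ a, H (b a) = (x a : ℂ) • b a) (w : W →ₗ[ℂ] W) {R : ℝ} (hR : 0 ≤ R)
    (hw : ∀ z, ‖w (H z) - H (w z)‖ ≤ R * ‖z‖) {L h : Fin n} (hL : x h ≤ x L) {y z : W}
    (hz : ∀ a, L < a → inner ℂ (b a) z = 0) (hy : ∀ a, a < h → inner ℂ (b a) y = 0)
    (hz1 : ‖z‖ = 1) : ‖inner ℂ y (w z)‖ * (x L - x h) ≤ n ^ 2 * R * ‖y‖ := by
  have e : inner ℂ y (w z) =
      ∑ a, ∑ c, inner ℂ (b a) z * (inner ℂ y (b c) * inner ℂ (b c) (w (b a))) := by
    conv_lhs => rw [← b.sum_repr' z]
    simp only [_root_.map_sum, map_smul, inner_sum, inner_smul_right, ← Finset.mul_sum,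
      b.sum_inner_mul_inner]
  have key : ∀ a c, ‖inner ℂ (b a) z * (inner ℂ y (b c) * inner ℂ (b c) (w (b a)))‖ *
      (x L - x h) ≤ R * ‖y‖ := fun a c => by
    rcases lt_or_ge L a with h1 | h1
    · rw [hz a h1]; simp; positivity
    rcases lt_or_ge c h with h2 | h2
    · rw [inner_eq_zero_symm.1 (hy c h2)]; simp; positivity
    have h3 := (norm_inner_le_norm (𝕜 := ℂ) (b c) _).trans
      (mul_le_mul_of_nonneg_left (hw (b a)) (norm_nonneg _))
    rw [inner_sub_right, ← hs, hb, hb, map_smul, inner_smul_right, inner_smul_left,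
      Complex.conj_ofReal, ← sub_mul, norm_mul, ← Complex.ofReal_sub, Complex.norm_real,
      b.norm_eq_one, b.norm_eq_one, one_mul, mul_one] at h3
    have h4 : x L - x h ≤ ‖x a - x c‖ :=
      le_trans (by linarith [hx h1, hx h2]) (le_abs_self _)
    have h5 : ‖inner ℂ (b a) z‖ ≤ 1 := by simpa [hz1] using norm_inner_le_norm (𝕜 := ℂ) (b a) z
    have h6 : ‖inner ℂ y (b c)‖ ≤ ‖y‖ := by simpa using norm_inner_le_norm (𝕜 := ℂ) y (b c)
    rw [norm_mul, norm_mul]
    calc _ ≤ 1 * (‖y‖ * ‖inner ℂ (b c) (w (b a))‖) * ‖x a - x c‖ := by gcongr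
      _ = ‖y‖ * (‖x a - x c‖ * ‖inner ℂ (b c) (w (b a))‖) := by ring
      _ ≤ ‖y‖ * R := by gcongr
      _ = _ := mul_comm _ _
  rw [e]
  calc _ ≤ (∑ a, ∑ c, ‖inner ℂ (b a) z * (inner ℂ y (b c) * inner ℂ (b c) (w (b a)))‖) *
        (x L - x h) := mul_le_mul_of_nonneg_right ((norm_sum_le _ _).trans
          (Finset.sum_le_sum fun a _ => norm_sum_le _ _)) (by linarith)
    _ ≤ ∑ _a : Fin n, ∑ _c : Fin n, R * ‖y‖ := by
        rw [Finset.sum_mul]
        refine Finset.sum_le_sum fun a _ => ?_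
        rw [Finset.sum_mul]
        exact Finset.sum_le_sum fun c _ => key a c
    _ = _ := by simp; ring

theorem finrank_span_image {n : ℕ} (b : OrthonormalBasis (Fin n) ℂ W) (s : Finset (Fin n)) :
    finrank ℂ (Submodule.span ℂ (b '' s)) = s.card := by
  rw [Set.image_eq_range]
  exact (finrank_span_eq_card
    (b.orthonormal.linearIndependent.comp _ Subtype.val_injective)).trans (by simp)

theorem inner_eq_zero_of_mem_span {n : ℕ} (b : OrthonormalBasis (Fin n) ℂ W) {s : Finset (Fin n)}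
    {z : W} (hz : z ∈ Submodule.span ℂ (b '' s)) {a : Fin n} (ha : a ∉ s) :
    inner ℂ (b a) z = 0 := by
  refine Submodule.mem_orthogonal_singleton_iff_inner_right.1 (Submodule.span_le.2 ?_ hz)
  rintro _ ⟨c, hc, rfl⟩
  exact Submodule.mem_orthogonal_singleton_iff_inner_right.2
    (b.orthonormal.2 fun h => ha (h ▸ hc))

theorem prod_pow_le {n k Λ : ℕ} {h : Fin n} (hk : h < k * Λ) {η : ℕ → ℝ}
    (hη : ∀ j, 0 < η j ∧ η j ≤ 1) {θ : Fin n → ℝ} (h1 : ∀ a, a ≤ h → η (a / Λ) ≤ θ a)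
    (h2 : ∀ a, h < a → 1 ≤ θ a) : (∏ j ∈ Finset.range k, η j) ^ Λ ≤ ∏ a, θ a := by
  have hΛ : 0 < Λ := Nat.pos_of_ne_zero fun h => by simp [h] at hk
  calc _ ≤ ∏ j ∈ Finset.range k, ∏ a ∈ Finset.Iic h with a.1 / Λ = j, η (a.1 / Λ) := by
        rw [← Finset.prod_pow]
        refine Finset.prod_le_prod (fun j _ => pow_nonneg (hη j).1.le _) fun j _ => ?_
        rw [Finset.prod_congr rfl (g := fun _ => η j) fun a ha => by
          rw [(Finset.mem_filter.1 ha).2], Finset.prod_const]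
        refine pow_le_pow_of_le_one (hη j).1.le (hη j).2 ?_
        refine le_of_le_of_eq (Finset.card_le_card_of_injOn (fun a => (a : ℕ) % Λ)
          (fun a _ => by simpa using Nat.mod_lt _ hΛ) fun a ha c hc e => Fin.ext ?_)
          (Finset.card_range Λ)
        rw [← Nat.div_add_mod a Λ, ← Nat.div_add_mod c Λ, (Finset.mem_filter.1 ha).2,
          (Finset.mem_filter.1 hc).2]
        exact congrArg _ e
    _ = ∏ a ∈ Finset.Iic h, η (a.1 / Λ) := Finset.prod_fiberwise_of_maps_to (fun (a : Fin n) ha =>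
        Finset.mem_range.2 ((Nat.div_lt_iff_lt_mul hΛ).2
          (lt_of_le_of_lt (Fin.le_def.1 (Finset.mem_Iic.1 ha)) hk))) _
    _ = ∏ a : Fin n, if a ≤ h then η (a / Λ) else 1 := by
        rw [← Finset.prod_filter]; congr 1; ext; simp
    _ ≤ _ := Finset.prod_le_prod (fun a _ => by split_ifs; exacts [(hη _).1.le, zero_le_one])
        fun a _ => by split_ifs with ha; exacts [h1 a ha, h2 a (not_le.1 ha)]

variable [DecidableEq W] [InnerProductSpace ℝ W] [IsScalarTower ℝ ℂ W]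
  [FiniteDimensional ℂ W] [FiniteDimensional ℝ W] [MeasurableSpace W] [BorelSpace W]
  {α : Type*} {K : Type*} [DecidableEq α] [Group K] [Fintype α] [TopologicalSpace K]
  [IsTopologicalGroup K] [CompactSpace K] [MeasurableSpace K] [BorelSpace K]
  [SecondCountableTopology K] [DistribMulAction K W] [IsIsometricSMul K W] [ContinuousSMul K W]
  [SMulCommClass K ℂ W]

/-- The event that the word nearly commutes with `H`. -/
def Near (K : Type*) [Group K] [SMul K W] (L : List (α × Bool)) (H : W → W) (R : ℝ) :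
    Set (α → K) := {g | ∀ z, ‖ev g L • H z - H (ev g L • z)‖ ≤ R * ‖z‖}

theorem half_bound (μ : Measure K) [μ.IsHaarMeasure] [IsProbabilityMeasure μ] {j : W →ₗ⋆[ℂ] W}
    {n m p k Λ e : ℕ} (hn : finrank ℂ W = n) (hW : HasWts α μ j m (2 * p))
    {L : List (α × Bool)} (hL : FreeGroup.IsReduced L) (hL0 : L ≠ [])
    (hm : 2 * (m + 1) ≤ n) (hk : k * (L.length + 1) ≤ m) (hΛ : 2 * L.length + 3 ≤ Λ)
    (he : e + 2 * n * L.length ≤ 2 * p * L.length + n) :
    ∃ C : ℝ≥0∞, C ≠ ⊤ ∧ ∀ (R : ℝ), 0 < R → ∀ (H : W → W), Continuous H →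
      (∀ u v, inner ℂ (H u) v = inner ℂ u (H v)) → (∀ z, j (H z) = -H (j z)) →
      ∀ (b : OrthonormalBasis (Fin n) ℂ W) (x : Fin n → ℝ), Antitone x → ∑ a, x a = 0 →
      (∀ a, H (b a) = (x a : ℂ) • b a) → ∀ h : Fin n, 2 * h ≤ n → h < k * Λ →
      (Measure.pi fun _ : α => μ) (Near K L H R) ^ Λ ≤ C * ENNReal.ofReal
        ((∏ a, n ^ 2 * R / (n ^ 2 * R + max (x a - x h) 0)) ^ e) := by
  obtain ⟨vol, _, ω, c, hc, P1, P2, P3⟩ := hW
  have hd : finrank ℝ W = 2 * n := by
    rw [← hn, ← Complex.finrank_real_complex, finrank_mul_finrank ℝ ℂ W]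
  set V := vol (Metric.closedBall 0 1) with hV
  have hV0 : V ≠ 0 := (Metric.measure_closedBall_pos vol _ one_pos).ne'
  set D := 3 ^ (2 * n) * vol (Metric.closedBall 0 3) with hD
  have hDt : D ≠ ⊤ := ENNReal.mul_ne_top (by finiteness) measure_closedBall_lt_top.ne
  refine ⟨(((V⁻¹ * c) ^ L.length * D) ^ k) ^ Λ, by finiteness,
    fun R hR H hH hs hj b x hx hsum hb h hh hhk => ?_⟩
  set R₁ : ℝ := n ^ 2 * R with hR₁
  have hR₁0 : 0 < R₁ := by have : 0 < n := by omega
                           positivity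
  set y : ℕ → ℝ := fun i => if hi : i * Λ < n then max (x ⟨i * Λ, hi⟩ - x h) 0 else 0 with hy
  have hy0 : ∀ i, 0 ≤ y i := fun i => by
    simp only [hy]; split_ifs; exacts [le_max_right _ _, le_rfl]
  set η : ℕ → ℝ := fun i => R₁ / (R₁ + y i) with hη
  have hη1 : ∀ i, 0 < η i ∧ η i ≤ 1 := fun i =>
    ⟨div_pos hR₁0 (by linarith [hy0 i]), (div_le_one (by linarith [hy0 i])).2 (by linarith [hy0 i])⟩
  set B := (Submodule.span ℂ (b '' Finset.Ici h)).restrictScalars ℝ with hB
  have hBd : finrank ℝ B = 2 * (n - h) := by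
    rw [finrank_restrict, finrank_span_image, Fin.card_Ici]
  have hA : MeasurableSet (Near K L H R : Set (α → K)) := by
    refine IsClosed.measurableSet ?_
    simp only [Near, Set.ofPred_forall]
    exact isClosed_iInter fun z => isClosed_le ((((continuous_ev L).smul continuous_const).sub
      (hH.comp ((continuous_ev L).smul continuous_const))).norm) continuous_const
  have main := traj_bound μ vol hc P1 P2 hL hL0 hA k 0 η
    (fun i => ENNReal.ofReal (η i) ^ n * D) hη1 (fun i => by finiteness) (by simpa using hk)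
    (fun i hi S hS => ?_) Set.univ ∅ MeasurableSet.univ le_rfl fun x k _ g => Iff.rfl
  · rw [Set.inter_univ, measure_univ, mul_one] at main
    have h1 := prod_pow_le hhk hη1 (θ := fun a => R₁ / (R₁ + max (x a - x h) 0))
      (fun a ha => by
        have h2 : (a : ℕ) / Λ * Λ ≤ a := Nat.div_mul_le_self _ _
        have h3 : (a : ℕ) / Λ * Λ < n := h2.trans_lt a.2
        simp only [hη, hy, dif_pos h3]
        gcongr
        exact hx h2)
      fun a ha => by rw [max_eq_right (sub_nonpos.2 (hx ha.le)), add_zero, div_self hR₁0.ne']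
    have h0 : 0 ≤ ∏ i ∈ Finset.range k, η i := Finset.prod_nonneg fun i _ => (hη1 i).1.le
    refine (pow_le_pow_left' (main.trans (Finset.prod_le_prod' (g := fun i =>
      (V⁻¹ * c) ^ L.length * D * ENNReal.ofReal (η i) ^ e) fun i _ => ?_)) Λ).trans ?_
    · have ht0 : ENNReal.ofReal (η i) ^ (2 * n * L.length) ≠ 0 :=
        pow_ne_zero _ (ENNReal.ofReal_pos.2 (hη1 i).1).ne'
      have ht : ENNReal.ofReal (η i) ^ (2 * n * L.length) ≠ ⊤ := by finiteness
      rw [addHaar_closedBall' vol _ (hη1 i).1.le, hd, ENNReal.ofReal_pow (hη1 i).1.le,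
        ENNReal.ofReal_pow (hη1 i).1.le, ENNReal.mul_inv (Or.inr measure_closedBall_lt_top.ne)
          (Or.inr hV0)]
      calc _ = (V⁻¹ * c) ^ L.length * D * (ENNReal.ofReal (η i) ^ (2 * p * L.length + n) *
            (ENNReal.ofReal (η i) ^ (2 * n * L.length))⁻¹) := by
            simp only [ENNReal.inv_pow]; ring
        _ ≤ _ := by
            gcongr
            refine (mul_le_mul_left (pow_le_pow_right_of_le_one'
              (ENNReal.ofReal_le_one.2 (hη1 i).2) he) _).trans_eq ?_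
            rw [pow_add, mul_assoc, ENNReal.mul_inv_cancel ht0 ht, mul_one]
    · rw [Finset.prod_mul_distrib, Finset.prod_const, Finset.card_range, mul_pow, Finset.prod_pow,
        ← ENNReal.ofReal_prod_of_nonneg fun i _ => (hη1 i).1.le, ← pow_mul _ e, mul_comm e, pow_mul _ Λ,
        ← ENNReal.ofReal_pow h0, ← ENNReal.ofReal_pow (by positivity)]
      gcongr
  rw [zero_add] at hS
  have hSm : S.card ≤ m := hS.trans ((Nat.mul_le_mul_right _ hi.le).trans hk)
  obtain ⟨z, hz1, hz2, hz3⟩ : ∃ z : W, ‖z‖ = 1 ∧ ω S z ≤ c ∧ ∀ g ∈ (Near K L H R : Set (α → K)),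
      ∀ u ∈ B, ‖inner ℂ u (ev g L • z)‖ * y i ≤ R₁ * ‖u‖ := by
    rcases (hy0 i).eq_or_lt with h0 | h0
    · obtain ⟨z, -, h1, h2, h3⟩ := exists_start j S (T := ⊤) (by rw [finrank_top]; omega)
      exact ⟨z, h2, P3 S z h1 h2 h3, fun g _ u _ => by rw [← h0, mul_zero]; positivity⟩
    have hi' : i * Λ < n := by
      by_contra h1
      simp [hy, h1] at h0
    have h1 : 0 < x ⟨i * Λ, hi'⟩ - x h := by simpa [hy, hi'] using h0
    suffices h2 : ∃ z ∈ Submodule.span ℂ (b '' Finset.Iic (⟨i * Λ, hi'⟩ : Fin n)),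
        z ∈ (cU j S)ᗮ ∧ ‖z‖ = 1 ∧ inner ℂ (j z) z = 0 by
      obtain ⟨z, h2, h3, h4, h5⟩ := h2
      refine ⟨z, h4, P3 S z h3 h4 h5, fun g hg u hu => ?_⟩
      simp only [hy, dif_pos hi', max_eq_left h1.le]
      exact block_le b hx hs hb (DistribSMul.toLinearMap ℂ W (ev g L)) hR.le hg
        (by linarith) (fun a ha => inner_eq_zero_of_mem_span b h2 (by simpa using ha))
        (fun a ha => inner_eq_zero_of_mem_span b hu (by simpa using ha)) h4
    rcases i.eq_zero_or_pos with rfl | hi0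
    · obtain rfl : S = ∅ := by simpa using hS
      refine ⟨b ⟨0 * Λ, hi'⟩, Submodule.subset_span ⟨_, by simp, rfl⟩, by simp [cU],
        b.norm_eq_one _, ?_⟩
      have h2 : x ⟨0 * Λ, hi'⟩ ≠ 0 := fun h2 => by
        have := (Finset.sum_eq_zero_iff_of_nonpos fun a _ =>
          h2 ▸ hx (show (⟨0 * Λ, hi'⟩ : Fin n) ≤ a by simp [Fin.le_def])).1 hsum h
            (Finset.mem_univ _)
        linarith
      have h3 := hs (j (b ⟨0 * Λ, hi'⟩)) (b ⟨0 * Λ, hi'⟩)
      rw [← neg_neg (H (j _)), ← hj, hb, LinearMap.map_smulₛₗ, inner_neg_left, inner_smul_left,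
        inner_smul_right, Complex.conj_conj] at h3
      have h4 : (x ⟨0 * Λ, hi'⟩ : ℂ) ≠ 0 := Complex.ofReal_ne_zero.2 h2
      exact (mul_eq_zero.1 (by linear_combination (-1 / 2 : ℂ) * h3)).resolve_left h4
    · refine exists_start j S ?_
      rw [finrank_span_image, Fin.card_Iic]
      nlinarith
  refine ⟨z, hz1.le, hz2, {u | ‖u‖ ≤ 2 ∧ ‖B.starProjection u‖ ≤ 3 * η i}, ?_, ?_,
    fun g hg u hu => ?_⟩
  · exact ((isClosed_le continuous_norm continuous_const).inter
      (isClosed_le B.starProjection.continuous.norm continuous_const)).measurableSet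
  · refine (measure_near_le vol B (by linarith [(hη1 i).1])).trans ?_
    rw [ENNReal.ofReal_pow (by linarith [(hη1 i).1]), ENNReal.ofReal_mul (by norm_num), mul_pow,
      hD, ← mul_assoc, mul_comm _ (3 ^ _), ENNReal.ofReal_ofNat]
    exact mul_le_mul_left (mul_le_mul' (pow_le_pow_right₀ (by norm_num) (by omega))
      (pow_le_pow_right_of_le_one' (ENNReal.ofReal_le_one.2 (hη1 i).2) (by omega))) _
  · have h1 : ‖ev g L • z‖ = 1 := by
      rw [← dist_zero_right, ← smul_zero (ev g L), dist_smul, dist_zero_right, hz1]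
    rw [dist_eq_norm] at hu
    have h2 := norm_sub_le (ev g L • z) (ev g L • z - u)
    have h3 := norm_sub_le (B.starProjection (ev g L • z)) (B.starProjection (ev g L • z - u))
    rw [sub_sub_cancel] at h2
    rw [← map_sub, sub_sub_cancel] at h3
    have h4 := B.norm_starProjection_apply_le (ev g L • z - u)
    have h5 := B.norm_starProjection_apply_le (ev g L • z)
    have h6 := hz3 g hg _ (B.starProjection_apply_mem (ev g L • z))
    have h7 := B.starProjection_inner_eq_zero (ev g L • z) _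
      (B.starProjection_apply_mem (ev g L • z))
    rw [real_inner_comm, inner_sub_right, real_inner_self_eq_norm_sq, inner_re] at h7
    have h8 := Complex.re_le_norm (inner ℂ (B.starProjection (ev g L • z)) (ev g L • z))
    have h9 : ‖B.starProjection (ev g L • z)‖ * y i ≤ R₁ := by
      rcases (norm_nonneg (B.starProjection (ev g L • z))).eq_or_lt with h0 | h0
      · rw [← h0, zero_mul]; exact hR₁0.le
      · refine le_of_mul_le_mul_right ?_ h0
        nlinarith [hy0 i]
    have h10 : ‖B.starProjection (ev g L • z)‖ ≤ 2 * η i := by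
      rw [hη, ← mul_div_assoc, le_div_iff₀ (by linarith [hy0 i])]
      nlinarith
    exact ⟨by linarith [(hη1 i).2], by linarith⟩

theorem div_le_sq {R y : ℝ} (hR : 0 < R) :
    R / (R + max y 0) * (R / (R + max (-y) 0)) ≤ 2 * (1 + R) * (1 + √|y|)⁻¹ ^ 2 := by
  have e : R / (R + max y 0) * (R / (R + max (-y) 0)) = R / (R + |y|) := by
    rcases le_total y 0 with h | h
    · rw [max_eq_right h, max_eq_left (by linarith), abs_of_nonpos h, add_zero, div_self hR.ne',
        one_mul]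
    · rw [max_eq_left h, max_eq_right (by linarith), abs_of_nonneg h, add_zero, div_self hR.ne',
        mul_one]
  have h0 := abs_nonneg y
  have h1 := Real.sq_sqrt h0
  rw [e, inv_pow, ← div_eq_mul_inv, div_le_div_iff₀ (by positivity) (by positivity)]
  nlinarith [sq_nonneg (√|y| - 1), mul_nonneg hR.le h0, mul_pos hR hR]

theorem full_bound (μ : Measure K) [μ.IsHaarMeasure] [IsProbabilityMeasure μ] {j : W →ₗ⋆[ℂ] W}
    {n : ℕ} (hn : finrank ℂ W = n)
    (hW : ∀ m p, 0 < p → p + 2 * (m + 1) ≤ n → HasWts α μ j m (2 * p))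
    {L : List (α × Bool)} (hL : FreeGroup.IsReduced L) (hL0 : L ≠ [])
    (hl : 16 * L.length * (L.length + 2) ≤ n) {R : ℝ} (hR : 0 < R) :
    ∃ C : ℝ≥0∞, C ≠ ⊤ ∧ ∃ ε : Fin n → ℂ, (∀ a, ‖ε a‖ = 1) ∧ ∀ H : W →L[ℂ] W,
      (∀ u v, inner ℂ (H u) v = inner ℂ u (H v)) → (∀ z, j (H z) = -H (j z)) →
      LinearMap.trace ℂ W (H : W →ₗ[ℂ] W) = 0 → ∃ (v : Fin n → W) (t : ℂ),
        H = t • 1 + ∑ a, ε a • rankOne ℂ (v a) (v a) ∧
        (Measure.pi fun _ : α => μ) (Near K L H R) ^ (80 * L.length * (L.length + 1)) ≤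
          C * ENNReal.ofReal (∏ a, (1 + ‖v a‖)⁻¹ ^ (4 * n + 1)) := by
  have hl0 : 0 < L.length := List.length_pos_iff.2 hL0
  set l := L.length with hl'
  set Λ := 8 * l * (l + 1) with hΛ
  have hΛ0 : 0 < Λ := by positivity
  have hk1 := Nat.lt_div_mul_add (a := n) (b := 2 * Λ) (by positivity)
  have hk2 := Nat.div_mul_le_self n (2 * Λ)
  set q := n / (2 * Λ)
  set m := (q + 1) * (l + 1) with hm
  have h1 : 8 * (l * (m + 1)) ≤ n := by rw [hm]; rw [hΛ] at hk2; nlinarith
  have h2 : m + 1 ≤ l * (m + 1) := Nat.le_mul_of_pos_left _ hl0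
  obtain ⟨p, hp⟩ : ∃ p, n = p + 2 * (m + 1) := ⟨n - 2 * (m + 1), by omega⟩
  obtain ⟨e, he⟩ : ∃ e, n = e + 4 * (l * (m + 1)) := ⟨n - 4 * (l * (m + 1)), by omega⟩
  obtain ⟨C, hC, hb⟩ := half_bound μ hn (hW m p (by omega) hp.ge) hL hL0 (k := q + 1) (Λ := Λ)
    (e := e) (by omega) le_rfl (by rw [hΛ]; nlinarith) (by rw [← hl']; nlinarith)
  set h : Fin n := ⟨n / 2, by omega⟩ with hh
  set R₁ : ℝ := n ^ 2 * R with hR₁
  have hR₁0 : 0 < R₁ := by have : 0 < n := by omega
                           positivity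
  refine ⟨(C * C) ^ 5 * ENNReal.ofReal (((2 * (1 + R₁)) ^ (e * 5)) ^ n), by finiteness,
    fun a => if a ≤ h then 1 else -1, fun a => by beta_reduce; split_ifs <;> simp, fun H hs hj htr => ?_⟩
  have hT : (H : W →ₗ[ℂ] W).IsSymmetric := hs
  set b := hT.eigenvectorBasis hn
  set x := hT.eigenvalues hn
  have hx : Antitone x := hT.eigenvalues_antitone hn
  have hbx : ∀ a, H (b a) = (x a : ℂ) • b a := hT.apply_eigenvectorBasis hn
  have hsum : ∑ a, x a = 0 := by
    rw [← hT.re_trace_eq_sum_eigenvalues hn, htr, map_zero]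
  refine ⟨fun a => (√|x a - x h| : ℂ) • b a, x h, ?_, ?_⟩
  · refine ContinuousLinearMap.coe_injective (b.toBasis.ext fun c => ?_)
    simp only [OrthonormalBasis.coe_toBasis, ContinuousLinearMap.coe_coe, hbx,
      _root_.add_apply, _root_.smul_apply, one_apply_eq_self, _root_.sum_apply, rankOne_apply, inner_smul_left, smul_smul]
    rw [Finset.sum_eq_single c (fun a _ ha => by simp [b.orthonormal.2 ha]) (by simp), ← add_smul,
      inner_self_eq_norm_sq_to_K, b.norm_eq_one, Complex.conj_ofReal]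
    congr 1
    have := Real.mul_self_sqrt (abs_nonneg (x c - x h))
    split_ifs with hc
    · rw [abs_of_nonneg (sub_nonneg.2 (hx hc))] at this ⊢
      simp only [one_mul, mul_one, one_pow, RCLike.ofReal_one]
      exact_mod_cast (by linarith)
    · rw [abs_of_nonpos (sub_nonpos.2 (hx (not_le.1 hc).le))] at this ⊢
      simp only [one_mul, mul_one, one_pow, RCLike.ofReal_one, neg_mul]
      exact_mod_cast (by linarith)
  have g1 := hb R hR H H.continuous hs hj b x hx hsum hbx h (by simp [hh]; omega)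
    (by simp only [hh]; nlinarith [Nat.div_mul_le_self n 2])
  have g2 := hb R hR (fun z => -H z) H.continuous.neg (fun u v => by simp [hs])
    (fun z => by simp [hj]) (b.reindex Fin.revPerm) (fun a => -x a.rev)
    (fun a c hac => neg_le_neg (hx (Fin.rev_le_rev.2 hac)))
    (by rw [Finset.sum_neg_distrib, neg_eq_zero, ← hsum]; exact Equiv.sum_comp Fin.revPerm x)
    (fun a => by simp [hbx]) h.rev (by simp [hh]; omega)
    (by
      have : (h.rev : ℕ) ≤ n / 2 := by simp [hh]; omega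
      nlinarith [Nat.div_mul_le_self n 2])
  have e1 : Near K L (fun z => -H z) R = Near K L H R := by
    ext g
    refine forall_congr' fun z => ?_
    rw [smul_neg, ← neg_sub', norm_neg]
  rw [e1, Fin.rev_rev, ← Equiv.prod_comp Fin.revPerm] at g2
  simp only [Fin.revPerm_apply, Fin.rev_rev] at g2
  have p0 : ∀ y : Fin n → ℝ, 0 ≤ ∏ a, R₁ / (R₁ + max (y a) 0) := fun y =>
    Finset.prod_nonneg fun a _ => by positivity
  refine le_trans (le_of_eq ?_) ((pow_le_pow_left' (mul_le_mul' g1 g2) 5).trans ?_)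
  · rw [← pow_add, ← pow_mul, hΛ]; congr 1; ring
  rw [mul_mul_mul_comm, mul_pow, ← ENNReal.ofReal_mul (pow_nonneg (p0 _) _), mul_assoc,
    ← ENNReal.ofReal_mul (by positivity), ← ENNReal.ofReal_pow
      (mul_nonneg (pow_nonneg (p0 _) _) (pow_nonneg (p0 _) _)), ← mul_pow, ← pow_mul,
    ← Finset.prod_mul_distrib, ← Finset.prod_pow, ← Fin.prod_const n, ← Finset.prod_mul_distrib]
  refine mul_le_mul_right (ENNReal.ofReal_le_ofReal (Finset.prod_le_prod
    (fun a _ => by positivity) fun a _ => ?_)) _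
  rw [norm_smul, b.norm_eq_one, mul_one, Complex.norm_real, Real.norm_of_nonneg (Real.sqrt_nonneg _),
    ← neg_sub']
  refine (pow_le_pow_left₀ (by positivity) (div_le_sq hR₁0) _).trans ?_
  rw [mul_pow, ← pow_mul]
  exact mul_le_mul_of_nonneg_left (pow_le_pow_of_le_one (by positivity)
    (inv_le_one_of_one_le₀ (by linarith [Real.sqrt_nonneg |x a - x h|])) (by omega))
    (by positivity)

end

end Pool.Agent.Lib.MP_775e5c_al
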