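import Pool.Agent.Lib.MP_775e5c_al.Conv

/-!
The trajectory argument for a compact group acting by isometries.
-/

namespace Pool.Agent.Lib.MP_775e5c_al

open MeasureTheory Measure
open scoped ENNReal

noncomputable section

variable {α K : Type*} [DecidableEq α] [Group K]

/-- The value of a letter. -/
def lt (g : α → K) (x : α × Bool) : K := cond x.2 (g x.1) (g x.1)⁻¹

/-- The change of variables multiplying the value of the letter `x` by `k` on the right. -/
def mv (x : α × Bool) (k : K) (g : α → K) : α → K :=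
  Function.update g x.1 (cond x.2 (g x.1 * k) (k⁻¹ * g x.1))

theorem lt_mv_self (x : α × Bool) (k : K) (g : α → K) : lt (mv x k g) x = lt g x * k := by
  obtain ⟨a, _ | _⟩ := x <;> simp [lt, mv]

theorem lt_mv_not (x : α × Bool) (k : K) (g : α → K) :
    lt (mv (x.1, !x.2) k g) x = k⁻¹ * lt g x := by
  obtain ⟨a, _ | _⟩ := x <;> simp [lt, mv]

theorem lt_mv_ne {x y : α × Bool} (h : y.1 ≠ x.1) (k : K) (g : α → K) :
    lt (mv y k g) x = lt g x := by
  simp [lt, mv, Function.update_of_ne h.symm]

/-- Invariance of an event under the moves fixing `S`. -/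
def Inv {W : Type*} [MulAction K W] (E : Set (α → K)) (x : α × Bool) (S : Set W) : Prop :=
  ∀ k : K, (∀ s ∈ S, k • s = s) → ∀ g, mv x k g ∈ E ↔ g ∈ E

theorem Inv.mono {W : Type*} [MulAction K W] {E : Set (α → K)} {x : α × Bool} {S S' : Set W}
    (h : Inv E x S) (hS : S ⊆ S') : Inv E x S' := fun k hk => h k fun s hs => hk s (hS hs)

theorem Inv.inter {W : Type*} [MulAction K W] {E E' : Set (α → K)} {x : α × Bool} {S : Set W}
    (h : Inv E x S) (h' : Inv E' x S) : Inv (E ∩ E') x S :=
  fun k hk g => and_congr (h k hk g) (h' k hk g)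

section
variable {W : Type*} [PseudoMetricSpace W] [MulAction K W]

/-- The constraint that the letter `x` moves `u` close to `q`. -/
def Con (x : α × Bool) (u q : W) (η : ℝ) : Set (α → K) := {g | dist (lt g x • u) q ≤ η}

theorem inv_con [IsIsometricSMul K W] (x y : α × Bool) {u q : W} (η : ℝ) {S : Set W} (hu : u ∈ S)
    (hq : y = (x.1, !x.2) → q ∈ S) : Inv (Con (K := K) x u q η) y S := by
  intro k hk g
  simp only [Con, Set.mem_ofPred_eq]
  by_cases h1 : y.1 = x.1
  · by_cases h2 : y.2 = x.2
    · rw [Prod.ext h1 h2, lt_mv_self, mul_smul, hk u hu]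
    · have h3 : y = (x.1, !x.2) := Prod.ext h1 (by cases hy : y.2 <;> cases hx : x.2 <;> simp_all)
      rw [h3, lt_mv_not, mul_smul, ← dist_smul k, smul_inv_smul, hk q (hq h3)]
  · rw [lt_mv_ne h1]

/-- Apply the letters of a list one after the other. -/
def walk (g : α → K) (M : List (α × Bool)) (z : W) : W := M.foldl (fun v x => lt g x • v) z

omit [DecidableEq α] [PseudoMetricSpace W] in
theorem walk_reverse (g : α → K) (L : List (α × Bool)) (z : W) :
    walk g L.reverse z = ev g L • z := by
  induction L with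
  | nil => simp [walk, ev_nil]
  | cons x L ih =>
    rw [List.reverse_cons, walk, List.foldl_append, ev_cons, mul_smul, ← ih]; rfl

end

variable [Fintype α] [TopologicalSpace K] [IsTopologicalGroup K] [CompactSpace K]
  [MeasurableSpace K] [BorelSpace K] [SecondCountableTopology K]

omit [DecidableEq α] [Fintype α] [CompactSpace K] [MeasurableSpace K] [BorelSpace K]
  [SecondCountableTopology K] in
theorem continuous_lt (x : α × Bool) : Continuous fun g : α → K => lt g x := by
  obtain ⟨a, _ | _⟩ := x
  · exact (continuous_apply a).inv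
  · exact continuous_apply a

theorem measurePreserving_mv (μ : Measure K) [μ.IsHaarMeasure] (x : α × Bool) (k : K) :
    MeasurePreserving (mv x k) (Measure.pi fun _ : α => μ) (Measure.pi fun _ : α => μ) := by
  have := isMulRightInvariant μ
  have h := measurePreserving_pi (fun _ : α => μ) (fun _ : α => μ)
    (f := fun a y => if a = x.1 then cond x.2 (y * k) (k⁻¹ * y) else y) fun a => by
      split_ifs
      · cases x.2
        · exact measurePreserving_mul_left μ _
        · exact measurePreserving_mul_right μ _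
      · exact MeasurePreserving.id μ
  convert h using 1
  funext g a
  by_cases h : a = x.1
  · subst h; simp [mv]
  · simp [mv, h]

section con

variable {W : Type*} [PseudoMetricSpace W] [MulAction K W] [IsIsometricSMul K W]
  [ContinuousSMul K W]

omit [DecidableEq α] [Fintype α] [CompactSpace K] [MeasurableSpace K] [BorelSpace K]
  [SecondCountableTopology K] [IsIsometricSMul K W] in
theorem isClosed_con (x : α × Bool) (u q : W) (η : ℝ) : IsClosed (Con (K := K) x u q η) :=
  isClosed_le (((continuous_lt x).smul continuous_const).dist continuous_const) continuous_const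

/-- Adding one constraint costs the inverse of a packing number. -/
theorem card_mul_measure_con_le (μ : Measure K) [μ.IsHaarMeasure] {E : Set (α → K)}
    (hE : MeasurableSet E) {x : α × Bool} (u q : W) (η : ℝ) (T : Finset K)
    (hT : ∀ k ∈ T, ∀ g, mv x k g ∈ E ↔ g ∈ E)
    (hsep : ∀ k ∈ T, ∀ k' ∈ T, k ≠ k' → 2 * η < dist (k • u) (k' • u)) :
    T.card * (Measure.pi fun _ : α => μ) (E ∩ Con x u q η) ≤ (Measure.pi fun _ : α => μ) E := by
  have hm : MeasurableSet (E ∩ Con x u q η) := hE.inter (isClosed_con x u q η).measurableSet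
  have h1 : (Measure.pi fun _ : α => μ) (⋃ k ∈ T, mv x k ⁻¹' (E ∩ Con x u q η)) =
      T.card * (Measure.pi fun _ : α => μ) (E ∩ Con x u q η) := by
    rw [measure_biUnion_finset _ fun k _ => (measurePreserving_mv μ x k).measurable hm]
    · simp only [(measurePreserving_mv μ x _).measure_preimage hm.nullMeasurableSet,
        Finset.sum_const, nsmul_eq_mul]
    · intro k hk k' hk' hne
      refine Set.disjoint_left.2 fun g h h' => ?_
      have h2 : dist (lt (mv x k g) x • u) q ≤ η := h.2
      have h3 : dist (lt (mv x k' g) x • u) q ≤ η := h'.2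
      rw [lt_mv_self, mul_smul] at h2 h3
      have h4 := hsep k hk k' hk' hne
      rw [← dist_smul (lt g x)] at h4
      linarith [dist_triangle_right (lt g x • k • u) (lt g x • k' • u) q]
  rw [← h1]
  exact measure_mono (Set.iUnion₂_subset fun k hk g hg => (hT k hk g).1 hg.1)

end con

variable {W : Type*} [NormedAddCommGroup W] [NormedSpace ℝ W] [FiniteDimensional ℝ W]
  [MeasurableSpace W] [BorelSpace W] [DecidableEq W] [DistribMulAction K W] [IsIsometricSMul K W]
  [ContinuousSMul K W]

/-- Weight for the remaining part of a trajectory. -/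
def Gam (ω : Finset W → W → ℝ≥0∞) (a c : ℝ≥0∞) (Reg : Set W) (v : ℝ≥0∞) :
    List (α × Bool) → Finset W → W → ℝ≥0∞
  | [], _, u => Reg.indicator 1 u
  | _ :: M, S, u => ω S u * (a * ((a * c) ^ M.length * v))

theorem round_aux (μ : Measure K) [μ.IsHaarMeasure] [IsProbabilityMeasure μ] (vol : Measure W)
    [vol.IsAddHaarMeasure] {m m' : ℕ} (hm : m' ≤ m) {ω : Finset W → W → ℝ≥0∞}
    (hω : ∀ S u, ω S u ≠ ⊤) {η : ℝ} (hη : 0 < η) (hη1 : η ≤ 1) {b c β v : ℝ≥0∞} (hb : b ≠ ⊤)
    (hc : c ≠ ⊤) (hβ : β ≠ ⊤) (hv : v ≠ ⊤)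
    (P1 : ∀ (S : Finset W), S.card ≤ m → ∀ (E : Set (α → K)) x (u q : W), MeasurableSet E →
      Inv E x (S : Set W) → (Measure.pi fun _ : α => μ) (E ∩ Con x u q (2 * η)) ≤
        b * ω S u * (Measure.pi fun _ : α => μ) E)
    (P2 : ∀ S : Finset W, S.card ≤ m → ∫⁻ u in Metric.closedBall 0 2, ω S u ∂vol ≤ c)
    {A : Set (α → K)} (hA : MeasurableSet A)
    (H : ∀ (E : Set (α → K)) (S : Finset W), MeasurableSet E → S.card ≤ m' →
      (∀ x, Inv E x (S : Set W)) →
        (Measure.pi fun _ : α => μ) (A ∩ E) ≤ β * (Measure.pi fun _ : α => μ) E)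
    {Reg : Set W} (hReg : MeasurableSet Reg) (hRv : vol Reg ≤ v) (M : List (α × Bool))
    (hM : M.IsChain fun x y => y ≠ (x.1, !x.2)) (E : Set (α → K)) (S : Finset W) (u : W)
    (t : (α → K) → W) (hE : MeasurableSet E) (ht : Continuous t) (ht1 : ∀ g, ‖t g‖ ≤ 1)
    (hS : S.card + M.length + 1 ≤ m') (h1 : ∀ x, Inv E x ((insert u S : Finset W) : Set W))
    (h2 : ∀ x ∈ M.head?, Inv E x (S : Set W))
    (h3 : ∀ g ∈ A, ∀ u', dist (walk g M (t g)) u' ≤ η → u' ∈ Reg) :
    (Measure.pi fun _ : α => μ) (A ∩ E ∩ {g | dist (t g) u ≤ η}) ≤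
      β * Gam ω (b * (vol (Metric.closedBall 0 η))⁻¹) c Reg v M S u *
        (Measure.pi fun _ : α => μ) E := by
  set P := Measure.pi fun _ : α => μ with hP
  set B := vol (Metric.closedBall 0 η) with hB
  have hB0 : B ≠ 0 := (Metric.measure_closedBall_pos vol _ hη).ne'
  have hBt : B ≠ ⊤ := measure_closedBall_lt_top.ne
  induction M generalizing E S u t with
  | nil =>
    by_cases hu : u ∈ Reg
    · rw [Gam, Set.indicator_of_mem hu, Pi.one_apply, mul_one]
      refine (measure_mono Set.inter_subset_left).trans (H E _ hE ?_ h1)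
      exact (Finset.card_insert_le _ _).trans (by simpa using hS)
    · have : A ∩ E ∩ {g | dist (t g) u ≤ η} = ∅ :=
        Set.eq_empty_of_forall_notMem fun g hg => hu (h3 g hg.1.1 u hg.2)
      rw [this, measure_empty]; exact zero_le
  | cons x M ih =>
    have htc : Continuous fun g => lt g x • t g := (continuous_lt x).smul ht
    have ht1' : ∀ g, ‖lt g x • t g‖ ≤ 1 := fun g => by
      rw [← dist_zero_right, ← smul_zero (lt g x), dist_smul, dist_zero_right]; exact ht1 g
    set F := A ∩ E ∩ {g | dist (t g) u ≤ η} with hF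
    have hFm : MeasurableSet F := (hA.inter hE).inter
      (isClosed_le (ht.dist continuous_const) continuous_const).measurableSet
    set Z : Set ((α → K) × W) := {p | p.1 ∈ F ∧ dist (lt p.1 x • t p.1) p.2 ≤ η} with hZ
    have hZm : MeasurableSet Z := (measurable_fst hFm).inter
      (isClosed_le ((htc.comp continuous_fst).dist continuous_snd) continuous_const).measurableSet
    have e1 : B * P F ≤ (P.prod vol) Z := by
      rw [Measure.prod_apply hZm, ← setLIntegral_const, ← lintegral_indicator hFm]
      refine lintegral_mono fun g => ?_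
      by_cases hg : g ∈ F
      · rw [Set.indicator_of_mem hg, hB, ← addHaar_closedBall_center vol (lt g x • t g)]
        exact measure_mono fun q hq => ⟨hg, Metric.mem_closedBall'.1 hq⟩
      · rw [Set.indicator_of_notMem hg]; exact zero_le
    have hcard : (insert u S).card + M.length + 1 ≤ m' := by
      have := Finset.card_insert_le u S
      simp only [List.length_cons] at hS
      omega
    have e2 : (P.prod vol) Z ≤ ∫⁻ q, (Metric.closedBall (0 : W) 2).indicator
        (Gam ω (b * B⁻¹) c Reg v M (insert u S)) q * (β * (b * ω S u * P E)) ∂vol := by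
      rw [Measure.prod_apply_symm hZm]
      refine lintegral_mono fun q => ?_
      by_cases hq : q ∈ Metric.closedBall (0 : W) 2
      · rw [Set.indicator_of_mem hq]
        have hEm' : MeasurableSet (E ∩ Con x u q (2 * η)) :=
          hE.inter (isClosed_con x u q _).measurableSet
        have h4 := ih (List.isChain_cons.1 hM).2 (E ∩ Con x u q (2 * η)) (insert u S) q
          (fun g => lt g x • t g) hEm' htc ht1' hcard
          (fun y => ((h1 y).mono (by simp)).inter (inv_con x y _ (by simp) fun _ => by simp))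
          (fun y hy => (h1 y).inter (inv_con x y _ (by simp)
            fun h => absurd h ((List.isChain_cons.1 hM).1 y hy))) h3
        have h5 := P1 S (by omega) E x u q hE (h2 x (by simp))
        refine le_trans (measure_mono fun g hg => ?_) (h4.trans ?_)
        · refine ⟨⟨hg.1.1.1, hg.1.1.2, ?_⟩, hg.2⟩
          have h6 : dist (t g) u ≤ η := hg.1.2
          have h7 : dist (lt g x • t g) q ≤ η := hg.2
          rw [← dist_smul (lt g x)] at h6
          change dist _ _ ≤ _
          linarith [dist_triangle_left (lt g x • u) q (lt g x • t g)]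
        · rw [mul_comm β, mul_assoc]; gcongr
      · have : (fun g => (g, q)) ⁻¹' Z = ∅ := by
          refine Set.eq_empty_of_forall_notMem fun g hg => hq ?_
          have h7 : dist (lt g x • t g) q ≤ η := hg.2
          have h8 := ht1' g
          rw [← dist_zero_right] at h8
          rw [Metric.mem_closedBall]
          linarith [dist_triangle_left q 0 (lt g x • t g)]
        rw [this, measure_empty]; exact zero_le
    have e3 : ∫⁻ q, (Metric.closedBall (0 : W) 2).indicator
        (Gam ω (b * B⁻¹) c Reg v M (insert u S)) q ∂vol ≤ (b * B⁻¹ * c) ^ M.length * v := by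
      rw [lintegral_indicator measurableSet_closedBall]
      cases M with
      | nil =>
        simp only [Gam, List.length_nil, pow_zero, one_mul]
        refine (setLIntegral_le_lintegral _ _).trans ?_
        rwa [lintegral_indicator_one hReg]
      | cons y M =>
        simp only [Gam, List.length_cons]
        rw [lintegral_mul_const' _ _ (by finiteness)]
        refine (mul_le_mul_left (P2 _ (by simp only [List.length_cons] at hcard; omega)) _).trans
          (le_of_eq ?_)
        ring
    have hωt := hω S u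
    rw [lintegral_mul_const' _ _ (by finiteness)] at e2
    have e4 := e1.trans (e2.trans (mul_le_mul_left e3 _))
    rw [mul_comm, ← ENNReal.le_div_iff_mul_le (Or.inl hB0) (Or.inl hBt)] at e4
    refine e4.trans (le_of_eq ?_)
    rw [Gam, div_eq_mul_inv]; ring

/-- The trajectory bound. -/
theorem traj_bound (μ : Measure K) [μ.IsHaarMeasure] [IsProbabilityMeasure μ] (vol : Measure W)
    [vol.IsAddHaarMeasure] {m p : ℕ} {ω : Finset W → W → ℝ≥0∞} {c : ℝ≥0∞} (hc : c ≠ ⊤)
    (P1 : ∀ η : ℝ, 0 < η → ∀ (S : Finset W), S.card ≤ m → ∀ (E : Set (α → K)) x (u q : W),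
      MeasurableSet E → Inv E x (S : Set W) → (Measure.pi fun _ : α => μ) (E ∩ Con x u q (2 * η)) ≤
        ENNReal.ofReal (η ^ p) * ω S u * (Measure.pi fun _ : α => μ) E)
    (P2 : ∀ S : Finset W, S.card ≤ m → ∫⁻ u in Metric.closedBall 0 2, ω S u ∂vol ≤ c)
    {L : List (α × Bool)} (hL : FreeGroup.IsReduced L) (hL0 : L ≠ [])
    {A : Set (α → K)} (hA : MeasurableSet A) (k n₀ : ℕ) (η : ℕ → ℝ) (v : ℕ → ℝ≥0∞)
    (hη : ∀ j, 0 < η j ∧ η j ≤ 1) (hv : ∀ j, v j ≠ ⊤) (hk : n₀ + k * (L.length + 1) ≤ m)
    (P3 : ∀ j < k, ∀ S : Finset W, S.card ≤ n₀ + j * (L.length + 1) → ∃ z : W, ‖z‖ ≤ 1 ∧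
      ω S z ≤ c ∧ ∃ Reg : Set W, MeasurableSet Reg ∧ vol Reg ≤ v j ∧
        ∀ g ∈ A, ∀ u, dist (ev g L • z) u ≤ η j → u ∈ Reg)
    (E : Set (α → K)) (S : Finset W) (hE : MeasurableSet E) (hS : S.card ≤ n₀)
    (hinv : ∀ x, Inv E x (S : Set W)) :
    (Measure.pi fun _ : α => μ) (A ∩ E) ≤
      (∏ j ∈ Finset.range k, (ENNReal.ofReal (η j ^ p) * (vol (Metric.closedBall 0 (η j)))⁻¹ * c)
        ^ L.length * v j) * (Measure.pi fun _ : α => μ) E := by
  induction k generalizing n₀ η v E S with
  | zero => simpa using measure_mono Set.inter_subset_right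
  | succ k ih =>
    obtain ⟨z, hz, hωz, Reg, hReg, hRv, h3⟩ := P3 0 (Nat.succ_pos k) S (by simpa using hS)
    have H := ih (n₀ + (L.length + 1)) (fun j => η (j + 1)) (fun j => v (j + 1))
      (fun j => hη _) (fun j => hv _) (by rw [Nat.succ_mul] at hk; omega)
      fun j hj S hS => P3 (j + 1) (by omega) S (by rw [Nat.succ_mul]; omega)
    set b := ENNReal.ofReal (η 0 ^ p) with hb
    have hb0 : b ≠ 0 := by simpa [hb] using pow_pos (hη 0).1 p
    have hBj : ∀ j, vol (Metric.closedBall 0 (η j)) ≠ 0 := fun j =>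
      (Metric.measure_closedBall_pos vol _ (hη j).1).ne'
    have h4 := round_aux μ vol (m := m) (m' := n₀ + (L.length + 1))
      (by rw [Nat.succ_mul] at hk; omega) (ω := fun S u => min b⁻¹ (ω S u))
      (fun S u => ne_top_of_le_ne_top (ENNReal.inv_ne_top.2 hb0) (min_le_left _ _))
      (hη 0).1 (hη 0).2 (b := b) ENNReal.ofReal_ne_top hc
      (ENNReal.prod_ne_top fun j _ => ENNReal.mul_ne_top (ENNReal.pow_ne_top (ENNReal.mul_ne_top
        (ENNReal.mul_ne_top ENNReal.ofReal_ne_top (ENNReal.inv_ne_top.2 (hBj _))) hc)) (hv _))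
      (hv 0) (fun S hS E x u q hE hi => by
        rcases le_total b⁻¹ (ω S u) with h | h
        · rw [min_eq_left h, ENNReal.mul_inv_cancel hb0 ENNReal.ofReal_ne_top, one_mul]
          exact measure_mono Set.inter_subset_left
        · rw [min_eq_right h]; exact P1 _ (hη 0).1 S hS E x u q hE hi)
      (fun S hS => (lintegral_mono fun u => min_le_right _ _).trans (P2 S hS)) hA
      (fun E S hE hS hi => H E S hE hS hi) hReg hRv L.reverse
      (by
        rw [List.isChain_reverse]
        refine List.IsChain.imp (fun x y h h' => ?_) hL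
        rw [h'] at h
        simpa using h rfl)
      E S z (fun _ => z) hE continuous_const (fun _ => hz) (by simp; omega)
      (fun x => (hinv x).mono (by simp)) (fun x _ => hinv x)
      (fun g hg u hu => h3 g hg u (by rwa [walk_reverse] at hu))
    have h5 : A ∩ E ∩ {g : α → K | dist z z ≤ η 0} = A ∩ E := by simp [(hη 0).1.le]
    rw [h5] at h4
    refine h4.trans (mul_le_mul_left ?_ _)
    rw [Finset.prod_range_succ']
    refine mul_le_mul_right ?_ _
    obtain ⟨x, M, hM⟩ := List.exists_cons_of_ne_nil (List.reverse_ne_nil_iff.2 hL0)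
    have hlen : L.length = M.length + 1 := by rw [← List.length_reverse, hM, List.length_cons]
    rw [hM, Gam, hlen]
    refine (mul_le_mul_left ((min_le_right _ _).trans hωz) _).trans (le_of_eq ?_)
    ring

end

end Pool.Agent.Lib.MP_775e5c_al
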