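import Pool.Agent.Lib.MP_775e5c_al.Base

/-!
The Lie algebra of a compact matrix group (von Neumann's theorem).
-/

namespace Pool.Agent.Lib.MP_775e5c_al

open Matrix NormedSpace Filter Topology

noncomputable section

variable {ι : Type} [Fintype ι] [DecidableEq ι]

namespace URep

variable {G : Type*} [Group G] [TopologicalSpace G] (ρ : URep G ι)

theorem map_inv_of_eq_exp {g : G} {Y : Matrix ι ι ℂ} (h : ρ g = exp Y) : ρ g⁻¹ = exp (-Y) := by
  have h1 : ρ g⁻¹ * exp Y = 1 := by rw [← h, ρ.inv_mul]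
  calc ρ g⁻¹ = ρ g⁻¹ * (exp Y * exp (-Y)) := by rw [exp_mul_exp_neg, Matrix.mul_one]
    _ = exp (-Y) := by rw [← Matrix.mul_assoc, h1, Matrix.one_mul]

theorem exists_eq_exp_zsmul {g : G} {Y : Matrix ι ι ℂ} (h : ρ g = exp Y) (m : ℤ) :
    ∃ k, ρ k = exp ((m : ℝ) • Y) := by
  induction m using Int.induction_on with
  | zero => exact ⟨1, by simp [ρ.map_one]⟩
  | succ n ih =>
    obtain ⟨k, hk⟩ := ih
    refine ⟨k * g, ?_⟩
    rw [ρ.map_mul, hk, h, Int.cast_add, exp_add_smul]; simp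
  | pred n ih =>
    obtain ⟨k, hk⟩ := ih
    refine ⟨k * g⁻¹, ?_⟩
    rw [ρ.map_mul, hk, ρ.map_inv_of_eq_exp h, Int.cast_sub, sub_eq_add_neg, exp_add_smul]; simp

variable [CompactSpace G]

theorem isClosed_range : IsClosed (Set.range ρ) := (isCompact_range ρ.cont).isClosed

theorem mem_lieSet_of_tendsto {α : Type*} {l : Filter α} [l.NeBot] {Y : α → Matrix ι ι ℂ}
    {s : α → ℝ} {Y₀ : Matrix ι ι ℂ} (hY : ∀ᶠ a in l, ∃ g, ρ g = exp (Y a))
    (hs : Tendsto s l (𝓝 0)) (hpos : ∀ᶠ a in l, 0 < s a)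
    (hlim : Tendsto (fun a => (s a)⁻¹ • Y a) l (𝓝 Y₀)) : Y₀ ∈ ρ.lieSet := by
  intro t
  have h1 : Tendsto (fun a => (⌊t / s a⌋ : ℝ) * s a) l (𝓝 t) := by
    refine tendsto_of_tendsto_of_tendsto_of_le_of_le' (g := fun a => t - s a) (h := fun _ => t)
      (by simpa using tendsto_const_nhds.sub hs) tendsto_const_nhds ?_ ?_
    · filter_upwards [hpos] with a ha
      have := (Int.sub_one_lt_floor (t / s a)).le
      have h2 := mul_le_mul_of_nonneg_right this ha.le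
      rwa [sub_mul, div_mul_cancel₀ _ ha.ne', one_mul] at h2
    · filter_upwards [hpos] with a ha
      have h2 := mul_le_mul_of_nonneg_right (Int.floor_le (t / s a)) ha.le
      rwa [div_mul_cancel₀ _ ha.ne'] at h2
  have h2 : Tendsto (fun a => exp (((⌊t / s a⌋ : ℝ) * s a) • ((s a)⁻¹ • Y a))) l
      (𝓝 (exp (t • Y₀))) := (h1.smul hlim).exp
  refine ρ.isClosed_range.mem_of_tendsto h2 ?_
  filter_upwards [hY, hpos] with a ⟨g, hg⟩ ha
  obtain ⟨k, hk⟩ := ρ.exists_eq_exp_zsmul hg ⌊t / s a⌋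
  refine ⟨k, ?_⟩
  rw [hk, smul_smul, mul_assoc, mul_inv_cancel₀ ha.ne', mul_one]

theorem add_mem_lieSet {X Y : Matrix ι ι ℂ} (hX : X ∈ ρ.lieSet) (hY : Y ∈ ρ.lieSet) :
    X + Y ∈ ρ.lieSet := by
  have hexp : HasStrictFDerivAt (exp : Matrix ι ι ℂ → Matrix ι ι ℂ)
      ((ContinuousLinearEquiv.refl ℝ (Matrix ι ι ℂ) : Matrix ι ι ℂ ≃L[ℝ] Matrix ι ι ℂ) :
        Matrix ι ι ℂ →L[ℝ] Matrix ι ι ℂ) 0 := hasStrictFDerivAt_exp_zero
  set lg := hexp.localInverse _ _ _ with hlg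
  have hlg' : HasStrictFDerivAt lg
      ((ContinuousLinearEquiv.refl ℝ (Matrix ι ι ℂ)).symm : Matrix ι ι ℂ →L[ℝ] Matrix ι ι ℂ)
      (exp 0) := hexp.to_localInverse
  have hF : HasDerivAt (fun s : ℝ => exp (s • X) * exp (s • Y)) (X + Y) 0 := by
    have := (hasDerivAt_exp_smul X 0).fun_mul (hasDerivAt_exp_smul Y 0)
    simpa using! this
  have hF0 : exp ((0 : ℝ) • X) * exp ((0 : ℝ) • Y) = exp 0 := by simp
  have hL : HasDerivAt (fun s : ℝ => lg (exp (s • X) * exp (s • Y))) (X + Y) 0 := by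
    have h := hlg'.hasFDerivAt
    rw [← hF0] at h
    simpa using! h.comp_hasDerivAt (0 : ℝ) hF
  have hL0 : lg (exp ((0 : ℝ) • X) * exp ((0 : ℝ) • Y)) = 0 := by
    rw [hF0]; exact hexp.localInverse_apply_image
  have ht := hL.tendsto_slope_zero_right
  simp only [zero_add, hL0, sub_zero] at ht
  refine ρ.mem_lieSet_of_tendsto (l := 𝓝[>] 0) (s := fun s => s) ?_
    (tendsto_nhdsWithin_of_tendsto_nhds tendsto_id) self_mem_nhdsWithin ht
  have hc : Tendsto (fun s : ℝ => exp (s • X) * exp (s • Y)) (𝓝[>] 0) (𝓝 (exp 0)) := by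
    rw [← hF0]; exact tendsto_nhdsWithin_of_tendsto_nhds hF.continuousAt
  filter_upwards [hc.eventually hexp.eventually_right_inverse] with s hs
  obtain ⟨g, hg⟩ := hX s
  obtain ⟨k, hk⟩ := hY s
  exact ⟨g * k, by rw [ρ.map_mul, hg, hk]; exact hs.symm⟩

/-- The Lie algebra of the image of `ρ`. -/
def lie : Submodule ℝ (Matrix ι ι ℂ) where
  carrier := ρ.lieSet
  add_mem' := ρ.add_mem_lieSet
  zero_mem' := fun t => ⟨1, by simp [ρ.map_one]⟩
  smul_mem' c X hX t := by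
    obtain ⟨g, hg⟩ := hX (t * c)
    exact ⟨g, by rw [hg, smul_smul]⟩

theorem mem_lie {X : Matrix ι ι ℂ} : X ∈ ρ.lie ↔ ∀ t : ℝ, ∃ g, ρ g = exp (t • X) := Iff.rfl

theorem Ad_mem_lie (g : G) {X : Matrix ι ι ℂ} (hX : X ∈ ρ.lie) : ρ.Ad g X ∈ ρ.lie := by
  intro t
  obtain ⟨k, hk⟩ := hX t
  exact ⟨g * k * g⁻¹, by rw [ρ.map_conj, hk, Ad_exp, Ad_smul]⟩

theorem skew_of_mem_lie {X : Matrix ι ι ℂ} (hX : X ∈ ρ.lie) : Xᴴ = -X := by
  have h1 : (fun t : ℝ => star (exp (t • X))) = fun t : ℝ => exp (t • (-X)) := by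
    funext t
    obtain ⟨g, hg⟩ := hX t
    rw [smul_neg, ← ρ.map_inv_of_eq_exp hg, ← hg, ← ρ.star_eq]; rfl
  have h2 : HasDerivAt (fun t : ℝ => star (exp (t • X))) (star X) 0 := by
    have := (starL' ℝ (A := Matrix ι ι ℂ)).toContinuousLinearMap.hasFDerivAt.comp_hasDerivAt (0 : ℝ)
      (hasDerivAt_exp_smul X 0)
    simpa [Function.comp_def] using this
  have h3 := hasDerivAt_exp_smul (-X) 0
  rw [h1] at h2
  simpa using! h2.unique h3

/-- A subspace invariant under conjugation by a one-parameter group is invariant under the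
commutator with its generator. -/
theorem _root_.Pool.Agent.Lib.MP_775e5c_al.commutator_mem_of_conj
    (a : Submodule ℝ (Matrix ι ι ℂ)) {X Y : Matrix ι ι ℂ}
    (h : ∀ t : ℝ, exp (t • X) * Y * exp (t • (-X)) ∈ a) : X * Y - Y * X ∈ a := by
  have hF : HasDerivAt (fun t : ℝ => exp (t • X) * Y * exp (t • (-X))) (X * Y - Y * X) 0 := by
    have := ((hasDerivAt_exp_smul X 0).mul_const Y).fun_mul (hasDerivAt_exp_smul (-X) 0)
    simpa [sub_eq_add_neg] using! this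
  have ht := hF.tendsto_slope_zero_right
  refine a.closed_of_finiteDimensional.mem_of_tendsto ht (Eventually.of_forall fun t => ?_)
  exact a.smul_mem _ (a.sub_mem (h _) (h _))

theorem Ad_eq_of_eq_exp {g : G} {X : Matrix ι ι ℂ} (h : ρ g = exp X) (Y : Matrix ι ι ℂ) :
    ρ.Ad g Y = exp X * Y * exp (-X) := by
  rw [Ad, ρ.map_inv_of_eq_exp h, h]

theorem isIdealIn_of_Ad {a : Submodule ℝ (Matrix ι ι ℂ)} (ha : a ≤ ρ.lie)
    (h : ∀ g, ∀ Y ∈ a, ρ.Ad g Y ∈ a) : IsIdealIn a ρ.lie := by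
  refine ⟨ha, fun X hX Y hY => commutator_mem_of_conj a fun t => ?_⟩
  obtain ⟨g, hg⟩ := hX t
  rw [smul_neg, ← ρ.Ad_eq_of_eq_exp hg]
  exact h g Y hY

theorem isCompactLie : IsCompactLie ρ.lie where
  skew _ := ρ.skew_of_mem_lie
  lie_mem := (ρ.isIdealIn_of_Ad le_rfl fun g _ hY => ρ.Ad_mem_lie g hY).2

/-- von Neumann: exponentials of small elements of the Lie algebra fill a neighbourhood of `1`. -/
theorem exp_mem_nhds {δ : ℝ} (hδ : 0 < δ) :
    {g : G | ∃ X ∈ ρ.lie, ‖X‖ < δ ∧ ρ g = exp X} ∈ 𝓝 (1 : G) := by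
  by_contra hcon
  set S := {g : G | ∃ X ∈ ρ.lie, ‖X‖ < δ ∧ ρ g = exp X} with hS
  have hne : (𝓝 (1 : G) ⊓ 𝓟 Sᶜ).NeBot := by
    refine mem_closure_iff_nhdsWithin_neBot.1 ?_
    rw [closure_compl]
    exact fun h => hcon (mem_interior_iff_mem_nhds.1 h)
  set P := ρ.lie.starProjection with hP
  have hexp : HasStrictFDerivAt (exp : Matrix ι ι ℂ → Matrix ι ι ℂ)
      (1 : Matrix ι ι ℂ →L[ℝ] Matrix ι ι ℂ) 0 := hasStrictFDerivAt_exp_zero
  have hΦ : HasStrictFDerivAt (fun Z : Matrix ι ι ℂ => exp (P Z) * exp (Z - P Z))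
      ((ContinuousLinearEquiv.refl ℝ (Matrix ι ι ℂ) : Matrix ι ι ℂ ≃L[ℝ] Matrix ι ι ℂ) :
        Matrix ι ι ℂ →L[ℝ] Matrix ι ι ℂ) 0 := by
    have h1 : HasStrictFDerivAt (fun Z : Matrix ι ι ℂ => exp (P Z)) P 0 := by
      have h := hexp
      rw [← P.map_zero] at h
      exact h.comp (0 : Matrix ι ι ℂ) P.hasStrictFDerivAt
    have h2 : HasStrictFDerivAt (fun Z : Matrix ι ι ℂ => exp (Z - P Z))
        (ContinuousLinearMap.id ℝ _ - P) 0 := by
      have h := hexp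
      rw [← (ContinuousLinearMap.id ℝ (Matrix ι ι ℂ) - P).map_zero] at h
      exact h.comp (0 : Matrix ι ι ℂ) (ContinuousLinearMap.id ℝ (Matrix ι ι ℂ) - P).hasStrictFDerivAt
    have h3 := h1.mul' h2
    refine h3.congr_fderiv ?_
    ext1 Z
    simp
  set Λ := hΦ.localInverse _ _ _ with hΛ
  let l : Ultrafilter G := Ultrafilter.of (𝓝 (1 : G) ⊓ 𝓟 Sᶜ)
  have hl : (l : Filter G) ≤ 𝓝 (1 : G) ⊓ 𝓟 Sᶜ := Ultrafilter.of_le _
  have hρ : Tendsto ρ (l : Filter G) (𝓝 (exp (P 0) * exp (0 - P 0))) := by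
    have : exp (P 0) * exp (0 - P 0) = ρ 1 := by simp [ρ.map_one]
    rw [this]
    exact (ρ.cont.tendsto 1).mono_left (hl.trans inf_le_left)
  have hZ : Tendsto (fun g => Λ (ρ g)) l (𝓝 0) := hΦ.localInverse_tendsto.comp hρ
  have hinv : ∀ᶠ g in (l : Filter G), exp (P (Λ (ρ g))) * exp (Λ (ρ g) - P (Λ (ρ g))) = ρ g :=
    hρ.eventually hΦ.eventually_right_inverse
  have hPZ : Tendsto (fun g => P (Λ (ρ g))) l (𝓝 0) := by
    simpa using! (P.continuous.tendsto 0).comp hZ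
  set Y : G → Matrix ι ι ℂ := fun g => Λ (ρ g) - P (Λ (ρ g)) with hYdef
  have hY0 : Tendsto Y l (𝓝 0) := by simpa using hZ.sub hPZ
  have hmem : ∀ Z, P Z ∈ ρ.lie := fun Z => ρ.lie.starProjection_apply_mem Z
  have hYne : ∀ᶠ g in (l : Filter G), Y g ≠ 0 := by
    have h1 : ∀ᶠ g in (l : Filter G), ‖P (Λ (ρ g))‖ < δ := by
      have := hPZ.norm
      rw [norm_zero] at this
      exact this.eventually (gt_mem_nhds hδ)
    have h2 : ∀ᶠ g in (l : Filter G), g ∈ Sᶜ := (hl.trans inf_le_right) (mem_principal_self _)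
    filter_upwards [h1, h2, hinv] with g h1 h2 h3 h4
    refine h2 ⟨_, hmem _, h1, ?_⟩
    have h5 : Λ (ρ g) - P (Λ (ρ g)) = 0 := h4
    rw [h5] at h3
    simpa using h3.symm
  have hsph : ∀ᶠ g in (l : Filter G), (‖Y g‖⁻¹ • Y g) ∈ Metric.sphere (0 : Matrix ι ι ℂ) 1 := by
    filter_upwards [hYne] with g hg
    simp [norm_smul, inv_mul_cancel₀ (norm_ne_zero_iff.2 hg)]
  obtain ⟨Y₀, hY₀, hlim⟩ := (isCompact_sphere (0 : Matrix ι ι ℂ) 1).ultrafilter_le_nhds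
    (l.map fun g => ‖Y g‖⁻¹ • Y g) (le_principal_iff.2 hsph)
  have hlim' : Tendsto (fun g => ‖Y g‖⁻¹ • Y g) l (𝓝 Y₀) := hlim
  have h1 : Y₀ ∈ ρ.lie := by
    refine ρ.mem_lieSet_of_tendsto (l := l) (Y := Y) (s := fun g => ‖Y g‖) ?_
      (by simpa using hY0.norm) (hYne.mono fun g hg => norm_pos_iff.2 hg) hlim'
    filter_upwards [hinv] with g hg
    obtain ⟨k, hk⟩ := hmem (Λ (ρ g)) 1
    rw [one_smul] at hk
    refine ⟨k⁻¹ * g, ?_⟩
    rw [ρ.map_mul, ← hg, ← hk, ← Matrix.mul_assoc, ρ.inv_mul, Matrix.one_mul]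
  have h2 : Y₀ ∈ ρ.lieᗮ := by
    refine ρ.lieᗮ.closed_of_finiteDimensional.mem_of_tendsto hlim' (Eventually.of_forall fun g => ?_)
    exact ρ.lieᗮ.smul_mem _ (ρ.lie.sub_starProjection_mem_orthogonal _)
  have h3 : Y₀ = 0 := by
    have := ρ.lie.inf_orthogonal_eq_bot
    exact (Submodule.eq_bot_iff _).1 this _ ⟨h1, h2⟩
  simp [h3] at hY₀

/-- A subgroup containing all exponentials of a connected group is everything. -/
theorem subgroup_eq_top [IsTopologicalGroup G] [ConnectedSpace G] (H : Subgroup G)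
    (h : ∀ X ∈ ρ.lie, ∀ g, ρ g = exp X → g ∈ H) : H = ⊤ := by
  have h1 : (H : Set G) ∈ 𝓝 (1 : G) :=
    mem_of_superset (ρ.exp_mem_nhds one_pos) fun g ⟨X, hX, _, hg⟩ => h X hX g hg
  have h2 := H.isOpen_of_mem_nhds h1
  have h3 : IsClopen (H : Set G) := ⟨H.isClosed_of_isOpen h2, h2⟩
  exact SetLike.coe_injective (h3.eq_univ ⟨1, H.one_mem⟩)

theorem Ad_eq_of_forall_commute [IsTopologicalGroup G] [ConnectedSpace G] {Y : Matrix ι ι ℂ}
    (h : ∀ X ∈ ρ.lie, X * Y = Y * X) (g : G) : ρ.Ad g Y = Y := by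
  let H : Subgroup G :=
    { carrier := {g | ρ.Ad g Y = Y}
      mul_mem' := fun {a b} ha hb => by
        simp only [Set.mem_ofPred_eq] at *; rw [ρ.Ad_mul, hb, ha]
      one_mem' := ρ.Ad_one Y
      inv_mem' := fun {a} ha => by
        simp only [Set.mem_ofPred_eq] at *; conv_lhs => rw [← ha]
        exact ρ.Ad_inv_Ad a Y }
  have : H = ⊤ := ρ.subgroup_eq_top H fun X hX g hg => by
    change ρ.Ad g Y = Y
    rw [Ad_eq_self_iff, hg]
    exact (Commute.exp_left (h X hX)).eq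
  exact (this.ge (Subgroup.mem_top g) : g ∈ H)

open Classical in
/-- A chosen preimage of `exp X`. -/
def ex (X : Matrix ι ι ℂ) : G := if h : ∃ g, ρ g = exp X then h.choose else 1

omit [CompactSpace G] in
theorem map_ex' {X : Matrix ι ι ℂ} (h : ∃ g, ρ g = exp X) : ρ (ρ.ex X) = exp X := by
  rw [ex, dif_pos h]; exact h.choose_spec

theorem map_ex {X : Matrix ι ι ℂ} (hX : X ∈ ρ.lie) (t : ℝ) : ρ (ρ.ex (t • X)) = exp (t • X) :=
  ρ.map_ex' (hX t)

theorem isClosedEmbedding (hinj : Function.Injective ρ) : IsClosedEmbedding ρ :=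
  ρ.cont.isClosedEmbedding hinj

theorem continuous_ex (hinj : Function.Injective ρ) {X : Matrix ι ι ℂ} (hX : X ∈ ρ.lie) :
    Continuous fun t : ℝ => ρ.ex (t • X) := by
  rw [(ρ.isClosedEmbedding hinj).isInducing.continuous_iff]
  have : (ρ ∘ fun t : ℝ => ρ.ex (t • X)) = fun t : ℝ => exp (t • X) := funext (ρ.map_ex hX)
  rw [this]
  fun_prop

end URep

end

end Pool.Agent.Lib.MP_775e5c_al
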