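import Pool.Agent.Lib.MP_775e5c_al.Rot

/-!
Weights for the trajectory argument in the natural representations of the classical groups.
-/

namespace Pool.Agent.Lib.MP_775e5c_al

open MeasureTheory Measure Module InnerProductSpace
open scoped ENNReal

noncomputable section

variable {W : Type*} [NormedAddCommGroup W] [InnerProductSpace ℂ W]

theorem inner_re [InnerProductSpace ℝ W] (x y : W) : inner ℝ x y = (inner ℂ x y).re := by
  exact (re_inner_eq_norm_add_mul_self_sub_norm_sub_mul_self_div_four (𝕜 := ℝ) x y).trans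
    (re_inner_eq_norm_add_mul_self_sub_norm_sub_mul_self_div_four (𝕜 := ℂ) x y).symm

theorem exists_isotropic (j : W →ₗ⋆[ℂ] W) {T : Submodule ℂ W} (hT : 2 ≤ finrank ℂ T) :
    ∃ z ∈ T, ‖z‖ = 1 ∧ inner ℂ (j z) z = 0 := by
  suffices h : ∃ z ∈ T, z ≠ 0 ∧ inner ℂ (j z) z = 0 by
    obtain ⟨z, hz, hz0, h⟩ := h
    refine ⟨((‖z‖ : ℂ))⁻¹ • z, T.smul_mem _ hz, norm_smul_inv_norm hz0, ?_⟩
    simp [inner_smul_left, inner_smul_right, h]
  obtain ⟨v, hv⟩ := exists_linearIndependent_of_le_finrank hT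
  rw [show v = ![v 0, v 1] from by ext i; fin_cases i <;> rfl, LinearIndependent.pair_iff] at hv
  by_cases h0 : inner ℂ (j (v 0)) (v 0 : W) = 0
  · refine ⟨v 0, (v 0).2, fun h => ?_, h0⟩
    have := (hv 1 0 (Subtype.ext (by simpa using h))).1
    simp at this
  obtain ⟨s, hs⟩ := exists_quadratic_eq_zero h0 (b := inner ℂ (j (v 0)) (v 1 : W) +
    inner ℂ (j (v 1)) (v 0 : W)) (c := inner ℂ (j (v 1)) (v 1 : W))
    (IsAlgClosed.exists_eq_mul_self _)
  refine ⟨s • v 0 + v 1, T.add_mem (T.smul_mem _ (v 0).2) (v 1).2, fun h => ?_, ?_⟩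
  · have := (hv s 1 (Subtype.ext (by simpa using h))).2
    simp at this
  · simp only [map_add, LinearMap.map_smulₛₗ, inner_add_left, inner_add_right, inner_smul_left,
      inner_smul_right, Complex.conj_conj]
    linear_combination hs

variable [DecidableEq W]

/-- The complex span of `S` and `j S`. -/
def cU (j : W →ₗ⋆[ℂ] W) (S : Finset W) : Submodule ℂ W :=
  Submodule.span ℂ ((S ∪ S.image j : Finset W) : Set W)

theorem finrank_cU_le (j : W →ₗ⋆[ℂ] W) (S : Finset W) : finrank ℂ (cU j S) ≤ 2 * S.card :=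
  (finrank_span_finset_le_card _).trans ((Finset.card_union_le _ _).trans
    (by have := S.card_image_le (f := j); omega))

theorem mem_cU (j : W →ₗ⋆[ℂ] W) {S : Finset W} {s : W} (hs : s ∈ S) : s ∈ cU j S :=
  Submodule.subset_span (by simp [hs])

theorem cU_mono (j : W →ₗ⋆[ℂ] W) {S S' : Finset W} (h : S ⊆ S') : cU j S ≤ cU j S' :=
  Submodule.span_mono (Finset.coe_subset.2
    (Finset.union_subset_union h (Finset.image_subset_image h)))

theorem map_mem_cU {j : W →ₗ⋆[ℂ] W} {ε : ℂ} (hj : ∀ x, j (j x) = ε • x) {S : Finset W} {s : W}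
    (hs : s ∈ cU j S) : j s ∈ cU j S := by
  induction hs using Submodule.span_induction with
  | mem x hx =>
    rcases Finset.mem_union.1 hx with h | h
    · exact Submodule.subset_span (by simpa using Or.inr ⟨x, h, rfl⟩)
    · obtain ⟨y, hy, rfl⟩ := Finset.mem_image.1 h
      rw [hj]; exact Submodule.smul_mem _ _ (mem_cU j hy)
  | zero => simp
  | add x y _ _ hx hy => rw [map_add]; exact Submodule.add_mem _ hx hy
  | smul a x _ hx => rw [LinearMap.map_smulₛₗ]; exact Submodule.smul_mem _ _ hx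

theorem exists_start [FiniteDimensional ℂ W] (j : W →ₗ⋆[ℂ] W) (S : Finset W) {T : Submodule ℂ W}
    (hT : 2 * S.card + 2 ≤ finrank ℂ T) :
    ∃ z ∈ T, z ∈ (cU j S)ᗮ ∧ ‖z‖ = 1 ∧ inner ℂ (j z) z = 0 := by
  have h1 := Submodule.finrank_sup_add_finrank_inf_eq T (cU j S)ᗮ
  have h2 := (cU j S).finrank_add_finrank_orthogonal
  have h3 := (T ⊔ (cU j S)ᗮ).finrank_le
  have h4 := finrank_cU_le j S
  obtain ⟨z, hz, h⟩ := exists_isotropic j (T := T ⊓ (cU j S)ᗮ) (by omega)
  exact ⟨z, hz.1, hz.2, h⟩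

variable [InnerProductSpace ℝ W] [IsScalarTower ℝ ℂ W]

omit [DecidableEq W] in
theorem finrank_restrict (U : Submodule ℂ W) :
    finrank ℝ (U.restrictScalars ℝ) = 2 * finrank ℂ U := by
  rw [← Complex.finrank_real_complex, finrank_mul_finrank ℝ ℂ U]; rfl

omit [DecidableEq W] in
theorem mem_orth_restrict {U : Submodule ℂ W} {z : W} : z ∈ (U.restrictScalars ℝ)ᗮ ↔ z ∈ Uᗮ := by
  refine ⟨fun h s hs => Complex.ext ?_ ?_, fun h s hs => ?_⟩
  · rw [← inner_re]; exact h s hs
  · have := h (Complex.I • s) (U.smul_mem _ hs)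
    rw [inner_re, inner_smul_left] at this
    simpa using this
  · rw [inner_re, h s hs]; rfl

variable [FiniteDimensional ℂ W] [FiniteDimensional ℝ W] [MeasurableSpace W] [BorelSpace W]
  (α : Type*) {K : Type*} [DecidableEq α] [Group K] [Fintype α] [TopologicalSpace K]
  [IsTopologicalGroup K] [CompactSpace K] [MeasurableSpace K] [BorelSpace K]
  [SecondCountableTopology K] [DistribMulAction K W] [IsIsometricSMul K W] [ContinuousSMul K W]

/-- The group `K` contains the rotations generated by traceless skew operators commuting with `j`.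
-/
def Rotates (K : Type*) [SMul K W] (j : W →ₗ⋆[ℂ] W) : Prop :=
  ∀ Y : W →L[ℂ] W, (∀ x y, inner ℂ (Y x) y = -inner ℂ x (Y y)) →
    LinearMap.trace ℂ W (Y : W →ₗ[ℂ] W) = 0 → (∀ x, j (Y x) = Y (j x)) →
    ∀ a c, Y a = c → Y c = -a → ∀ θ : ℝ, ∃ k : K,
      k • a = Real.cos θ • a + Real.sin θ • c ∧ ∀ s, Y s = 0 → k • s = s

/-- Existence of weights for the trajectory argument. -/
def HasWts (μ : Measure K) [SigmaFinite μ] (j : W →ₗ⋆[ℂ] W) (m p : ℕ) : Prop :=
  ∃ (vol : Measure W) (_ : vol.IsAddHaarMeasure) (ω : Finset W → W → ℝ≥0∞) (c : ℝ≥0∞), c ≠ ⊤ ∧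
    (∀ η : ℝ, 0 < η → ∀ (S : Finset W), S.card ≤ m → ∀ (E : Set (α → K)) x (u q : W),
      MeasurableSet E → Inv E x (S : Set W) → (Measure.pi fun _ : α => μ) (E ∩ Con x u q (2 * η)) ≤
        ENNReal.ofReal (η ^ p) * ω S u * (Measure.pi fun _ : α => μ) E) ∧
    (∀ S : Finset W, S.card ≤ m → ∫⁻ u in Metric.closedBall 0 2, ω S u ∂vol ≤ c) ∧
    ∀ S z, z ∈ (cU j S)ᗮ → ‖z‖ = 1 → inner ℂ (j z) z = 0 → ω S z ≤ c

theorem hasWts_skew [SMulCommClass K ℝ W] (μ : Measure K) [μ.IsHaarMeasure] {j : W →ₗ⋆[ℂ] W}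
    (hj : ∀ x y, inner ℂ (j x) y = -inner ℂ (j y) x) (hjj : j = 0 ∨ ∀ x, j (j x) = -x)
    (hR : Rotates K j) {m p : ℕ} (hp : 0 < p) (hm : p + 2 * (m + 1) ≤ finrank ℂ W) :
    HasWts α μ j m (2 * p) := by
  have hd : finrank ℝ W = 2 * finrank ℂ W := by
    rw [← Complex.finrank_real_complex, finrank_mul_finrank ℝ ℂ W]
  obtain ⟨ε, hε⟩ : ∃ ε : ℂ, ∀ x, j (j x) = ε • x := by
    rcases hjj with rfl | h
    exacts [⟨0, by simp⟩, ⟨-1, by simpa using h⟩]
  have hj0 : ∀ x, inner ℂ (j x) x = 0 := fun x => by linear_combination (hj x x) / 2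
  refine ⟨addHaar, inferInstance, fun S => wt (2 * p) ((cU j S).restrictScalars ℝ),
    8 ^ (2 * p) + dyK ((2 * p : ℕ) + 1) (2 * p : ℕ) *
      (4 ^ finrank ℝ W * addHaar (Metric.closedBall (0 : W) 3)), ?_, ?_, ?_, ?_⟩
  · exact ENNReal.add_ne_top.2 ⟨by finiteness, ENNReal.mul_ne_top (dyK_ne_top (by linarith))
      (ENNReal.mul_ne_top (by finiteness) measure_closedBall_lt_top.ne)⟩
  · intro η hη S hS E x u q hE hi
    refine measure_con_le_wt μ (LinearIsometry.id) (U' := (cU j (insert u S)).restrictScalars ℝ)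
      (v := u) (cU_mono j (Finset.subset_insert _ _)) (mem_cU j (Finset.mem_insert_self _ _)) ?_
      ?_ hη hE hi q
    · have := finrank_cU_le j (insert u S)
      have := Finset.card_insert_le u S
      rw [finrank_restrict]; omega
    rintro a ha ha1 ⟨t, ht, ht0⟩ c hc hc1 θ
    rw [mem_orth_restrict] at ha hc
    have haU : a ∈ cU j (insert u S) := by
      have := ((cU j (insert u S)).restrictScalars ℝ).smul_mem t⁻¹ (Submodule.sub_mem _
        (mem_cU j (Finset.mem_insert_self u S)) (cU_mono j (Finset.subset_insert u S) ht))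
      rwa [sub_sub_cancel, smul_smul, inv_mul_cancel₀ ht0, one_smul] at this
    have e1 : inner ℂ a c = 0 := hc a haU
    have e2 : inner ℂ (j a) c = 0 := hc _ (map_mem_cU hε haU)
    have e3 : inner ℂ c a = 0 := inner_eq_zero_symm.1 e1
    have e4 : inner ℂ (j c) a = 0 := by rw [hj, e2, neg_zero]
    have e7 : ∀ x y, inner ℂ x y = 0 → inner ℂ (j x) (j y) = 0 := fun x y h => by
      rw [hj, hε, inner_smul_left, inner_eq_zero_symm.1 h, mul_zero, neg_zero]
    obtain ⟨k, hk1, hk2⟩ := hR (rankOne ℂ c a - rankOne ℂ a c + (rankOne ℂ (j c) (j a) -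
      rankOne ℂ (j a) (j c))) (fun x y => by
        simp [inner_add_left, inner_sub_left, inner_add_right, inner_sub_right, inner_smul_left,
          inner_smul_right]; ring)
      (by simp [trace_rankOne, e1, e3, e7 _ _ e1, e7 _ _ e3])
      (fun x => by
        rcases hjj with rfl | h
        · simp
        · have h1 : ∀ y, inner ℂ (j y) (j x) = inner ℂ x y := fun y => by
            rw [hj, h, inner_neg_left, neg_neg]
          have h2 : ∀ y, inner ℂ y (j x) = -inner ℂ x (j y) := fun y => by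
            rw [← inner_conj_symm, hj, map_neg, inner_conj_symm]
          simp [h, h1, h2]; abel)
      a c (by simp [e3, e4, ha1, hj0]) (by simp [e1, e2, hc1, hj0]) θ
    have hk3 : ∀ s ∈ cU j S, k • s = s := fun s hs => hk2 s (by
      have hs' := cU_mono j (Finset.subset_insert u S) hs
      have f1 := inner_eq_zero_symm.1 (ha s hs)
      have f2 := inner_eq_zero_symm.1 (hc s hs')
      have f3 : inner ℂ (j a) s = 0 := by rw [hj, ha _ (map_mem_cU hε hs), neg_zero]
      have f4 : inner ℂ (j c) s = 0 := by rw [hj, hc _ (map_mem_cU hε hs'), neg_zero]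
      simp [f1, f2, f3, f4])
    exact ⟨k, fun s hs => hk3 s (mem_cU j hs), hk3, hk1⟩
  · intro S hS
    refine (lintegral_wt_le _ (by omega) _ ?_).trans le_add_self
    have := finrank_cU_le j S
    rw [finrank_restrict]; omega
  · intro S z hz hz1 _
    exact (wt_le _ (mem_orth_restrict.2 hz) (by rw [hz1]; norm_num)).trans le_self_add

omit [DecidableEq W] [FiniteDimensional ℂ W] [FiniteDimensional ℝ W] [MeasurableSpace W]
  [BorelSpace W] in
theorem map_real_smul (j : W →ₗ⋆[ℂ] W) (r : ℝ) (x : W) : j (r • x) = r • j x := by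
  rw [← algebraMap_smul ℂ r x, ← algebraMap_smul ℂ r (j x), LinearMap.map_smulₛₗ]; simp

/-- The real form fixed by `j`. -/
def fixJ (j : W →ₗ⋆[ℂ] W) : Submodule ℝ W where
  carrier := {x | j x = x}
  add_mem' ha hb := by rw [Set.mem_ofPred_eq, map_add, ha, hb]
  zero_mem' := map_zero j
  smul_mem' r x hx := by rw [Set.mem_ofPred_eq, map_real_smul, hx]

/-- The real part. -/
def reJ {j : W →ₗ⋆[ℂ] W} (hjj : ∀ x, j (j x) = x) : W →ₗ[ℝ] fixJ j where
  toFun z := ⟨(2⁻¹ : ℝ) • (z + j z), by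
    change j _ = _
    rw [map_real_smul, map_add, hjj, add_comm]⟩
  map_add' x y := Subtype.ext (by simp only [map_add, Submodule.coe_add]; module)
  map_smul' r x := Subtype.ext (by
    simp only [map_real_smul, Submodule.coe_smul, RingHom.id_apply]; module)

/-- The decomposition into real and imaginary parts. -/
def reIm {j : W →ₗ⋆[ℂ] W} (hjj : ∀ x, j (j x) = x) : (fixJ j × fixJ j) ≃ₗ[ℝ] W where
  toFun v := v.1 + Complex.I • v.2
  map_add' x y := by simp only [Prod.fst_add, Prod.snd_add, Submodule.coe_add]; module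
  map_smul' r x := by
    simp only [Prod.smul_fst, Prod.smul_snd, Submodule.coe_smul, RingHom.id_apply]; module
  invFun z := (reJ hjj z, reJ hjj (-Complex.I • z))
  left_inv v := by
    have h1 : j v.1 = v.1 := v.1.2
    have h2 : j v.2 = v.2 := v.2.2
    ext <;> simp [reJ, h1, h2, smul_smul, ← algebraMap_smul ℂ (2⁻¹ : ℝ)] <;> module
  right_inv z := by
    simp only [reJ, LinearMap.coe_mk, AddHom.coe_mk, LinearMap.map_smulₛₗ, map_neg, Complex.conj_I,
      ← algebraMap_smul ℂ (2⁻¹ : ℝ)]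
    match_scalars <;> simp <;> ring_nf <;> simp <;> norm_num

theorem hasWts_symm [SMulCommClass K ℝ W] [SMulCommClass K ℂ W] (μ : Measure K) [μ.IsHaarMeasure]
    {j : W →ₗ⋆[ℂ] W} (hj : ∀ x y, inner ℂ (j x) y = inner ℂ (j y) x) (hjj : ∀ x, j (j x) = x)
    (hK : ∀ (k : K) x, j (k • x) = k • j x) (hR : Rotates K j) {m p : ℕ} (hp : 0 < p)
    (hm : p + 2 * (m + 1) ≤ finrank ℂ W) : HasWts α μ j m (2 * p) := by
  have hd : finrank ℝ (fixJ j) = finrank ℂ W := by
    have := (reIm hjj).finrank_eq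
    rw [finrank_prod, ← finrank_mul_finrank ℝ ℂ W, Complex.finrank_real_complex] at this
    omega
  have hre : ∀ v w : fixJ j, inner ℂ (v : W) (w : W) = (inner ℝ v w : ℝ) := fun v w => by
    have h := hj v w
    rw [show j v = v from v.2, show j w = w from w.2, ← inner_conj_symm (w : W)] at h
    rw [Submodule.coe_inner, inner_re, Complex.conj_eq_iff_re.1 h.symm]
  have hjn : ∀ x, ‖j x‖ = ‖x‖ := fun x => by
    rw [norm_eq_sqrt_re_inner (𝕜 := ℂ), hj, hjj, ← norm_eq_sqrt_re_inner]
  have hn1 : ∀ z, ‖reJ hjj z‖ ≤ ‖z‖ := fun z => by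
    change ‖(2⁻¹ : ℝ) • (z + j z)‖ ≤ _
    have := norm_add_le z (j z)
    rw [norm_smul, Real.norm_of_nonneg (by norm_num)]
    linarith [hjn z]
  have hcon : ∀ (a : ℂ), ‖a‖ = 1 → ∀ (x : α × Bool) (u q : W) (η : ℝ), Con (K := K) x u q η ⊆
      Con x (reJ hjj (a • u) : W) (reJ hjj (a • q)) η := fun a ha x u q η g hg => by
    have e : lt g x • (reJ hjj (a • u) : W) = reJ hjj (a • lt g x • u) := by
      simp [reJ, smul_comm (lt g x), hK]
    change dist _ _ ≤ _
    rw [e, ← Subtype.dist_eq, dist_eq_norm, ← map_sub, ← smul_sub]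
    refine (hn1 _).trans ?_
    rw [norm_smul, ha, one_mul, ← dist_eq_norm]
    exact hg
  have hP : ∀ {U U' : Submodule ℝ (fixJ j)} {v : fixJ j}, U ≤ U' → v ∈ U' →
      p + finrank ℝ U' ≤ finrank ℂ W → ∀ {S : Set W},
      (∀ s ∈ S, ∃ s₁ ∈ U, ∃ s₂ ∈ U, s = s₁ + Complex.I • s₂) → ∀ {η : ℝ}, 0 < η →
      ∀ {E : Set (α → K)}, MeasurableSet E → ∀ {x}, Inv E x S → ∀ q,
      (Measure.pi fun _ : α => μ) (E ∩ Con x (v : W) q (2 * η)) ≤ ENNReal.ofReal (η ^ p) *
        wt p U v * (Measure.pi fun _ : α => μ) E := by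
    intro U U' v hU hv hp S hS η hη E hE x hi q
    refine measure_con_le_wt μ (fixJ j).subtypeₗᵢ hU hv (hd ▸ hp) ?_ hη hE hi q
    rintro a ha ha1 ⟨t, ht, ht0⟩ c hc hc1 θ
    have haU : a ∈ U' := by
      have := U'.smul_mem t⁻¹ (U'.sub_mem hv (hU ht))
      rwa [sub_sub_cancel, smul_smul, inv_mul_cancel₀ ht0, one_smul] at this
    have e1 : inner ℂ (a : W) (c : W) = 0 := by rw [hre, hc a haU]; simp
    have e3 := inner_eq_zero_symm.1 e1
    have h1 : ∀ (v : fixJ j) x, inner ℂ (v : W) (j x) = inner ℂ x (v : W) := fun v x => by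
      rw [← inner_conj_symm, hj, show j v = v from v.2, inner_conj_symm]
    obtain ⟨k, hk1, hk2⟩ := hR (rankOne ℂ (c : W) (a : W) - rankOne ℂ (a : W) (c : W))
      (fun x y => by
        simp [inner_sub_left, inner_sub_right, inner_smul_left, inner_smul_right, mul_comm])
      (by simp [trace_rankOne, e1, e3])
      (fun x => by simp [h1, show j a = a from a.2, show j c = c from c.2])
      a c (by simp [e3, show ‖(a : W)‖ = 1 from ha1]) (by simp [e1, show ‖(c : W)‖ = 1 from hc1]) θ
    have f1 : ∀ s ∈ U, k • (s : W) = s := fun s hs => hk2 s (by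
      simp [hre, -Submodule.coe_inner, real_inner_comm s, ha s hs, hc s (hU hs)])
    refine ⟨k, fun s hs => ?_, f1, hk1⟩
    obtain ⟨s₁, h₁, s₂, h₂, rfl⟩ := hS s hs
    rw [smul_add, smul_comm k, f1 _ h₁, f1 _ h₂]
  classical
  set U : Finset W → Submodule ℝ (fixJ j) := fun S => Submodule.span ℝ
    ((S.image (reJ hjj) ∪ S.image fun z => reJ hjj (-Complex.I • z) : Finset (fixJ j)) :
      Set (fixJ j)) with hU
  have hU1 : ∀ S, finrank ℝ (U S) ≤ 2 * S.card := fun S =>
    (finrank_span_finset_le_card _).trans ((Finset.card_union_le _ _).trans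
      ((add_le_add Finset.card_image_le Finset.card_image_le).trans (by omega)))
  have hU2 : ∀ (U : Submodule ℝ (fixJ j)) v, finrank ℝ (U ⊔ ℝ ∙ v :) ≤ finrank ℝ U + 1 :=
    fun U v => (Submodule.finrank_add_le_finrank_add_finrank _ _).trans
      (by gcongr; exact (finrank_span_le_card _).trans (by simp))
  have hU3 : ∀ S, ∀ s ∈ S, ∃ s₁ ∈ U S, ∃ s₂ ∈ U S, s = s₁ + Complex.I • (s₂ : W) := fun S s hs =>
    ⟨_, Submodule.subset_span (by simpa using Or.inl ⟨s, hs, rfl⟩), _,
      Submodule.subset_span (Finset.mem_union_right _ (Finset.mem_image_of_mem _ hs)),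
      ((reIm hjj).apply_symm_apply s).symm⟩
  set c := dyK (p + 1) p * (4 ^ finrank ℝ (fixJ j) * addHaar (Metric.closedBall (0 : fixJ j) 3))
  have hc : c ≠ ⊤ := ENNReal.mul_ne_top (dyK_ne_top (by linarith))
    (ENNReal.mul_ne_top (by finiteness) measure_closedBall_lt_top.ne)
  refine ⟨(addHaar.prod addHaar).map (reIm hjj), MapLinearEquiv.isAddHaarMeasure _ _,
    fun S u => wt p (U S) (reJ hjj u) * wt p (U S ⊔ ℝ ∙ reJ hjj u) (reJ hjj (-Complex.I • u)),
    8 ^ p * 8 ^ p + c * c, ENNReal.add_ne_top.2 ⟨by finiteness, ENNReal.mul_ne_top hc hc⟩,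
    ?_, ?_, ?_⟩
  · intro η hη S hS E x u q hE hi
    have h1 := hU1 S
    have h2 := hU2 (U S) (reJ hjj u)
    have h3 := hU2 (U S ⊔ ℝ ∙ reJ hjj u) (reJ hjj (-Complex.I • u))
    have h4 := hP (U := U S) (v := reJ hjj u) (le_sup_left (b := ℝ ∙ reJ hjj u))
      (Submodule.mem_sup_right (Submodule.mem_span_singleton_self _)) (by omega) (hU3 S) hη hE hi
      (reJ hjj q)
    have h5 := hP (U := U S ⊔ ℝ ∙ reJ hjj u) (v := reJ hjj (-Complex.I • u))
      (le_sup_left (b := ℝ ∙ reJ hjj (-Complex.I • u)))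
      (Submodule.mem_sup_right (Submodule.mem_span_singleton_self _)) (by omega)
      (S := insert (reJ hjj u : W) S) (by
        rintro s (rfl | hs)
        · exact ⟨_, Submodule.mem_sup_right (Submodule.mem_span_singleton_self _), 0,
            zero_mem _, by simp⟩
        · obtain ⟨s₁, h₁, s₂, h₂, h⟩ := hU3 S s hs
          exact ⟨s₁, Submodule.mem_sup_left h₁, s₂, Submodule.mem_sup_left h₂, h⟩) hη
      (hE.inter (isClosed_con x (reJ hjj u : W) (reJ hjj q) (2 * η)).measurableSet) (x := x)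
      ((hi.mono (Set.subset_insert _ _)).inter (inv_con x x _ (Set.mem_insert _ _)
        fun h => absurd (congrArg Prod.snd h) (by simp))) (reJ hjj (-Complex.I • q))
    refine (measure_mono fun g hg => ?_).trans (h5.trans ((mul_le_mul_right h4 _).trans_eq ?_))
    · exact ⟨⟨hg.1, by simpa using hcon 1 norm_one x u q _ hg.2⟩, hcon _ (by simp) x u q _ hg.2⟩
    · rw [two_mul, pow_add, ENNReal.ofReal_mul (by positivity)]; ring
  · intro S hS
    have h1 := hU1 S
    rw [← lintegral_indicator measurableSet_closedBall]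
    refine le_add_left ((lintegral_map_le _ _).trans ((lintegral_prod_le _).trans ?_))
    refine le_trans (lintegral_mono fun v => ?_) ((lintegral_mul_const' c
      ((Metric.closedBall 0 2).indicator (wt p (U S))) hc).trans_le (mul_le_mul_left ?_ _))
    · have h2 := hU2 (U S) v
      have h3 := lintegral_wt_le addHaar hp (U S ⊔ ℝ ∙ v) (by omega)
      rw [← lintegral_indicator measurableSet_closedBall] at h3
      refine le_trans ?_ (mul_le_mul_right h3 _)
      rw [← lintegral_const_mul _ (Measurable.indicator (by unfold wt; fun_prop)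
        measurableSet_closedBall)]
      refine lintegral_mono fun v' => Set.indicator_apply_le' (fun h => ?_) fun _ => zero_le
      have e := (reIm hjj).symm_apply_apply (v, v')
      have e1 : reJ hjj (reIm hjj (v, v')) = v := congrArg Prod.fst e
      have e2 : reJ hjj (-Complex.I • reIm hjj (v, v')) = v' := congrArg Prod.snd e
      have f1 := hn1 (reIm hjj (v, v'))
      have f2 := hn1 (-Complex.I • reIm hjj (v, v'))
      rw [mem_closedBall_zero_iff] at h
      rw [e2, norm_smul, norm_neg, Complex.norm_I, one_mul] at f2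
      rw [e1] at f1
      beta_reduce
      rw [e1, e2, Set.indicator_of_mem (mem_closedBall_zero_iff.2 (f1.trans h)),
        Set.indicator_of_mem (mem_closedBall_zero_iff.2 (f2.trans h))]
    · rw [lintegral_indicator measurableSet_closedBall]
      exact lintegral_wt_le _ hp _ (by omega)
  · intro S z hz hz1 hz2
    obtain ⟨⟨v, v'⟩, rfl⟩ := (reIm hjj).surjective z
    have e := (reIm hjj).symm_apply_apply (v, v')
    have e1 : reJ hjj (reIm hjj (v, v')) = v := congrArg Prod.fst e
    have e2 : reJ hjj (-Complex.I • reIm hjj (v, v')) = v' := congrArg Prod.snd e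
    have e3 : reIm hjj (v, v') = v + Complex.I • v' := rfl
    beta_reduce
    rw [e1, e2]
    rw [e3] at hz hz1 hz2
    have f1 : ∀ s ∈ U S, inner ℝ s v = 0 ∧ inner ℝ s v' = 0 := fun s hs => by
      have h : (s : W) ∈ (cU j S).restrictScalars ℝ := by
        refine (Submodule.span_le (p := ((cU j S).restrictScalars ℝ).comap (fixJ j).subtype)).2
          (fun s hs => ?_) hs
        have key : ∀ z ∈ cU j S, (reJ hjj z : W) ∈ (cU j S).restrictScalars ℝ := fun z hz =>
          Submodule.smul_mem _ _ (add_mem hz (map_mem_cU (ε := 1) (by simpa using hjj) hz))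
        rcases Finset.mem_union.1 hs with h | h <;> obtain ⟨y, hy, rfl⟩ := Finset.mem_image.1 h
        exacts [key _ (mem_cU j hy), key _ (Submodule.smul_mem _ _ (mem_cU j hy))]
      have h' := hz _ h
      rw [inner_add_right, inner_smul_right, hre, hre] at h'
      simpa using And.intro (congrArg Complex.re h') (congrArg Complex.im h')
    have f2 := inner_self_eq_norm_sq_to_K (𝕜 := ℂ) ((v : W) + Complex.I • v')
    rw [map_add, LinearMap.map_smulₛₗ, show j v = v from v.2, show j v' = v' from v'.2] at hz2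
    simp only [inner_add_left, inner_add_right, inner_smul_left, inner_smul_right, hre, hz1,
      real_inner_self_eq_norm_sq, real_inner_comm v] at hz2 f2
    have f3 := congrArg Complex.re hz2
    have f4 := congrArg Complex.im hz2
    have f5 := congrArg Complex.re f2
    simp [← Complex.ofReal_pow] at f3 f4 f5
    refine le_add_right (mul_le_mul' (wt_le _ (fun s hs => (f1 s hs).1) ?_) (wt_le _ ?_ ?_))
    · change _ ≤ ‖(v : W)‖
      nlinarith [norm_nonneg (v : W)]
    · rw [← Submodule.inf_orthogonal]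
      exact ⟨fun s hs => (f1 s hs).2, Submodule.mem_orthogonal_singleton_iff_inner_right.2 f4⟩
    · change _ ≤ ‖(v' : W)‖
      nlinarith [norm_nonneg (v' : W)]

end

end Pool.Agent.Lib.MP_775e5c_al
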